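import Pool.Agent.P.MP_8ecd01_al.R4.IfaceA

/-! Step CB of the top-dimensional centre theorem in rank four. -/

namespace Pool.Agent.P.MP_8ecd01_al.R4

open Matrix Module

theorem p_CB :
    S_CB := by
  intro n R B _ c d0 w v y h0 ⟨d1, u, h1, hy⟩
  subst hy
  obtain ⟨t, ht, hc⟩ := exists_large R w v
  obtain ⟨s, hs, hc'⟩ := exists_large R (-w) u
  obtain ⟨e, z, he, hz⟩ := cb0 d0 (v + t • w) (mk d1 (u + s • -w))
  obtain ⟨g, hg, rfl⟩ := typ hz
  have e1 : mk e w = mk c w := (mk_comp he hc).trans (h0 w (Blk.refl w))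
  have e2 : mk e (g (-w)) = mk c (-w) :=
    (mk_comp (d := cw e hg) hz.symm hc').trans (h1 _ (Blk.refl w).neg)
  have e3 : g (-w) = -w := eq_neg_of_add (b := e) (by
    rw [e1, e2, add_mk, add_neg_cancel, mk_zero])
  have hA : Apt c w e := apt_of e1 (by rwa [e3] at e2)
  refine ⟨e, g (u + s • -w) + s • w, hA, ?_, ?_⟩
  · have h : ∀ d : Ch B, mk d v = add (mk d (v + t • w)) (mk d (t • -w)) := fun d => by
      rw [add_mk, smul_neg, add_neg_cancel_right]
    rw [h e, h d0, he, hA _ ((Blk.refl w).neg.smul t), h0 _ ((Blk.refl w).neg.smul t)]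
  · rw [← add_mk, ← hz, hA _ ((Blk.refl w).smul s), ← h1 _ ((Blk.refl w).smul s), add_mk,
      smul_neg, neg_add_cancel_right]

end Pool.Agent.P.MP_8ecd01_al.R4
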