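import Pool.Agent.P.MP_8ecd01_al.R4.IfaceC

/-! Step CERF of the top-dimensional centre theorem in rank four. -/

namespace Pool.Agent.P.MP_8ecd01_al.R4

open Matrix Module

theorem p_CERF :
    S_CERF :=
  ⟨by decide +kernel, by decide +kernel⟩

end Pool.Agent.P.MP_8ecd01_al.R4
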