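import Pool.Agent.P.MP_8ecd01_al.R4.IfaceC

/-! Step CERT of the top-dimensional centre theorem in rank four. -/

namespace Pool.Agent.P.MP_8ecd01_al.R4

open Matrix Module

theorem cert_all : (others.all fun p => p.1.ok && p.1.chkAll p.1.roots p.2 &&
    p.2.all fun st => p.1.chkC st.2) = true := by
  decide +kernel

theorem p_CERT :
    S_CERT := by
  intro x hx
  have h := List.all_eq_true.1 cert_all x hx
  simp only [Bool.and_eq_true, List.all_eq_true] at h
  exact ⟨h.1.1, h.1.2, h.2⟩

end Pool.Agent.P.MP_8ecd01_al.R4
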