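import Pool.Agent.P.MP_8ecd01_al.R4.IfaceC

/-! Step CLA of the top-dimensional centre theorem in rank four. -/

namespace Pool.Agent.P.MP_8ecd01_al.R4

open Matrix Module

theorem cla_opts {x y : ℤ} (hx : x ≤ 0) (hy : y ≤ 0) (h0 : x = 0 ↔ y = 0) (h : x * y < 4) :
    (x, y) ∈ opts := by
  by_cases e : x = 0
  · rw [e, h0.1 e]
    decide
  · have e' : y ≠ 0 := fun e' => e (h0.2 e')
    have h1 : x ≤ -1 := by omega
    have h2 : y ≤ -1 := by omega
    have h3 : -3 ≤ x := by nlinarith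
    have h4 : -3 ≤ y := by nlinarith
    interval_cases x <;> interval_cases y <;> first | decide | exact absurd h (by decide)

theorem cla_pair {R : RootSystem 4} (b : Base R) {N : Fin 4 → Fin 4 → ℤ}
    (hN : ∀ i j, 2 * (b.a i ⬝ᵥ b.a j) = N i j * (b.a i ⬝ᵥ b.a i)) {i j : Fin 4} (h : i ≠ j) :
    (N i j, N j i) ∈ opts := by
  have pi := dot_self_pos (b.mem i).ne
  have pj := dot_self_pos (b.mem j).ne
  have c := b.a_dot_a h
  have e1 := hN i j
  have e2 := hN j i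
  rw [dotProduct_comm (b.a j)] at e2
  have lt : (b.a i ⬝ᵥ b.a j) ^ 2 < (b.a i ⬝ᵥ b.a i) * (b.a j ⬝ᵥ b.a j) := by
    have hne : (b.a j ⬝ᵥ b.a j) • b.a i - (b.a i ⬝ᵥ b.a j) • b.a j ≠ 0 := fun e => by
      have := congrArg (· ⬝ᵥ b.ω i) e
      simp only [sub_dotProduct, smul_dotProduct, b.dual, if_true, if_neg h.symm, zero_dotProduct,
        smul_eq_mul] at this
      linarith
    have := dot_self_pos hne
    simp only [sub_dotProduct, dotProduct_sub, smul_dotProduct, dotProduct_smul, smul_eq_mul,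
      dotProduct_comm (b.a j) (b.a i)] at this
    refine lt_of_mul_lt_mul_left (a := b.a j ⬝ᵥ b.a j) ?_ pj.le
    linarith
  refine cla_opts ?_ ?_ ⟨fun e => ?_, fun e => ?_⟩ ?_
  · exact_mod_cast (nonpos_of_mul_nonpos_left (by linarith) pi : (N i j : ℝ) ≤ 0)
  · exact_mod_cast (nonpos_of_mul_nonpos_left (by linarith) pj : (N j i : ℝ) ≤ 0)
  · rw [e, Int.cast_zero, zero_mul] at e1
    exact_mod_cast (mul_eq_zero.1 (e2.symm.trans e1)).resolve_right pj.ne'
  · rw [e, Int.cast_zero, zero_mul] at e2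
    exact_mod_cast (mul_eq_zero.1 (e1.symm.trans e2)).resolve_right pi.ne'
  · have e3 : ((N i j : ℝ) * N j i) * ((b.a i ⬝ᵥ b.a i) * (b.a j ⬝ᵥ b.a j)) <
        4 * ((b.a i ⬝ᵥ b.a i) * (b.a j ⬝ᵥ b.a j)) := by
      rw [mul_mul_mul_comm, ← e1, ← e2]
      linarith
    exact_mod_cast lt_of_mul_lt_mul_right e3 (mul_pos pi pj).le

theorem cla_kill {R : RootSystem 4} (b : Base R) {N : Q × Q × Q × Q}
    (hN : ∀ i j, 2 * (b.a i ⬝ᵥ b.a j) = (get4 (get4 N i) j : ℤ) * (b.a i ⬝ᵥ b.a i)) {m : Q}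
    (h0 : ∀ i, 0 ≤ get4 m i) (hk : killq N m = true) (i : Fin 4) : get4 m i = 0 := by
  have h1 : ∀ i, get4 m i = 0 ∨ dotq (get4 N i) m ≤ 0 := fun i => by
    simp only [killq, Bool.and_eq_true, Bool.or_eq_true, decide_eq_true_eq] at hk
    fin_cases i
    exacts [hk.1.1.1, hk.1.1.2, hk.1.2, hk.2]
  have h2 : ∀ i, 2 * (b.a i ⬝ᵥ vec b m) = (dotq (get4 N i) m : ℤ) * (b.a i ⬝ᵥ b.a i) := fun i => by
    have : dotq (get4 N i) m = ∑ j, get4 (get4 N i) j * get4 m j := by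
      rw [Fin.sum_univ_four]
      rfl
    rw [this, vec, dotProduct_sum, Finset.mul_sum, Int.cast_sum, Finset.sum_mul]
    refine Finset.sum_congr rfl fun j _ => ?_
    rw [dotProduct_smul, smul_eq_mul, mul_left_comm, hN, Int.cast_mul]
    ring
  have h3 : vec b m ⬝ᵥ vec b m ≤ 0 := by
    nth_rewrite 1 [vec]
    rw [sum_dotProduct]
    refine Finset.sum_nonpos fun j _ => ?_
    rw [smul_dotProduct, smul_eq_mul]
    rcases h1 j with e | e
    · rw [e, Int.cast_zero, zero_mul]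
    · refine mul_nonpos_of_nonneg_of_nonpos (by exact_mod_cast h0 j) ?_
      have := mul_nonpos_of_nonpos_of_nonneg (by exact_mod_cast e : ((dotq (get4 N j) m : ℤ) : ℝ) ≤ 0)
        (dot_self_nonneg (b.a j))
      linarith [h2 j]
  have h4 := congrArg (· ⬝ᵥ b.ω i)
    (dotProduct_self_eq_zero.1 (le_antisymm h3 (dot_self_nonneg _)))
  simp only [vec, sum_dotProduct, smul_dotProduct, b.dual, smul_eq_mul, mul_ite, mul_one, mul_zero,
    Finset.sum_ite_eq', Finset.mem_univ, if_true, zero_dotProduct] at h4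
  exact_mod_cast h4

theorem p_CLA (hCLQ : S_CLQ) :
    S_CLA := by
  intro R b hb
  choose N hN using fun i j => R.cartan _ (hb i) _ (hb j)
  have hd : ∀ i, N i i = 2 := fun i => by
    exact_mod_cast (mul_right_cancel₀ (dot_self_pos (b.mem i).ne).ne' (hN i i)).symm
  have hm : ∀ i j, get4 (get4 (mat (N 0 1, N 1 0) (N 0 2, N 2 0) (N 1 2, N 2 1) (N 0 3, N 3 0)
      (N 1 3, N 3 1) (N 2 3, N 3 2)) i) j = N i j := by
    intro i j
    fin_cases i <;> fin_cases j <;> first | rfl | exact (hd _).symm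
  rcases hCLQ _ (cla_pair b hN (by decide : (0 : Fin 4) ≠ 1))
    _ (cla_pair b hN (by decide : (0 : Fin 4) ≠ 2)) _ (cla_pair b hN (by decide : (1 : Fin 4) ≠ 2))
    _ (cla_pair b hN (by decide : (0 : Fin 4) ≠ 3)) _ (cla_pair b hN (by decide : (1 : Fin 4) ≠ 3))
    _ (cla_pair b hN (by decide : (2 : Fin 4) ≠ 3)) with ⟨m, h1, h2⟩ | ⟨σ, h1, x, hx, e⟩
  · obtain ⟨h3, i, h4⟩ :=
      (by decide +kernel : ∀ m ∈ kills, (∀ i, 0 ≤ get4 m i) ∧ ∃ i, get4 m i ≠ 0) m h1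
    exact absurd (cla_kill b (fun i j => by rw [hm, hN]) h3 h2 i) h4
  · have h2 := (by decide +kernel : ∀ σ ∈ perms, ∀ i j, get4 σ i = get4 σ j → i = j) σ h1
    refine ⟨Equiv.ofBijective (get4 σ) (Finite.injective_iff_bijective.1 h2), x, hx, fun i j => ?_⟩
    rw [Equiv.ofBijective_apply, Equiv.ofBijective_apply, hN, ← hm, Model.row, ← e]
    fin_cases i <;> fin_cases j <;> rfl

end Pool.Agent.P.MP_8ecd01_al.R4
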