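import Pool.Agent.P.MP_8ecd01_al.R4.Basic

/-!
Statements on finite reflection groups and on apartments.
-/

namespace Pool.Agent.P.MP_8ecd01_al.R4

open Matrix Module

-- deps:
def S_BASE : Prop := ∀ {n : ℕ} (R : RootSystem n), Nonempty (Base R)

-- deps:
def S_GEN : Prop := ∀ {n : ℕ} {R : RootSystem n} (b : Base R)
  (P : ((Fin n → ℝ) ≃ₗ[ℝ] (Fin n → ℝ)) → Prop), P 1 →
  (∀ g ∈ R.W, ∀ i, P g → P (g * rf (b.a i))) → ∀ g ∈ R.W, P g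

-- deps:
def S_WFIN : Prop := ∀ {n : ℕ} (R : RootSystem n),
  (R.W : Set ((Fin n → ℝ) ≃ₗ[ℝ] (Fin n → ℝ))).Finite

-- deps: WFIN
def S_DOM : Prop := ∀ {n : ℕ} {R : RootSystem n} (b : Base R) (v : Fin n → ℝ),
  ∃ g ∈ R.W, b.Dom (g v)

-- deps: GEN
def S_FD : Prop := ∀ {n : ℕ} {R : RootSystem n} (b : Base R), ∀ g ∈ R.W, ∀ v : Fin n → ℝ,
  b.Dom v → b.Dom (g v) → g v = v

-- deps: BASE WFIN DOM FD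
def S_COX : Prop := ∀ {n : ℕ} (R : RootSystem n), COX R

-- deps:
def S_CB : Prop := ∀ {n : ℕ} {R : RootSystem n} (B : Building R) [COX R], A_CB B

-- deps:
def S_LOC : Prop := ∀ {n : ℕ} {R : RootSystem n} (B : Building R) [COX R] (b : Base R)
  (c d e : Ch B) (i : Fin n) (ζ ξ : Fin n → ℝ), (∀ φ, b.Dom φ → mk d φ = mk c φ) →
  (∀ φ, b.Dom φ → mk e φ = mk c (rf (b.a i) φ)) → mk d ζ = mk e ξ →
  ∃ t : ℝ, 0 ≤ t ∧ rf (b.a i) ξ = ζ + t • b.a i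

-- deps: BASE DOM LOC
def S_RET : Prop := ∀ {n : ℕ} {R : RootSystem n} (B : Building R) [COX R], A_RET B

-- deps: CB
def S_UNIP : Prop := ∀ {n : ℕ} {R : RootSystem n} (B : Building R) [COX R], A_UNIP B

-- deps:
def S_RP : Prop := ∀ {n : ℕ} (R : RootSystem n) (v u : Fin n → ℝ), RD R v → RD R u →
  v ⬝ᵥ v = 1 → u ⬝ᵥ u = 1 → v ⬝ᵥ u < 0 → u ≠ -v →
  ((2 * (v ⬝ᵥ u)) ^ 2 = 1 ∨ (2 * (v ⬝ᵥ u)) ^ 2 = 2 ∨ (2 * (v ⬝ᵥ u)) ^ 2 = 3) ∧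
    ∀ g ∈ R.W, ∀ h ∈ R.W, v ⬝ᵥ u < g v ⬝ᵥ h u → 0 ≤ g v ⬝ᵥ h u

-- deps: DOM FD
def S_TYU : Prop := ∀ {n : ℕ} {R : RootSystem n} (b : Base R),
  (∀ i j v, b.Ty i v → b.Ty j v → i = j) ∧
  (∀ v : Fin n → ℝ, b.Dom v → v ⬝ᵥ v = 1 → (∀ φ, Comono R v φ → ∃ s : ℝ, φ = s • v) →
    ∃ i, v = b.u i) ∧
  (∀ i φ, Comono R (b.u i) φ → ∃ s : ℝ, 0 ≤ s ∧ φ = s • b.u i) ∧
  ∀ (w υ : Fin n → ℝ) (i : Fin n), b.Dom w → b.Ty i υ → Compat R w υ →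
    ∃ g ∈ R.W, g w = w ∧ υ = g (b.u i)

end Pool.Agent.P.MP_8ecd01_al.R4
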