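import Pool.Agent.P.MP_8ecd01_al.R4.IfaceC
import Pool.Agent.P.MP_8ecd01_al.R4.IfaceA

/-! Step CLASS of the top-dimensional centre theorem in rank four. -/

namespace Pool.Agent.P.MP_8ecd01_al.R4

open Matrix Module

theorem class_scale {n : ℕ} {R : RootSystem n} (b : Base R) (σ : Equiv.Perm (Fin n))
    (l : Fin n → ℝ) (hl : ∀ i, 0 < l i) : ∃ c : Base R, ∀ i, c.a i = l i • b.a (σ i) := by
  refine ⟨⟨fun i => l i • b.a (σ i), fun i => (l i)⁻¹ • b.ω (σ i),
    fun i => (b.mem _).smul (hl i), fun i j => ?_, fun α hα => ?_⟩, fun _ => rfl⟩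
  · rw [smul_dotProduct, dotProduct_smul, b.dual]
    by_cases h : i = j
    · subst h
      simp [(hl i).ne']
    · simp [h]
  · refine (b.pos α hα).imp (fun h i => ?_) fun h i => ?_
    · rw [dotProduct_smul]
      exact mul_nonneg (inv_pos.2 (hl i)).le (h _)
    · rw [dotProduct_smul]
      exact mul_nonpos_of_nonneg_of_nonpos (inv_pos.2 (hl i)).le (h _)

theorem class_ok {M : Model} (h : M.ok = true) (i : Fin 4) : 0 < get4 M.d i ∧
    ∀ j, get4 M.d i * get4 (M.row i) j = get4 M.d j * get4 (M.row j) i := by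
  have hall : ∀ i : Fin 4, i ∈ all4 := fun i => by fin_cases i <;> simp [all4]
  simp only [Model.ok, List.all_eq_true, Bool.and_eq_true, decide_eq_true_eq] at h
  exact ⟨(h i (hall i)).1.1.1, fun j => ((h i (hall i)).2 j (hall j)).1⟩

theorem class_alg {A B d e N P x : ℝ} (hA : 0 < A) (hB : 0 < B) (hd : 0 < d)
    (h1 : 2 * x = N * A) (h2 : 2 * x = P * B) (h3 : d * N = e * P) :
    √(2 * d / A) * (√(2 * e / B) * x) = d * N := by
  by_cases h : N = 0
  · have : x = 0 := by rw [h] at h1; linarith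
    simp [this, h]
  · have h4 : e * A = d * B := mul_left_cancel₀ h (by linear_combination -B * h3 - e * h1 + e * h2)
    have h5 : 2 * e / B = 2 * d / A := by
      field_simp
      linarith
    have h6 : x = N * A / 2 := by linarith
    rw [h5, ← mul_assoc, Real.mul_self_sqrt (by positivity), h6]
    field_simp

theorem p_CLASS (hBASE : S_BASE) (hCLA : S_CLA) (hCERT : S_CERT) (hCERF : S_CERF) :
    S_CLASS := by
  intro R
  obtain ⟨b0⟩ := hBASE R
  choose s hs hs' using b0.mem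
  obtain ⟨b, hb⟩ := class_scale b0 1 s hs
  obtain ⟨σ, x, hx, h⟩ := hCLA R b fun i => by rw [hb]; exact hs' i
  have hok : x.1.ok = true := by
    rcases List.mem_cons.1 hx with rfl | hx
    · exact hCERF.1
    · exact (hCERT x hx).1
  have hA : ∀ i, 0 < b.a i ⬝ᵥ b.a i := fun i => dot_self_pos (b.mem i).ne
  have hd : ∀ i, (0 : ℝ) < (get4 x.1.d i : ℤ) := fun i => by exact_mod_cast (class_ok hok i).1
  obtain ⟨c, hc⟩ := class_scale b σ
    (fun i => √(2 * ((get4 x.1.d i : ℤ) : ℝ) / (b.a (σ i) ⬝ᵥ b.a (σ i))))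
    fun i => Real.sqrt_pos.2 (div_pos (mul_pos two_pos (hd i)) (hA _))
  refine ⟨c, x, hx, fun i j => ?_⟩
  rw [hc, hc, smul_dotProduct, dotProduct_smul, smul_eq_mul, smul_eq_mul, Int.cast_mul]
  refine class_alg (hA _) (hA _) (hd i) (h i j) (by rw [dotProduct_comm]; exact h j i) ?_
  exact_mod_cast (class_ok hok i).2 j

end Pool.Agent.P.MP_8ecd01_al.R4
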