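import Pool.Agent.P.MP_8ecd01_al.R4.IfaceC

/-! Step CLQ of the top-dimensional centre theorem in rank four. -/

namespace Pool.Agent.P.MP_8ecd01_al.R4

open Matrix Module

def clq_k3 : List Q := kills.filter fun m => decide (m.2.2.2 = 0)

def clq_k2 : List Q := kills.filter fun m => decide (m.2.2.1 = 0)

def clq_fin (N : Q × Q × Q × Q) : Bool := kills.any (killq N) ||
  perms.any fun σ => decide (permq σ N ∈ ((mF4, sF4) :: others).map fun p => p.1.N)

theorem clq_all : (opts.all fun p => opts.all fun q => opts.all fun r =>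
    clq_k3.any (killq (mat p q r (0, 0) (0, 0) (0, 0))) || opts.all fun s => opts.all fun t =>
      clq_k2.any (killq (mat p (0, 0) (0, 0) s t (0, 0))) ||
        opts.all fun u => clq_fin (mat p q r s t u)) = true := by
  decide +kernel

theorem p_CLQ :
    S_CLQ := by
  intro p hp q hq r hr s hs t ht u hu
  have h := clq_all
  simp only [List.all_eq_true, Bool.or_eq_true, List.any_eq_true] at h
  rcases h p hp q hq r hr with ⟨m, h1, h2⟩ | h
  · obtain ⟨h3, h4⟩ := List.mem_filter.1 h1
    refine .inl ⟨m, h3, ?_⟩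
    have h5 : m.2.2.2 = 0 := by simpa using h4
    simpa [killq, mat, dotq, h5] using h2
  rcases h s hs t ht with ⟨m, h1, h2⟩ | h
  · obtain ⟨h3, h4⟩ := List.mem_filter.1 h1
    refine .inl ⟨m, h3, ?_⟩
    have h5 : m.2.2.1 = 0 := by simpa using h4
    simpa [killq, mat, dotq, h5] using h2
  have h1 := h u hu
  simp only [clq_fin, Bool.or_eq_true, List.any_eq_true, decide_eq_true_eq, List.mem_map] at h1
  exact h1.imp id fun ⟨σ, h2, x, h3, h4⟩ => ⟨σ, h2, x, h3, h4.symm⟩

end Pool.Agent.P.MP_8ecd01_al.R4
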