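import Pool.Agent.P.MP_8ecd01_al.R4.IfaceB

/-! Step CONJ of the top-dimensional centre theorem in rank four. -/

namespace Pool.Agent.P.MP_8ecd01_al.R4

open Matrix Module

open Classical in
theorem conj_pos {n : ℕ} {R : RootSystem n} (b : Base R) : ∀ (k : ℕ), ∀ α ∈ R.Φ,
    (R.Φ.filter fun β => b.ρ ⬝ᵥ β < b.ρ ⬝ᵥ α).card = k → (∀ i, 0 ≤ α ⬝ᵥ b.ω i) →
    ∃ g ∈ R.W, ∃ (i : Fin n) (s : ℝ), 0 < s ∧ α = g (s • b.a i) := by
  intro k
  induction k using Nat.strong_induction_on with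
  | _ k ih =>
  intro α hα hk hp
  have h0 := dot_self_pos (root_ne hα)
  rw [b.dot_eq] at h0
  obtain ⟨i, -, hi⟩ := Finset.exists_lt_of_sum_lt (s := Finset.univ) (f := fun _ => (0 : ℝ))
    (g := fun i => (α ⬝ᵥ b.ω i) * (b.a i ⬝ᵥ α)) (by simpa using h0)
  have h1 : 0 < α ⬝ᵥ b.ω i := (hp i).lt_of_ne fun e => by
    rw [← e, zero_mul] at hi
    exact lt_irrefl _ hi
  have h2 : 0 < b.a i ⬝ᵥ α := (mul_pos_iff_of_pos_left h1).1 hi
  by_cases e : ∃ j, j ≠ i ∧ 0 < α ⬝ᵥ b.ω j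
  · obtain ⟨j, hj, hj'⟩ := e
    have hr := W_root (b.mem i).rf_mem hα
    have h3 : b.ρ ⬝ᵥ rf (b.a i) α < b.ρ ⬝ᵥ α := by
      have h4 := dot_self_pos (b.mem i).ne
      have h5 := b.ρ_pos i
      rw [rf_apply, dot_reflect, dotProduct_comm b.ρ (b.a i), sub_lt_self_iff]
      positivity
    obtain ⟨g, hg, l, s, hs, e⟩ := ih _ (by
      rw [← hk]
      refine Finset.card_lt_card ⟨fun β hβ => ?_, fun h => ?_⟩
      · rw [Finset.mem_filter] at hβ ⊢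
        exact ⟨hβ.1, hβ.2.trans h3⟩
      · exact lt_irrefl _ (Finset.mem_filter.1 (h (Finset.mem_filter.2 ⟨hr, h3⟩))).2)
      _ hr rfl (b.perm hα hj hj')
    refine ⟨rf (b.a i) * g, mul_mem (b.mem i).rf_mem hg, l, s, hs, ?_⟩
    rw [LinearEquiv.mul_apply, ← e, rf_apply, rf_apply, reflect_reflect]
  · refine ⟨1, one_mem _, i, α ⬝ᵥ b.ω i, h1, ?_⟩
    conv_lhs => rw [b.expand_a α]
    refine Finset.sum_eq_single i (fun j _ hj => ?_) (by simp)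
    rw [le_antisymm (not_lt.1 fun h => e ⟨j, hj, h⟩) (hp j), zero_smul]

theorem conj_root {n : ℕ} {R : RootSystem n} (b : Base R) {α : Fin n → ℝ} (hα : α ∈ R.Φ) :
    ∃ g ∈ R.W, ∃ (i : Fin n) (s : ℝ), 0 < s ∧ α = g (s • b.a i) := by
  rcases b.pos α hα with h | h
  · exact conj_pos b _ α hα rfl h
  · obtain ⟨g, hg, i, s, hs, e⟩ := conj_pos b _ (-α) (root_neg hα) rfl fun i => by
      rw [neg_dotProduct]
      linarith [h i]
    refine ⟨g * rf (b.a i), mul_mem hg (b.mem i).rf_mem, i, s, hs, ?_⟩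
    rw [LinearEquiv.mul_apply, map_smul, rf_apply, reflect_self, smul_neg, map_neg, ← e, neg_neg]

theorem p_CONJ :
    S_CONJ := by
  rintro n R b v ⟨t, ht, hv⟩
  obtain ⟨g, hg, i, s, hs, e⟩ := conj_root b hv
  refine ⟨g, hg, i, t⁻¹ * s, by positivity, ?_⟩
  rw [mul_smul, map_smul, ← e, smul_smul, inv_mul_cancel₀ ht.ne', one_smul]

end Pool.Agent.P.MP_8ecd01_al.R4
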