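import Pool.Agent.P.MP_8ecd01_al.R4.IfaceA

/-! Step COX of the top-dimensional centre theorem in rank four. -/

namespace Pool.Agent.P.MP_8ecd01_al.R4

open Matrix Module

theorem p_COX (hBASE : S_BASE) (hWFIN : S_WFIN) (hDOM : S_DOM) (hFD : S_FD) :
    S_COX := by
  intro n R
  obtain ⟨b⟩ := hBASE R
  refine ⟨fun g hg w φ e hc => ?_, hWFIN R⟩
  obtain ⟨h, hh, hd⟩ := hDOM b w
  have h1 : b.Dom (h φ) := hd.of_comono (hc.map hh)
  have h2 : b.Dom (h (g φ)) := hd.of_comono (Comono.map (e ▸ hc.map hg) hh)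
  have h3 : (h * g * h⁻¹) (h φ) = h (g φ) := by
    rw [LinearEquiv.mul_apply, LinearEquiv.mul_apply, inv_apply_self]
  exact h.injective (h3.symm.trans
    (hFD b _ (mul_mem (mul_mem hh hg) (inv_mem hh)) _ h1 (h3 ▸ h2)))

end Pool.Agent.P.MP_8ecd01_al.R4
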