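import Pool.Agent.P.MP_8ecd01_al.R4.IfaceB
import Pool.Agent.P.MP_8ecd01_al.R4.IfaceA

/-! Step DL of the top-dimensional centre theorem in rank four. -/

namespace Pool.Agent.P.MP_8ecd01_al.R4

open Matrix Module

theorem dl_perm {n : ℕ} {s t : Equiv.Perm (Fin n)} {k : Fin n} (h : ∀ i, i ≠ k → s i = t i) :
    s = t := by
  refine Equiv.ext fun i => by_contra fun e => ?_
  obtain rfl : i = k := by_contra fun e' => e (h i e')
  have h1 : t.symm (s i) ≠ i := fun e' => e (by rw [← e', t.apply_symm_apply, e'])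
  exact h1 (s.injective (by rw [h _ h1, t.apply_symm_apply]))

theorem p_DL (hGEN : S_GEN) (hDOM : S_DOM) (hFD : S_FD) (hTYU : S_TYU) (hDLA : S_DLA) :
    S_DL := by
  intro n R B _ _ b G K hG g hg
  choose d σ h using hDLA B b G K hG g hg
  have h0 : ∀ c i, g (mk c (b.u i)) = mk (d c) (b.u (σ c i)) := fun c i => by
    have := h c (Pi.single i 1) fun j => by
      rw [Pi.single_apply]
      split_ifs <;> norm_num
    simpa [Pi.single_apply] using this
  have h1 : ∀ c c' i, mk c (b.u i) = mk c' (b.u i) → σ c i = σ c' i := fun c c' i e =>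
    (hTYU b).1 _ _ _ (typ ((h0 c i).symm.trans (e ▸ h0 c' i))) (b.ty_u _)
  have h2 : ∀ w ∈ R.W, ∀ (hw : w ∈ R.W) (c : Ch B), σ (cw c hw) = σ c :=
    hGEN b (fun w => ∀ (hw : w ∈ R.W) (c : Ch B), σ (cw c hw) = σ c) (fun _ _ => rfl)
      fun w hw k ih _ c => (dl_perm (k := k) fun i e => h1 (cw (cw c hw) (b.mem k).rf_mem) _ i
        (by rw [mk_cw, rf_apply, reflect_of_dot (b.a_dot_u_ne e.symm)])).trans (ih hw c)
  have h3 : ∀ c c', mk c b.ρ = mk c' b.ρ → σ c = σ c' := fun c c' e =>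
    Equiv.ext fun i => h1 c c' i (mk_comp e (b.comono_ρ.2 (b.dom_u i)))
  refine ⟨σ (std B), fun c => ⟨d c, ?_⟩⟩
  obtain ⟨e, u, e1, e2⟩ := cb0 (std B) b.ρ (mk c b.ρ)
  obtain ⟨w, hw, rfl⟩ := typ e2
  rw [← h3 _ _ e1, ← h2 w hw hw e, ← h3 c (cw e hw) e2]
  exact h c

end Pool.Agent.P.MP_8ecd01_al.R4
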