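import Pool.Agent.P.MP_8ecd01_al.R4.IfaceB
import Pool.Agent.P.MP_8ecd01_al.R4.IfaceA

/-! Step DLA of the top-dimensional centre theorem in rank four. -/

namespace Pool.Agent.P.MP_8ecd01_al.R4

open Matrix Module

theorem dla_ray {n : ℕ} {R : RootSystem n} {B : Building R} [COX R] {g : B.X → B.X}
    (hs : ∀ r : ℝ, 0 ≤ r → ∀ x, g (smul r x) = smul r (g x)) {c d : Ch B} {u v : Fin n → ℝ}
    (hu : ∀ φ, Comono R u φ → ∃ s : ℝ, 0 ≤ s ∧ φ = s • u) (e : g (mk c u) = mk d v) {y : B.X}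
    (hy : g '' Sx (mk c u) = Sx y) : ∀ φ, Comono R v φ → ∃ s : ℝ, φ = s • v := by
  have h1 : ∀ z ∈ Sx y, ∃ s : ℝ, z = mk d (s • v) := by
    intro z hz
    rw [← hy] at hz
    obtain ⟨x, hx, rfl⟩ := hz
    obtain ⟨φ, h, rfl⟩ := mem_Sx.1 hx
    obtain ⟨s, h0, rfl⟩ := hu φ h
    exact ⟨s, by rw [← smul_mk _ _ h0, hs s h0, e, smul_mk _ _ h0]⟩
  obtain ⟨s, rfl⟩ := h1 y (self_mem_Sx y)
  have h2 : mk d v ∈ Sx (mk d (s • v)) := hy ▸ ⟨_, self_mem_Sx _, e⟩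
  obtain ⟨ψ, h3, h4⟩ := mem_Sx.1 h2
  rw [← mk_inj h4] at h3
  intro φ h
  obtain ⟨s', h5⟩ := h1 _ (mem_Sx.2 ⟨φ, h3.trans h, rfl⟩)
  exact ⟨s', mk_inj h5⟩

theorem p_DLA (hSYM : S_SYM) (hDOM : S_DOM) (hTYU : S_TYU) :
    S_DLA := by
  intro n R B _ _ b G K hG g hg c
  obtain ⟨hz, ha, hs, -⟩ := hSYM B G K hG g hg
  obtain ⟨t1, t2, t3, -⟩ := hTYU b
  obtain ⟨y, hy⟩ := hG.simp g hg (mk c b.ρ)
  obtain ⟨d0, w0, rfl⟩ := exists_mk y
  obtain ⟨h, hh, hw⟩ := hDOM b w0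
  have e0 : mk d0 w0 = mk (cw d0 (inv_mem hh)) (h w0) := by rw [mk_cw, inv_apply_self]
  rw [e0] at hy
  generalize cw d0 (inv_mem hh) = d at hy
  have key : ∀ i, ∃ j, g (mk c (b.u i)) = mk d (b.u j) := by
    intro i
    have h1 : g (mk c (b.u i)) ∈ Sx (mk d (h w0)) :=
      hy ▸ ⟨_, mem_Sx.2 ⟨_, b.comono_ρ.2 (b.dom_u i), rfl⟩, rfl⟩
    obtain ⟨v, h2, h3⟩ := mem_Sx.1 h1
    have h4 := hG.ip_eq g hg (mk c (b.u i)) (mk c (b.u i))
    rw [h3, ip_mk, ip_mk, b.u_unit] at h4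
    obtain ⟨y2, hy2⟩ := hG.simp g hg (mk c (b.u i))
    obtain ⟨j, rfl⟩ := t2 v (hw.of_comono h2) h4 (dla_ray hs (t3 i) h3 hy2)
    exact ⟨j, h3⟩
  choose f hf using key
  have hinj : Function.Injective f := by
    intro i j e
    obtain ⟨k, -, hk⟩ := hG.inv g hg
    have h1 : mk c (b.u i) = mk c (b.u j) := by
      rw [← (hk (mk c (b.u i))).2, hf, e, ← hf, (hk _).2]
    exact t1 i j _ (b.ty_u i) (mk_inj h1 ▸ b.ty_u j)
  refine ⟨d, Equiv.ofBijective f (Finite.injective_iff_bijective.1 hinj), fun t ht => ?_⟩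
  have : ∀ S : Finset (Fin n),
      g (mk c (∑ i ∈ S, t i • b.u i)) = mk d (∑ i ∈ S, t i • b.u (f i)) := fun S => by
    induction S using Finset.induction_on with
    | empty => rw [Finset.sum_empty, Finset.sum_empty, mk_zero, mk_zero, hz]
    | insert i S hi ih =>
      rw [Finset.sum_insert hi, Finset.sum_insert hi, ← add_mk, ← add_mk, ha, ih,
        ← smul_mk _ _ (ht i), ← smul_mk _ _ (ht i), hs _ (ht i), hf]
  exact this Finset.univ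

end Pool.Agent.P.MP_8ecd01_al.R4
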