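import Pool.Agent.P.MP_8ecd01_al.R4.IfaceA

/-! Step DOM of the top-dimensional centre theorem in rank four. -/

namespace Pool.Agent.P.MP_8ecd01_al.R4

open Matrix Module

theorem p_DOM (hWFIN : S_WFIN) :
    S_DOM := by
  intro n R b v
  obtain ⟨g, hg, hm⟩ := Set.exists_max_image _ (fun g : (Fin n → ℝ) ≃ₗ[ℝ] (Fin n → ℝ) =>
    b.ρ ⬝ᵥ g v) (hWFIN R) ⟨1, one_mem R.W⟩
  refine ⟨g, hg, fun i => le_of_not_gt fun h => ?_⟩
  have h1 := hm _ (mul_mem (b.mem i).rf_mem hg)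
  simp only [LinearEquiv.mul_apply, rf_apply] at h1
  rw [dot_reflect, dotProduct_comm b.ρ (b.a i)] at h1
  have h2 := mul_neg_of_neg_of_pos (div_neg_of_neg_of_pos (mul_neg_of_pos_of_neg two_pos h)
    (dot_self_pos (b.mem i).ne)) (b.ρ_pos i)
  linarith

end Pool.Agent.P.MP_8ecd01_al.R4
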