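import Pool.Agent.P.MP_8ecd01_al.R4.IfaceB

/-! Step ELH of the top-dimensional centre theorem in rank four. -/

namespace Pool.Agent.P.MP_8ecd01_al.R4

open Matrix Module

theorem elh_num {n : ℕ} (hn : n ≤ 4) {x : ℝ} (h : -1 < 4 * x) : -1 ≤ (n : ℝ) * x := by
  have h1 : (n : ℝ) ≤ 4 := by exact_mod_cast hn
  have h0 : (0 : ℝ) ≤ n := Nat.cast_nonneg n
  rcases le_total 0 x with hx | hx
  · linarith [mul_nonneg h0 hx]
  · nlinarith

theorem p_ELH (hSYM : S_SYM) (hHEX : S_HEX) (hFAM : S_FAM) :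
    S_ELH := by
  intro n R B _ _ b G K C hn hK hG hN hC hH
  obtain ⟨h1, h2⟩ := hHEX B b K _ C hK hH rfl
  set V : Set B.X := {x | x ∈ K ∧ ¬ Ant K x ∧ ∃ i ∈ C, IsV b i x} with hV
  have hVi : ∀ g ∈ G, ∀ x ∈ V, g x ∈ V := by
    rintro g hg x ⟨e1, e2, i, hi, e3⟩
    exact ⟨hG.maps g hg x e1, fun e => e2 ((hSYM B G K hG g hg).2.2.2.2.1 x e),
      hC g hg i hi x e3⟩
  have hVf : FinT V := (finT_isV b).mono fun x ⟨_, _, i, _, e⟩ => ⟨i, e⟩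
  have hVu : ∀ x ∈ V, ip x x = 1 := fun x ⟨_, _, _, _, e⟩ => e.unit
  have hVK : V ⊆ K := fun x hx => hx.1
  have hsum : ∀ u ∈ V, ∀ v ∈ V, 2 * ip u v = -1 → add u v ∈ V := fun u hu v hv e => by
    rcases h1 u hu v hv with e' | e'
    · linarith
    · exact e'.2
  set M : Set B.X := {x | ∃ u ∈ V, ∃ v ∈ V, 2 * ip u v = -1 ∧ x = add u v} with hM
  have hMV : M ⊆ V := by
    rintro _ ⟨u, hu, v, hv, e, rfl⟩
    exact hsum u hu v hv e
  have hMi : ∀ g ∈ G, ∀ x ∈ M, g x ∈ M := by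
    rintro g hg _ ⟨u, hu, v, hv, e, rfl⟩
    exact ⟨g u, hVi g hg u hu, g v, hVi g hg v hv, by rw [hG.ip_eq g hg, e],
      (hSYM B G K hG g hg).2.1 u v⟩
  have hMa := hFAM B G K M hK hG hN (hMV.trans hVK) (hVf.mono hMV) hMi
    (fun a ha => hVu a (hMV ha)) (by
      rintro _ ⟨u, hu, v, hv, e, rfl⟩ z hz
      exact elh_num hn (h2 u hu v hv z (hMV hz) e))
  have hVa := hFAM B G K V hK hG hN hVK hVf hVi hVu fun x hx y hy => by
    rcases h1 x hx y hy with e | ⟨e, e'⟩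
    · exact elh_num hn e
    · exact absurd (hMa _ ⟨x, hx, y, hy, e, rfl⟩) e'.2.1
  intro i hi c hc
  by_contra hne
  exact hne (hVa _ ⟨hc, hne, i, hi, c, rfl⟩)

end Pool.Agent.P.MP_8ecd01_al.R4
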