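import Pool.Agent.P.MP_8ecd01_al.R4.IfaceB

/-! Step ELJ of the top-dimensional centre theorem in rank four. -/

namespace Pool.Agent.P.MP_8ecd01_al.R4

open Matrix Module

theorem p_ELJ (hSYM : S_SYM) (hIDEAL : S_IDEAL) (hFAM : S_FAM) :
    S_ELJ := by
  intro n R B _ _ b G K C hK hG hN hC hJ i hi c hc
  by_contra h
  refine h (hFAM B G K {x | x ∈ K ∧ ¬ Ant K x ∧ ∃ i ∈ C, IsV b i x} hK hG hN (fun _ hx => hx.1)
    ((finT_isV b).mono fun _ ⟨_, _, j, _, e⟩ => ⟨j, e⟩)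
    (fun g hg x ⟨h1, h2, j, hj, e⟩ => ⟨hG.maps g hg x h1,
      fun h3 => h2 ((hSYM B G K hG g hg).2.2.2.2.1 x h3), hC g hg j hj x e⟩)
    (fun _ ⟨_, _, _, _, e⟩ => e.unit) ?_ _ ⟨hc, h, i, hi, c, rfl⟩)
  rintro _ ⟨x1, x2, j, hj, d, rfl⟩ y ⟨y1, y2, k, hk, e⟩
  obtain ⟨d', v, e', rfl⟩ := cb0 d (b.u j) y
  rw [← e'] at x1 x2 ⊢
  rw [ip_mk]
  refine (hJ j hj k hk v (isV_iff.1 e)).resolve_right fun ⟨s, t, hs, ht, hst, hf⟩ => ?_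
  have a1 := hK.smul_mem s hs _ x1
  have a2 := hK.smul_mem t ht _ y1
  have a3 : add (smul s (mk d' (b.u j))) (smul t (mk d' v)) = mk d' (s • b.u j + t • v) := by
    rw [smul_mk _ _ hs, smul_mk _ _ ht, add_mk]
  have a4 := hf d' (a3 ▸ hK.add_mem _ a1 _ a2)
  rw [← a3] at a4
  rcases hs.eq_or_lt with rfl | hs
  · rw [add_comm'] at a4
    exact y2 ((hIDEAL B K _ _ hK a2 a1 a4).of_smul hK (by simpa using hst))
  · exact x2 ((hIDEAL B K _ _ hK a1 a2 a4).of_smul hK hs)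

end Pool.Agent.P.MP_8ecd01_al.R4
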