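import Pool.Agent.P.MP_8ecd01_al.R4.Tools
import Pool.Agent.P.MP_8ecd01_al.R4.IfaceA

/-!
The statements of the geometric steps, valid in every rank.
-/

namespace Pool.Agent.P.MP_8ecd01_al.R4

open Matrix Module

-- deps:
def S_CPL : Prop := ∀ {n : ℕ} {R : RootSystem n} (B : Building R) [COX R] [API B],
  CompleteSpace B.X

-- deps: CPL
def S_PROJ : Prop := ∀ {n : ℕ} {R : RootSystem n} (B : Building R) [COX R] [API B]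
  (H : Set B.X) (v : B.X),
  _root_.IsClosed H → Cvx H → H.Nonempty → ∃ p ∈ H, ∀ h ∈ H, d2 v p + d2 p h ≤ d2 v h

-- deps: PROJ
def S_PC : Prop := ∀ {n : ℕ} {R : RootSystem n} (B : Building R) [COX R] [API B]
  (K : Set B.X) (v : B.X),
  Cone K → ∃ p ∈ K, (∀ h ∈ K, d2 v p + d2 p h ≤ d2 v h) ∧ (∀ a ∈ K, ip v a ≤ ip p a) ∧
    ip v p = ip p p

-- deps: PROJ PC
def S_UP : Prop := ∀ {n : ℕ} {R : RootSystem n} (B : Building R) [COX R] [API B]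
  (K A : Set B.X) (κ : B.X → ℝ) (z : B.X), Cone K → A ⊆ K → z ∈ K →
  (∃ y, ∀ a ∈ A, κ a ≤ ip y a) → ∃ p ∈ K, (∀ a ∈ A, κ a ≤ ip p a) ∧
    ∀ y, (∀ a ∈ A, κ a ≤ ip y a) → d2 z p + d2 p y ≤ d2 z y

-- deps: UP
def S_BND : Prop := ∀ {n : ℕ} {R : RootSystem n} (B : Building R) [COX R] [API B]
  (K A : Set B.X),
  Cone K → A ⊆ K → FinT A → Wide K A → ∃ ρ : ℝ, ∀ y ∈ K, y ∈ Lev A → ip y y ≤ ρ

-- deps:
def S_FOOT : Prop := ∀ {n : ℕ} {R : RootSystem n} (B : Building R) [COX R] [API B]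
  (A : Set B.X), FinT A →
  ∃ O : Set B.X, FinT O ∧ ∀ z q : B.X, q ∈ Lev A →
    (∀ y ∈ Lev A, d2 (smul 2 z) q ≤ d2 (smul 2 z) y) →
    ∃ o ∈ O, Dist.dist q o ≤ 2 * Dist.dist z q

-- deps: UP BND FOOT
def S_MAX : Prop := ∀ {n : ℕ} {R : RootSystem n} (B : Building R) [COX R] [API B]
  (K A : Set B.X), Cone K → A ⊆ K → FinT A → Wide K A →
  ∃ x ∈ K, x ∈ Lev A ∧ ∀ y ∈ K, y ∈ Lev A → ip y y ≤ ip x x

-- deps: UP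
def S_LINK : Prop := ∀ {n : ℕ} {R : RootSystem n} (B : Building R) [COX R] [API B]
  (K A : Set B.X) (c : Ch B) (w ξ : Fin n → ℝ) (t : ℝ), Cone K → K ⊆ Par c w → mk c w ∈ K →
  mk c (-w) ∈ K → A ⊆ K → 0 ≤ t → Blk R (ξ + t • w) w → mk c ξ ∈ K → mk c ξ ∈ Lev A →
  (∀ y ∈ K, y ∈ Lev A → ip y y ≤ ip (mk c ξ) (mk c ξ)) →
  ∃ D : Set B.X, Cone D ∧ D ⊆ Par c (ξ + t • w) ∧
    (∀ a ∈ K, gr c (ξ + t • w) a ∈ D) ∧ Wide D (gr c (ξ + t • w) '' insert (mk c ξ) A)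

-- deps: PC
def S_CEN : Prop := ∀ {n : ℕ} {R : RootSystem n} (B : Building R) [COX R] [API B]
  (D : Set B.X) (c : Ch B) (w ψ : Fin n → ℝ), Cone D → D ⊆ Par c w → Top D → Wide D D →
  Blk R w ψ → mk c ψ ∈ D

-- deps: PC
def S_SIMP : Prop := ∀ {n : ℕ} {R : RootSystem n} (B : Building R) [COX R] [API B]
  (K D C : Set B.X) (c : Ch B) (ξ υ : Fin n → ℝ), Cone K → Cone D → D ⊆ Par c ξ →
  (∀ a ∈ K, gr c ξ a ∈ D) → C ⊆ K → Wide D (gr c ξ '' C) → Comono R ξ υ → mk c (-υ) ∈ D →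
  mk c υ ∈ K

-- deps: CEN MAX
def S_NONC : Prop := ∀ {n : ℕ} {R : RootSystem n} (B : Building R) [COX R] [API B]
  (K A : Set B.X) (c : Ch B) (w : Fin n → ℝ) (p : B.X), Cone K → Top K → mk c w ∈ K →
  mk c (-w) ∈ K → A ⊆ K ∩ Par c w → FinT A → Wide (K ∩ Par c w) A → p ∈ K → ¬ Ant K p →
  ∃ (A' : Set B.X) (d : Ch B) (ξ : Fin n → ℝ), A' ⊆ K ∩ Par c w ∧ FinT A' ∧ Apt c w d ∧
    ¬ Blk R w ξ ∧ mk d ξ ∈ K ∧ mk d ξ ∈ Lev A' ∧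
    ∀ y ∈ K ∩ Par c w, y ∈ Lev A' → ip y y ≤ ip (mk d ξ) (mk d ξ)

-- deps: DOM NONC LINK CEN SIMP
def S_STEP : Prop := ∀ {n : ℕ} {R : RootSystem n} (B : Building R) [COX R] [API B] (b : Base R)
  (K A : Set B.X) (c : Ch B) (w : Fin n → ℝ) (p : B.X), Cone K → Top K → mk c w ∈ K →
  mk c (-w) ∈ K → A ⊆ K ∩ Par c w → FinT A → Wide (K ∩ Par c w) A → p ∈ K → ¬ Ant K p →
  ∃ (C : Set B.X) (d : Ch B) (i : Fin n) (υ ξ : Fin n → ℝ), C ⊆ K ∧ FinT C ∧ Apt c w d ∧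
    b.Ty i υ ∧ Compat R w υ ∧ ¬ Blk R w υ ∧ mk d υ ∈ K ∧ Comono R ξ (w + υ) ∧
    ∀ y ∈ K ∩ Par c w, (∀ a ∈ C, 0 ≤ ip (gr d ξ y) (gr d ξ a)) → y = zero

-- deps: STEP
def S_NV : Prop := ∀ {n : ℕ} {R : RootSystem n} (B : Building R) [COX R] [API B] (b : Base R)
  (K A : Set B.X) (c : Ch B) (w : Fin n → ℝ) (p : B.X), Cone K → Top K → mk c w ∈ K →
  mk c (-w) ∈ K → A ⊆ K ∩ Par c w → FinT A → Wide (K ∩ Par c w) A → p ∈ K → ¬ Ant K p →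
  ∃ (d : Ch B) (i : Fin n) (υ : Fin n → ℝ), Apt c w d ∧ b.Ty i υ ∧ Compat R w υ ∧
    ¬ Blk R w υ ∧ mk d υ ∈ K ∧ ¬ Ant K (mk d υ)

-- deps:
def S_IDEAL : Prop := ∀ {n : ℕ} {R : RootSystem n} (B : Building R) [COX R] [API B]
  (K : Set B.X) (p a : B.X), Cone K → p ∈ K → a ∈ K → Ant K (add p a) → Ant K p

-- deps: MAX
def S_JMIN : Prop := ∀ {n : ℕ} {R : RootSystem n} (B : Building R) [COX R] [API B]
  (K A : Set B.X), Cone K → A ⊆ K → FinT A → (∃ y ∈ K, y ≠ zero) →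
  (∀ y ∈ K, ∃ a ∈ A, ip y a ≤ 0) →
  ∃ x ∈ K, ∃ m : ℝ, 0 ≤ m ∧ ip x x = 1 ∧ (∀ a ∈ A, -m ≤ ip x a) ∧
    ∀ y ∈ K, ∃ a ∈ A, ip y a ≤ -m * √(ip y y)

-- deps:
def S_JSTEP : Prop := ∀ {n : ℕ} {R : RootSystem n} (B : Building R) [COX R] [API B]
  (c : Ch B) (w : Fin n → ℝ) (W : Submodule ℝ (Fin n → ℝ)) (A : Set B.X) (x : B.X) (m : ℝ),
  (∀ ψ ∈ W, Blk R w ψ) → A ⊆ KW c w W → FinT A → x ∈ KW c w W → ip x x = 1 → 0 ≤ m →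
  (∀ a ∈ A, -m ≤ ip x a) → (∀ y ∈ KW c w W, ∃ a ∈ A, ip y a ≤ -m * √(ip y y)) →
  ∃ (c' : Ch B) (w' : Fin n → ℝ) (W' : Submodule ℝ (Fin n → ℝ)) (pr : B.X → B.X),
    (∀ ψ ∈ W', Blk R w' ψ) ∧ finrank ℝ W' = finrank ℝ W + 1 ∧
    pr '' {a | a ∈ A ∧ ip x a = -m} ⊆ KW c' w' W' ∧ FinT (pr '' {a | a ∈ A ∧ ip x a = -m}) ∧
    (∀ a ∈ A, ip x a = -m → ip (pr a) (pr a) = ip a a - m ^ 2) ∧
    (∀ a ∈ A, ∀ a' ∈ A, ip x a = -m → ip x a' = -m → ip a a' - m ^ 2 ≤ ip (pr a) (pr a')) ∧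
    (∀ η ∈ KW c' w' W', ∃ a ∈ A, ip x a = -m ∧ ip η (pr a) ≤ 0) ∧
    ∀ y ∈ KW c w W, ∃ η ∈ KW c' w' W', ∀ a ∈ A, ip x a = -m →
      ip y a ≤ ip η (pr a) - m * ip y x

-- deps: JMIN JSTEP
def S_JUNG : Prop := ∀ {n : ℕ} {R : RootSystem n} (B : Building R) [COX R] [API B] (D : ℕ)
  (c : Ch B) (w : Fin n → ℝ) (W : Submodule ℝ (Fin n → ℝ)) (A : Set B.X) (ρ : ℝ),
  (∀ ψ ∈ W, Blk R w ψ) → finrank ℝ W + D = n → A ⊆ KW c w W → FinT A → 0 < ρ →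
  (∀ a ∈ A, ip a a = ρ) → (∀ a ∈ A, ∀ a' ∈ A, -ρ ≤ (D : ℝ) * ip a a') →
  (∀ y ∈ KW c w W, ∃ a ∈ A, ip y a ≤ 0) → ∀ a0 ∈ A, ∃ l : Fin D → B.X, (∀ i, l i ∈ A) ∧
    ∀ y ∈ KW c w W, ip y a0 + ∑ i, ip y (l i) ≤ 0

-- deps: JUNG
def S_JANT : Prop := ∀ {n : ℕ} {R : RootSystem n} (B : Building R) [COX R] [API B]
  (K A : Set B.X) (ρ : ℝ), Cone K → A ⊆ K → FinT A → 0 < ρ → (∀ a ∈ A, ip a a = ρ) →
  (∀ a ∈ A, ∀ a' ∈ A, -ρ ≤ (n : ℝ) * ip a a') → (∀ y, ∃ a ∈ A, ip y a ≤ 0) →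
  ∀ a0 ∈ A, Ant K a0

-- deps:
def S_SYM : Prop := ∀ {n : ℕ} {R : RootSystem n} (B : Building R) [COX R] [API B]
  (G : Set (B.X → B.X)) (K : Set B.X), Sym G K → ∀ g ∈ G, g zero = zero ∧
    (∀ x y, g (add x y) = add (g x) (g y)) ∧
    (∀ r : ℝ, 0 ≤ r → ∀ x, g (smul r x) = smul r (g x)) ∧
    (∀ x y, Dist.dist (g x) (g y) = Dist.dist x y) ∧
    (∀ p, Ant K (g p) → Ant K p) ∧
    ∀ L : Set B.X, Cone L → Cone {y | g y ∈ L}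

-- deps: PROJ PC
def S_FIX : Prop := ∀ {n : ℕ} {R : RootSystem n} (B : Building R) [COX R] [API B]
  (G : Set (B.X → B.X)) (K A : Set B.X), Cone K → Sym G K → A ⊆ K → FinT A → A.Nonempty →
  (∀ g ∈ G, ∀ a ∈ A, g a ∈ A) → (∃ y, ∀ a ∈ A, 0 < ip y a) → ¬ NoFix G K

-- deps: SYM DOM TYU
def S_DLA : Prop := ∀ {n : ℕ} {R : RootSystem n} (B : Building R) [COX R] [API B] (b : Base R)
  (G : Set (B.X → B.X)) (K : Set B.X), Sym G K → ∀ g ∈ G, ∀ c : Ch B,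
  ∃ (d : Ch B) (σ : Equiv.Perm (Fin n)), ∀ t : Fin n → ℝ, (∀ i, 0 ≤ t i) →
    g (mk c (∑ i, t i • b.u i)) = mk d (∑ i, t i • b.u (σ i))

-- deps: GEN DOM FD TYU DLA
def S_DL : Prop := ∀ {n : ℕ} {R : RootSystem n} (B : Building R) [COX R] [API B] (b : Base R)
  (G : Set (B.X → B.X)) (K : Set B.X), Sym G K → ∀ g ∈ G, ∃ σ, Act b g σ

-- deps: BASE DOM DL
def S_ORB : Prop := ∀ {n : ℕ} {R : RootSystem n} (B : Building R) [COX R] [API B]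
  (G : Set (B.X → B.X)) (K : Set B.X), Sym G K → ∀ p, FinT {x | ∃ g ∈ G, x = g p}

-- deps:
def S_CONJ : Prop := ∀ {n : ℕ} {R : RootSystem n} (b : Base R) (v : Fin n → ℝ), RD R v →
  ∃ g ∈ R.W, ∃ (i : Fin n) (s : ℝ), 0 < s ∧ v = g (s • b.a i)

-- deps: BASE SYM DL CONJ
def S_RINV : Prop := ∀ {n : ℕ} {R : RootSystem n} (B : Building R) [COX R] [API B]
  (G : Set (B.X → B.X)) (K : Set B.X), Sym G K →
  FinT (Rt K) ∧ ∀ g ∈ G, ∀ r ∈ Rt K, g r ∈ Rt K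

-- deps:
def S_NEAR : Prop := ∀ {n : ℕ} {R : RootSystem n} (B : Building R) [COX R] [API B]
  (A : Set B.X), FinT A → ∃ N : Set ℝ, N.Finite ∧ ∀ S ⊆ A, ∀ x : B.X, (∀ a ∈ S, 1 ≤ ip x a) →
    (∀ y, (∀ a ∈ S, 1 ≤ ip y a) → ip x x ≤ ip y y) → ip x x ∈ N

-- deps: RP IDEAL
def S_NORM : Prop := ∀ {n : ℕ} {R : RootSystem n} (B : Building R) [COX R] [API B]
  (K : Set B.X) (c x s : B.X), Cone K → x ∈ Rt K → s ∈ Rt K → ip x s < 0 → ip c x ≤ 0 →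
  1 ≤ ip c s → (∀ r ∈ Rt K, ip c x < ip c r → 1 ≤ ip c r) →
  1 ≤ ip c (add s (smul (-2 * ip x s) x))

-- deps: RP NORM
def S_SLOPE : Prop := ∀ {n : ℕ} {R : RootSystem n} (B : Building R) [COX R] [API B]
  (K : Set B.X) (c x : B.X), Cone K → FinT (Rt K) → x ∈ Rt K → ip c x < 0 →
  (∀ r ∈ Rt K, ip c x < ip c r → 1 ≤ ip c r) →
  ∃ y, ip y y < ip c c ∧ ∀ s ∈ Rt K, 1 ≤ ip c s → 1 ≤ ip y s

-- deps: PROJ NEAR SLOPE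
def S_ROOT : Prop := ∀ {n : ℕ} {R : RootSystem n} (B : Building R) [COX R] [API B]
  (K : Set B.X), Cone K → FinT (Rt K) → ∃ y, ∀ r ∈ Rt K, 0 < ip y r

-- deps: FIX ROOT RINV
def S_NOROOT : Prop := ∀ {n : ℕ} {R : RootSystem n} (B : Building R) [COX R] [API B]
  (G : Set (B.X → B.X)) (K : Set B.X), Cone K → Sym G K → NoFix G K →
  ∀ f, RD R f → Forb K f

-- deps: FIX JANT
def S_FAM : Prop := ∀ {n : ℕ} {R : RootSystem n} (B : Building R) [COX R] [API B]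
  (G : Set (B.X → B.X)) (K A : Set B.X), Cone K → Sym G K → NoFix G K → A ⊆ K → FinT A →
  (∀ g ∈ G, ∀ a ∈ A, g a ∈ A) → (∀ a ∈ A, ip a a = 1) →
  (∀ a ∈ A, ∀ a' ∈ A, -1 ≤ (n : ℝ) * ip a a') → ∀ a ∈ A, Ant K a

-- deps: SYM IDEAL FAM
def S_ELJ : Prop := ∀ {n : ℕ} {R : RootSystem n} (B : Building R) [COX R] [API B] (b : Base R)
  (G : Set (B.X → B.X)) (K : Set B.X) (C : Set (Fin n)), Cone K → Sym G K → NoFix G K →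
  Clo b G C → CondJ b (Forb K) C → ∀ i ∈ C, Forb K (b.u i)

-- deps: IDEAL
def S_HEX : Prop := ∀ {n : ℕ} {R : RootSystem n} (B : Building R) [COX R] [API B] (b : Base R)
  (K V : Set B.X) (C : Set (Fin n)), Cone K → CondH b (Forb K) C →
  V = {x | x ∈ K ∧ ¬ Ant K x ∧ ∃ i ∈ C, IsV b i x} →
  (∀ x ∈ V, ∀ y ∈ V, -1 < 4 * ip x y ∨ (2 * ip x y = -1 ∧ add x y ∈ V)) ∧
    ∀ u ∈ V, ∀ v ∈ V, ∀ z ∈ V, 2 * ip u v = -1 → -1 < 4 * ip (add u v) z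

-- deps: SYM HEX FAM
def S_ELH : Prop := ∀ {n : ℕ} {R : RootSystem n} (B : Building R) [COX R] [API B] (b : Base R)
  (G : Set (B.X → B.X)) (K : Set B.X) (C : Set (Fin n)), n ≤ 4 → Cone K → Sym G K → NoFix G K →
  Clo b G C → CondH b (Forb K) C → ∀ i ∈ C, Forb K (b.u i)

-- deps: SYM ORB FIX JANT NV CEN
def S_HULL : Prop := ∀ {n : ℕ} {R : RootSystem n} (B : Building R) [COX R] [API B] (b : Base R)
  (G : Set (B.X → B.X)) (K F : Set B.X) (p : B.X) (c : Ch B) (w : Fin n → ℝ), Cone K → Sym G K →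
  NoFix G K → F.Finite → F ⊆ K → Top F → p ∈ K → ¬ Ant K p → K ⊆ Par c w → mk c w ∈ K →
  mk c (-w) ∈ K → ∃ L ⊆ K, Cone L ∧ Sym G L ∧ NoFix G L ∧ (∀ ψ, Blk R w ψ → mk c ψ ∈ L) ∧
    ∃ (d : Ch B) (i : Fin n) (υ : Fin n → ℝ), Apt c w d ∧ b.Ty i υ ∧ Compat R w υ ∧
      ¬ Blk R w υ ∧ mk d υ ∈ L ∧ ¬ Ant L (mk d υ)

-- deps:
def S_TRA : Prop := ∀ {n : ℕ} {R : RootSystem n} (B : Building R) [COX R] [API B],
  (∀ s : Delta B, ip (emb s) (emb s) = 1) ∧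
  (∀ x : B.X, x ≠ zero → ∃ r : ℝ, 0 < r ∧ ∃ s : Delta B, x = smul r (emb s)) ∧
  (∀ (r r' : ℝ) (s s' : Delta B), 0 < r → 0 < r' → smul r (emb s) = smul r' (emb s') →
    r = r' ∧ s = s') ∧
  (∀ (β : Equiv.Perm (Delta B)) (r : ℝ) (s : Delta B), 0 < r →
    lift β (smul r (emb s)) = smul r (emb (β s))) ∧
  (∀ β : Equiv.Perm (Delta B), lift β zero = zero) ∧
  (∀ s s' : Delta B, R4.dist s s' = Real.arccos (ip (emb s) (emb s'))) ∧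
  (∀ s s' : Delta B, Opp s s' ↔ add (emb s) (emb s') = zero) ∧
  ∀ β : Equiv.Perm (Delta B), IsAut β → ∀ s s' : Delta B,
    ip (emb (β s)) (emb (β s')) = ip (emb s) (emb s')

-- deps: TRA
def S_TRC : Prop := ∀ {n : ℕ} {R : RootSystem n} (B : Building R) [COX R] [API B]
  (S : Set (Delta B)), R4.IsClosed S → IsConvex S → Cone (CS S)

-- deps: TRA
def S_TRS : Prop := ∀ {n : ℕ} {R : RootSystem n} (B : Building R) [COX R] [API B]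
  (S : Set (Delta B)),
  Sym {g | ∃ β : Equiv.Perm (Delta B), IsAut β ∧ β '' S = S ∧ g = lift β} (CS S)

end Pool.Agent.P.MP_8ecd01_al.R4
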