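import Pool.Agent.P.MP_8ecd01_al.R4.IfaceC
import Pool.Agent.P.MP_8ecd01_al.R4.IfaceB
import Pool.Agent.P.MP_8ecd01_al.R4.IfaceA

/-! Step FA of the top-dimensional centre theorem in rank four. -/

namespace Pool.Agent.P.MP_8ecd01_al.R4

open Matrix Module

theorem fa_sum {n : ℕ} (s : Equiv.Perm (Fin n)) (t : Fin n → ℝ) (f : Fin n → Fin n → ℝ) :
    ∑ i, t i • f (s i) = ∑ j, t (s.symm j) • f j := by
  rw [← Equiv.sum_comp s fun j => t (s.symm j) • f j]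
  simp only [Equiv.symm_apply_apply]

theorem fa_comp {n : ℕ} {R : RootSystem n} {B : Building R} {b : Base R} {g h : B.X → B.X}
    {s s2 : Equiv.Perm (Fin n)} (hg : Act b g s) (hh : Act b h s2) : Act b (g ∘ h) (s * s2) := by
  intro c
  obtain ⟨d, hd⟩ := hh c
  obtain ⟨e, he⟩ := hg d
  refine ⟨e, fun t ht => ?_⟩
  rw [Function.comp_apply, hd t ht, fa_sum s2 t b.u, he _ fun j => ht _,
    ← fa_sum s2 t fun j => b.u (s j)]
  rfl

theorem fa_uniq (hTYU : S_TYU) {n : ℕ} {R : RootSystem n} {B : Building R} {b : Base R}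
    {g : B.X → B.X} {s s2 : Equiv.Perm (Fin n)} (h1 : Act b g s) (h2 : Act b g s2) : s = s2 := by
  refine Equiv.ext fun i => ?_
  obtain ⟨d, hd⟩ := h1.single (std B)
  have h3 : IsV b (s2 i) (g (mk (std B) (b.u i))) := h2.isV ⟨std B, rfl⟩
  rw [hd i] at h3
  exact (hTYU b).1 _ _ _ (b.ty_u (s i)) (isV_iff.1 h3)

theorem fa_id {n : ℕ} {R : RootSystem n} {B : Building R} (b : Base R) :
    Act b (id : B.X → B.X) 1 := fun c => ⟨c, fun _ _ => rfl⟩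

theorem p_FA (hSYM : S_SYM) (hTYU : S_TYU) (hDL : S_DL) (hDOM : S_DOM) (hFD : S_FD) (hFF : S_FF) (hFZ : S_FZ) :
    S_FA := by
  intro R B _ _ b G K F p hb hK hG hN hF hFK hT hp hA
  obtain ⟨-, hN0⟩ := hFZ B b G K F p hb hK hG hF hFK hT hp hA
  obtain ⟨x0, hxK, hx0, hfix⟩ := not_not.1 hN0
  obtain ⟨hσ, ⟨m, hm, hneg⟩, -⟩ := hFF b hb
  have hττ : (Fin.revPerm : Equiv.Perm (Fin 4)) * Fin.revPerm = 1 :=
    Equiv.ext fun i => Fin.rev_rev i
  have hdi : ∀ g ∈ G, Act b g 1 ∨ Act b g Fin.revPerm := fun g hg => by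
    obtain ⟨σ, h⟩ := hDL B b G K hG g hg
    rcases hσ σ (h.dot hG hg) with e | e
    · exact Or.inl (e ▸ h)
    · exact Or.inr (e ▸ h)
  have hex : ∃ g1 ∈ G, Act b g1 Fin.revPerm := by
    by_contra h
    exact hN ⟨x0, hxK, hx0, fun g hg =>
      hfix g ⟨hg, (hdi g hg).resolve_right fun e => h ⟨g, hg, e⟩⟩⟩
  obtain ⟨g1, hg1, ha1⟩ := hex
  obtain ⟨h1, hh1, hinv⟩ := hG.inv g1 hg1
  have ha2 : Act b h1 Fin.revPerm := by
    refine (hdi h1 hh1).resolve_left fun e => ?_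
    have h2 := fa_comp ha1 e
    rw [show g1 ∘ h1 = id from funext fun x => (hinv x).1, mul_one] at h2
    have h3 := congrArg (fun s : Equiv.Perm (Fin 4) => s 0) (fa_uniq hTYU h2 (fa_id b))
    exact absurd h3 (by decide)
  have hsw : ∀ g ∈ G, (g x0 = x0 ∧ g (g1 x0) = g1 x0) ∨ (g x0 = g1 x0 ∧ g (g1 x0) = x0) := by
    intro g hg
    rcases hdi g hg with e | e
    · refine Or.inl ⟨hfix g ⟨hg, e⟩, ?_⟩
      have h2 := fa_comp ha2 (fa_comp e ha1)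
      rw [one_mul, hττ] at h2
      have h3 := congrArg g1 (hfix _ ⟨hG.comp _ hh1 _ (hG.comp _ hg _ hg1), h2⟩)
      rwa [Function.comp_apply, (hinv _).1] at h3
    · have h2 := fa_comp ha2 e
      have h3 := fa_comp e ha1
      rw [hττ] at h2 h3
      have h4 := congrArg g1 (hfix _ ⟨hG.comp _ hh1 _ hg, h2⟩)
      rw [Function.comp_apply, (hinv _).1] at h4
      exact Or.inr ⟨h4, hfix _ ⟨hG.comp _ hg _ hg1, h3⟩⟩
  have hqK := hG.maps g1 hg1 x0 hxK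
  have hz : add x0 (g1 x0) = zero := by
    by_contra h
    refine hN ⟨_, hK.add_mem _ hxK _ hqK, h, fun g hg => ?_⟩
    rw [(hSYM B G K hG g hg).2.1]
    rcases hsw g hg with ⟨e1, e2⟩ | ⟨e1, e2⟩
    · rw [e1, e2]
    · rw [e1, e2, add_comm']
  obtain ⟨c0, w0, hx⟩ := exists_mk x0
  obtain ⟨g0, hg0, hw⟩ := hDOM b w0
  have hx' : x0 = mk (cw c0 (inv_mem hg0)) (g0 w0) := by rw [mk_cw, inv_apply_self, hx]
  generalize g0 w0 = w at hw hx'
  obtain ⟨e, u, he, hq⟩ := cb0 (cw c0 (inv_mem hg0)) w (g1 x0)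
  have hxe : x0 = mk e w := hx'.trans he.symm
  have hu : u = -w := eq_neg_of_add (b := e) (by rw [← hxe, ← hq, hz])
  rw [hu] at hq
  refine ⟨e, w, hw, fun h => hx0 (by rw [hxe, h, mk_zero]), hxe ▸ hxK, hq ▸ hqK, ?_, ?_⟩
  · rw [← hxe, ← hq]
    exact hsw
  · obtain ⟨t, ht, hwt⟩ := b.dom_iff.1 hw
    obtain ⟨d, hd⟩ := ha1 e
    have h2 := hd t ht
    rw [← hwt, ← hxe, hq, fa_sum Fin.revPerm t b.u] at h2
    obtain ⟨g, hg, h3⟩ := typ h2
    have h4 : (g * m) w = ∑ j, t ((Fin.revPerm : Equiv.Perm (Fin 4)).symm j) • b.u j := by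
      rw [h3, LinearEquiv.mul_apply, hneg]
    have h5 := hFD b (g * m) (mul_mem hg hm) w hw
      (b.dom_iff.2 ⟨_, fun j => ht _, h4⟩)
    intro i hi
    rw [hwt, b.a_dot_sum] at hi
    have h6 : t i = 0 := (mul_eq_zero.1 hi).resolve_right (b.a_dot_u_pos i).ne'
    rw [← h5, h4, b.a_dot_sum]
    have h7 : (Fin.revPerm : Equiv.Perm (Fin 4)).symm i.rev = i := Fin.rev_rev i
    rw [h7, h6, zero_mul]

end Pool.Agent.P.MP_8ecd01_al.R4
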