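import Pool.Agent.P.MP_8ecd01_al.R4.IfaceB

/-! Step FAM of the top-dimensional centre theorem in rank four. -/

namespace Pool.Agent.P.MP_8ecd01_al.R4

open Matrix Module

theorem p_FAM (hFIX : S_FIX) (hJANT : S_JANT) :
    S_FAM := by
  intro n R B _ _ G K A hK hG hN hA hF hI h1 hn a ha
  by_cases h : ∃ y, ∀ a ∈ A, 0 < ip y a
  · exact absurd hN (hFIX B G K A hK hG hA hF ⟨a, ha⟩ hI h)
  · refine hJANT B K A 1 hK hA hF one_pos h1 hn (fun y => ?_) a ha
    by_contra h'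
    exact h ⟨y, fun a ha => lt_of_not_ge fun e => h' ⟨a, ha, e⟩⟩

end Pool.Agent.P.MP_8ecd01_al.R4
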