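import Pool.Agent.P.MP_8ecd01_al.R4.IfaceC
import Pool.Agent.P.MP_8ecd01_al.R4.IfaceA
import Pool.Agent.P.MP_8ecd01_al.R4.IfaceB

/-! Step FB of the top-dimensional centre theorem in rank four. -/

namespace Pool.Agent.P.MP_8ecd01_al.R4

open Matrix Module

theorem p_FB (hTYU : S_TYU) (hFF : S_FF) (hHULL : S_HULL) (hNOROOT : S_NOROOT)
    (hIDEAL : S_IDEAL) (hFA : S_FA) :
    S_FB := by
  intro R B _ _ b G K F p hfit hK hG hF hFK hT hp hnp hN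
  obtain ⟨c, w, hw, hw0, h1, h2, hc, hrev⟩ := hFA B b G K F p hfit hK hG hN hF hFK hT hp hnp
  have hK2 : Cone (K ∩ Par c w) := hK.inter (cone_par c w)
  have hG2 : Sym G (K ∩ Par c w) := by
    refine ⟨hG.ip_eq, hG.simp, fun g hg x hx => ⟨hG.maps g hg x hx.1, ?_⟩, hG.inv, hG.comp, hG.one⟩
    have a0 := mem_par_iff.1 hx.2
    have a1 := hG.ip_eq g hg (mk c w) x
    have a2 := hG.ip_eq g hg (mk c (-w)) x
    rw [mem_par_iff]
    rcases hc g hg with ⟨e1, e2⟩ | ⟨e1, e2⟩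
    · rw [e1] at a1
      rw [e2] at a2
      linarith
    · rw [e1] at a1
      rw [e2] at a2
      linarith
  have hgr : ∀ a ∈ K, gr c w a ∈ K ∩ Par c w := fun a ha =>
    ⟨cone_gr_mem hK h1 h2 ha, gr_mem c w a⟩
  obtain ⟨L, -, hL, hGL, hNL, hcen, d, i, υ, hd, hty, hcp, hnb, hυ, hna⟩ :=
    hHULL B b G (K ∩ Par c w) (gr c w '' F) (gr c w p) c w hK2 hG2
      (fun ⟨x, hx, h⟩ => hN ⟨x, hx.1, h⟩) (hF.image _)
      (by rintro _ ⟨a, ha, rfl⟩; exact hgr a (hFK ha))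
      (hT.gr' c w fun a ha => ⟨a, ha, rfl⟩) (hgr p hp)
      (fun ⟨q, hq, e⟩ => hnp ⟨q, hq.1, ant_of_gr hq.2 e⟩) Set.inter_subset_right
      ⟨h1, mk_mem_par (Apt.refl c w) _⟩ ⟨h2, mk_mem_par (Apt.refl c w) _⟩
  have hR := hNOROOT B G L hL hGL hNL
  obtain ⟨g, hg, hgw, rfl⟩ := (hTYU b).2.2.2 w υ i hw hty hcp
  obtain ⟨-, -, r0, r3, r12⟩ := hFF b hfit
  have hi : b.a i ⬝ᵥ w = 0 := by
    by_contra hne
    have h3 : Blk R w (b.u i) := hw.blk_iff.2 fun j hj => b.a_dot_u_ne fun e => hne (e ▸ hj)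
    have h4 := h3.map hg
    rw [hgw] at h4
    exact hnb h4
  by_cases h03 : i = 0 ∨ i = 3
  · exact hna (hR _ (RD.map (h03.elim (fun e => e ▸ r0) fun e => e ▸ r3) hg) d hυ)
  have h12 : i = 1 ∨ i = 2 := by omega
  obtain ⟨s, x, y, hs, hrd⟩ := r12 i h12
  have a12 : b.a 1 ⬝ᵥ w = 0 ∧ b.a 2 ⬝ᵥ w = 0 := by
    rcases h12 with rfl | rfl
    · exact ⟨hi, hrev 1 hi⟩
    · exact ⟨hrev 2 hi, hi⟩
  have a03 : ¬ (b.a 0 ⬝ᵥ w = 0 ∧ b.a 3 ⬝ᵥ w = 0) := fun h => hw0 (b.ext_a fun j => by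
    rw [dotProduct_zero]
    fin_cases j
    exacts [h.1, a12.1, a12.2, h.2])
  have hb : Blk R w (x • b.u 0 + y • b.u 3) := hw.blk_iff.2 fun j hj => by
    have j0 : j ≠ 0 := fun e => a03 ⟨e ▸ hj, hrev 0 (e ▸ hj)⟩
    have j3 : j ≠ 3 := fun e => a03 ⟨hrev 3 (e ▸ hj), e ▸ hj⟩
    rw [dotProduct_add, dotProduct_smul, dotProduct_smul, b.a_dot_u_ne j0, b.a_dot_u_ne j3,
      smul_zero, smul_zero, add_zero]
  generalize x • b.u 0 + y • b.u 3 = ψ at hrd hb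
  have hψ : mk d ψ ∈ L := by
    rw [hd ψ hb]
    exact hcen ψ hb
  have hs' := hL.smul_mem s hs.le _ hυ
  have hsum := hL.add_mem _ hs' _ hψ
  have e : add (smul s (mk d (g (b.u i)))) (mk d ψ) = mk d (g (s • b.u i + ψ)) := by
    rw [smul_mk _ _ hs.le, add_mk, map_add, map_smul, W_fix_blk hg hgw hb]
  have h5 : Ant L (add (smul s (mk d (g (b.u i)))) (mk d ψ)) := by
    rw [e] at hsum ⊢
    exact hR _ (hrd.map hg) d hsum
  exact hna (Ant.of_smul hL hs (hIDEAL B L _ _ hL hs' hψ h5))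

end Pool.Agent.P.MP_8ecd01_al.R4
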