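import Pool.Agent.P.MP_8ecd01_al.R4.IfaceA

/-! Step FD of the top-dimensional centre theorem in rank four. -/

namespace Pool.Agent.P.MP_8ecd01_al.R4

open Matrix Module

section
variable {n : ℕ} {R : RootSystem n} (b : Base R)

/-- The element of the Weyl group given by a word in the simple reflections. -/
noncomputable def fd_wd (l : List (Fin n)) : (Fin n → ℝ) ≃ₗ[ℝ] (Fin n → ℝ) :=
  (l.map fun i => rf (b.a i)).prod

theorem fd_cons (j : Fin n) (l : List (Fin n)) : fd_wd b (j :: l) = rf (b.a j) * fd_wd b l := by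
  simp [fd_wd]

theorem fd_concat (l : List (Fin n)) (i : Fin n) :
    fd_wd b (l ++ [i]) = fd_wd b l * rf (b.a i) := by
  simp [fd_wd]

theorem fd_mem (l : List (Fin n)) : fd_wd b l ∈ R.W := by
  induction l with
  | nil => exact one_mem _
  | cons j t ih => exact fd_cons b j t ▸ mul_mem (b.mem j).rf_mem ih

theorem fd_sign {x : Fin n → ℝ} (h : RD R x) :
    (∀ j, 0 ≤ x ⬝ᵥ b.ω j) ∨ ∀ j, x ⬝ᵥ b.ω j ≤ 0 := by
  obtain ⟨s, h0, hs⟩ := h
  refine (b.pos _ hs).imp (fun h j => ?_) fun h j => ?_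
  · have := h j
    rw [smul_dotProduct, smul_eq_mul] at this
    exact (mul_nonneg_iff_of_pos_left h0).1 this
  · have := h j
    rw [smul_dotProduct, smul_eq_mul] at this
    exact nonpos_of_mul_nonpos_right this h0

/-- The exchange condition. -/
theorem fd_exch (i : Fin n) (l : List (Fin n)) (h : ∀ j, fd_wd b l (b.a i) ⬝ᵥ b.ω j ≤ 0) :
    ∃ l2 : List (Fin n), l2.length + 1 = l.length ∧ fd_wd b l * rf (b.a i) = fd_wd b l2 := by
  induction l with
  | nil =>
    have : b.a i ⬝ᵥ b.ω i ≤ 0 := h i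
    rw [b.dual, if_pos rfl] at this
    exact absurd this (by norm_num)
  | cons j t ih =>
    have hβ := (b.mem i).map (fd_mem b t)
    rcases fd_sign b hβ with hp | hn
    · have h0 : ∀ m, m ≠ j → fd_wd b t (b.a i) ⬝ᵥ b.ω m = 0 := fun m hm => by
        have := h m
        rw [fd_cons, LinearEquiv.mul_apply, rf_apply, reflect_dot,
          reflect_of_dot (by rw [b.dual, if_neg hm.symm])] at this
        exact le_antisymm this (hp m)
      have e : fd_wd b t (b.a i) = (fd_wd b t (b.a i) ⬝ᵥ b.ω j) • b.a j :=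
        (b.expand_a _).trans (Finset.sum_eq_single j
          (fun m _ hm => by rw [h0 m hm, zero_smul]) (by simp))
      have hc : fd_wd b t (b.a i) ⬝ᵥ b.ω j ≠ 0 := fun c => hβ.ne (by rw [e, c, zero_smul])
      have e2 := W_conj (fd_mem b t) (b.a i)
      rw [e, rf_smul hc] at e2
      refine ⟨t, rfl, ?_⟩
      rw [fd_cons, e2, inv_mul_cancel_right, mul_assoc, rf_mul_self, mul_one]
    · obtain ⟨t2, h1, h2⟩ := ih hn
      exact ⟨j :: t2, by simp [h1], by rw [fd_cons, fd_cons, mul_assoc, h2]⟩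

theorem fd_main (m : ℕ) : ∀ l : List (Fin n), l.length ≤ m → ∀ v : Fin n → ℝ,
    b.Dom v → b.Dom (fd_wd b l v) → fd_wd b l v = v := by
  induction m with
  | zero =>
    intro l hl v _ _
    rw [List.length_eq_zero_iff.1 (Nat.le_zero.1 hl)]
    rfl
  | succ m ih =>
    intro l hl v hv hg
    rcases l.eq_nil_or_concat' with rfl | ⟨t, i, rfl⟩
    · rfl
    rw [List.length_append, List.length_singleton] at hl
    rcases fd_sign b ((b.mem i).map (fd_mem b t)) with hp | hn
    · have h1 : fd_wd b (t ++ [i]) (b.a i) ⬝ᵥ fd_wd b (t ++ [i]) v ≤ 0 :=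
        b.neg_dom (fun j => by
          rw [fd_concat, LinearEquiv.mul_apply, rf_apply, reflect_self, map_neg, neg_dotProduct]
          exact neg_nonpos.2 (hp j)) hg
      rw [W_dot (fd_mem b _)] at h1
      have e : fd_wd b (t ++ [i]) v = fd_wd b t v := by
        rw [fd_concat, LinearEquiv.mul_apply, rf_apply, reflect_of_dot (le_antisymm h1 (hv i))]
      rw [e] at hg ⊢
      exact ih t (by omega) v hv hg
    · obtain ⟨t2, h1, h2⟩ := fd_exch b i t hn
      rw [fd_concat, h2] at hg ⊢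
      exact ih t2 (by omega) v hv hg

end

theorem p_FD (hGEN : S_GEN) :
    S_FD := by
  intro n R b g hg
  obtain ⟨l, rfl⟩ := hGEN b (fun g => ∃ l, g = fd_wd b l) ⟨[], rfl⟩
    (fun _ _ i ⟨l, e⟩ => ⟨l ++ [i], by rw [fd_concat, e]⟩) g hg
  exact fd_main b _ l le_rfl

end Pool.Agent.P.MP_8ecd01_al.R4
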