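import Pool.Agent.P.MP_8ecd01_al.R4.IfaceC

/-! Step FF of the top-dimensional centre theorem in rank four. -/

namespace Pool.Agent.P.MP_8ecd01_al.R4

open Matrix Module

theorem ff_mem (i : Fin 4) : i ∈ all4 := by
  fin_cases i <;> simp [all4]

theorem ff_iso : (all4.all fun i => all4.all fun j => all4.all fun k => all4.all fun l =>
    !mF4.iso (get4 (i, j, k, l)) || decide ((i, j, k, l) = (0, 1, 2, 3)) ||
      decide ((i, j, k, l) = (3, 2, 1, 0))) = true := by
  decide +kernel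

/-- The Coxeter element on coordinates. -/
def ffc (m : Q) : Q := mF4.rq 0 (mF4.rq 2 (mF4.rq 1 (mF4.rq 3 m)))

theorem ff_six : ∀ k : Fin 4,
    ffc (ffc (ffc (ffc (ffc (ffc (eq4 k)))))) = lin (-1) (eq4 k) 0 (eq4 k) := by
  decide +kernel

theorem p_FF (hVEC : S_VEC) (hSNC : S_SNC) (hCERF : S_CERF) :
    S_FF := by
  intro R b hb
  obtain ⟨-, h2, h3, h4, h5, h6, -⟩ := hVEC b mF4 hb hCERF.1
  have hrd : ∀ i k, RD R (vec b (mF4.rq i (eq4 k))) := fun i k => by
    rw [← h4, h3]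
    exact (b.mem k).map (b.mem i).rf_mem
  have hs : ∀ i, 0 < √((mF4.bil (mF4.om i) (mF4.om i) : ℤ) : ℝ) := fun i =>
    Real.sqrt_pos.2 (Int.cast_pos.2 (h5 i).1)
  have hu : ∀ i, mF4.domin 30 (eq4 i) = mF4.om i → RD R (b.u i) := fun i e => by
    obtain ⟨g, hg, e'⟩ := h6 30 (eq4 i)
    have h := ((b.mem i).map hg).smul (inv_pos.2 (hs i))
    rwa [← h3, ← e', e, (h5 i).2, smul_smul, inv_mul_cancel₀ (hs i).ne', one_smul] at h
  refine ⟨fun σ hσ => ?_, ?_, hu 0 (by decide +kernel), hu 3 (by decide +kernel), ?_⟩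
  · have h1 := (hSNC b mF4 σ hb hCERF.1 hσ).1
    have e : get4 (σ 0, σ 1, σ 2, σ 3) = ⇑σ := by
      funext i
      fin_cases i <;> rfl
    have h := ff_iso
    simp only [List.all_eq_true] at h
    have h' := h _ (ff_mem (σ 0)) _ (ff_mem (σ 1)) _ (ff_mem (σ 2)) _ (ff_mem (σ 3))
    rw [e, h1] at h'
    simp only [Bool.not_true, Bool.false_or, Bool.or_eq_true, decide_eq_true_eq,
      Prod.mk.injEq] at h'
    rcases h' with ⟨e0, e1, e2, e3⟩ | ⟨e0, e1, e2, e3⟩
    · refine Or.inl (Equiv.ext fun i => ?_)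
      fin_cases i
      exacts [e0, e1, e2, e3]
    · refine Or.inr (Equiv.ext fun i => ?_)
      fin_cases i
      exacts [e0, e1, e2, e3]
  · let c := rf (b.a 0) * rf (b.a 2) * rf (b.a 1) * rf (b.a 3)
    have hc : c ∈ R.W := mul_mem (mul_mem (mul_mem (b.mem 0).rf_mem (b.mem 2).rf_mem)
      (b.mem 1).rf_mem) (b.mem 3).rf_mem
    have hv : ∀ m, c (vec b m) = vec b (ffc m) := fun m => by
      simp only [c, LinearEquiv.mul_apply, h4, ffc]
    have hk : ∀ k, (c * c * c * c * c * c) (b.a k) = -b.a k := fun k => by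
      rw [← h3]
      simp only [LinearEquiv.mul_apply, hv]
      rw [ff_six, h2]
      simp
    refine ⟨c * c * c * c * c * c, mul_mem (mul_mem (mul_mem (mul_mem (mul_mem hc hc) hc) hc) hc)
      hc, fun v => ?_⟩
    conv_lhs => rw [b.expand_a v]
    conv_rhs => rw [b.expand_a v]
    simp only [map_sum, map_smul, hk, smul_neg, Finset.sum_neg_distrib]
  · have key : ∀ (i j k : Fin 4) (r s t : ℤ), 0 < r →
        lin r (mF4.om i) 1 (lin s (mF4.om 0) t (mF4.om 3)) = mF4.rq j (eq4 k) →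
        ∃ s x y : ℝ, 0 < s ∧ RD R (s • b.u i + (x • b.u 0 + y • b.u 3)) := by
      intro i j k r s t hr e
      have h := hrd j k
      rw [← e, h2, h2, (h5 i).2, (h5 0).2, (h5 3).2, Int.cast_one, one_smul, smul_smul, smul_smul,
        smul_smul] at h
      exact ⟨_, _, _, mul_pos (Int.cast_pos.2 hr) (hs i), h⟩
    rintro i (rfl | rfl)
    · exact key 1 1 2 1 (-1) (-1) one_pos (by decide +kernel)
    · exact key 2 2 1 2 (-1) (-2) two_pos (by decide +kernel)

end Pool.Agent.P.MP_8ecd01_al.R4
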