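import Pool.Agent.P.MP_8ecd01_al.R4.IfaceB

/-! Step FOOT of the top-dimensional centre theorem in rank four. -/

namespace Pool.Agent.P.MP_8ecd01_al.R4

open Matrix Module Filter Topology

variable {n : ℕ}

/-- the directions of the affine space given by the equations `S` -/
def footW (S : Set ((Fin n → ℝ) × ℝ)) : Submodule ℝ (Fin n → ℝ) where
  carrier := {v | ∀ p ∈ S, v ⬝ᵥ p.1 = 0}
  add_mem' h h' p hp := by rw [add_dotProduct, h p hp, h' p hp, add_zero]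
  zero_mem' p _ := zero_dotProduct _
  smul_mem' r v h p hp := by rw [smul_dotProduct, h p hp, smul_zero]

/-- the point of least norm of this affine space -/
def footO (S : Set ((Fin n → ℝ) × ℝ)) : Set (Fin n → ℝ) :=
  {ω | (∀ p ∈ S, ω ⬝ᵥ p.1 = p.2) ∧ ∀ ψ ∈ footW S, ω ⬝ᵥ ψ = 0}

theorem foot_sub (S : Set ((Fin n → ℝ) × ℝ)) : (footO S).Subsingleton := by
  intro x hx y hy
  have h : x - y ∈ footW S := fun p hp => by rw [sub_dotProduct, hx.1 p hp, hy.1 p hp, sub_self]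
  rw [← sub_eq_zero, ← dotProduct_self_eq_zero]
  nth_rewrite 1 [sub_dotProduct]
  rw [hx.2 _ h, hy.2 _ h, sub_self]

theorem foot_fin {T : Set ((Fin n → ℝ) × ℝ)} (hT : T.Finite) :
    (⋃ S ∈ {S | S ⊆ T}, footO S).Finite :=
  hT.finite_subsets.biUnion fun S _ => (foot_sub S).finite

theorem foot_zero {D C : ℝ} (h : ∀ᶠ ε in 𝓝 (0 : ℝ), 2 * ε * D ≤ ε ^ 2 * C) : D = 0 := by
  have h1 : IsLocalMin (fun ε : ℝ => ε ^ 2 * C - 2 * ε * D) 0 :=
    h.mono fun ε hε => by simp only; linarith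
  have h2 : HasDerivAt (fun ε : ℝ => ε ^ 2 * C - 2 * ε * D)
      (((2 : ℕ) * 0 ^ (2 - 1)) * C - 2 * 1 * D) 0 :=
    ((hasDerivAt_pow 2 (0 : ℝ)).mul_const C).sub
      (((hasDerivAt_id (0 : ℝ)).const_mul 2).mul_const D)
  have h3 := h1.hasDerivAt_eq_zero h2
  simp only [Nat.add_one_sub_one, pow_one, mul_zero, zero_mul] at h3
  linarith

theorem p_FOOT :
    S_FOOT := by
  classical
  intro n R B _ _ A hA
  obtain ⟨Vec, hΛ⟩ := hA
  let T : Set ((Fin n → ℝ) × ℝ) := (fun α => (α, -1)) '' (Vec : Set (Fin n → ℝ)) ∪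
    (fun α => (α, 0)) '' (R.Φ : Set (Fin n → ℝ))
  have hT : T.Finite := (Vec.finite_toSet.image _).union (R.Φ.finite_toSet.image _)
  have hO := foot_fin hT
  refine ⟨{x | ∃ b, ∃ ω ∈ ⋃ S ∈ {S | S ⊆ T}, footO S, x = mk b ω}, ?_, fun z q hq hmin => ?_⟩
  · refine finT_of' hO ?_
    rintro _ ⟨b, ω, hω, rfl⟩
    exact ⟨b, ω, rfl, hω⟩
  obtain ⟨c, φ, ζ, rfl, rfl⟩ := common q z
  let S : Set ((Fin n → ℝ) × ℝ) := {p ∈ T | φ ⬝ᵥ p.1 = p.2}
  have key : ∀ v ∈ footW S, ((2 : ℝ) • ζ - φ) ⬝ᵥ v = 0 := by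
    intro v hv
    apply foot_zero (C := v ⬝ᵥ v)
    obtain ⟨ε0, h0, h1⟩ := exists_small R φ v
    have e1 : ∀ᶠ ε in 𝓝 (0 : ℝ), |ε| ≤ ε0 :=
      (continuous_abs.continuousAt.eventually_lt continuousAt_const (by simpa using h0)).mono
        fun _ => le_of_lt
    have e2 : ∀ᶠ ε in 𝓝 (0 : ℝ), ∀ α ∈ Vec, -1 < φ ⬝ᵥ α → -1 < φ ⬝ᵥ α + ε * v ⬝ᵥ α := by
      refine (eventually_all_finset Vec).2 fun α _ => ?_
      by_cases h : -1 < φ ⬝ᵥ α
      · have : ∀ᶠ ε in 𝓝 (0 : ℝ), -1 < φ ⬝ᵥ α + ε * v ⬝ᵥ α :=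
          ContinuousAt.eventually_lt continuousAt_const (by fun_prop) (by simpa using h)
        exact this.mono fun _ h _ => h
      · exact Eventually.of_forall fun _ h' => absurd h' h
    filter_upwards [e1, e2] with ε a1 a2
    have hc : Comono R φ (φ + ε • v) := by
      refine comono_of (fun β hβ h => (h1 ε a1 β hβ h).le) fun β hβ h => ?_
      have := hv (β, 0) ⟨.inr ⟨β, hβ, rfl⟩, by rw [dotProduct_comm]; exact h⟩
      rw [dotProduct_add, h, dotProduct_smul, dotProduct_comm β v, this, smul_zero, add_zero]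
    have hm : mk c (φ + ε • v) ∈ Lev A := by
      intro a ha
      obtain ⟨d, α, e, rfl⟩ := cb0 c φ a
      have hα : α ∈ Vec := hΛ _ ha d α rfl
      have h2 := hq _ ha
      rw [← e, ip_mk] at h2
      rw [← mk_comp e hc, ip_mk, add_dotProduct, smul_dotProduct, smul_eq_mul]
      rcases h2.lt_or_eq with h | h
      · exact (a2 α hα h).le
      · rw [hv (α, -1) ⟨.inl ⟨α, hα, rfl⟩, h.symm⟩, mul_zero, add_zero]
        exact h2
    have h3 := hmin _ hm
    rw [smul_mk _ _ zero_le_two, d2_mk, d2_mk, ← sub_sub] at h3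
    generalize (2 : ℝ) • ζ - φ = y at h3 ⊢
    rw [sub_dotProduct, dotProduct_sub, dotProduct_sub, dotProduct_smul, smul_dotProduct,
      smul_dotProduct, dotProduct_smul, dotProduct_comm v y] at h3
    simp only [smul_eq_mul] at h3
    nlinarith
  obtain ⟨u, hu, horth⟩ := exists_orth (footW S) φ
  refine ⟨mk c (φ - u), ⟨c, φ - u, Set.mem_biUnion (x := S) (fun p hp => hp.1)
    ⟨fun p hp => ?_, horth⟩, rfl⟩, ?_⟩
  · rw [sub_dotProduct, hu p hp, sub_zero, hp.2]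
  · rw [dist_comm (mk c ζ), dist_def, dist_def, d2_mk, d2_mk, sub_sub_cancel]
    have h1 := horth u hu
    have h2 := key u hu
    have h3 := dot_le (φ - ζ) u
    have h4 := Real.mul_self_sqrt (dot_self_nonneg u)
    have h5 := Real.sqrt_nonneg (u ⬝ᵥ u)
    have h6 := Real.sqrt_nonneg ((φ - ζ) ⬝ᵥ (φ - ζ))
    rw [sub_dotProduct] at h1 h2
    rw [smul_dotProduct, smul_eq_mul] at h2
    rw [sub_dotProduct φ ζ u] at h3
    by_contra hc
    nlinarith [not_le.1 hc]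

end Pool.Agent.P.MP_8ecd01_al.R4
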