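import Pool.Agent.P.MP_8ecd01_al.R4.IfaceC
import Pool.Agent.P.MP_8ecd01_al.R4.IfaceB

/-! Step FORB of the top-dimensional centre theorem in rank four. -/

namespace Pool.Agent.P.MP_8ecd01_al.R4

open Matrix Module

theorem p_FORB (hVEC : S_VEC) (hSNJ : S_SNJ) (hSNH : S_SNH) (hELJ : S_ELJ) (hELH : S_ELH) (hNOROOT : S_NOROOT) :
    S_FORB := by
  intro R B _ _ b M l G K hF hok hK hG hN hC hall
  obtain ⟨-, -, h3, -, h5, h6, -, h8⟩ := hVEC b M hF hok
  have hI : Inv R (Forb K) := inv_forb hK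
  have hall4 : ∀ i : Fin 4, i ∈ all4 := fun i => by fin_cases i <;> simp [all4]
  have hpos : ∀ i, 0 < √((M.bil (M.om i) (M.om i) : ℤ) : ℝ) := fun i =>
    Real.sqrt_pos.2 (by exact_mod_cast (h5 i).1)
  have key : ∀ (l : List Stage) (F : List Q), (∀ st ∈ l, Clo b G (cls st.2)) →
      (∀ f ∈ F, Forb K (vec b f)) → M.chkAll F l = true → ∀ i, Forb K (b.u i) := by
    intro l
    induction l with
    | nil =>
      intro F _ hf h i
      have h1 := h8 _ F _ hI hf (List.all_eq_true.1 h i (hall4 i))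
      have h2 := hI.smul _ (inv_pos.2 (hpos i)) _ h1
      rwa [(h5 i).2, smul_smul, inv_mul_cancel₀ (hpos i).ne', one_smul] at h2
    | cons st l ih =>
      intro F hc hf h
      rw [Model.chkAll, Bool.and_eq_true] at h
      have h1 : ∀ i ∈ cls st.2, Forb K (b.u i) := by
        have h2 := h.1
        split_ifs at h2
        · exact hELH B b G K _ le_rfl hK hG hN (hc st List.mem_cons_self)
            (hSNH b M _ F st.2 hF hok hI hf h2)
        · exact hELJ B b G K _ hK hG hN (hc st List.mem_cons_self)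
            (hSNJ b M _ F st.2 hF hok hI hf h2)
      refine ih _ (fun s hs => hc s (List.mem_cons_of_mem _ hs)) (fun f hm => ?_) h.2
      rcases List.mem_append.1 hm with hm | hm
      · exact hf f hm
      · obtain ⟨p, hp, rfl⟩ := List.mem_map.1 hm
        rw [(h5 p.1).2]
        exact hI.smul _ (hpos _) _ (h1 _ ⟨p, hp, rfl⟩)
  refine key l M.roots hC (fun f hm => ?_) hall
  obtain ⟨i, -, rfl⟩ := List.mem_map.1 hm
  obtain ⟨g, hg, e⟩ := h6 30 (eq4 i)
  rw [e, h3]
  exact hNOROOT B G K hK hG hN _ ((b.mem i).map hg)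

end Pool.Agent.P.MP_8ecd01_al.R4
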