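import Pool.Agent.P.MP_8ecd01_al.R4.IfaceC
import Pool.Agent.P.MP_8ecd01_al.R4.IfaceA
import Pool.Agent.P.MP_8ecd01_al.R4.IfaceB

/-! Step FZ of the top-dimensional centre theorem in rank four. -/

namespace Pool.Agent.P.MP_8ecd01_al.R4

open Matrix Module

theorem p_FZ (hTYU : S_TYU) (hDL : S_DL) (hHULL : S_HULL) (hFORB : S_FORB) (hCERF : S_CERF) :
    S_FZ := by
  intro R B _ _ b G K F p hF hK hG h1 h2 h3 h4 h5
  have hS : Sym {g | g ∈ G ∧ Act b g 1} K := by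
    refine ⟨fun g hg => hG.ip_eq g hg.1, fun g hg => hG.simp g hg.1, fun g hg => hG.maps g hg.1,
      fun g hg => ?_, fun g hg h hh => ⟨hG.comp g hg.1 h hh.1, fun c => ?_⟩,
      hG.one, fun c => ⟨c, fun _ _ => rfl⟩⟩
    · obtain ⟨h, hh, e⟩ := hG.inv g hg.1
      obtain ⟨σ, hσ⟩ := hDL B b G K hG h hh
      have hσ1 : σ = 1 := Equiv.ext fun i => by
        have a1 : IsV b i (mk (std B) (b.u i)) := ⟨_, rfl⟩
        have a2 := hg.2.isV (hσ.isV a1)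
        rw [(e _).1] at a2
        exact (hTYU b).1 _ _ _ (isV_iff.1 a2) (b.ty_u i)
      exact ⟨h, ⟨hh, hσ1 ▸ hσ⟩, e⟩
    · obtain ⟨d, hd⟩ := hh.2 c
      obtain ⟨e, he⟩ := hg.2 d
      exact ⟨e, fun t ht => (congrArg g (hd t ht)).trans (he t ht)⟩
  refine ⟨hS, fun hN => ?_⟩
  obtain ⟨L, -, a1, a2, a3, -, d, i, υ, -, ⟨g, hg, rfl⟩, -, -, a4, a5⟩ :=
    hHULL B b _ K F p (std B) 0 hK hS hN h1 h2 h3 h4 h5 (fun x _ => mem_par_zero _ x)
      (by rw [mk_zero]; exact hK.zero_mem) (by rw [neg_zero, mk_zero]; exact hK.zero_mem)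
  have a6 := hFORB B b mF4 sF4 _ L hF hCERF.1 a1 a2 a3
    (fun st _ g hg j hj x hx => ⟨j, hj, hg.2.isV hx⟩) hCERF.2 i
  exact a5 ((inv_forb a1).map g hg _ a6 d a4)

end Pool.Agent.P.MP_8ecd01_al.R4
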