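import Pool.Agent.P.MP_8ecd01_al.R4.IfaceA

/-! Step GEN of the top-dimensional centre theorem in rank four. -/

namespace Pool.Agent.P.MP_8ecd01_al.R4

open Matrix Module

theorem gen_pos {n : ℕ} {R : RootSystem n} (b : Base R)
    (P : ((Fin n → ℝ) ≃ₗ[ℝ] (Fin n → ℝ)) → Prop)
    (h : ∀ g ∈ R.W, ∀ i, P g → P (g * rf (b.a i))) (k : ℕ) : ∀ α ∈ R.Φ, (∀ i, 0 ≤ α ⬝ᵥ b.ω i) →
      (R.Φ.filter fun β => ∑ i, β ⬝ᵥ b.ω i < ∑ i, α ⬝ᵥ b.ω i).card = k →
      ∀ g ∈ R.W, P g → P (g * rf α) := by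
  induction k using Nat.strong_induction_on with
  | _ k ih =>
  intro α hα h0 hk g hg hP
  have h1 := dot_self_pos (root_ne hα)
  rw [b.dot_eq] at h1
  obtain ⟨i, -, hi⟩ := Finset.exists_lt_of_sum_lt
    (f := fun _ => (0 : ℝ)) (Finset.sum_const_zero.trans_lt h1)
  obtain ⟨h2, h3⟩ := (mul_pos_iff.1 hi).resolve_right fun e => (h0 i).not_gt e.1
  by_cases e : ∀ j, j ≠ i → α ⬝ᵥ b.ω j = 0
  · rw [b.expand_a α, Finset.sum_eq_single i (fun j _ hj => by rw [e j hj, zero_smul]) (by simp),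
      rf_smul h2.ne']
    exact h g hg i hP
  simp only [not_forall] at e
  obtain ⟨j, hj, e⟩ := e
  have m := (b.mem i).rf_mem
  have h4 := W_root m hα
  have h5 : ∑ l, rf (b.a i) α ⬝ᵥ b.ω l < ∑ l, α ⬝ᵥ b.ω l := by
    have c : 0 < 2 * (b.a i ⬝ᵥ α) / (b.a i ⬝ᵥ b.a i) :=
      div_pos (by linarith) (dot_self_pos (b.mem i).ne)
    simp only [rf_apply, reflect, sub_dotProduct, smul_dotProduct, b.dual, Finset.sum_sub_distrib,
      smul_eq_mul, mul_ite, mul_one, mul_zero, Finset.sum_ite_eq, Finset.mem_univ, if_true]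
    linarith
  have h6 : rf α = rf (b.a i) * rf (rf (b.a i) α) * rf (b.a i) := by
    have := W_conj m (rf (b.a i) α)
    rwa [rf_inv, rf_apply, rf_apply, reflect_reflect] at this
  rw [h6, ← mul_assoc, ← mul_assoc]
  refine h _ (mul_mem (mul_mem hg m) (rf_mem h4)) i (ih _ ?_ _ h4
    (b.perm hα hj ((h0 j).lt_of_ne' e)) rfl _ (mul_mem hg m) (h g hg i hP))
  rw [← hk]
  refine Finset.card_lt_card ((Finset.ssubset_iff_of_subset fun β hβ => ?_).2
    ⟨_, Finset.mem_filter.2 ⟨h4, h5⟩, fun hβ => lt_irrefl _ (Finset.mem_filter.1 hβ).2⟩)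
  exact Finset.mem_filter.2 ⟨(Finset.mem_filter.1 hβ).1, (Finset.mem_filter.1 hβ).2.trans h5⟩

theorem p_GEN :
    S_GEN := by
  intro n R b P h1 h
  refine W_induction h1 fun g hg α hα hP => ?_
  rcases b.pos α hα with e | e
  · exact gen_pos b P h _ α hα e rfl g hg hP
  · have := gen_pos b P h _ _ (root_neg hα)
      (fun i => by rw [neg_dotProduct]; linarith [e i]) rfl g hg hP
    rwa [← neg_one_smul ℝ, rf_smul (by norm_num)] at this

end Pool.Agent.P.MP_8ecd01_al.R4
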