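import Pool.Agent.P.MP_8ecd01_al.R4.IfaceB

/-! Step HEX of the top-dimensional centre theorem in rank four. -/

namespace Pool.Agent.P.MP_8ecd01_al.R4

open Matrix Module

variable {n : ℕ} {R : RootSystem n} {B : Building R} [COX R] [API B]

theorem hex_comb (hIDEAL : S_IDEAL) {K : Set B.X} (hK : Cone K) {x y : B.X} (hx : x ∈ K)
    (hy : y ∈ K) {s t : ℝ} (hs : 0 ≤ s) (ht : 0 ≤ t) (h0 : 0 < s + t)
    (h : Ant K (add (smul s x) (smul t y))) : Ant K x ∨ Ant K y := by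
  have h1 := hK.smul_mem s hs x hx
  have h2 := hK.smul_mem t ht y hy
  rcases hs.eq_or_lt with e | e
  · rw [add_comm'] at h
    exact .inr ((hIDEAL B K _ _ hK h2 h1 h).of_smul hK (by linarith))
  · exact .inl ((hIDEAL B K _ _ hK h1 h2 h).of_smul hK e)

theorem hex_one (hIDEAL : S_IDEAL) {b : Base R} {K : Set B.X} {C : Set (Fin n)} (hK : Cone K)
    (hC : CondH b (Forb K) C) {x y : B.X} (hx : x ∈ K ∧ ¬ Ant K x ∧ ∃ i ∈ C, IsV b i x)
    (hy : y ∈ K ∧ ¬ Ant K y ∧ ∃ i ∈ C, IsV b i y) :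
    -1 < 4 * ip x y ∨ (2 * ip x y = -1 ∧
      add x y ∈ K ∧ ¬ Ant K (add x y) ∧ ∃ i ∈ C, IsV b i (add x y)) := by
  obtain ⟨x1, x2, i, hi, c, rfl⟩ := hx
  obtain ⟨y1, y2, j, hj, y3⟩ := hy
  obtain ⟨d, v, e, rfl⟩ := cb0 c (b.u i) y
  rw [← e] at x1 x2 ⊢
  rcases hC.1 i hi j hj v (isV_iff.1 y3) with h | ⟨s, t, hs, ht, h0, h⟩ | ⟨h, k, hk, h'⟩
  · exact .inl (by rwa [ip_mk])
  · have e1 : mk d (s • b.u i + t • v) = add (smul s (mk d (b.u i))) (smul t (mk d v)) := by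
      rw [smul_mk _ _ hs, smul_mk _ _ ht, add_mk]
    have h1 := h d
    rw [e1] at h1
    exact ((hex_comb hIDEAL hK x1 y1 hs ht h0 (h1 (hK.add_mem _ (hK.smul_mem s hs _ x1) _
      (hK.smul_mem t ht _ y1)))).elim x2 y2).elim
  · refine .inr ⟨by rwa [ip_mk], hK.add_mem _ x1 _ y1, fun a => x2 (hIDEAL B K _ _ hK x1 y1 a),
      k, hk, ?_⟩
    rw [add_mk]
    exact isV_iff.2 h'

theorem hex_gr {c : Ch B} {w : Fin n → ℝ} {u v : B.X} (h : add u v = mk c w) :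
    add (gr c w u) (gr c w v) = mk c w := by
  obtain ⟨e, m, l, rfl, rfl⟩ := common u v
  rw [add_mk] at h
  obtain ⟨g, hg, hw⟩ := typ h
  have k : ∀ a, mk e a = mk (cw e (inv_mem hg)) (g a) := fun a => by rw [mk_cw, inv_apply_self]
  rw [k, ← hw] at h
  obtain ⟨d, h1, h2, -⟩ := gr_basis h
  rw [k m, k l, h2, h2, add_mk, ← map_add, ← hw, h1 w (Blk.refl w)]

theorem hex_key (hIDEAL : S_IDEAL) {b : Base R} {K : Set B.X} {C : Set (Fin n)} (hK : Cone K)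
    (hC : CondH b (Forb K) C) {c : Ch B} {i : Fin n} (hi : i ∈ C) (w1 : mk c (b.u i) ∈ K)
    (w2 : ¬ Ant K (mk c (b.u i))) {u z : B.X} (hu : u ∈ K ∧ ¬ Ant K u ∧ ∃ i ∈ C, IsV b i u)
    (hz : z ∈ K ∧ ¬ Ant K z ∧ ∃ i ∈ C, IsV b i z) (e1 : 2 * ip (mk c (b.u i)) u = 1)
    (e2 : 2 * ip (mk c (b.u i)) z = -1)
    (e3 : 4 * ip (gr c (b.u i) u) (gr c (b.u i) z) ≤ -1) : False := by
  have l1 := ip_le_gr c (b.u i) u z
  have e4 : 2 * ip u z = -1 :=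
    ((hex_one hIDEAL hK hC hu hz).resolve_left (by linarith)).1
  obtain ⟨u1, u2, j, hj, u3⟩ := hu
  obtain ⟨z1, z2, k, hk, z3⟩ := hz
  obtain ⟨d, m, l, hd, g1, g2⟩ := common_par (gr_mem c (b.u i) u) (gr_mem c (b.u i) z)
  have hw := hd _ (Blk.refl (b.u i))
  have t1 := u3.gr c (b.u i)
  have t2 := z3.gr c (b.u i)
  have a1 := ip_gr_base c (b.u i) u
  have a2 := ip_gr_base c (b.u i) z
  have a3 : ip (gr c (b.u i) u) (gr c (b.u i) z) = m ⬝ᵥ l := by rw [g1, g2, ip_mk]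
  rw [g1] at t1
  rw [g2] at t2
  have a4 : b.u i ⬝ᵥ m = ip (mk c (b.u i)) u := by rw [← a1, g1, ← hw, ip_mk]
  have a5 : b.u i ⬝ᵥ l = ip (mk c (b.u i)) z := by rw [← a2, g2, ← hw, ip_mk]
  obtain ⟨e5, r, s, t, hr, hs, ht, h0, h⟩ := hC.2 i hi j hj k hk m l (isV_iff.1 t1) (isV_iff.1 t2)
    (by linarith) (by linarith) (by linarith) (by linarith)
  have m1 := hK.smul_mem r hr _ w1
  have m2 := hK.add_mem _ (hK.smul_mem s hs _ u1) _ (hK.smul_mem t ht _ z1)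
  have f : gr c (b.u i) (add (smul r (mk c (b.u i))) (add (smul s u) (smul t z))) =
      mk d (r • b.u i + (s • m + t • l)) := by
    rw [gr_add_base c _ hr, gr_flat, gr_smul c _ hs, gr_smul c _ ht, g1, g2, ← hw,
      smul_mk _ _ hr, smul_mk _ _ hs, smul_mk _ _ ht, add_mk, add_mk]
    rw [gr_smul c _ hs, gr_smul c _ ht, ip_smul_left hs, ip_smul_left hs, ip_smul_right ht,
      ip_smul_right ht, a3, show m ⬝ᵥ l = ip u z by linarith]
  have q := h.ant_gr hK (hK.add_mem _ m1 _ m2) f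
  rcases hr.eq_or_lt with e | e
  · rw [add_comm'] at q
    exact (hex_comb hIDEAL hK u1 z1 hs ht (by linarith) (hIDEAL B K _ _ hK m2 m1 q)).elim u2 z2
  · exact w2 ((hIDEAL B K _ _ hK m1 m2 q).of_smul hK e)

theorem p_HEX (hIDEAL : S_IDEAL) :
    S_HEX := by
  intro n R B _ _ b K V C hK hC hV
  subst hV
  refine ⟨fun x hx y hy => hex_one hIDEAL hK hC hx hy, fun u hu v hv z hz e => ?_⟩
  have hw := ((hex_one hIDEAL hK hC hu hv).resolve_left (by linarith)).2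
  by_contra hc
  have e2 := ((hex_one hIDEAL hK hC hw hz).resolve_left hc).1
  have u1 : ip u u = 1 := by obtain ⟨-, -, j, -, h⟩ := hu; exact h.unit
  have v1 : ip v v = 1 := by obtain ⟨-, -, j, -, h⟩ := hv; exact h.unit
  have a1 := ip_add_left_self u v
  have a2 := ip_add_right_self u v
  rw [ip_comm v u] at a1
  obtain ⟨w1, w2, i, hi, c, w3⟩ := hw
  have a3 := ip_add_ge (gr c (b.u i) u) (gr c (b.u i) v) (gr c (b.u i) z)
  rw [hex_gr w3, ip_gr_base] at a3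
  rw [w3] at w1 w2 e2 a1 a2
  by_cases h : 4 * ip (gr c (b.u i) u) (gr c (b.u i) z) ≤ -1
  · exact hex_key hIDEAL hK hC hi w1 w2 hu hz (by linarith) e2 h
  · exact hex_key hIDEAL hK hC hi w1 w2 hv hz (by linarith) e2 (by linarith)

end Pool.Agent.P.MP_8ecd01_al.R4
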