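import Pool.Agent.P.MP_8ecd01_al.R4.IfaceB

/-! Step HULL of the top-dimensional centre theorem in rank four. -/

namespace Pool.Agent.P.MP_8ecd01_al.R4

open Matrix Module

theorem hull_cone {n : ℕ} {R : RootSystem n} {B : Building R} [COX R] [API B] (A : Set B.X) :
    Cone {y | ∀ L : Set B.X, Cone L → A ⊆ L → y ∈ L} := by
  refine ⟨?_, fun L h _ => h.zero_mem, fun x hx y hy L h e => h.add_mem x (hx L h e) y (hy L h e),
    fun r hr x hx L h e => h.smul_mem r hr x (hx L h e)⟩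
  have : {y | ∀ L : Set B.X, Cone L → A ⊆ L → y ∈ L} = ⋂₀ {L | Cone L ∧ A ⊆ L} := by
    ext y
    simp
  rw [this]
  exact isClosed_sInter fun L h => h.1.closed

theorem p_HULL (hSYM : S_SYM) (hORB : S_ORB) (hFIX : S_FIX) (hJANT : S_JANT) (hNV : S_NV) (hCEN : S_CEN) :
    S_HULL := by
  intro n R B _ _ b G K F p c0 w hK hG hno hF hFK hT hp hA hKP hw hw'
  set F1 : Set B.X := insert p (insert (mk c0 w) (insert (mk c0 (-w)) F)) with hF1
  have hB : F1 ⊆ K := Set.insert_subset hp (Set.insert_subset hw (Set.insert_subset hw' hFK))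
  have fin : ∀ S : Set B.X, S.Finite → FinT {x | ∃ a ∈ S, ∃ g ∈ G, x = g a} := by
    intro S hS
    induction S, hS using Set.Finite.induction_on with
    | empty => exact ⟨∅, fun _ ⟨_, h, _⟩ => h.elim⟩
    | @insert a s _ _ ih =>
      refine ((hORB B G K hG a).union ih).mono ?_
      rintro x ⟨a', rfl | hb, h⟩
      exacts [.inl h, .inr ⟨a', hb, h⟩]
  set A : Set B.X := {x | ∃ a ∈ F1, ∃ g ∈ G, x = g a} with hAd
  have fA : FinT A := fin _ (((hF.insert _).insert _).insert p)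
  have AK : A ⊆ K := by
    rintro _ ⟨a, ha, g, hg, rfl⟩
    exact hG.maps g hg a (hB ha)
  have inA : F1 ⊆ A := fun a ha => ⟨a, ha, id, hG.one, rfl⟩
  have invA : ∀ g ∈ G, ∀ a ∈ A, g a ∈ A := by
    rintro g hg _ ⟨a, ha, h, hh, rfl⟩
    exact ⟨a, ha, g ∘ h, hG.comp g hg h hh, rfl⟩
  set K2 : Set B.X := {y | ∀ L : Set B.X, Cone L → A ⊆ L → y ∈ L} with hK2
  have c2 : Cone K2 := hull_cone A
  have A2 : A ⊆ K2 := fun a ha L _ e => e ha
  have s2 : K2 ⊆ K := fun y hy => hy K hK AK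
  have g2 : Sym G K2 := ⟨hG.ip_eq, hG.simp, fun g hg x hx =>
    hx _ ((hSYM B G K hG g hg).2.2.2.2.2 K2 c2) fun a ha => A2 (invA g hg a ha),
    hG.inv, hG.comp, hG.one⟩
  have no2 : NoFix G K2 := fun ⟨c, h1, h2⟩ => hno ⟨c, s2 h1, h2⟩
  have w2 : Wide K2 A := by
    intro c hc h0
    by_contra hz
    have pos : ∀ y ∈ K2, 0 ≤ ip y c := fun y hy =>
      hy _ (cone_half c) fun a ha => (h0 a ha).trans_eq (ip_comm c a)
    have O2 : {x | ∃ g ∈ G, x = g c} ⊆ K2 := by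
      rintro _ ⟨g, hg, rfl⟩
      exact g2.maps g hg c hc
    have fO := hORB B G K hG c
    have r0 := ip_self_pos hz
    obtain ⟨q, hq, e⟩ := hJANT B K2 _ (ip c c) c2 O2 fO r0
      (by rintro _ ⟨g, hg, rfl⟩; exact hG.ip_eq g hg c c)
      (by
        rintro _ ⟨g, hg, rfl⟩ y hy
        obtain ⟨h, hh, e⟩ := hG.inv g hg
        have h1 := g2.maps h hh y (O2 hy)
        have h2 := hG.ip_eq g hg c (h y)
        rw [(e y).1, ip_comm c] at h2
        have h3 := mul_nonneg (Nat.cast_nonneg (α := ℝ) n) (pos _ h1)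
        rw [h2]
        linarith)
      (by
        intro y
        by_contra hy
        refine hFIX B G K2 _ c2 g2 O2 fO ⟨c, id, hG.one, rfl⟩ ?_
          ⟨y, fun a ha => lt_of_not_ge fun e => hy ⟨a, ha, e⟩⟩ no2
        rintro g hg _ ⟨h, hh, rfl⟩
        exact ⟨g ∘ h, hG.comp g hg h hh, rfl⟩)
      c ⟨id, hG.one, rfl⟩
    have h1 := (ip_of_add_eq_zero e).1
    have h2 := pos q hq
    rw [ip_comm] at h2
    linarith
  have P2 : K2 ⊆ Par c0 w := s2.trans hKP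
  have e2 : K2 ∩ Par c0 w = K2 := Set.inter_eq_left.2 P2
  have T2 : Top K2 := hT.mono fun a ha => A2 (inA (.inr (.inr (.inr ha))))
  refine ⟨K2, s2, c2, g2, no2, fun ψ hψ => hCEN B K2 c0 w ψ c2 P2 T2 (w2.mono A2) hψ, ?_⟩
  exact hNV B b K2 A c0 w p c2 T2 (A2 (inA (.inr (.inl rfl)))) (A2 (inA (.inr (.inr (.inl rfl)))))
    (by rw [e2]; exact A2) fA (by rw [e2]; exact w2) (A2 (inA (.inl rfl)))
    fun ⟨q, h1, h2⟩ => hA ⟨q, s2 h1, h2⟩

end Pool.Agent.P.MP_8ecd01_al.R4
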