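import Pool.Agent.P.MP_8ecd01_al.R4.IfaceB

/-! Step JMIN of the top-dimensional centre theorem in rank four. -/

namespace Pool.Agent.P.MP_8ecd01_al.R4

open Matrix Module

theorem p_JMIN (hMAX : S_MAX) :
    S_JMIN := by
  intro n R B _ _ K A hK hA hF ⟨y0, hy0, h0⟩ hs
  have nrm : ∀ r : ℝ, 0 ≤ r → ∀ y : B.X, √(ip (smul r y) (smul r y)) = r * √(ip y y) :=
    fun r hr y => by
      rw [ip_smul_left hr, ip_smul_right hr, ← mul_assoc, Real.sqrt_mul (mul_self_nonneg r),
        Real.sqrt_mul_self hr]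
  have unit : ∀ y : B.X, 0 < √(ip y y) →
      ip (smul (√(ip y y))⁻¹ y) (smul (√(ip y y))⁻¹ y) = 1 := fun y hy => by
    rw [← Real.sqrt_eq_one, nrm _ (by positivity), inv_mul_cancel₀ hy.ne']
  by_cases hW : Wide K A
  · obtain ⟨x0, hx, hl, hm⟩ := hMAX B K A hK hA hF hW
    have key : ∀ y ∈ K, ∀ r : ℝ, 0 < r → (∀ a ∈ A, -r ≤ ip y a) →
        √(ip y y) ≤ r * √(ip x0 x0) := fun y hy r hr h => by
      have h1 := Real.sqrt_le_sqrt (hm _ (hK.smul_mem r⁻¹ (by positivity) y hy) fun a ha => by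
        rw [ip_smul_left (by positivity), le_inv_mul_iff₀ hr, mul_neg_one]
        exact h a ha)
      rwa [nrm _ (by positivity), inv_mul_le_iff₀ hr] at h1
    obtain ⟨ρ, hR, hb⟩ := hF.bdd
    have h1 := Real.sqrt_pos.2 (ip_self_pos h0)
    have h2 : 0 < √(ip x0 x0) := by
      have h3 := key y0 hy0 (√(ip y0 y0) * ρ) (by positivity) fun a ha =>
        neg_le_of_abs_le ((abs_ip_le y0 a).trans (mul_le_mul_of_nonneg_left (hb a ha) h1.le))
      exact (pos_iff_pos_of_mul_pos (h1.trans_le h3)).1 (by positivity)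
    have h3 : 0 < (√(ip x0 x0))⁻¹ := by positivity
    refine ⟨_, hK.smul_mem _ h3.le x0 hx, _, h3.le, unit x0 h2, fun a ha => ?_, fun y hy => ?_⟩
    · rw [ip_smul_left h3.le]
      nlinarith [hl a ha]
    · by_contra hc
      push Not at hc
      obtain ⟨δ, hδ, hg⟩ := hF.gap y (-(√(ip x0 x0))⁻¹ * √(ip y y))
      have h4 := fun a ha => (hg a ha).1 (hc a ha)
      by_cases h5 : (√(ip x0 x0))⁻¹ * √(ip y y) ≤ δ
      · obtain ⟨a, ha, h6⟩ := hs y hy
        have h7 := h4 a ha
        obtain rfl := hW y hy fun a ha => by linarith [h4 a ha]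
        rw [ip_zero_left, Real.sqrt_zero] at h7
        linarith
      · have h6 := key y hy _ (sub_pos.2 (not_le.1 h5)) fun a ha => by linarith [h4 a ha]
        rw [sub_mul, mul_right_comm, inv_mul_cancel₀ h2.ne', one_mul] at h6
        linarith [mul_pos hδ h2]
  · unfold Wide at hW
    push Not at hW
    obtain ⟨y, hy, h1, h2⟩ := hW
    have h3 := Real.sqrt_pos.2 (ip_self_pos h2)
    refine ⟨_, hK.smul_mem _ (by positivity) y hy, 0, le_rfl, unit y h3, fun a ha => ?_,
      fun z hz => by simpa using hs z hz⟩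
    rw [ip_smul_left (by positivity), neg_zero]
    exact mul_nonneg (by positivity) (h1 a ha)

end Pool.Agent.P.MP_8ecd01_al.R4
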