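import Pool.Agent.P.MP_8ecd01_al.R4.IfaceA

/-! Step LOC of the top-dimensional centre theorem in rank four. -/

namespace Pool.Agent.P.MP_8ecd01_al.R4

open Matrix Module

theorem p_LOC : S_LOC := by
  intro n R B _ b c d e i ζ ξ hd he h
  have key : ∀ φ, b.Dom φ → b.a i ⬝ᵥ φ = 0 → mk d φ = mk e φ := fun φ h1 h2 => by
    rw [hd φ h1, he φ h1, rf_apply, reflect_of_dot h2]
  have hA := dot_self_pos (b.mem i).ne
  have h0 : ζ ⬝ᵥ ζ = ξ ⬝ᵥ ξ := (mk_lin h h le_rfl le_rfl).2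
  have h1 : ∀ j, j ≠ i → (ξ - ζ) ⬝ᵥ b.ω j = 0 := fun j hj => by
    have := (mk_lin h (key (b.ω j) (fun l => by rw [b.dual]; split_ifs <;> norm_num)
      (by rw [b.dual, if_neg hj.symm])) le_rfl le_rfl).2
    rw [sub_dotProduct, this, sub_self]
  obtain ⟨s, hs⟩ : ∃ s : ℝ, ξ = ζ + s • b.a i := ⟨(ξ - ζ) ⬝ᵥ b.ω i, by
    have := b.expand_a (ξ - ζ)
    rw [Finset.sum_eq_single i (fun j _ hj => by rw [h1 j hj, zero_smul]) (by simp)] at this
    rw [← this, add_sub_cancel]⟩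
  have h2 : s * (2 * (b.a i ⬝ᵥ ζ) + s * (b.a i ⬝ᵥ b.a i)) = 0 := by
    rw [hs] at h0
    simp only [add_dotProduct, dotProduct_add, smul_dotProduct, dotProduct_smul, smul_eq_mul,
      dotProduct_comm ζ (b.a i)] at h0
    linarith
  rcases mul_eq_zero.1 h2 with h3 | h3
  · rw [h3, zero_smul, add_zero] at hs
    subst hs
    have h4 : b.a i ⬝ᵥ ξ ≤ 0 := by
      by_contra h5
      have h5 := not_le.1 h5
      let p : Fin n → ℝ := ∑ j ∈ Finset.univ.erase i, b.ω j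
      have hp : ∀ l, b.a l ⬝ᵥ p = if l = i then 0 else 1 := fun l => by
        simp only [p, dotProduct_sum, b.dual]
        rw [Finset.sum_ite_eq]
        simp
      let M : ℝ := ∑ j, |b.a j ⬝ᵥ ξ|
      have hM : ∀ j, |b.a j ⬝ᵥ ξ| ≤ M := fun j =>
        Finset.single_le_sum (f := fun j => |b.a j ⬝ᵥ ξ|) (fun _ _ => abs_nonneg _)
          (Finset.mem_univ j)
      have hq : ∀ l, b.a l ⬝ᵥ (M • p + (1 : ℝ) • ξ) =
          M * (if l = i then 0 else 1) + b.a l ⬝ᵥ ξ := fun l => by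
        rw [dotProduct_add, dotProduct_smul, hp, one_smul, smul_eq_mul]
      have h6 := (mk_lin (key p (fun l => by rw [hp]; split_ifs <;> norm_num)
        (by rw [hp, if_pos rfl])) h ((abs_nonneg _).trans (hM i)) zero_le_one).1
      have h7 : b.Dom (M • p + (1 : ℝ) • ξ) := fun l => by
        rw [hq]
        split_ifs with hl
        · rw [hl]; linarith
        · linarith [neg_abs_le (b.a l ⬝ᵥ ξ), hM l]
      rw [hd _ h7, he _ h7] at h6
      have h8 := congrArg (b.a i ⬝ᵥ ·) (mk_inj h6)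
      simp only [rf_apply, self_dot_reflect] at h8
      rw [hq, if_pos rfl] at h8
      linarith
    refine ⟨-(2 * (b.a i ⬝ᵥ ξ) / (b.a i ⬝ᵥ b.a i)), ?_, ?_⟩
    · exact neg_nonneg.2 (div_nonpos_of_nonpos_of_nonneg (by linarith) hA.le)
    · rw [rf_apply, reflect, neg_smul, sub_eq_add_neg]
  · refine ⟨0, le_rfl, ?_⟩
    have h4 : 2 * (b.a i ⬝ᵥ ξ) / (b.a i ⬝ᵥ b.a i) = s := by
      rw [div_eq_iff hA.ne', hs, dotProduct_add, dotProduct_smul, smul_eq_mul]
      linarith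
    rw [rf_apply, reflect, h4, zero_smul, add_zero, hs, add_sub_cancel_right]

end Pool.Agent.P.MP_8ecd01_al.R4
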