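import Pool.Agent.P.MP_8ecd01_al.R4.IfaceC
import Pool.Agent.P.MP_8ecd01_al.R4.IfaceB

/-! Step MAIN of the top-dimensional centre theorem in rank four. -/

namespace Pool.Agent.P.MP_8ecd01_al.R4

open Matrix Module

theorem p_MAIN (hCLASS : S_CLASS) (hCERT : S_CERT) (hDL : S_DL) (hSNC : S_SNC) (hHULL : S_HULL) (hFORB : S_FORB) (hFB : S_FB) :
    S_MAIN := by
  intro R B _ _ G K F p hK hG hF hFK hT hp hA hno
  obtain ⟨b, x, hx, hb⟩ := hCLASS R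
  rcases List.mem_cons.1 hx with rfl | hx
  · exact hFB B b G K F p hb hK hG hF hFK hT hp hA hno
  obtain ⟨h1, h2, h3⟩ := hCERT x hx
  have h0 : mk (std B) 0 ∈ K := by rw [mk_zero]; exact hK.zero_mem
  obtain ⟨L, -, hL, gL, nL, -, d, i, υ, -, ⟨g, hg, rfl⟩, -, -, m1, m2⟩ :=
    hHULL B b G K F p (std B) 0 hK hG hno hF hFK hT hp hA (fun y _ => mem_par_zero _ y) h0
      (by rwa [neg_zero])
  refine m2 ((inv_forb hL).map g hg _ (hFORB B b x.1 x.2 G L hb h1 hL gL nL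
    (fun st hst f hf j hj y hy => ?_) h2 i) d m1)
  obtain ⟨σ, hσ⟩ := hDL B b G K hG f hf
  exact ⟨_, (hSNC b x.1 σ hb h1 (hσ.dot hG hf)).2 _ (h3 st hst) j hj, hσ.isV hy⟩

end Pool.Agent.P.MP_8ecd01_al.R4
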