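import Pool.Agent.P.MP_8ecd01_al.R4.IfaceB

/-! Step NONC of the top-dimensional centre theorem in rank four. -/

namespace Pool.Agent.P.MP_8ecd01_al.R4

open Matrix Module

/-- the vectors on all walls through `w` -/
def noncW {n : ℕ} (R : RootSystem n) (w : Fin n → ℝ) : Submodule ℝ (Fin n → ℝ) where
  carrier := {ψ | Blk R w ψ}
  add_mem' h h' := Blk.add h h'
  zero_mem' := Blk.zero w
  smul_mem' r _ h := Blk.smul h r

theorem nonc_small {n : ℕ} {ξ : Fin n → ℝ} {ρ : ℝ} (h : ∀ j, |(n + 1) * ρ * ξ j| ≤ 1) :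
    ρ ^ 2 * (ξ ⬝ᵥ ξ) < 1 := by
  have h1 : ∑ j, ((n + 1) * ρ * ξ j) ^ 2 ≤ ∑ _j : Fin n, (1 : ℝ) :=
    Finset.sum_le_sum fun j _ => (sq_le_one_iff_abs_le_one _).2 (h j)
  have h2 : ∑ j, ((n + 1) * ρ * ξ j) ^ 2 = (n + 1) ^ 2 * (ρ ^ 2 * (ξ ⬝ᵥ ξ)) := by
    rw [dotProduct, Finset.mul_sum, Finset.mul_sum]
    exact Finset.sum_congr rfl fun j _ => by ring
  rw [h2, Finset.sum_const, Finset.card_univ, Fintype.card_fin, nsmul_eq_mul, mul_one] at h1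
  have h3 : (0 : ℝ) ≤ n := Nat.cast_nonneg n
  refine lt_of_mul_lt_mul_left (h1.trans_lt ?_) (sq_nonneg ((n : ℝ) + 1))
  nlinarith

theorem p_NONC (hCEN : S_CEN) (hMAX : S_MAX) :
    S_NONC := by
  intro n R B _ _ K A c w p hK hT hw hw' hA hF hW hp hn
  have c1 : Cone (K ∩ Par c w) := hK.inter (cone_par c w)
  have g1 : ∀ a ∈ K, gr c w a ∈ K ∩ Par c w := fun a ha =>
    ⟨cone_gr_mem hK hw hw' ha, gr_mem c w a⟩
  have cen : ∀ ψ, Blk R w ψ → mk c ψ ∈ K ∩ Par c w := fun ψ h =>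
    hCEN B _ c w ψ c1 (fun _ h => h.2) (hT.gr' c w g1) (hW.mono hA) h
  obtain ⟨d0, π, hd0, hq⟩ := gr_mem c w p
  have hpp : ip p p = π ⬝ᵥ π := by rw [← ip_gr_self c w, hq, ip_mk]
  have hb : ¬ Blk R w π := fun hb => by
    have q2 := cen _ hb.neg
    have i1 := ip_le_gr c w p (mk c (-π))
    rw [gr_id q2.2, hq, hd0 π hb, ip_mk (v := π), dotProduct_neg] at i1
    exact hn ⟨_, q2.1, add_eq_zero_of_ip (by rw [ip_mk, hpp]; simp) (by rw [hpp]; exact i1)⟩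
  obtain ⟨u, hu, ho⟩ := exists_orth (noncW R w) π
  have hu' : Blk R w u := hu
  have y1 : mk d0 (π - u) ∈ K ∩ Par c w := by
    have := c1.add_mem _ (g1 p hp) _ (cen _ hu'.neg)
    rwa [hq, ← hd0 _ hu'.neg, add_mk, ← sub_eq_add_neg] at this
  have y0 : 0 < (π - u) ⬝ᵥ (π - u) := by
    refine lt_of_le_of_ne (dot_self_nonneg _) fun e => hb ?_
    rw [sub_eq_zero.1 (dotProduct_self_eq_zero.1 e.symm)]
    exact hu'
  obtain ⟨ρ, hρ, hb1⟩ := hF.bdd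
  obtain ⟨N, hN⟩ : ∃ N, N = √((π - u) ⬝ᵥ (π - u)) := ⟨_, rfl⟩
  have N0 : 0 < N := hN ▸ Real.sqrt_pos.2 y0
  have N2 : N ^ 2 = (π - u) ⬝ᵥ (π - u) := hN ▸ Real.sq_sqrt y0.le
  have r0 : 0 ≤ (ρ * N)⁻¹ := by positivity
  choose pr hpr hpo using fun j : Fin n => exists_orth (noncW R w) (Pi.single j 1)
  let f : Bool × Fin n → Fin n → ℝ := fun q =>
    (if q.1 then (n + 1) * ρ else -((n + 1) * ρ)) • pr q.2
  have hf : ∀ q, Blk R w (f q) := fun q => Blk.smul (hpr q.2) _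
  let C : Set B.X := Set.range fun q => mk c (f q)
  have hC : C ⊆ K ∩ Par c w := by
    rintro _ ⟨q, rfl⟩
    exact cen _ (hf q)
  have hF2 : FinT (A ∪ C) := hF.union (finT_finite (Set.finite_range _))
  have hA2 : A ∪ C ⊆ K ∩ Par c w := Set.union_subset hA hC
  have y2 : smul (ρ * N)⁻¹ (mk d0 (π - u)) ∈ Lev (A ∪ C) := by
    rintro a (ha | ⟨q, rfl⟩)
    · have b1 := abs_ip_le (mk d0 (π - u)) a
      rw [ip_mk, ← hN] at b1
      have b2 := (abs_le.1 (b1.trans (mul_le_mul_of_nonneg_left (hb1 a ha) N0.le))).1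
      rw [ip_smul_left r0, ← div_eq_inv_mul, le_div_iff₀ (by positivity)]
      linarith
    · rw [ip_smul_left r0]
      simp only []
      rw [← hd0 _ (hf q), ip_mk, ho _ (hf q)]
      simp
  obtain ⟨x, ⟨hx, d, ξ, hd, rfl⟩, hl, hm⟩ := hMAX B _ _ c1 hA2 hF2 (hW.mono Set.subset_union_left)
  refine ⟨A ∪ C, d, ξ, hA2, hF2, hd, fun hξ => ?_, hx, hl, hm⟩
  have m1 := hm _ (c1.smul_mem _ r0 _ y1) y2
  rw [ip_smul_left r0, ip_smul_right r0, ip_mk, ip_mk, ← N2] at m1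
  have e1 : ∀ j, ξ ⬝ᵥ pr j = ξ j := fun j => by
    have := hpo j ξ hξ
    rw [sub_dotProduct, single_dotProduct, one_mul, dotProduct_comm] at this
    linarith
  have m2 : ∀ q, -1 ≤ ξ ⬝ᵥ f q := fun q => by
    have := hl _ (Or.inr ⟨q, rfl⟩)
    simp only [] at this
    rwa [← hd _ (hf q), ip_mk] at this
  have m3 := nonc_small (ξ := ξ) (ρ := ρ) fun j => by
    have a1 := m2 (true, j)
    have a2 := m2 (false, j)
    simp only [f, dotProduct_smul, e1, smul_eq_mul, if_true, Bool.false_eq_true, if_false] at a1 a2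
    exact abs_le.2 ⟨a1, by linarith⟩
  have m4 := mul_le_mul_of_nonneg_left m1 (sq_nonneg ρ)
  have m5 : ρ ^ 2 * ((ρ * N)⁻¹ * ((ρ * N)⁻¹ * N ^ 2)) = 1 := by field_simp
  linarith

end Pool.Agent.P.MP_8ecd01_al.R4
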