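import Pool.Agent.P.MP_8ecd01_al.R4.IfaceB
import Pool.Agent.P.MP_8ecd01_al.R4.IfaceA

/-! Step NORM of the top-dimensional centre theorem in rank four. -/

namespace Pool.Agent.P.MP_8ecd01_al.R4

open Matrix Module

variable {n : ℕ} {R : RootSystem n} {B : Building R}

theorem norm_rd {K : Set B.X} {e : Ch B} {v : Fin n → ℝ} (h : mk e v ∈ Rt K) :
    RD R v ∧ v ⬝ᵥ v = 1 := by
  obtain ⟨-, -, c, w, h1, h2, h3⟩ := h
  obtain ⟨g, hg, rfl⟩ := typ h3.symm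
  exact ⟨h1.map hg, (W_dot hg _ _).trans h2⟩

theorem norm_clo [COX R] [API B] (hI : S_IDEAL) {K : Set B.X} (hK : Cone K) {e : Ch B}
    {v u : Fin n → ℝ} {β : ℝ} (hv : mk e v ∈ Rt K) (hu : mk e u ∈ Rt K) (h0 : 0 ≤ β)
    (hβ : β = -2 * (v ⬝ᵥ u)) : mk e (u + β • v) ∈ Rt K := by
  obtain ⟨v1, v2⟩ := norm_rd hv
  obtain ⟨u1, u2⟩ := norm_rd hu
  have e1 : u + β • v = rf v u := by
    rw [rf_apply, reflect, v2, div_one, hβ, neg_mul, neg_smul, sub_eq_add_neg]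
  have h1 := hK.smul_mem β h0 _ hv.1
  refine ⟨?_, fun h => hu.2.1 (hI B K _ _ hK hu.1 h1 ?_), e, _, e1 ▸ u1.map v1.rf_mem,
    by rw [e1, W_dot v1.rf_mem, u2], rfl⟩
  · rw [← add_mk, ← smul_mk _ _ h0]
    exact hK.add_mem _ hu.1 _ h1
  · rwa [smul_mk _ _ h0, add_mk]

theorem p_NORM (hRP : S_RP) (hIDEAL : S_IDEAL) :
    S_NORM := by
  intro n R B _ _ K c x s hK hx hs h0 h1 h2 h3
  obtain ⟨e, v, u, rfl, rfl⟩ := common x s
  obtain ⟨v1, v2⟩ := norm_rd hx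
  obtain ⟨u1, u2⟩ := norm_rd hs
  rw [ip_mk] at h0 ⊢
  obtain ⟨β, hβ⟩ : ∃ β, β = -2 * (v ⬝ᵥ u) := ⟨_, rfl⟩
  have b0 : 0 < β := by linarith
  have hb : β ^ 2 = 1 ∨ β ^ 2 = 2 ∨ β ^ 2 = 3 := by
    have := (hRP R v u v1 u1 v2 u2 h0 fun h => hx.2.1 ⟨_, hs.1, by
      rw [add_mk, h, add_neg_cancel, mk_zero]⟩).1
    rwa [hβ, neg_mul, neg_sq]
  have b1 : 1 ≤ β := by
    by_contra h
    rcases hb with h' | h' | h' <;> nlinarith
  have fa : ∀ w w', ip c (mk e w) + ip c (mk e w') ≤ ip c (mk e (w + w')) := fun w w' =>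
    add_mk e w w' ▸ ip_add_ge' _ _ c
  have fs : ∀ w, ip c (mk e (β • w)) = β * ip c (mk e w) := fun w => by
    rw [← smul_mk _ _ b0.le, ip_smul_right b0.le]
  rw [← hβ, smul_mk _ _ b0.le, add_mk]
  refine h3 _ (norm_clo hIDEAL hK hx hs b0.le hβ) ?_
  have m2 := norm_clo hIDEAL hK hs hx b0.le (by rw [hβ, dotProduct_comm])
  have f2 : 1 ≤ ip c (mk e (v + β • u)) := h3 _ m2 (by
    have := fa v (β • u)
    rw [fs] at this
    nlinarith)
  have key : ∀ w, 1 ≤ ip c (mk e w) → β • (u + β • v) = v + w →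
      ip c (mk e v) < ip c (mk e (u + β • v)) := fun w hw e1 => by
    have := fa v w
    rw [← e1, fs] at this
    refine lt_of_mul_lt_mul_left ?_ b0.le
    nlinarith
  rcases hb with h | h | h
  · have e1 : β = 1 := by nlinarith
    have := fa u (β • v)
    rw [fs, e1] at this
    rw [e1]
    linarith
  · refine key _ f2 ?_
    rw [smul_add, smul_smul, ← sq, h, two_smul]
    abel
  · have m3 := norm_clo hIDEAL hK hx m2 zero_le_one (by
      rw [dotProduct_add, dotProduct_smul, v2, smul_eq_mul]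
      nlinarith)
    rw [one_smul] at m3
    refine key _ (h3 _ m3 (by linarith [fa (v + β • u) v])) ?_
    rw [smul_add, smul_smul, ← sq, h, show (3 : ℝ) = 1 + 1 + 1 by norm_num, add_smul, add_smul,
      one_smul]
    abel

end Pool.Agent.P.MP_8ecd01_al.R4
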