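import Pool.Agent.P.MP_8ecd01_al.R4.IfaceB

/-! Step NV of the top-dimensional centre theorem in rank four. -/

namespace Pool.Agent.P.MP_8ecd01_al.R4

open Matrix Module

theorem p_NV (hSTEP : S_STEP) :
    S_NV := by
  intro n R B _ _ b K A c w p hK hT h1 h2 h3 h4 h5 hp hp'
  classical
  generalize hm : {α | α ∈ R.Φ ∧ α ⬝ᵥ w = 0}.ncard = m
  induction m using Nat.strong_induction_on generalizing c w A with
  | _ m ih =>
  obtain ⟨C, d, i, υ, ξ, hB, fB, hd, hi, hc, hb, hy, hξ, hW⟩ :=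
    hSTEP B b K A c w p hK hT h1 h2 h3 h4 h5 hp hp'
  by_cases ha : Ant K (mk d υ)
  swap
  · exact ⟨d, i, υ, hd, hi, hc, hb, hy, ha⟩
  obtain ⟨q, hq, e⟩ := ha
  obtain ⟨e1, e2⟩ := ip_of_add_eq_zero e
  have e3 : add (mk d υ) (gr c w q) = zero :=
    add_eq_zero_of_ip ((ip_gr_self c w q).trans e2).le ((ip_gr_compat hd hc q).trans e1).le
  obtain ⟨c1, u, h6, h7, h8⟩ := API.cb c d w υ _ hd (gr_mem c w q)
  obtain rfl : u = -υ := eq_neg_of_add (by rw [h7, ← h8, e3])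
  have e4 : mk c1 (w + υ) = mk d (w + υ) := by
    rw [← add_mk, ← add_mk, h7, h6 w (Blk.refl w), hd w (Blk.refl w)]
  have h9 : mk c1 (w + υ) ∈ K := by
    rw [← add_mk, h7, h6 w (Blk.refl w)]
    exact hK.add_mem _ h1 _ hy
  have h10 : mk c1 (-(w + υ)) ∈ K := by
    rw [neg_add, ← add_mk, ← h8, h6 _ (Blk.refl w).neg]
    exact hK.add_mem _ h2 _ (cone_gr_mem hK h1 h2 hq)
  have hfin : {α | α ∈ R.Φ ∧ α ⬝ᵥ w = 0}.Finite := R.Φ.finite_toSet.subset fun _ h => h.1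
  have hlt : {α | α ∈ R.Φ ∧ α ⬝ᵥ (w + υ) = 0}.ncard < m := by
    rw [← hm]
    refine Set.ncard_lt_ncard ⟨fun x hx => ⟨hx.1, hc.comono_add.blk _ hx.1 hx.2⟩,
      fun h => hb fun α hα e => ?_⟩ hfin
    exact hc.comono_add'.blk α hα (h ⟨hα, e⟩).2
  obtain ⟨d2, i2, υ2, k1, k2, k3, k4, k5, k6⟩ := ih _ hlt (gr c1 (w + υ) '' C) c1 (w + υ) h9 h10
    (by
      rintro _ ⟨a, ha, rfl⟩
      exact ⟨cone_gr_mem hK h9 h10 (hB ha), gr_mem _ _ _⟩) (fB.gr _ _)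
    (fun y hy h => by
      refine hW y ⟨hy.1, par_congr h6 ▸ par_mono hc.comono_add.blk hy.2⟩ fun a ha => ?_
      rw [← gr_gr e4 hξ a]
      exact (h _ ⟨a, ha, rfl⟩).trans (ip_le_gr _ _ _ _)) rfl
  exact ⟨d2, i2, υ2, h6.trans (k1.mono hc.comono_add.blk), k2, k3.of_comono hc.comono_add,
    fun h => k4 (hc.comono_add.blk.trans h), k5, k6⟩

end Pool.Agent.P.MP_8ecd01_al.R4
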