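import Pool.Agent.P.MP_8ecd01_al.R4.IfaceB
import Pool.Agent.P.MP_8ecd01_al.R4.IfaceA

/-! Step ORB of the top-dimensional centre theorem in rank four. -/

namespace Pool.Agent.P.MP_8ecd01_al.R4

open Matrix Module

theorem p_ORB (hBASE : S_BASE) (hDOM : S_DOM) (hDL : S_DL) :
    S_ORB := by
  intro n R B _ _ G K hG p
  obtain ⟨b⟩ := hBASE R
  obtain ⟨c, v, rfl⟩ := exists_mk p
  obtain ⟨h, hh, hd⟩ := hDOM b v
  obtain ⟨t, ht, e⟩ := b.dom_iff.1 hd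
  refine finT_of' (Set.finite_range fun σ : Equiv.Perm (Fin n) => ∑ i, t i • b.u (σ i)) ?_
  rintro _ ⟨g, hg, rfl⟩
  obtain ⟨σ, hσ⟩ := hDL B b G K hG g hg
  obtain ⟨d, h1⟩ := hσ (cw c (inv_mem hh))
  refine ⟨d, _, ?_, σ, rfl⟩
  rw [← h1 t ht, ← e, mk_cw, inv_apply_self]

end Pool.Agent.P.MP_8ecd01_al.R4
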