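import Pool.Agent.P.MP_8ecd01_al.R4.IfaceB

/-! Step PC of the top-dimensional centre theorem in rank four. -/

namespace Pool.Agent.P.MP_8ecd01_al.R4

open Matrix Module

theorem p_PC (hPROJ : S_PROJ) :
    S_PC := by
  intro n R B _ _ K v hK
  obtain ⟨p, hp, h⟩ := hPROJ B K v hK.closed hK.cvx ⟨_, hK.zero_mem⟩
  have key : ∀ a ∈ K, ip p p - ip v p ≤ ip p a - ip v a := by
    intro a ha
    have := h a ha
    unfold d2 at this
    linarith
  have h0 := key _ hK.zero_mem
  have h2 := key _ (hK.smul_mem 2 (by norm_num) p hp)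
  rw [ip_zero_right, ip_zero_right] at h0
  rw [ip_smul_right (by norm_num), ip_smul_right (by norm_num)] at h2
  refine ⟨p, hp, h, fun a ha => ?_, by linarith⟩
  have := key a ha
  linarith

end Pool.Agent.P.MP_8ecd01_al.R4
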