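import Pool.Agent.P.MP_8ecd01_al.R4.IfaceA

/-! Step RET of the top-dimensional centre theorem in rank four. -/

namespace Pool.Agent.P.MP_8ecd01_al.R4

open Matrix Module

section

variable {n : ℕ} {R : RootSystem n}

open Classical in
/-- The positive roots which are negative on `ψ`. -/
noncomputable def retN (b : Base R) (ψ : Fin n → ℝ) : Finset (Fin n → ℝ) :=
  R.Φ.filter fun α => (∀ j, 0 ≤ α ⬝ᵥ b.ω j) ∧ α ⬝ᵥ ψ < 0

theorem ret_mem {b : Base R} {ψ α : Fin n → ℝ} :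
    α ∈ retN b ψ ↔ α ∈ R.Φ ∧ (∀ j, 0 ≤ α ⬝ᵥ b.ω j) ∧ α ⬝ᵥ ψ < 0 := by
  classical
  exact Finset.mem_filter

theorem ret_lt (b : Base R) {ψ : Fin n → ℝ} {i : Fin n} (h : b.a i ⬝ᵥ ψ < 0) :
    (retN b (rf (b.a i) ψ)).card < (retN b ψ).card := by
  classical
  rw [← Finset.card_image_of_injective _ (rf (b.a i)).injective]
  obtain ⟨s, h0, hs⟩ := b.mem i
  refine Finset.card_lt_card ((Finset.ssubset_iff_of_subset fun β hβ => ?_).2
    ⟨s • b.a i, ret_mem.2 ⟨hs, fun j => ?_, ?_⟩, fun e => ?_⟩)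
  · obtain ⟨α, hα, rfl⟩ := Finset.mem_image.1 hβ
    obtain ⟨h1, h2, h3⟩ := ret_mem.1 hα
    obtain ⟨j, hj, h4⟩ : ∃ j, j ≠ i ∧ 0 < α ⬝ᵥ b.ω j := by
      by_contra! hc
      rw [b.dot_eq, Finset.sum_eq_single i (fun j _ e => by
        rw [le_antisymm (hc j e) (h2 j), zero_mul]) (by simp), rf_apply, self_dot_reflect] at h3
      nlinarith [h2 i]
    exact ret_mem.2 ⟨W_root (b.mem i).rf_mem h1, b.perm h1 hj h4, by
      rwa [rf_apply, reflect_dot]⟩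
  · rw [smul_dotProduct, b.dual]
    split_ifs <;> simp [h0.le]
  · rw [smul_dotProduct]
    exact mul_neg_of_pos_of_neg h0 h
  · obtain ⟨α, hα, e1⟩ := Finset.mem_image.1 e
    have h1 := (ret_mem.1 hα).2.1 i
    rw [← reflect_reflect (b.a i) α, ← rf_apply (b.a i) α, e1, reflect_dot, smul_dotProduct,
      self_dot_reflect, b.dual, if_pos rfl, smul_eq_mul] at h1
    linarith

theorem ret_key (hLOC : S_LOC) (B : Building R) [COX R] (b : Base R) (N : ℕ) :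
    ∀ ψ : Fin n → ℝ, (retN b ψ).card = N → ∀ (c d : Ch B) (ζ : Fin n → ℝ),
      (∀ φ, b.Dom φ → mk d φ = mk c φ) → ip (mk c ψ) (mk d ζ) ≤ ψ ⬝ᵥ ζ := by
  induction N using Nat.strong_induction_on with
  | _ N ih =>
    intro ψ hN c d ζ h
    by_cases hd : b.Dom ψ
    · rw [← h ψ hd, ip_mk]
    obtain ⟨i, hi⟩ := not_forall.1 hd
    replace hi := not_le.1 hi
    obtain ⟨e, ξ, h1, h2⟩ := cb0 (cw c (b.mem i).rf_mem) b.ρ (mk d ζ)
    have h3 := fun φ (hφ : b.Dom φ) => mk_comp h1 (b.comono_ρ.2 hφ)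
    have h4 := ih _ (hN ▸ ret_lt b hi) _ rfl _ e ξ h3
    obtain ⟨t, h5, h6⟩ := hLOC B b c d e i ζ ξ h h3 h2
    rw [mk_cw, rf_apply, rf_apply, reflect_reflect, reflect_dot, ← rf_apply, h6, ← h2,
      dotProduct_add, dotProduct_smul, dotProduct_comm ψ (b.a i), smul_eq_mul] at h4
    nlinarith

end

theorem p_RET (hBASE : S_BASE) (hDOM : S_DOM) (hLOC : S_LOC) :
    S_RET := by
  intro n R B _ c φ z
  obtain ⟨b⟩ := hBASE R
  obtain ⟨g, hg, h⟩ := hDOM b φ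
  obtain ⟨d, ζ, h1, rfl⟩ := cb0 (cw c (inv_mem hg)) b.ρ z
  have h2 := fun φ (hφ : b.Dom φ) => mk_comp h1 (b.comono_ρ.2 hφ)
  have h3 : ∀ ψ, mk c ψ = mk (cw c (inv_mem hg)) (g ψ) := fun ψ => by rw [mk_cw, inv_apply_self]
  have h4 : ∀ ψ, ψ ⬝ᵥ g⁻¹ ζ = g ψ ⬝ᵥ ζ := fun ψ => by rw [← W_dot hg, self_apply_inv]
  refine ⟨g⁻¹ ζ, by rw [W_dot (inv_mem hg), ip_mk], by rw [h3, h4, ← h2 _ h, ip_mk], fun ψ => ?_⟩
  rw [h3, h4]
  exact ret_key hLOC B b _ _ rfl _ d ζ h2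

end Pool.Agent.P.MP_8ecd01_al.R4
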