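import Pool.Agent.P.MP_8ecd01_al.R4.IfaceB
import Pool.Agent.P.MP_8ecd01_al.R4.IfaceA

/-! Step RINV of the top-dimensional centre theorem in rank four. -/

namespace Pool.Agent.P.MP_8ecd01_al.R4

open Matrix Module

/-- A unit root direction is a normalised root. -/
theorem rinv_norm {n : ℕ} {R : RootSystem n} {v : Fin n → ℝ} (h : RD R v) (h1 : v ⬝ᵥ v = 1) :
    v ∈ (fun α : Fin n → ℝ => (√(α ⬝ᵥ α))⁻¹ • α) '' (R.Φ : Set (Fin n → ℝ)) := by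
  obtain ⟨s, h0, hs⟩ := h
  refine ⟨s • v, hs, ?_⟩
  have e : (s • v) ⬝ᵥ (s • v) = s ^ 2 := by
    rw [smul_dotProduct, dotProduct_smul, h1, smul_eq_mul, smul_eq_mul]
    ring
  simp only [e]
  rw [Real.sqrt_sq h0.le, smul_smul, inv_mul_cancel₀ h0.ne', one_smul]

/-- A nonzero vector orthogonal to all vertices but one is a root direction. -/
theorem rinv_rd {n : ℕ} {R : RootSystem n} (b : Base R) {v : Fin n → ℝ} {i : Fin n}
    (h : ∀ j, j ≠ i → v ⬝ᵥ b.u j = 0) (h1 : v ⬝ᵥ v = 1) : RD R v := by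
  have e : v = (v ⬝ᵥ b.ω i) • b.a i := by
    conv_lhs => rw [b.expand_a v]
    refine Finset.sum_eq_single i (fun j _ hj => ?_) (by simp)
    rw [b.ω_eq j, dotProduct_smul, h j hj, smul_zero, zero_smul]
  generalize v ⬝ᵥ b.ω i = x at e
  rcases lt_trichotomy x 0 with hx | hx | hx
  · have := ((b.mem i).smul (neg_pos.2 hx)).neg
    rwa [neg_smul, neg_neg, ← e] at this
  · rw [e, hx, zero_smul, zero_dotProduct] at h1
    exact absurd h1 zero_ne_one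
  · rw [e]
    exact (b.mem i).smul hx

theorem p_RINV (hBASE : S_BASE) (hSYM : S_SYM) (hDL : S_DL) (hCONJ : S_CONJ) :
    S_RINV := by
  intro n R B _ _ G K hG
  refine ⟨finT_of' (R.Φ.finite_toSet.image fun α : Fin n → ℝ => (√(α ⬝ᵥ α))⁻¹ • α)
    fun x ⟨_, _, c, v, h, h1, e⟩ => ⟨c, v, e, rinv_norm h h1⟩, fun g hg r hr => ?_⟩
  obtain ⟨hK, hA, c0, v, hv, h1, rfl⟩ := hr
  obtain ⟨b⟩ := hBASE R
  obtain ⟨σ, hσ⟩ := hDL B b G K hG g hg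
  obtain ⟨h, hh, i, s, -, rfl⟩ := hCONJ b v hv
  obtain ⟨d, hd⟩ := hσ.single (cw c0 hh)
  obtain ⟨e, v2, h2, h3⟩ := cb0 d b.ρ (g (mk c0 (h (s • b.a i))))
  have h4 : v2 ⬝ᵥ v2 = 1 := by
    rw [← ip_mk e, ← h3, hG.ip_eq g hg, ip_mk, h1]
  refine ⟨hG.maps g hg _ hK, fun h' => hA ((hSYM B G K hG g hg).2.2.2.2.1 _ h'), e, v2,
    rinv_rd b (i := σ i) (fun j hj => ?_) h4, h4, h3⟩
  obtain ⟨j, rfl⟩ := σ.surjective j
  have h5 : i ≠ j := fun e => hj (e ▸ rfl)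
  rw [← ip_mk e, ← h3, mk_comp h2 (b.comono_ρ.2 (b.dom_u _)), ← hd, hG.ip_eq g hg,
    ← mk_cw c0 hh, ip_mk, smul_dotProduct, b.a_dot_u_ne h5, smul_zero]

end Pool.Agent.P.MP_8ecd01_al.R4
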