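import Pool.Agent.P.MP_8ecd01_al.R4.IfaceB

/-! Step ROOT of the top-dimensional centre theorem in rank four. -/

namespace Pool.Agent.P.MP_8ecd01_al.R4

open Matrix Module

theorem root_unit {n : ℕ} {R : RootSystem n} {B : Building R} {K : Set B.X} {x : B.X}
    (h : x ∈ Rt K) : ip x x = 1 := by
  obtain ⟨-, -, c, v, -, h1, rfl⟩ := h
  rw [ip_mk, h1]

theorem p_ROOT (hPROJ : S_PROJ) (hNEAR : S_NEAR) (hSLOPE : S_SLOPE) :
    S_ROOT := by
  intro n R B _ _ K hK hF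
  obtain ⟨N, hN, hNm⟩ := hNEAR B (Rt K) hF
  have dz : ∀ x : B.X, d2 zero x = ip x x := fun x => by rw [d2_comm, d2_zero]
  let P : Set B.X := {c | ∃ S ⊆ Rt K, (∀ a ∈ S, 1 ≤ ip c a) ∧
    ∀ h, (∀ a ∈ S, 1 ≤ ip h a) → d2 zero c + d2 c h ≤ d2 zero h}
  have hP0 : (zero : B.X) ∈ P := ⟨∅, Set.empty_subset _, fun a ha => ha.elim, fun h _ => by
    rw [dz zero, ip_zero_left, zero_add]⟩
  have hPN : (fun c => ip c c) '' P ⊆ N := by
    rintro _ ⟨c, ⟨S, h1, h2, h3⟩, rfl⟩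
    refine hNm S h1 c h2 fun y hy => ?_
    have h4 := h3 y hy
    have h5 := d2_nonneg c y
    rw [dz, dz] at h4
    linarith
  obtain ⟨_, ⟨c, hc, rfl⟩, hmax⟩ := Set.exists_max_image _ id (hN.subset hPN) ⟨_, zero, hP0, rfl⟩
  obtain ⟨S, hS, hcS, hcm⟩ := hc
  by_cases hall : ∀ r ∈ Rt K, 1 ≤ ip c r
  · exact ⟨c, fun r hr => one_pos.trans_le (hall r hr)⟩
  exfalso
  push Not at hall
  obtain ⟨r0, hr0, hr1⟩ := hall
  have hfin : ((fun r => ip c r) '' {r | r ∈ Rt K ∧ ip c r < 1}).Finite := by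
    refine ((finT_singleton c).finite_ip hF).subset ?_
    rintro _ ⟨r, hr, rfl⟩
    exact ⟨c, rfl, r, hr.1, rfl⟩
  obtain ⟨_, ⟨x, ⟨hx, hx1⟩, rfl⟩, hxm⟩ := Set.exists_max_image _ id hfin ⟨_, r0, ⟨hr0, hr1⟩, rfl⟩
  have hgap : ∀ r ∈ Rt K, ip c x < ip c r → 1 ≤ ip c r := fun r hr h => by
    by_contra h'
    exact absurd (hxm _ ⟨r, ⟨hr, not_le.1 h'⟩, rfl⟩) (not_le.2 h)
  rcases lt_or_ge (ip c x) 0 with h0 | h0
  · obtain ⟨y, h1, h2⟩ := hSLOPE B K c x hK hF hx h0 hgap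
    have h4 := hcm y fun a ha => h2 a (hS ha) (hcS a ha)
    have h5 := d2_nonneg c y
    rw [dz, dz] at h4
    linarith
  · have hy : ∀ a ∈ insert x S, (fun _ => (1 : ℝ)) a ≤ ip (add (smul 2 c) x) a := by
      rintro a (rfl | ha)
      · rw [ip_add_right_self, ip_smul_left zero_le_two, root_unit hx]
        show (1 : ℝ) ≤ _
        linarith
      · have h1 := ip_add_ge (smul 2 c) x a
        have h2 := abs_ip_le x a
        rw [root_unit hx, root_unit (hS ha), Real.sqrt_one, mul_one] at h2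
        have h3 := (abs_le.1 h2).1
        have h4 := hcS a ha
        rw [ip_smul_left zero_le_two] at h1
        show (1 : ℝ) ≤ _
        linarith
    obtain ⟨c2, h1, h2⟩ := hPROJ B _ zero (closed_ge (insert x S) fun _ => 1)
      (cvx_ge (insert x S) fun _ => 1) ⟨_, hy⟩
    have h3 : ip c2 c2 ≤ ip c c :=
      hmax _ ⟨c2, ⟨insert x S, Set.insert_subset hx hS, h1, h2⟩, rfl⟩
    have h4 := hcm c2 fun a ha => h1 a (Set.mem_insert_of_mem _ ha)
    rw [dz, dz] at h4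
    have h5 : c = c2 := eq_of_d2 (by linarith)
    have h6 : (1 : ℝ) ≤ ip c2 x := h1 x (Set.mem_insert _ _)
    rw [← h5] at h6
    exact absurd hx1 (not_lt.2 h6)

end Pool.Agent.P.MP_8ecd01_al.R4
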