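import Pool.Agent.P.MP_8ecd01_al.R4.IfaceA

/-! Step RP of the top-dimensional centre theorem in rank four. -/

namespace Pool.Agent.P.MP_8ecd01_al.R4

open Matrix Module

theorem rp_int {n : ℕ} {R : RootSystem n} {v u : Fin n → ℝ} {s t : ℝ} (hs : 0 < s)
    (h1 : s • v ∈ R.Φ) (h2 : t • u ∈ R.Φ) (hv : v ⬝ᵥ v = 1) :
    ∃ m : ℤ, 2 * (v ⬝ᵥ u) * t = m * s := by
  obtain ⟨m, hm⟩ := R.cartan _ h1 _ h2
  simp only [smul_dotProduct, dotProduct_smul, smul_eq_mul, hv] at hm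
  exact ⟨m, mul_left_cancel₀ hs.ne' (by linear_combination hm)⟩

theorem rp_neg {c s t : ℝ} {m : ℤ} (hs : 0 < s) (ht : 0 < t) (hc : c < 0)
    (h : 2 * c * t = m * s) : m < 0 := by
  have : (m : ℝ) * s < 0 := by nlinarith [mul_pos ht (neg_pos.2 hc)]
  exact_mod_cast neg_of_mul_neg_left this hs.le

theorem rp_lt {c c' s t : ℝ} {m k : ℤ} (hs : 0 < s) (ht : 0 < t) (hc : c < c')
    (h : 2 * c * t = m * s) (h' : 2 * c' * t = k * s) : m < k := by
  have : (m : ℝ) * s < k * s := by nlinarith [mul_pos ht (sub_pos.2 hc)]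
  exact_mod_cast lt_of_mul_lt_mul_right this hs.le

theorem p_RP :
    S_RP := by
  rintro n R v u ⟨s, hs, h1⟩ ⟨t, ht, h2⟩ hv hu hc hne
  obtain ⟨m, hm⟩ := rp_int hs h1 h2 hv
  obtain ⟨m', hm'⟩ := rp_int ht h2 h1 hu
  rw [dotProduct_comm] at hm'
  have c1 : -1 < v ⬝ᵥ u := by
    have := dot_self_pos (v := u + v) fun e => hne (eq_neg_of_add_eq_zero_left e)
    rw [add_dotProduct, dotProduct_add, dotProduct_add, hu, hv, dotProduct_comm u v] at this
    linarith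
  have e : (2 * (v ⬝ᵥ u)) ^ 2 = ((m * m' : ℤ) : ℝ) := by
    push_cast
    refine mul_right_cancel₀ (mul_pos hs ht).ne' ?_
    linear_combination 2 * (v ⬝ᵥ u) * s * hm + m * s * hm'
  have m0 := rp_neg hs ht hc hm
  have m0' := rp_neg ht hs hc hm'
  have m4 : m * m' < 4 := by
    have : ((m * m' : ℤ) : ℝ) < 4 := by rw [← e]; nlinarith
    exact_mod_cast this
  have m1 : 0 < m * m' := mul_pos_of_neg_of_neg m0 m0'
  refine ⟨?_, fun g hg h hh hlt => not_lt.1 fun hc' => ?_⟩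
  · rw [e]
    generalize m * m' = k at m1 m4
    interval_cases k <;> simp
  · obtain ⟨k, hk⟩ := rp_int hs (map_smul g s v ▸ W_root hg h1) (map_smul h t u ▸ W_root hh h2)
      ((W_dot hg v v).trans hv)
    obtain ⟨k', hk'⟩ := rp_int ht (map_smul h t u ▸ W_root hh h2) (map_smul g s v ▸ W_root hg h1)
      ((W_dot hh u u).trans hu)
    rw [dotProduct_comm] at hk'
    have := rp_neg hs ht hc' hk
    have := rp_neg ht hs hc' hk'
    have := rp_lt hs ht hlt hm hk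
    have := rp_lt ht hs hlt hm' hk'
    nlinarith

end Pool.Agent.P.MP_8ecd01_al.R4
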