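import Pool.Agent.P.MP_8ecd01_al.R4.IfaceB

/-! Step SIMP of the top-dimensional centre theorem in rank four. -/

namespace Pool.Agent.P.MP_8ecd01_al.R4

open Matrix Module

theorem p_SIMP (hPC : S_PC) :
    S_SIMP := by
  intro n R B _ _ K D C c ξ υ hK hD _ hg hB hW hc hm
  obtain ⟨p, hp, -, h2, h3⟩ := hPC B K (mk c υ) hK
  have h4 : add (gr c ξ p) (mk c (-υ)) = zero := by
    refine hW _ (hD.add_mem _ (hg p hp) _ hm) ?_
    rintro _ ⟨a, ha, rfl⟩
    rw [ip_add_central hc.blk.neg (gr_mem _ _ _) (gr_mem _ _ _),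
      ip_central_neg hc.blk (gr_mem _ _ _), ip_gr_compat (Apt.refl c ξ) hc.compat]
    linarith [ip_le_gr c ξ p a, h2 a (hB ha)]
  have h5 := (ip_of_add_eq_zero h4).2
  rw [ip_gr_self, ip_mk, neg_dotProduct_neg, ← ip_mk c] at h5
  have h6 : mk c υ = p := eq_of_d2 (by unfold d2; linarith)
  exact h6 ▸ hp

end Pool.Agent.P.MP_8ecd01_al.R4
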