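import Pool.Agent.P.MP_8ecd01_al.R4.IfaceB
import Pool.Agent.P.MP_8ecd01_al.R4.IfaceA

/-! Step SLOPE of the top-dimensional centre theorem in rank four. -/

namespace Pool.Agent.P.MP_8ecd01_al.R4

open Matrix Module

section
variable {n : ℕ} {R : RootSystem n} {B : Building R}

theorem slope_rd {K : Set B.X} {d : Ch B} {v : Fin n → ℝ} (h : mk d v ∈ Rt K) :
    RD R v ∧ v ⬝ᵥ v = 1 := by
  obtain ⟨-, -, c, u, h1, h2, e⟩ := h
  obtain ⟨g, hg, rfl⟩ := typ e.symm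
  exact ⟨h1.map hg, (W_dot hg u u).trans h2⟩

theorem slope_unit {K : Set B.X} {x : B.X} (h : x ∈ Rt K) : ip x x = 1 := by
  obtain ⟨d, v, rfl⟩ := exists_mk x
  rw [ip_mk, (slope_rd h).2]

variable [COX R] [API B]

theorem slope_ty {c d e : Ch B} {w v u : Fin n → ℝ} (h : gr c w (mk d v) = mk e u) :
    ∃ g ∈ R.W, u = g v := by
  obtain ⟨d1, d', α, -, -, h1, h2, -⟩ := gr_type c w (mk d v)
  obtain ⟨g1, hg1, rfl⟩ := typ h1
  obtain ⟨g2, hg2, rfl⟩ := typ (h2.symm.trans h)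
  exact ⟨g2 * g1, mul_mem hg2 hg1, rfl⟩

theorem slope_strict (hRP : S_RP) {K : Set B.X} {x s : B.X} (hx : x ∈ Rt K) (hs : s ∈ Rt K)
    (h0 : ip x s < 0) (c : Ch B) (w : Fin n → ℝ) (h : ip x s < ip (gr c w x) (gr c w s)) :
    0 ≤ ip (gr c w x) (gr c w s) := by
  obtain ⟨d, v, u, rfl, rfl⟩ := common x s
  obtain ⟨e, v', u', h1, h2⟩ := common (gr c w (mk d v)) (gr c w (mk d u))
  obtain ⟨g, hg, rfl⟩ := slope_ty h1
  obtain ⟨g', hg', rfl⟩ := slope_ty h2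
  rw [h1, h2, ip_mk] at h ⊢
  rw [ip_mk] at h h0
  refine (hRP R v u (slope_rd hx).1 (slope_rd hs).1 (slope_rd hx).2 (slope_rd hs).2 h0
    fun e => hx.2.1 ⟨_, hs.1, ?_⟩).2 g hg g' hg' h
  rw [add_mk, e, add_neg_cancel, mk_zero]

end

theorem p_SLOPE (hRP : S_RP) (hNORM : S_NORM) :
    S_SLOPE := by
  intro n R B _ _ K c x hK hF hx hμ hgap
  obtain ⟨e, γ, rfl⟩ := exists_mk c
  obtain ⟨δ, hδ, h1⟩ := hF.gap (mk e γ) 1
  obtain ⟨ε0, h0, h2⟩ := gr_germ e γ x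
  obtain ⟨ε1, h0', h3⟩ := ip_germ (gr_mem e γ x)
  obtain ⟨t, ht, t1, t2, t3, t4⟩ : ∃ t : ℝ, 0 < t ∧ t ≤ -ip (mk e γ) x ∧ t ≤ δ ∧ t ≤ ε0 ∧
      t ≤ ε1 := ⟨min (min (-ip (mk e γ) x) δ) (min ε0 ε1),
    lt_min (lt_min (neg_pos.2 hμ) hδ) (lt_min h0 h0'), (min_le_left _ _).trans (min_le_left _ _),
    (min_le_left _ _).trans (min_le_right _ _), (min_le_right _ _).trans (min_le_left _ _),
    (min_le_right _ _).trans (min_le_right _ _)⟩
  refine ⟨add (mk e γ) (smul t x), ?_, fun s hs h4 => ?_⟩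
  · rw [ip_add_add, ip_smul_right ht.le, ip_smul_left ht.le, ip_smul_right ht.le, slope_unit hx]
    nlinarith
  have h5 := ip_add_ge (mk e γ) (smul t x) s
  rw [ip_smul_left ht.le] at h5
  by_cases h6 : 0 ≤ ip x s
  · nlinarith
  rcases h4.lt_or_eq with h7 | h7
  · have h8 := abs_ip_le x s
    rw [slope_unit hx, slope_unit hs, Real.sqrt_one, one_mul, abs_le] at h8
    nlinarith [(h1 s hs).1 h7]
  rw [not_le] at h6
  rw [h2 t ht t3, h3 t ht t4, ← h7, le_add_iff_nonneg_right]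
  refine mul_nonneg ht.le (slope_strict hRP hx hs h6 e γ (lt_of_not_ge fun h8 => ?_))
  have hβ : 0 ≤ -2 * ip x s := by linarith
  have h9 := hNORM B K (mk e γ) x s hK hx hs h6 hμ.le h4 hgap
  have h10 := gr_flat e γ (x := s) (y := smul (-2 * ip x s) x) (by
    rw [gr_smul e γ hβ, ip_smul_right hβ, ip_smul_right hβ, ip_comm s, ip_comm (gr e γ s)]
    exact mul_le_mul_of_nonneg_left h8 hβ)
  rw [← ip_gr_base, h10, ip_comm, ip_central_add (Blk.refl γ) (gr_mem _ _ _) (gr_mem _ _ _),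
    ip_comm (gr e γ s), ip_comm (gr e γ _), ip_gr_base, ip_gr_base, ip_smul_right hβ, ← h7] at h9
  nlinarith

end Pool.Agent.P.MP_8ecd01_al.R4
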