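import Pool.Agent.P.MP_8ecd01_al.R4.IfaceC

/-! Step SNH of the top-dimensional centre theorem in rank four. -/

namespace Pool.Agent.P.MP_8ecd01_al.R4

open Matrix Module

theorem snh_dot {ρ : ℝ} (hρ : 0 < ρ) (v u : Fin 4 → ℝ) :
    (√ρ • v) ⬝ᵥ (√ρ • u) = ρ * (v ⬝ᵥ u) := by
  rw [smul_dotProduct, dotProduct_smul, smul_eq_mul, smul_eq_mul, ← mul_assoc,
    Real.mul_self_sqrt hρ.le]

theorem p_SNH (hVEC : S_VEC) (hSNO : S_SNO) :
    S_SNH := by
  intro R b M P F st hF hok hI hP hc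
  obtain ⟨hbil, hlin, -, -, -, hdom, -, -⟩ := hVEC b M hF hok
  obtain ⟨horb, hhit⟩ := hSNO b M hF hok
  simp only [Model.chkH, Bool.and_eq_true, List.all_eq_true, Bool.or_eq_true,
    decide_eq_true_eq, List.any_eq_true] at hc
  obtain ⟨⟨ho, h1⟩, h2⟩ := hc
  have hO := horb _ st ho
  generalize M.nrm st = ρ at hO h1 h2
  have key : ∀ x y v u, (0 : ℝ) < ρ → vec b x = √(ρ : ℝ) • v → vec b y = √(ρ : ℝ) • u →
      ((M.bil x y : ℤ) : ℝ) = ρ * (v ⬝ᵥ u) := by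
    intro x y v u hρ hx hy
    rw [← hbil, hx, hy, snh_dot hρ]
  constructor
  · rintro i ⟨p, hp, rfl⟩ j ⟨q, hq, rfl⟩ v hv
    obtain ⟨hρ, hpu, -⟩ := hO p hp
    obtain ⟨m, hm, hmv⟩ := (hO q hq).2.2 v hv
    have hρ' : (0 : ℝ) < ρ := by exact_mod_cast hρ
    have hs : (0 : ℝ) < √(ρ : ℝ) := Real.sqrt_pos.2 hρ'
    have hk := key _ _ _ _ hρ' hpu hmv
    rcases h1 p hp q hq m hm with (h | h) | ⟨h, l, hl, hd⟩
    · left
      have h' : -(ρ : ℝ) < 4 * ((M.bil (M.om p.1) m : ℤ) : ℝ) := by exact_mod_cast h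
      rw [hk] at h'
      by_contra hn
      have := not_lt.1 hn
      nlinarith
    · right; left
      exact (hhit P F _ _ _ m _ _ v hI hP hs hpu hmv).1 h
    · right; right
      have h' : 2 * ((M.bil (M.om p.1) m : ℤ) : ℝ) = -(ρ : ℝ) := by exact_mod_cast h
      rw [hk] at h'
      refine ⟨?_, l.1, ⟨l, hl, rfl⟩, ?_⟩
      · apply mul_left_cancel₀ hρ'.ne'
        linarith
      · obtain ⟨g, hg, hgm⟩ := hdom 30 (lin 1 (M.om p.1) 1 m)
        rw [hd, (hO l hl).2.1, hlin, hpu, hmv] at hgm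
        simp only [Int.cast_one, one_smul, ← smul_add, map_smul] at hgm
        have h3 : b.u l.1 = g (b.u p.1 + v) := smul_right_injective _ hs.ne' hgm
        refine ⟨g⁻¹, inv_mem hg, ?_⟩
        rw [h3]
        exact (g.symm_apply_apply _).symm
  · rintro i ⟨p, hp, rfl⟩ j ⟨q, hq, rfl⟩ k ⟨l, hl, rfl⟩ v z hv hz e1 e2 e3 e4
    obtain ⟨hρ, hpu, -⟩ := hO p hp
    obtain ⟨m, hm, hmv⟩ := (hO q hq).2.2 v hv
    obtain ⟨y, hy, hyz⟩ := (hO l hl).2.2 z hz
    have hρ' : (0 : ℝ) < ρ := by exact_mod_cast hρ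
    have hs : (0 : ℝ) < √(ρ : ℝ) := Real.sqrt_pos.2 hρ'
    have k1 := key _ _ _ _ hρ' hpu hmv
    have k2 := key _ _ _ _ hρ' hpu hyz
    have k3 := key _ _ _ _ hρ' hmv hyz
    rcases h2 p hp q hq m hm with h | h
    · exfalso
      apply h
      have : 2 * ((M.bil (M.om p.1) m : ℤ) : ℝ) = (ρ : ℝ) := by
        rw [k1, ← mul_assoc, mul_comm 2, mul_assoc, e1, mul_one]
      exact_mod_cast this
    · rcases h l hl y hy with ((h | h) | h) | ⟨h, h'⟩
      · exfalso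
        apply h
        have : 2 * ((M.bil (M.om p.1) y : ℤ) : ℝ) = -(ρ : ℝ) := by
          rw [k2, ← mul_assoc, mul_comm 2, mul_assoc, e2, mul_neg, mul_one]
        exact_mod_cast this
      · exfalso
        have h' : 2 * ((M.bil m y : ℤ) : ℝ) < -(ρ : ℝ) := by exact_mod_cast h
        rw [k3] at h'
        nlinarith
      · exfalso
        have h' : -(ρ : ℝ) < 4 * ((M.bil m y : ℤ) : ℝ) := by exact_mod_cast h
        rw [k3] at h'
        nlinarith
      · have h'' : 2 * ((M.bil m y : ℤ) : ℝ) = -(ρ : ℝ) := by exact_mod_cast h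
        rw [k3] at h''
        refine ⟨?_, (hhit P F _ _ _ y _ _ z hI hP hs hpu hmv).2 hyz h'⟩
        apply mul_left_cancel₀ hρ'.ne'
        linarith

end Pool.Agent.P.MP_8ecd01_al.R4
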