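import Pool.Agent.P.MP_8ecd01_al.R4.IfaceC

/-! Step SNJ of the top-dimensional centre theorem in rank four. -/

namespace Pool.Agent.P.MP_8ecd01_al.R4

open Matrix Module

theorem p_SNJ (hVEC : S_VEC) (hSNO : S_SNO) :
    S_SNJ := by
  rintro R b M P F st hF hok hP hf hc _ ⟨p, hp, rfl⟩ _ ⟨q, hq, rfl⟩ v hv
  simp only [Model.chkJ, List.all_eq_true, Bool.and_eq_true, Bool.or_eq_true,
    decide_eq_true_eq] at hc
  obtain ⟨h1, h2⟩ := hSNO b M hF hok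
  obtain ⟨h0, e1, -⟩ := h1 _ st hc.1 p hp
  obtain ⟨m, hm, e2⟩ := (h1 _ st hc.1 q hq).2.2 v hv
  have hρ : (0 : ℝ) < M.nrm st := by exact_mod_cast h0
  refine (hc.2 p hp q hq m hm).imp (fun h => ?_) fun h =>
    (h2 P F _ _ m m _ v v hP hf (Real.sqrt_pos.2 hρ) e1 e2).1 h
  have h3 := (hVEC b M hF hok).1 (M.om p.1) m
  rw [e1, e2, smul_dotProduct, dotProduct_smul, smul_eq_mul, smul_eq_mul, ← mul_assoc,
    Real.mul_self_sqrt hρ.le] at h3
  have h4 : -(M.nrm st : ℝ) ≤ 4 * (M.bil (M.om p.1) m : ℤ) := by exact_mod_cast h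
  rw [← h3] at h4
  rw [Nat.cast_ofNat]
  refine le_of_mul_le_mul_left ?_ hρ
  linarith

end Pool.Agent.P.MP_8ecd01_al.R4
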