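import Pool.Agent.P.MP_8ecd01_al.R4.IfaceC

/-! Step SNO of the top-dimensional centre theorem in rank four. -/

namespace Pool.Agent.P.MP_8ecd01_al.R4

open Matrix Module

theorem sno_all (i : Fin 4) : i ∈ all4 := by revert i; decide

theorem sno_coef {s : ℤ} (h : s ∈ coef) : (0 : ℝ) ≤ s := by
  have : ∀ s ∈ coef, 0 ≤ s := by decide
  exact_mod_cast this s h

theorem sno_inv {n : ℕ} {R : RootSystem n} {P : (Fin n → ℝ) → Prop} (h : Inv R P) {c : ℝ}
    (hc : 0 < c) {v : Fin n → ℝ} (e : P (c • v)) : P v := by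
  have := h.smul c⁻¹ (inv_pos.2 hc) _ e
  rwa [smul_smul, inv_mul_cancel₀ hc.ne', one_smul] at this

theorem p_SNO (hVEC : S_VEC) :
    S_SNO := by
  intro R b M hF hM
  obtain ⟨-, h2, -, -, h5, -, h7, h8⟩ := hVEC b M hF hM
  refine ⟨fun ρ st h p hp => ?_, fun P F c x y z v u w hP hf hc hx hy => ⟨fun h => ?_,
    fun hz h => ?_⟩⟩
  · simp only [Model.orbs, List.all_eq_true, Bool.and_eq_true, decide_eq_true_eq] at h
    obtain ⟨⟨rfl, e2⟩, e3⟩ := h p hp
    refine ⟨(h5 _).1, (h5 _).2, ?_⟩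
    rintro _ ⟨g, hg, rfl⟩
    obtain ⟨m, hm, e⟩ := h7 p.2 (fun m hm i => e3 m hm i (sno_all i)) g hg _ e2
    exact ⟨m, hm, by rw [← e, (h5 _).2, map_smul]⟩
  · simp only [Model.hit2, List.any_eq_true, Bool.and_eq_true, decide_eq_true_eq] at h
    obtain ⟨s, hs, t, ht, e1, e2⟩ := h
    refine ⟨s, t, sno_coef hs, sno_coef ht, by exact_mod_cast e1, sno_inv hP hc ?_⟩
    have := h8 P F _ hP hf e2
    rwa [h2, hx, hy, smul_comm, smul_comm (t : ℝ), ← smul_add] at this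
  · simp only [Model.hit3, List.any_eq_true, Bool.and_eq_true, decide_eq_true_eq] at h
    obtain ⟨r, hr, s, hs, t, ht, e1, e2⟩ := h
    refine ⟨r, s, t, sno_coef hr, sno_coef hs, sno_coef ht, by exact_mod_cast e1,
      sno_inv hP hc ?_⟩
    have := h8 P F _ hP hf e2
    rwa [h2, h2, hx, hy, hz, Int.cast_one, one_smul, smul_comm, smul_comm (s : ℝ),
      smul_comm (t : ℝ), ← smul_add, ← smul_add] at this

end Pool.Agent.P.MP_8ecd01_al.R4
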