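import Pool.Agent.P.MP_8ecd01_al.R4.IfaceB
import Pool.Agent.P.MP_8ecd01_al.R4.IfaceA

/-! Step STEP of the top-dimensional centre theorem in rank four. -/

namespace Pool.Agent.P.MP_8ecd01_al.R4

open Matrix Module

theorem step_vtx (hDOM : S_DOM) {n : ℕ} {R : RootSystem n} (b : Base R) {w ξ : Fin n → ℝ}
    (hc : Comono R ξ w) (hn : ¬ Blk R w ξ) :
    ∃ i υ, b.Ty i υ ∧ Comono R ξ υ ∧ Compat R w υ ∧ ¬ Blk R w υ := by
  obtain ⟨g, hg, hd⟩ := hDOM b ξ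
  have hw : b.Dom (g w) := hd.of_comono (hc.map hg)
  have h1 : ¬ Blk R (g w) (g ξ) := fun h => hn (by
    have := h.map (inv_mem hg)
    rwa [inv_apply_self, inv_apply_self] at this)
  rw [hw.blk_iff] at h1
  push Not at h1
  obtain ⟨i, e1, e2⟩ := h1
  refine ⟨i, g⁻¹ (b.u i), ⟨g⁻¹, inv_mem hg, rfl⟩, ?_, ?_, fun h => ?_⟩
  · have := (hd.comono_iff.2 ⟨b.dom_u i, fun j e =>
      b.a_dot_u_ne fun q => e2 (q ▸ e)⟩).map (inv_mem hg)
    rwa [inv_apply_self] at this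
  · have := (hw.compat (b.dom_u i)).map (inv_mem hg)
    rwa [inv_apply_self] at this
  · have := h.map hg
    rw [self_apply_inv] at this
    exact (b.a_dot_u_pos i).ne' (hw.blk_iff.1 this i e1)

theorem p_STEP (hDOM : S_DOM) (hNONC : S_NONC) (hLINK : S_LINK) (hCEN : S_CEN) (hSIMP : S_SIMP) :
    S_STEP := by
  intro n R B _ _ b K A c w p hK hT h1 h2 hA hF hW hp hn
  obtain ⟨A2, d, ξ0, a1, a2, a3, a4, a5, a6, a7⟩ :=
    hNONC B K A c w p hK hT h1 h2 hA hF hW hp hn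
  have e1 : Par d w = Par c w := par_congr a3
  have e2 : mk d w = mk c w := a3 w (Blk.refl w)
  have e3 : mk d (-w) = mk c (-w) := a3 _ (Blk.refl w).neg
  obtain ⟨t, ht, hc⟩ := exists_large R w ξ0
  have hK1 : Cone (K ∩ Par c w) := hK.inter (cone_par c w)
  have m0 : mk d ξ0 ∈ K ∩ Par c w := ⟨a5, mk_mem_par a3 _⟩
  obtain ⟨D, d1, d3, d4, d5⟩ := hLINK B (K ∩ Par c w) A2 d w ξ0 t hK1
    (fun x hx => e1 ▸ hx.2) ⟨e2 ▸ h1, mk_mem_par a3 _⟩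
    ⟨e3 ▸ h2, mk_mem_par a3 _⟩ a1 ht.le hc.blk m0 a6 a7
  have hB : insert (mk d ξ0) A2 ⊆ K ∩ Par c w := Set.insert_subset m0 a1
  have t1 : Top (K ∩ Par c w) :=
    hT.gr' c w fun a ha => ⟨cone_gr_mem hK h1 h2 ha, gr_mem c w a⟩
  have t2 : Top D := t1.gr' d _ d4
  have w2 : Wide D D := d5.mono (by rintro _ ⟨a, ha, rfl⟩; exact d4 a (hB ha))
  have a8 : ¬ Blk R w (ξ0 + t • w) := fun h => a4 (by
    have := h.add ((Blk.refl w).smul (-t))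
    rwa [neg_smul, add_neg_cancel_right] at this)
  obtain ⟨i, υ, u1, c1, u2, u3⟩ := step_vtx hDOM b hc a8
  have c2 : mk d (-υ) ∈ D := hCEN B D d _ _ d1 d3 t2 w2 c1.blk.neg
  have c3 := hSIMP B _ D _ d _ _ hK1 d1 d3 d4 hB d5 c1 c2
  refine ⟨insert (mk d ξ0) A2, d, i, υ, ξ0 + t • w, fun x hx => (hB hx).1, a2.insert _, a3,
    u1, u2, u3, c3.1, hc.add c1, fun y hy h => ?_⟩
  have := d5 _ (d4 y hy) (by rintro _ ⟨a, ha, rfl⟩; exact h a ha)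
  refine eq_zero_of_ip_self ?_
  rw [← ip_gr_self d (ξ0 + t • w) y, this, ip_zero_left]

end Pool.Agent.P.MP_8ecd01_al.R4
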