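import Pool.Agent.P.MP_8ecd01_al.R4.IfaceB

/-! Step SYM of the top-dimensional centre theorem in rank four. -/

namespace Pool.Agent.P.MP_8ecd01_al.R4

open Matrix Module

section

variable {n : ℕ} {R : RootSystem n} {B : Building R} {G : Set (B.X → B.X)} {K : Set B.X}
  {g : B.X → B.X}

theorem sym_zero (hG : Sym G K) (hg : g ∈ G) : g zero = zero := by
  refine eq_zero_of_ip_self ?_
  rw [hG.ip_eq g hg, ip_zero_left]

theorem sym_smul (hG : Sym G K) (hg : g ∈ G) {r : ℝ} (hr : 0 ≤ r) (x : B.X) :
    g (smul r x) = smul r (g x) := by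
  have e := hG.ip_eq g hg
  refine eq_of_d2 ?_
  unfold d2
  rw [e, ip_smul_right hr (g (smul r x)), e]
  simp only [ip_smul_left hr, ip_smul_right hr, e]
  linarith

variable [API B]

theorem sym_add (hG : Sym G K) (hg : g ∈ G) (x y : B.X) :
    g (add x y) = add (g x) (g y) := by
  have e := hG.ip_eq g hg
  refine eq_of_d2 ?_
  have h1 := ip_add_ge' (g x) (g y) (g (add x y))
  rw [e, e, ip_add_left_self, ip_add_right_self, ip_comm y x] at h1
  unfold d2
  rw [e, ip_add_add, ip_add_add, e, e, e]
  linarith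

theorem sym_dist (hG : Sym G K) (hg : g ∈ G) (x y : B.X) :
    Dist.dist (g x) (g y) = Dist.dist x y := by
  have e := hG.ip_eq g hg
  rw [dist_def, dist_def]
  unfold d2
  rw [e, e, e]

end

theorem p_SYM :
    S_SYM := by
  intro n R B _ _ G K hG g hg
  refine ⟨sym_zero hG hg, fun x y => sym_add hG hg x y,
    fun r hr x => sym_smul hG hg hr x, fun x y => sym_dist hG hg x y, ?_, ?_⟩
  · rintro p ⟨q, hq, e⟩
    obtain ⟨h, hh, hi⟩ := hG.inv g hg
    refine ⟨h q, hG.maps h hh q hq, ?_⟩
    have := sym_add hG hh (g p) q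
    rw [e, sym_zero hG hh, (hi p).2] at this
    exact this.symm
  · intro L hL
    have hc : Continuous g :=
      (LipschitzWith.of_dist_le_mul (K := 1) fun x y => by
        rw [sym_dist hG hg x y]; simp).continuous
    refine ⟨hL.closed.preimage hc, ?_, fun x hx y hy => ?_, fun r hr x hx => ?_⟩
    · show g zero ∈ L
      rw [sym_zero hG hg]
      exact hL.zero_mem
    · show g (add x y) ∈ L
      rw [sym_add hG hg]
      exact hL.add_mem _ hx _ hy
    · show g (smul r x) ∈ L
      rw [sym_smul hG hg hr]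
      exact hL.smul_mem r hr _ hx

end Pool.Agent.P.MP_8ecd01_al.R4
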