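import Pool.Agent.P.MP_8ecd01_al.R4.IfaceB

/-! Step TRA of the top-dimensional centre theorem in rank four. -/

namespace Pool.Agent.P.MP_8ecd01_al.R4

open Matrix Module

section
variable {n : ℕ} {R : RootSystem n} {B : Building R}

theorem tra_one (s : Delta B) : ip (emb s) (emb s) = 1 := by
  obtain ⟨φ, hφ, w, h1, h⟩ := s.2
  rw [show emb s = mk ⟨φ, hφ⟩ w from h, ip_mk, h1]

theorem tra_norm {r : ℝ} (hr : 0 < r) (s : Delta B) :
    ip (smul r (emb s)) (smul r (emb s)) = r ^ 2 := by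
  rw [ip_smul_left hr.le, ip_smul_right hr.le, tra_one s]
  ring

theorem tra_uniq {r r' : ℝ} {s s' : Delta B} (hr : 0 < r) (hr' : 0 < r')
    (h : smul r (emb s) = smul r' (emb s')) : r = r' ∧ s = s' := by
  have h1 := tra_norm hr s
  rw [h, tra_norm hr'] at h1
  have h2 : r = r' := ((pow_left_inj₀ hr'.le hr.le two_ne_zero).1 h1).symm
  subst h2
  refine ⟨rfl, Subtype.ext ?_⟩
  have h3 := congrArg (smul r⁻¹) h
  rwa [smul_smul' (inv_pos.2 hr).le hr.le, smul_smul' (inv_pos.2 hr).le hr.le,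
    inv_mul_cancel₀ hr.ne', one_smul', one_smul'] at h3

theorem tra_dist (s s' : Delta B) : R4.dist s s' = Real.arccos (ip (emb s) (emb s')) := by
  have : {θ | ∃ φ ∈ B.A, ∃ v u, s.1 = φ v ∧ s'.1 = φ u ∧ θ = Real.arccos (v ⬝ᵥ u)} =
      {Real.arccos (ip (emb s) (emb s'))} := by
    ext θ
    constructor
    · rintro ⟨φ, hφ, v, w, h1, h2, rfl⟩
      rw [show emb s = mk ⟨φ, hφ⟩ v from h1, show emb s' = mk ⟨φ, hφ⟩ w from h2, ip_mk]
      rfl
    · rintro rfl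
      obtain ⟨b, v, w, h1, h2⟩ := common (emb s) (emb s')
      exact ⟨b.1, b.2, v, w, h1, h2, by rw [h1, h2, ip_mk]⟩
  unfold R4.dist
  rw [this, csInf_singleton]

theorem tra_mem (s s' : Delta B) : ip (emb s) (emb s') ∈ Set.Icc (-1 : ℝ) 1 := by
  have := ip_sq_le (emb s) (emb s')
  rw [tra_one s, tra_one s', mul_one] at this
  exact abs_le.1 (sq_le_one_iff_abs_le_one _ |>.1 this)

end

theorem p_TRA :
    S_TRA := by
  intro n R B _ _
  refine ⟨tra_one, fun x h0 => ?_, fun r r' s s' => tra_uniq, fun β r s hr => ?_,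
    fun β => dif_neg ?_, tra_dist, fun s s' => ⟨?_, fun h => ?_⟩, fun β hβ s s' => ?_⟩
  · have h1 := ip_self_pos h0
    obtain ⟨b, v, rfl⟩ := exists_mk x
    rw [ip_mk] at h1
    have hr : 0 < √(v ⬝ᵥ v) := Real.sqrt_pos.2 h1
    refine ⟨_, hr, ⟨mk b ((√(v ⬝ᵥ v))⁻¹ • v), b.1, b.2, _, ?_, rfl⟩, ?_⟩
    · rw [smul_dotProduct, dotProduct_smul, smul_eq_mul, smul_eq_mul, ← mul_assoc, ← mul_inv,
        Real.mul_self_sqrt h1.le, inv_mul_cancel₀ h1.ne']
    · change _ = smul _ (mk b _)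
      rw [smul_mk _ _ hr.le, smul_smul, mul_inv_cancel₀ hr.ne', one_smul]
  · have h : ∃ p : ℝ × Delta B, 0 < p.1 ∧ smul r (emb s) = smul p.1 (emb p.2) :=
      ⟨(r, s), hr, rfl⟩
    unfold lift
    rw [dif_pos h]
    obtain ⟨h1, h2⟩ := tra_uniq hr h.choose_spec.1 h.choose_spec.2
    rw [← h1, ← h2]
  · rintro ⟨⟨r, s⟩, hr, h⟩
    have := tra_norm hr s
    rw [← h, ip_zero_left] at this
    exact (pow_pos hr 2).ne this
  · rintro ⟨φ, hφ, v, h1, h2⟩
    rw [show emb s = mk ⟨φ, hφ⟩ v from h1, show emb s' = mk ⟨φ, hφ⟩ (-v) from h2, add_mk,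
      add_neg_cancel, mk_zero]
  · obtain ⟨b, v, u, h1, h2⟩ := common (emb s) (emb s')
    rw [h1, h2] at h
    exact ⟨b.1, b.2, v, h1, eq_neg_of_add h ▸ h2⟩
  · have := hβ.1 s s'
    rw [tra_dist, tra_dist] at this
    exact Real.arccos_injOn (tra_mem _ _) (tra_mem _ _) this

end Pool.Agent.P.MP_8ecd01_al.R4
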