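import Pool.Agent.P.MP_8ecd01_al.R4.IfaceC
import Pool.Agent.P.MP_8ecd01_al.R4.IfaceB

/-! Step TRF of the top-dimensional centre theorem in rank four. -/

namespace Pool.Agent.P.MP_8ecd01_al.R4

open Matrix Module

theorem trf_lin (f : Fin 4 → Fin 4 → ℝ) (hf : LinearIndependent ℝ f) (ψ : Fin 4 → ℝ)
    (h : ∀ j, f j ⬝ᵥ ψ = 0) : ψ = 0 := by
  have h6 : ∀ v ∈ Submodule.span ℝ (Set.range f), v ⬝ᵥ ψ = 0 := by
    intro v hv
    induction hv using Submodule.span_induction with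
    | mem v hv =>
      obtain ⟨j, rfl⟩ := hv
      exact h j
    | zero => exact zero_dotProduct ψ
    | add v u _ _ e1 e2 => rw [add_dotProduct, e1, e2, add_zero]
    | smul r v _ e => rw [smul_dotProduct, e, smul_zero]
  exact dotProduct_self_eq_zero.1
    (h6 ψ (hf.span_eq_top_of_card_eq_finrank' (by simp) ▸ Submodule.mem_top))

theorem p_TRF (hTRA : S_TRA) (hTRC : S_TRC) (hTRS : S_TRS) (hMAIN : S_MAIN) :
    S_TRF := by
  intro R B _ _ S hc hv ht
  obtain ⟨a1, -, a3, a4, -, -, a8, -⟩ := hTRA B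
  by_cases hl : ∀ x ∈ S, ∃ y ∈ S, Opp x y
  · exact .inl hl
  right
  push Not at hl
  obtain ⟨x, hx, hno⟩ := hl
  have cs : ∀ s ∈ S, emb s ∈ CS S := fun s hs => .inr ⟨1, one_pos, s, hs, (one_smul' _).symm⟩
  obtain ⟨φ, hb, w, f, hf, h⟩ := ht
  choose z hz hzb using h
  have hT : Top (Set.range fun j => emb (z j)) := by
    refine ⟨⟨φ, hb⟩, w, fun ψ h => trf_lin f hf ψ fun j => h _ ?_ ⟨j, hzb j⟩⟩
    obtain ⟨v, h1, h2⟩ := (hz j).2
    rw [B.inj φ hb ((hzb j).symm.trans h1)]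
    exact h2
  have hA : ¬ Ant (CS S) (emb x) := by
    rintro ⟨q, hq, e⟩
    have h1 := (ip_of_add_eq_zero e).2
    rw [a1 x] at h1
    rcases hq with rfl | ⟨r, hr, s, hs, rfl⟩
    · rw [ip_zero_left] at h1
      exact zero_ne_one h1
    · rw [ip_smul_left hr.le, ip_smul_right hr.le, a1 s] at h1
      have : r = 1 := by nlinarith
      rw [this, one_smul'] at e
      exact hno s hs ((a8 x s).2 e)
  obtain ⟨c, hc1, hc2, hc3⟩ := not_not.1 (hMAIN B _ (CS S) _ (emb x) (hTRC B S hc hv) (hTRS B S)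
    (Set.finite_range _) (by rintro _ ⟨j, rfl⟩; exact cs _ (hz j).1) hT (cs x hx) hA)
  rcases hc1 with rfl | ⟨r, hr, s, hs, rfl⟩
  · exact absurd rfl hc2
  · refine ⟨s, hs, fun β hβ hS => ?_⟩
    have := hc3 _ ⟨β, hβ, hS, rfl⟩
    rw [a4 _ _ _ hr] at this
    exact (a3 _ _ _ _ hr hr this).2

end Pool.Agent.P.MP_8ecd01_al.R4
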