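import Pool.Agent.P.MP_8ecd01_al.R4.IfaceB

/-! Step TRS of the top-dimensional centre theorem in rank four. -/

namespace Pool.Agent.P.MP_8ecd01_al.R4

open Matrix Module

theorem trs_sx {n : ℕ} {R : RootSystem n} {B : Building R} [COX R]
    (a2 : ∀ x : B.X, x ≠ zero → ∃ r : ℝ, 0 < r ∧ ∃ s : Delta B, x = smul r (emb s))
    (c : Ch B) (w : Fin n → ℝ) : Sx (mk c w) = CS (simplex c.1 w) := by
  ext y
  rw [mem_Sx]
  constructor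
  · rintro ⟨φ, hφ, rfl⟩
    by_cases h : mk c φ = zero
    · exact .inl h
    obtain ⟨r, hr, s, hs⟩ := a2 _ h
    refine .inr ⟨r, hr, s, ⟨r⁻¹ • φ, ?_, hφ.smul (inv_pos.2 hr).le⟩, hs⟩
    change emb s = mk c (r⁻¹ • φ)
    rw [← smul_mk _ _ (inv_pos.2 hr).le, hs, smul_smul' (inv_pos.2 hr).le hr.le,
      inv_mul_cancel₀ hr.ne', one_smul']
  · rintro (rfl | ⟨r, hr, s, ⟨v, hv, hc⟩, rfl⟩)
    · exact ⟨0, Comono.zero w, (mk_zero c).symm⟩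
    · refine ⟨r • v, Comono.smul hc hr.le, ?_⟩
      have e : emb s = mk c v := hv
      rw [e, smul_mk _ _ hr.le]

theorem p_TRS (hTRA : S_TRA) :
    S_TRS := by
  intro n R B _ _ S
  obtain ⟨-, a2, -, a4, a6, -, -, a9⟩ := hTRA B
  have cas : ∀ y : B.X, y = zero ∨ ∃ r : ℝ, 0 < r ∧ ∃ s : Delta B, y = smul r (emb s) :=
    fun y => or_iff_not_imp_left.2 (a2 y)
  have lm : ∀ (β γ : Equiv.Perm (Delta B)) (y : B.X),
      lift β (lift γ y) = lift (β * γ) y := by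
    intro β γ y
    rcases cas y with rfl | ⟨r, hr, s, rfl⟩
    · rw [a6, a6, a6]
    · rw [a4 _ _ _ hr, a4 _ _ _ hr, a4 _ _ _ hr, Equiv.Perm.mul_apply]
  have l1 : ∀ y : B.X, lift 1 y = y := by
    intro y
    rcases cas y with rfl | ⟨r, hr, s, rfl⟩
    · rw [a6]
    · rw [a4 _ _ _ hr, Equiv.Perm.one_apply]
  have li : ∀ (β : Equiv.Perm (Delta B)) (T : Set (Delta B)), lift β '' CS T = CS (β '' T) := by
    intro β T
    ext y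
    constructor
    · rintro ⟨_, rfl | ⟨r, hr, s, hs, rfl⟩, rfl⟩
      · exact .inl (a6 β)
      · exact .inr ⟨r, hr, β s, ⟨s, hs, rfl⟩, a4 _ _ _ hr⟩
    · rintro (rfl | ⟨r, hr, _, ⟨s, hs, rfl⟩, rfl⟩)
      · exact ⟨zero, .inl rfl, a6 β⟩
      · exact ⟨_, .inr ⟨r, hr, s, hs, rfl⟩, a4 _ _ _ hr⟩
  refine ⟨?_, ?_, ?_, ?_, ?_, ⟨1, IsAut.one, by simp, (funext l1).symm⟩⟩
  · rintro _ ⟨β, hβ, -, rfl⟩ y z
    rcases cas y with rfl | ⟨r, hr, s, rfl⟩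
    · rw [a6, ip_zero_left, ip_zero_left]
    rcases cas z with rfl | ⟨r', hr', s', rfl⟩
    · rw [a6, ip_zero_right, ip_zero_right]
    rw [a4 _ _ _ hr, a4 _ _ _ hr', ip_smul_left hr.le, ip_smul_left hr.le, ip_smul_right hr'.le,
      ip_smul_right hr'.le, a9 β hβ]
  · rintro _ ⟨β, hβ, -, rfl⟩ x
    obtain ⟨c, w, rfl⟩ := exists_mk x
    obtain ⟨φ, hφ, v, e⟩ := (hβ.2 (simplex c.1 w)).2 ⟨c.1, c.2, w, rfl⟩
    exact ⟨mk ⟨φ, hφ⟩ v, by rw [trs_sx a2, trs_sx a2, li, e]⟩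
  · rintro _ ⟨β, -, hS, rfl⟩ y hy
    rw [← hS, ← li]
    exact ⟨y, hy, rfl⟩
  · rintro _ ⟨β, hβ, hS, rfl⟩
    refine ⟨lift β⁻¹, ⟨β⁻¹, hβ.inv, ?_, rfl⟩, fun y => ?_⟩
    · conv_lhs => rw [← hS]
      rw [← Set.image_comp]
      simp
    · rw [lm, lm, mul_inv_cancel, inv_mul_cancel, l1]
      exact ⟨rfl, rfl⟩
  · rintro _ ⟨β, hβ, hS, rfl⟩ _ ⟨γ, hγ, hS', rfl⟩
    exact ⟨β * γ, hβ.mul hγ, by rw [Equiv.Perm.coe_mul, Set.image_comp, hS', hS],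
      funext (lm β γ)⟩

end Pool.Agent.P.MP_8ecd01_al.R4
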