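import Pool.Agent.P.MP_8ecd01_al.R4.IfaceA

/-! Step TYU of the top-dimensional centre theorem in rank four. -/

namespace Pool.Agent.P.MP_8ecd01_al.R4

open Matrix Module

theorem p_TYU (hDOM : S_DOM) (hFD : S_FD) :
    S_TYU := by
  intro n R b
  refine ⟨?_, ?_, ?_, ?_⟩
  · rintro i j v ⟨g, hg, e1⟩ ⟨h, hh, e2⟩
    have e3 : (h⁻¹ * g) (b.u i) = b.u j := by
      rw [LinearEquiv.mul_apply, ← e1, e2, inv_apply_self]
    have e4 := hFD b (h⁻¹ * g) (mul_mem (inv_mem hh) hg) (b.u i) (b.dom_u i)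
      (by rw [e3]; exact b.dom_u j)
    rw [e3] at e4
    by_contra hne
    have h1 := b.a_dot_u_pos i
    rw [← e4, b.a_dot_u_ne hne] at h1
    exact lt_irrefl _ h1
  · intro v hv h1 h2
    have h3 : ∃ i, 0 < b.a i ⬝ᵥ v := by
      by_contra h4
      have h5 : v = 0 := b.ext_a fun i => by
        rw [dotProduct_zero]
        exact le_antisymm (not_lt.1 fun e => h4 ⟨i, e⟩) (hv i)
      rw [h5, dotProduct_zero] at h1
      exact zero_ne_one h1
    obtain ⟨i, hi⟩ := h3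
    obtain ⟨s, hs⟩ := h2 (b.u i) (hv.comono_iff.2 ⟨b.dom_u i, fun j e =>
      b.a_dot_u_ne fun h => by rw [h] at e; exact hi.ne' e⟩)
    have h4 := b.u_unit i
    have h5 := b.a_dot_u_pos i
    rw [hs, smul_dotProduct, dotProduct_smul, h1, smul_eq_mul, smul_eq_mul, mul_one] at h4
    rw [hs, dotProduct_smul, smul_eq_mul] at h5
    have h6 : 0 < s := (mul_pos_iff_of_pos_right hi).1 h5
    have h7 : s = 1 := by nlinarith
    exact ⟨i, by rw [hs, h7, one_smul]⟩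
  · intro i φ h
    obtain ⟨h1, h2⟩ := (b.dom_u i).comono_iff.1 h
    refine ⟨(b.a i ⬝ᵥ φ) * √(b.ω i ⬝ᵥ b.ω i), mul_nonneg (h1 i) (Real.sqrt_nonneg _), ?_⟩
    conv_lhs => rw [b.expand_ω φ]
    rw [Finset.sum_eq_single i (fun j _ hj => by
      rw [h2 j (b.a_dot_u_ne hj), zero_smul]) (by simp), mul_smul, ← b.ω_eq]
  · rintro w υ i hw ⟨g, hg, e⟩ hc
    obtain ⟨h, hh, hd⟩ := hDOM b (w + υ)
    have h1 : b.Dom (h w) := hd.of_comono (hc.comono_add.map hh)
    have h2 : b.Dom (h υ) := hd.of_comono (hc.comono_add'.map hh)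
    have h3 := hFD b h hh w hw h1
    have h4 := hFD b (h * g) (mul_mem hh hg) (b.u i) (b.dom_u i)
      (by rw [LinearEquiv.mul_apply, ← e]; exact h2)
    rw [LinearEquiv.mul_apply, ← e] at h4
    refine ⟨h⁻¹, inv_mem hh, ?_, ?_⟩
    · conv_lhs => rw [← h3]
      exact inv_apply_self h w
    · rw [← h4, inv_apply_self]

end Pool.Agent.P.MP_8ecd01_al.R4
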