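import Pool.Agent.P.MP_8ecd01_al.R4.IfaceA

/-! Step UNIP of the top-dimensional centre theorem in rank four. -/

namespace Pool.Agent.P.MP_8ecd01_al.R4

open Matrix Module

theorem unip_aux {n : ℕ} {R : RootSystem n} {B : Building R} [COX R] {c d : Ch B}
    {w ρ : Fin n → ℝ} (h : mk d w = mk c w) (hc : Comono R ρ w) :
    ∃ e, Apt c w e ∧ mk e ρ = mk d ρ := by
  obtain ⟨e, u, h1, h2⟩ := cb0 d ρ (mk c (-w))
  have h3 : mk e w = mk c w := (mk_comp h1 hc).trans h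
  have h4 : u = -w := eq_neg_of_add (b := e) (by rw [h3, ← h2, add_mk, add_neg_cancel, mk_zero])
  exact ⟨e, apt_of h3 (h4 ▸ h2.symm), h1⟩

theorem p_UNIP (hCB : S_CB) :
    S_UNIP := by
  intro n R B _ c d w h
  obtain ⟨η, hη⟩ := exists_gen R
  obtain ⟨ε, h0, hε⟩ := exists_small R w η
  have a1 := hε ε (by rw [abs_of_pos h0])
  have a2 := hε (-ε) (by rw [abs_neg, abs_of_pos h0])
  have hg : Gen R (w + ε • η) := fun α hα e => by
    rcases lt_trichotomy (α ⬝ᵥ w) 0 with h2 | h2 | h2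
    · have := a1 _ (root_neg hα) (by rw [neg_dotProduct]; linarith)
      rw [neg_dotProduct, e, neg_zero] at this
      exact lt_irrefl _ this
    · rw [dotProduct_add, h2, zero_add, dotProduct_smul, smul_eq_mul] at e
      exact hη α hα ((mul_eq_zero.1 e).resolve_left h0.ne')
    · exact (a1 α hα h2).ne' e
  obtain ⟨e1, b1, b2⟩ := unip_aux h (comono_of_lt a1)
  obtain ⟨e2, b3, b4⟩ := unip_aux h (comono_of_lt a2)
  obtain ⟨d2, u, c1, c2, c3⟩ := hCB B c e1 w (w + ε • η) _ b1 (mk_mem_par b3 (w + -ε • η))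
  obtain ⟨g, hW, S, hS, h1, h2⟩ := overlap d d2
  have f1 := (c2.trans b2).symm
  have f2 := b4.symm.trans c3
  have f3 : ∀ ψ, g ψ = ψ := fun ψ => W_fix_blk hW (h1 _ _ f1).symm (hg.blk ψ)
  refine ⟨d2, c1, fun φ hφ => ?_⟩
  rw [(h2 φ).2 fun α hα => hφ α (hS hα) ?_, f3]
  have g1 := (h2 (w + ε • η)).1 (by rw [f3]; exact f1) α hα
  have g2 := (h2 (w + -ε • η)).1 (by rw [← h1 _ _ f2]; exact f2) α hα
  have g3 := hg α (hS hα)
  rw [dotProduct_add, dotProduct_smul, smul_eq_mul] at g1 g2 g3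
  have g4 := lt_of_le_of_ne g1 g3.symm
  linarith

end Pool.Agent.P.MP_8ecd01_al.R4
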