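import Pool.Agent.P.MP_8ecd01_al.R4.IfaceC
import Pool.Agent.P.MP_8ecd01_al.R4.IfaceA

/-! Step VEC of the top-dimensional centre theorem in rank four. -/

namespace Pool.Agent.P.MP_8ecd01_al.R4

open Matrix Module

theorem vec_all (i : Fin 4) : i ∈ all4 := by fin_cases i <;> simp [all4]

theorem vec_get_lin (s : ℤ) (x : Q) (t : ℤ) (y : Q) (i : Fin 4) :
    get4 (lin s x t y) i = s * get4 x i + t * get4 y i := by
  fin_cases i <;> rfl

theorem vec_dotq (x y : Q) : dotq x y = ∑ j, get4 x j * get4 y j := by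
  rw [Fin.sum_univ_four]
  rfl

theorem vec_bil (M : Model) (x y : Q) :
    M.bil x y = ∑ i, get4 M.d i * get4 x i * dotq (M.row i) y := by
  rw [Fin.sum_univ_four]
  rfl

variable {R : RootSystem 4}

theorem vec_lin (b : Base R) (s : ℤ) (x : Q) (t : ℤ) (y : Q) :
    vec b (lin s x t y) = (s : ℝ) • vec b x + (t : ℝ) • vec b y := by
  simp only [vec, vec_get_lin, Finset.smul_sum, smul_smul, ← Finset.sum_add_distrib, ← add_smul]
  push_cast
  rfl

theorem vec_eq4 (b : Base R) (i : Fin 4) : vec b (eq4 i) = b.a i := by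
  fin_cases i <;> simp [vec, Fin.sum_univ_four, eq4, get4]

theorem vec_a_dot {b : Base R} {M : Model} (h : Fits b M) (i : Fin 4) (m : Q) :
    b.a i ⬝ᵥ vec b m = ((get4 M.d i * dotq (M.row i) m : ℤ) : ℝ) := by
  rw [vec, dotProduct_sum, vec_dotq, Finset.mul_sum, Int.cast_sum]
  refine Finset.sum_congr rfl fun j _ => ?_
  rw [dotProduct_smul, h, smul_eq_mul]
  push_cast
  ring

theorem p_VEC (hGEN : S_GEN) :
    S_VEC := by
  intro R b M hF hok
  simp only [Model.ok, List.all_eq_true, Bool.and_eq_true, Bool.or_eq_true,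
    decide_eq_true_eq] at hok
  have hd : ∀ i, (0 : ℝ) < get4 M.d i := fun i => by exact_mod_cast (hok i (vec_all i)).1.1.1
  have h1 : ∀ x y, vec b x ⬝ᵥ vec b y = (M.bil x y : ℤ) := fun x y => by
    conv_lhs => rw [vec.eq_1 b x]
    rw [sum_dotProduct, vec_bil, Int.cast_sum]
    refine Finset.sum_congr rfl fun i _ => ?_
    rw [smul_dotProduct, vec_a_dot hF, smul_eq_mul]
    push_cast
    ring
  have h4 : ∀ i m, rf (b.a i) (vec b m) = vec b (M.rq i m) := fun i m => by
    rw [Model.rq, vec_lin, vec_eq4, rf_apply, reflect, vec_a_dot hF, hF,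
      (hok i (vec_all i)).1.1.2, Int.cast_one, one_smul, Int.cast_neg, neg_smul, ← sub_eq_add_neg]
    congr 2
    have := (hd i).ne'
    push_cast
    field_simp
  have h6 : ∀ k m, ∃ g ∈ R.W, vec b (M.domin k m) = g (vec b m) := fun k => by
    induction k with
    | zero => exact fun m => ⟨1, one_mem _, rfl⟩
    | succ k ih =>
      intro m
      have key : ∀ i, ∃ g ∈ R.W, vec b (M.domin k (M.rq i m)) = g (vec b m) := fun i => by
        obtain ⟨g, hg, e⟩ := ih (M.rq i m)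
        exact ⟨g * rf (b.a i), mul_mem hg (b.mem i).rf_mem, by rw [e, ← h4]; rfl⟩
      rw [Model.domin]
      split_ifs
      exacts [key 0, key 1, key 2, key 3, ⟨1, one_mem _, rfl⟩]
  refine ⟨h1, vec_lin b, vec_eq4 b, h4, fun i => ?_, h6, fun O hO => ?_, fun P F m hP hf h => ?_⟩
  · have e1 : 0 < b.a i ⬝ᵥ vec b (M.om i) := by
      rw [vec_a_dot hF, Int.cast_mul]
      exact mul_pos (hd i) (by exact_mod_cast (hok i (vec_all i)).1.2)
    have e2 : vec b (M.om i) =
        ((b.a i ⬝ᵥ vec b (M.om i)) * √(b.ω i ⬝ᵥ b.ω i)) • b.u i := by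
      conv_lhs => rw [b.expand_ω (vec b (M.om i))]
      rw [Finset.sum_eq_single i (fun j _ hj => ?_) (by simp), mul_smul, ← b.ω_eq]
      rw [vec_a_dot hF, ((hok i (vec_all i)).2 j (vec_all j)).2.resolve_left hj.symm]
      simp
    have e3 := mul_pos e1 (Real.sqrt_pos.2 (b.ω_pos i))
    generalize (b.a i ⬝ᵥ vec b (M.om i)) * √(b.ω i ⬝ᵥ b.ω i) = c at e2 e3
    have e4 : ((M.bil (M.om i) (M.om i) : ℤ) : ℝ) = c * c := by
      rw [← h1, e2, smul_dotProduct, dotProduct_smul, b.u_unit]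
      simp
    refine ⟨?_, by rw [e4, Real.sqrt_mul_self e3.le, e2]⟩
    exact_mod_cast (e4 ▸ mul_pos e3 e3 : (0 : ℝ) < (M.bil (M.om i) (M.om i) : ℤ))
  · refine hGEN b (fun g => ∀ m ∈ O, ∃ m' ∈ O, g (vec b m) = vec b m')
      (fun m hm => ⟨m, hm, rfl⟩) fun g _ i ih m hm => ?_
    obtain ⟨m', hm', e⟩ := ih _ (hO m hm i)
    exact ⟨m', hm', by rw [← e, ← h4]; rfl⟩
  · simp only [Model.forb, par, List.any_eq_true, Bool.and_eq_true, Bool.or_eq_true,
      decide_eq_true_eq] at h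
    rcases h with rfl | ⟨f, hfF, ⟨e1, e2⟩, e3⟩
    · have : vec b (0, 0, 0, 0) = 0 := by simp [vec, Fin.sum_univ_four, get4]
      exact this ▸ hP.zero
    · obtain ⟨g, hg, e⟩ := h6 30 m
      have e4 := congrArg (vec b) e3
      rw [vec_lin, vec_lin, Int.cast_zero, zero_smul, zero_smul, add_zero, add_zero, e] at e4
      have e5 : (0 : ℝ) < dotq f f := by exact_mod_cast e2
      have e6 := hP.map _ (inv_mem hg) _ (hP.smul _ (inv_pos.2 e5) _
        (e4 ▸ hP.smul _ (by exact_mod_cast e1) _ (hf f hfF) :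
          P (((dotq f f : ℤ) : ℝ) • g (vec b m))))
      rwa [smul_smul, inv_mul_cancel₀ e5.ne', one_smul, inv_apply_self] at e6

end Pool.Agent.P.MP_8ecd01_al.R4
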