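import Pool.Agent.P.MP_8ecd01_al.R4.IfaceA

/-! Step WFIN of the top-dimensional centre theorem in rank four. -/

namespace Pool.Agent.P.MP_8ecd01_al.R4

open Matrix Module

theorem p_WFIN :
    S_WFIN := by
  intro n R
  have : Finite R.W := Finite.of_injective
    (fun (g : R.W) (α : R.Φ) => (⟨g.1 α.1, W_root g.2 α.2⟩ : R.Φ)) fun g h e =>
      Subtype.ext (LinearEquiv.toLinearMap_injective (LinearMap.ext_on R.span_top fun α hα =>
        congrArg Subtype.val (congrFun e ⟨α, hα⟩)))
  exact Set.toFinite _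

end Pool.Agent.P.MP_8ecd01_al.R4
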