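import Pool.Agent.P.MP_8ecd01_al.R4.Base
import Pool.Agent.P.MP_8ecd01_al.R4.Wfin
import Pool.Agent.P.MP_8ecd01_al.R4.Dom
import Pool.Agent.P.MP_8ecd01_al.R4.Gen
import Pool.Agent.P.MP_8ecd01_al.R4.Fd
import Pool.Agent.P.MP_8ecd01_al.R4.Cox
import Pool.Agent.P.MP_8ecd01_al.R4.Cb
import Pool.Agent.P.MP_8ecd01_al.R4.Loc
import Pool.Agent.P.MP_8ecd01_al.R4.Ret
import Pool.Agent.P.MP_8ecd01_al.R4.Unip
import Pool.Agent.P.MP_8ecd01_al.R4.Tra
import Pool.Agent.P.MP_8ecd01_al.R4.Trc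
import Pool.Agent.P.MP_8ecd01_al.R4.Trs
import Pool.Agent.P.MP_8ecd01_al.R4.Clq
import Pool.Agent.P.MP_8ecd01_al.R4.Cla
import Pool.Agent.P.MP_8ecd01_al.R4.Cert
import Pool.Agent.P.MP_8ecd01_al.R4.Cerf
import Pool.Agent.P.MP_8ecd01_al.R4.Class
import Pool.Agent.P.MP_8ecd01_al.R4.Tyu
import Pool.Agent.P.MP_8ecd01_al.R4.Sym
import Pool.Agent.P.MP_8ecd01_al.R4.Dla
import Pool.Agent.P.MP_8ecd01_al.R4.Dl
import Pool.Agent.P.MP_8ecd01_al.R4.Vec
import Pool.Agent.P.MP_8ecd01_al.R4.Snc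
import Pool.Agent.P.MP_8ecd01_al.R4.Orb
import Pool.Agent.P.MP_8ecd01_al.R4.Cpl
import Pool.Agent.P.MP_8ecd01_al.R4.Proj
import Pool.Agent.P.MP_8ecd01_al.R4.Pc
import Pool.Agent.P.MP_8ecd01_al.R4.Fix
import Pool.Agent.P.MP_8ecd01_al.R4.Up
import Pool.Agent.P.MP_8ecd01_al.R4.Bnd
import Pool.Agent.P.MP_8ecd01_al.R4.Foot
import Pool.Agent.P.MP_8ecd01_al.R4.Max
import Pool.Agent.P.MP_8ecd01_al.R4.Jmin
import Pool.Agent.P.MP_8ecd01_al.R4.Jstep
import Pool.Agent.P.MP_8ecd01_al.R4.Jung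
import Pool.Agent.P.MP_8ecd01_al.R4.Jant
import Pool.Agent.P.MP_8ecd01_al.R4.Cen
import Pool.Agent.P.MP_8ecd01_al.R4.Nonc
import Pool.Agent.P.MP_8ecd01_al.R4.Link
import Pool.Agent.P.MP_8ecd01_al.R4.Simp
import Pool.Agent.P.MP_8ecd01_al.R4.Step
import Pool.Agent.P.MP_8ecd01_al.R4.Nv
import Pool.Agent.P.MP_8ecd01_al.R4.Hull
import Pool.Agent.P.MP_8ecd01_al.R4.Sno
import Pool.Agent.P.MP_8ecd01_al.R4.Snj
import Pool.Agent.P.MP_8ecd01_al.R4.Snh
import Pool.Agent.P.MP_8ecd01_al.R4.Ideal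
import Pool.Agent.P.MP_8ecd01_al.R4.Fam
import Pool.Agent.P.MP_8ecd01_al.R4.Elj
import Pool.Agent.P.MP_8ecd01_al.R4.Hex
import Pool.Agent.P.MP_8ecd01_al.R4.Elh
import Pool.Agent.P.MP_8ecd01_al.R4.Near
import Pool.Agent.P.MP_8ecd01_al.R4.Rp
import Pool.Agent.P.MP_8ecd01_al.R4.Norm
import Pool.Agent.P.MP_8ecd01_al.R4.Slope
import Pool.Agent.P.MP_8ecd01_al.R4.Root
import Pool.Agent.P.MP_8ecd01_al.R4.Conj
import Pool.Agent.P.MP_8ecd01_al.R4.Rinv
import Pool.Agent.P.MP_8ecd01_al.R4.Noroot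
import Pool.Agent.P.MP_8ecd01_al.R4.Forb
import Pool.Agent.P.MP_8ecd01_al.R4.Ff
import Pool.Agent.P.MP_8ecd01_al.R4.Fz
import Pool.Agent.P.MP_8ecd01_al.R4.Fa
import Pool.Agent.P.MP_8ecd01_al.R4.Fb
import Pool.Agent.P.MP_8ecd01_al.R4.Main
import Pool.Agent.P.MP_8ecd01_al.R4.Trf

/-! Assembly of the top-dimensional centre theorem in rank four. -/

namespace Pool.Agent.P.MP_8ecd01_al.R4

theorem all_BASE : S_BASE := p_BASE
theorem all_WFIN : S_WFIN := p_WFIN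
theorem all_DOM : S_DOM := p_DOM all_WFIN
theorem all_GEN : S_GEN := p_GEN
theorem all_FD : S_FD := p_FD all_GEN
theorem all_COX : S_COX := p_COX all_BASE all_WFIN all_DOM all_FD
theorem all_CB : S_CB := p_CB
theorem all_LOC : S_LOC := p_LOC
theorem all_RET : S_RET := p_RET all_BASE all_DOM all_LOC
theorem all_UNIP : S_UNIP := p_UNIP all_CB
theorem all_TRA : S_TRA := p_TRA
theorem all_TRC : S_TRC := p_TRC all_TRA
theorem all_TRS : S_TRS := p_TRS all_TRA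
theorem all_CLQ : S_CLQ := p_CLQ
theorem all_CLA : S_CLA := p_CLA all_CLQ
theorem all_CERT : S_CERT := p_CERT
theorem all_CERF : S_CERF := p_CERF
theorem all_CLASS : S_CLASS := p_CLASS all_BASE all_CLA all_CERT all_CERF
theorem all_TYU : S_TYU := p_TYU all_DOM all_FD
theorem all_SYM : S_SYM := p_SYM
theorem all_DLA : S_DLA := p_DLA all_SYM all_DOM all_TYU
theorem all_DL : S_DL := p_DL all_GEN all_DOM all_FD all_TYU all_DLA
theorem all_VEC : S_VEC := p_VEC all_GEN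
theorem all_SNC : S_SNC := p_SNC all_VEC
theorem all_ORB : S_ORB := p_ORB all_BASE all_DOM all_DL
theorem all_CPL : S_CPL := p_CPL
theorem all_PROJ : S_PROJ := p_PROJ all_CPL
theorem all_PC : S_PC := p_PC all_PROJ
theorem all_FIX : S_FIX := p_FIX all_PROJ all_PC
theorem all_UP : S_UP := p_UP all_PROJ all_PC
theorem all_BND : S_BND := p_BND all_UP
theorem all_FOOT : S_FOOT := p_FOOT
theorem all_MAX : S_MAX := p_MAX all_UP all_BND all_FOOT
theorem all_JMIN : S_JMIN := p_JMIN all_MAX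
theorem all_JSTEP : S_JSTEP := p_JSTEP
theorem all_JUNG : S_JUNG := p_JUNG all_JMIN all_JSTEP
theorem all_JANT : S_JANT := p_JANT all_JUNG
theorem all_CEN : S_CEN := p_CEN all_PC
theorem all_NONC : S_NONC := p_NONC all_CEN all_MAX
theorem all_LINK : S_LINK := p_LINK all_UP
theorem all_SIMP : S_SIMP := p_SIMP all_PC
theorem all_STEP : S_STEP := p_STEP all_DOM all_NONC all_LINK all_CEN all_SIMP
theorem all_NV : S_NV := p_NV all_STEP
theorem all_HULL : S_HULL := p_HULL all_SYM all_ORB all_FIX all_JANT all_NV all_CEN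
theorem all_SNO : S_SNO := p_SNO all_VEC
theorem all_SNJ : S_SNJ := p_SNJ all_VEC all_SNO
theorem all_SNH : S_SNH := p_SNH all_VEC all_SNO
theorem all_IDEAL : S_IDEAL := p_IDEAL
theorem all_FAM : S_FAM := p_FAM all_FIX all_JANT
theorem all_ELJ : S_ELJ := p_ELJ all_SYM all_IDEAL all_FAM
theorem all_HEX : S_HEX := p_HEX all_IDEAL
theorem all_ELH : S_ELH := p_ELH all_SYM all_HEX all_FAM
theorem all_NEAR : S_NEAR := p_NEAR
theorem all_RP : S_RP := p_RP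
theorem all_NORM : S_NORM := p_NORM all_RP all_IDEAL
theorem all_SLOPE : S_SLOPE := p_SLOPE all_RP all_NORM
theorem all_ROOT : S_ROOT := p_ROOT all_PROJ all_NEAR all_SLOPE
theorem all_CONJ : S_CONJ := p_CONJ
theorem all_RINV : S_RINV := p_RINV all_BASE all_SYM all_DL all_CONJ
theorem all_NOROOT : S_NOROOT := p_NOROOT all_FIX all_ROOT all_RINV
theorem all_FORB : S_FORB := p_FORB all_VEC all_SNJ all_SNH all_ELJ all_ELH all_NOROOT
theorem all_FF : S_FF := p_FF all_VEC all_SNC all_CERF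
theorem all_FZ : S_FZ := p_FZ all_TYU all_DL all_HULL all_FORB all_CERF
theorem all_FA : S_FA := p_FA all_SYM all_TYU all_DL all_DOM all_FD all_FF all_FZ
theorem all_FB : S_FB := p_FB all_TYU all_FF all_HULL all_NOROOT all_IDEAL all_FA
theorem all_MAIN : S_MAIN := p_MAIN all_CLASS all_CERT all_DL all_SNC all_HULL all_FORB all_FB
theorem all_TRF : S_TRF := p_TRF all_TRA all_TRC all_TRS all_MAIN

theorem centre (R : RootSystem 4) (B : Building R) (S : Set (Delta B)) (hc : IsClosed S)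
    (hv : IsConvex S) (ht : TopDim S) :
    (∀ x ∈ S, ∃ y ∈ S, Opp x y) ∨
      ∃ c ∈ S, ∀ β : Equiv.Perm (Delta B), IsAut β → β '' S = S → β c = c :=
  haveI : COX R := all_COX R
  haveI : API B := ⟨all_CB B, all_RET B, all_UNIP B⟩
  all_TRF B S hc hv ht

end Pool.Agent.P.MP_8ecd01_al.R4
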