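import Pool.Agent.P.MP_8ecd01_al.R4.IfaceA

/-! Step BASE of the top-dimensional centre theorem in rank four. -/

namespace Pool.Agent.P.MP_8ecd01_al.R4

open Matrix Module
open scoped NNReal

theorem base_nonneg {n : ℕ} {S : Set (Fin n → ℝ)} {v x : Fin n → ℝ} (h : ∀ d ∈ S, 0 ≤ d ⬝ᵥ v)
    (hx : x ∈ Submodule.span ℝ≥0 S) : 0 ≤ x ⬝ᵥ v := by
  induction hx using Submodule.span_induction with
  | mem x hx => exact h x hx
  | zero => exact (zero_dotProduct _).ge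
  | add x y _ _ h1 h2 => rw [add_dotProduct]; exact add_nonneg h1 h2
  | smul r x _ h1 => rw [NNReal.smul_def, smul_dotProduct]; exact mul_nonneg r.2 h1

theorem base_smul {n : ℕ} {C : Submodule ℝ≥0 (Fin n → ℝ)} {x : Fin n → ℝ} {r : ℝ} (hr : 0 ≤ r)
    (hx : x ∈ C) : r • x ∈ C := C.smul_mem ⟨r, hr⟩ hx

theorem base_red {n : ℕ} {D : Finset (Fin n → ℝ)} {ρ α β : Fin n → ℝ} {s t : ℝ}
    (hp : ∀ d ∈ D, 0 < d ⬝ᵥ ρ) (hα : α ∈ D) (hβ : β ∈ D) (hne : α ≠ β) (ht : 0 < t)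
    (h : s • β - t • α ∈ Submodule.span ℝ≥0 (D : Set (Fin n → ℝ))) :
    Submodule.span ℝ≥0 (D : Set (Fin n → ℝ)) ≤
      Submodule.span ℝ≥0 (D.erase β : Set (Fin n → ℝ)) := by
  have hα' : α ∈ D.erase β := Finset.mem_erase.2 ⟨hne, hα⟩
  rw [← Finset.insert_erase hβ, Finset.coe_insert, Submodule.mem_span_insert] at h
  obtain ⟨c, z, hz, e⟩ := h
  have e' : (s - c) • β = z + t • α := by
    rw [sub_smul, sub_eq_iff_eq_add.1 e, NNReal.smul_def]
    abel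
  have h1 : 0 < s - c := by
    have h2 := congrArg (· ⬝ᵥ ρ) e'
    simp only [add_dotProduct, smul_dotProduct, smul_eq_mul] at h2
    have h3 := base_nonneg (fun d hd => (hp d (Finset.mem_of_mem_erase hd)).le) hz
    have h4 := mul_pos ht (hp α hα)
    exact (mul_pos_iff_of_pos_right (hp β hβ)).1 (by linarith)
  refine Submodule.span_le.2 fun d hd => ?_
  by_cases hd' : d = β
  · have h2 := base_smul (inv_pos.2 h1).le
      (add_mem hz (base_smul ht.le (Submodule.subset_span hα')))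
    rw [← e', smul_smul, inv_mul_cancel₀ h1.ne', one_smul] at h2
    exact hd' ▸ h2
  · exact Submodule.subset_span (Finset.mem_erase.2 ⟨hd', hd⟩)

theorem p_BASE :
    S_BASE := by
  intro n R
  obtain ⟨ρ, hρ⟩ := exists_gen R
  have ex : ∃ k, ∃ D : Finset (Fin n → ℝ), D.card = k ∧ (∀ d ∈ D, d ∈ R.Φ ∧ 0 < d ⬝ᵥ ρ) ∧
      ∀ α ∈ R.Φ, 0 < α ⬝ᵥ ρ → α ∈ Submodule.span ℝ≥0 (D : Set (Fin n → ℝ)) :=
    ⟨_, R.Φ.filter fun α => 0 < α ⬝ᵥ ρ, rfl, fun d hd => Finset.mem_filter.1 hd,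
      fun α h1 h2 => Submodule.subset_span (Finset.mem_coe.2 (Finset.mem_filter.2 ⟨h1, h2⟩))⟩
  classical
  obtain ⟨D, hk, h1, h2⟩ := Nat.find_spec ex
  have key : ∀ α ∈ D, ∀ β ∈ D, α ≠ β → ∀ s t : ℝ, 0 < t →
      s • β - t • α ∉ Submodule.span ℝ≥0 (D : Set (Fin n → ℝ)) := fun α hα β hβ hne s t ht h =>
    Nat.find_min ex (hk ▸ Finset.card_erase_lt_of_mem hβ) ⟨D.erase β, rfl,
      fun d hd => h1 d (Finset.mem_of_mem_erase hd), fun γ a b =>
        base_red (fun d hd => (h1 d hd).2) hα hβ hne ht h (h2 γ a b)⟩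
  have two : ∀ α ∈ R.Φ, α ∈ Submodule.span ℝ≥0 (D : Set (Fin n → ℝ)) ∨
      -α ∈ Submodule.span ℝ≥0 (D : Set (Fin n → ℝ)) := fun α hα =>
    (hρ α hα).lt_or_gt.symm.imp (h2 α hα) fun h =>
      h2 _ (root_neg hα) (by rw [neg_dotProduct]; linarith)
  have obt : ∀ α ∈ D, ∀ β ∈ D, α ≠ β → α ⬝ᵥ β ≤ 0 := fun α hα β hβ hne => by
    by_contra! h
    have hc : 0 < 2 * (α ⬝ᵥ β) / (α ⬝ᵥ α) :=
      div_pos (by linarith) (dot_self_pos (root_ne (h1 α hα).1))
    rcases two _ (R.reflect_mem α (h1 α hα).1 β (h1 β hβ).1) with h' | h'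
    · exact key α hα β hβ hne 1 _ hc (by rwa [one_smul])
    · exact key β hβ α hα hne.symm _ 1 one_pos (by rwa [reflect, neg_sub, ← one_smul ℝ β] at h')
  have li : LinearIndependent ℝ fun d : D => d.1 :=
    LinearMap.BilinForm.linearIndependent_of_pairwise_le_zero (dotProductBilin ℝ ℝ)
      (fun x hx => dot_self_pos hx) (dotProductBilin ℝ ℝ ρ) _
      (fun d => (h1 d d.2).2.trans_eq (dotProduct_comm _ _))
      fun d e h => obt d d.2 e e.2 fun h' => h (Subtype.ext h')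
  have sp : Submodule.span ℝ (D : Set (Fin n → ℝ)) = ⊤ := by
    refine top_le_iff.1 (R.span_top ▸ Submodule.span_le.2 fun α hα => ?_)
    rcases two α hα with h | h
    · exact Submodule.span_le_restrictScalars ℝ≥0 ℝ _ h
    · exact neg_mem_iff.1 (Submodule.span_le_restrictScalars ℝ≥0 ℝ _ h)
  have hc : D.card = n := by
    rw [← finrank_span_finset_eq_card (R := ℝ) li, sp, finrank_top, finrank_fin_fun]
  let e : Fin n ≃ D := (D.equivFinOfCardEq hc).symm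
  let A : Matrix (Fin n) (Fin n) ℝ := Matrix.of fun i => (e i).1
  have hA : A * A⁻¹ = 1 := Matrix.mul_nonsing_inv _ ((Matrix.isUnit_iff_isUnit_det _).1
    (Matrix.linearIndependent_rows_iff_isUnit.1 (li.comp e e.injective)))
  have du : ∀ i j, (e i).1 ⬝ᵥ A⁻¹ᵀ j = if i = j then 1 else 0 := fun i j => by
    rw [← Matrix.one_apply, ← hA]
    rfl
  have nn : ∀ i, ∀ d ∈ (D : Set (Fin n → ℝ)), 0 ≤ d ⬝ᵥ A⁻¹ᵀ i := fun i d hd => by
    have := du (e.symm ⟨d, hd⟩) i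
    rw [e.apply_symm_apply] at this
    rw [this]
    split_ifs <;> norm_num
  refine ⟨⟨fun i => (e i).1, fun j => A⁻¹ᵀ j, fun i => ⟨1, one_pos, ?_⟩, du, fun α hα => ?_⟩⟩
  · rw [one_smul]
    exact (h1 _ (e i).2).1
  · refine (two α hα).imp (fun h i => base_nonneg (nn i) h) fun h i => ?_
    have := base_nonneg (nn i) h
    rwa [neg_dotProduct, neg_nonneg] at this

end Pool.Agent.P.MP_8ecd01_al.R4
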