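import Pool.Agent.P.MP_8ecd01_al.R4.Cox0

/-!
The cone over a spherical building: sums, the inner product, the metric.
-/

namespace Pool.Agent.P.MP_8ecd01_al.R4

open Matrix

variable {n : ℕ} {R : RootSystem n} {B : Building R}

variable (B) in
/-- Charts. -/
abbrev Ch : Type := {φ : (Fin n → ℝ) → B.X // φ ∈ B.A}

def mk (c : Ch B) (w : Fin n → ℝ) : B.X := c.1 w

variable (B) in
noncomputable def std : Ch B := ⟨B.nonempty.some, B.nonempty.some_mem⟩

noncomputable def zero : B.X := mk (std B) 0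

theorem common (x y : B.X) : ∃ b v u, x = mk b v ∧ y = mk b u := by
  obtain ⟨φ, h, ⟨v, h1⟩, u, h2⟩ := B.common x y
  exact ⟨⟨φ, h⟩, v, u, h1.symm, h2.symm⟩

theorem common' (x y : B.X) :
    ∃ p : Ch B × (Fin n → ℝ) × (Fin n → ℝ), x = mk p.1 p.2.1 ∧ y = mk p.1 p.2.2 := by
  obtain ⟨b, v, u, h⟩ := common x y
  exact ⟨(b, v, u), h⟩

noncomputable def add (x y : B.X) : B.X :=
  mk (common' x y).choose.1 ((common' x y).choose.2.1 + (common' x y).choose.2.2)

noncomputable def smul (r : ℝ) (x : B.X) : B.X :=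
  mk (common' x x).choose.1 (r • (common' x x).choose.2.1)

/-- The inner product, computed in a common chart. -/
noncomputable def ip (x y : B.X) : ℝ := (common' x y).choose.2.1 ⬝ᵥ (common' x y).choose.2.2

noncomputable def d2 (x y : B.X) : ℝ := ip x x - 2 * ip x y + ip y y

/-- The chart `d` agrees with `c` on the flat of `w`. -/
def Apt (c : Ch B) (w : Fin n → ℝ) (d : Ch B) : Prop := ∀ ψ, Blk R w ψ → mk d ψ = mk c ψ

/-- The union of the apartments containing the flat of `w` in the chart `c`. -/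
def Par (c : Ch B) (w : Fin n → ℝ) : Set B.X :=
  {x | ∃ (d : Ch B) (φ : Fin n → ℝ), Apt c w d ∧ x = mk d φ}

variable (B) in
def A_CB : Prop :=
  ∀ (c d0 : Ch B) (w v : Fin n → ℝ) (y : B.X), Apt c w d0 → y ∈ Par c w →
    ∃ (d : Ch B) (u : Fin n → ℝ), Apt c w d ∧ mk d v = mk d0 v ∧ y = mk d u

variable (B) in
def A_RET : Prop :=
  ∀ (b : Ch B) (φ : Fin n → ℝ) (z : B.X), ∃ ζ : Fin n → ℝ, ζ ⬝ᵥ ζ = ip z z ∧
    ip (mk b φ) z = φ ⬝ᵥ ζ ∧ ∀ ψ, ip (mk b ψ) z ≤ ψ ⬝ᵥ ζ

variable (B) in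
def A_UNIP : Prop :=
  ∀ (c d : Ch B) (w : Fin n → ℝ), mk d w = mk c w →
    ∃ d' : Ch B, Apt c w d' ∧ ∀ φ, Compat R w φ → mk d' φ = mk d φ

variable (B) in
/-- The basic facts on apartments on which the geometry rests. -/
class API : Prop where
  cb : A_CB B
  ret : A_RET B
  unip : A_UNIP B

theorem exists_mk (x : B.X) : ∃ b w, x = mk b w := by
  obtain ⟨b, v, -, h, -⟩ := common x x
  exact ⟨b, v, h⟩

theorem mk_inj {b : Ch B} {v u : Fin n → ℝ} (h : mk b v = mk b u) : v = u := B.inj _ b.2 h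

/-- The chart `c` composed with an element of the Weyl group. -/
def cw (c : Ch B) {g : (Fin n → ℝ) ≃ₗ[ℝ] (Fin n → ℝ)} (hg : g ∈ R.W) : Ch B :=
  ⟨c.1 ∘ g, B.comp _ c.2 g hg⟩

theorem mk_cw (c : Ch B) {g : (Fin n → ℝ) ≃ₗ[ℝ] (Fin n → ℝ)} (hg : g ∈ R.W) (v : Fin n → ℝ) :
    mk (cw c hg) v = mk c (g v) := rfl

/-- The overlap of two charts. -/
theorem overlap (c d : Ch B) : ∃ g ∈ R.W, ∃ S ⊆ R.Φ, (∀ v u, mk c v = mk d u → u = g v) ∧
    ∀ v, mk c v = mk d (g v) ↔ ∀ α ∈ S, 0 ≤ α ⬝ᵥ v := by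
  obtain ⟨g, hg, h⟩ := B.trans _ c.2 _ d.2
  obtain ⟨S, hS, h'⟩ := B.half _ c.2 _ d.2
  refine ⟨g, hg, S, hS, h, fun v => Iff.trans ⟨fun e => ⟨_, e.symm⟩, fun ⟨u, e⟩ => ?_⟩ (h' v)⟩
  rw [← h v u e.symm]
  exact e.symm

theorem typ {b d : Ch B} {v u : Fin n → ℝ} (h : mk b v = mk d u) : ∃ g ∈ R.W, u = g v := by
  obtain ⟨g, hg, -, -, h1, -⟩ := overlap b d
  exact ⟨g, hg, h1 v u h⟩

theorem mk_lin {b d : Ch B} {v u v' u' : Fin n → ℝ} (h : mk b v = mk d v') (h' : mk b u = mk d u')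
    {s t : ℝ} (hs : 0 ≤ s) (ht : 0 ≤ t) :
    mk b (s • v + t • u) = mk d (s • v' + t • u') ∧ v ⬝ᵥ u = v' ⬝ᵥ u' := by
  obtain ⟨g, hg, S, -, h1, h2⟩ := overlap b d
  obtain rfl := h1 _ _ h
  obtain rfl := h1 _ _ h'
  refine ⟨?_, (W_dot hg v u).symm⟩
  rw [← map_smul, ← map_smul, ← map_add]
  refine (h2 _).2 fun α hα => ?_
  rw [dotProduct_add, dotProduct_smul, dotProduct_smul]
  exact add_nonneg (mul_nonneg hs ((h2 v).1 h α hα)) (mul_nonneg ht ((h2 u).1 h' α hα))

theorem add_mk (b : Ch B) (v u : Fin n → ℝ) : add (mk b v) (mk b u) = mk b (v + u) := by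
  obtain ⟨h1, h2⟩ := (common' (mk b v) (mk b u)).choose_spec
  have := (mk_lin h1 h2 zero_le_one zero_le_one).1
  simp only [one_smul] at this
  exact this.symm

theorem smul_mk (b : Ch B) (v : Fin n → ℝ) {r : ℝ} (hr : 0 ≤ r) :
    smul r (mk b v) = mk b (r • v) := by
  obtain ⟨h1, -⟩ := (common' (mk b v) (mk b v)).choose_spec
  have := (mk_lin h1 h1 hr le_rfl).1
  simp only [zero_smul, add_zero] at this
  exact this.symm

theorem ip_mk (b : Ch B) (v u : Fin n → ℝ) : ip (mk b v) (mk b u) = v ⬝ᵥ u := by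
  obtain ⟨h1, h2⟩ := (common' (mk b v) (mk b u)).choose_spec
  exact (mk_lin h1 h2 le_rfl le_rfl).2.symm

theorem mk_zero (b : Ch B) : mk b 0 = zero := by
  obtain ⟨g, -, S, -, -, h⟩ := overlap b (std B)
  have := (h 0).2 fun α _ => (dotProduct_zero α).ge
  rwa [map_zero] at this

theorem mk_comp [COX R] {b d : Ch B} {w φ : Fin n → ℝ} (h : mk d w = mk b w)
    (hc : Comono R w φ) : mk d φ = mk b φ := by
  obtain ⟨g, hg, S, hS, h1, h2⟩ := overlap d b
  have h3 := h1 _ _ h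
  have h4 := (h2 φ).2 fun α hα => hc α (hS hα) ((h2 w).1 (h3 ▸ h) α hα)
  rwa [COX.fix g hg w φ h3.symm hc] at h4

/-- Two charts which agree at `w` and `-w` agree on the flat of `w`. -/
theorem apt_of [COX R] {c d : Ch B} {w : Fin n → ℝ} (h : mk d w = mk c w)
    (h' : mk d (-w) = mk c (-w)) : Apt c w d := by
  intro ψ hψ
  obtain ⟨g, hg, S, hS, h1, h2⟩ := overlap d c
  have h3 := h1 _ _ h
  have h4 := (h2 ψ).2 fun α hα => by
    have e1 := (h2 w).1 (h3 ▸ h) α hα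
    have e2 := (h2 (-w)).1 (h1 _ _ h' ▸ h') α hα
    rw [dotProduct_neg] at e2
    exact (hψ α (hS hα) (by linarith)).ge
  rwa [W_fix_blk hg h3.symm hψ] at h4

/-- A common chart, keeping the coordinates of the first point. -/
theorem cb0 (b : Ch B) (v : Fin n → ℝ) (y : B.X) :
    ∃ (d : Ch B) (u : Fin n → ℝ), mk d v = mk b v ∧ y = mk d u := by
  obtain ⟨c, v', u, h, rfl⟩ := common (mk b v) y
  obtain ⟨g, hg, rfl⟩ := typ h
  exact ⟨cw c hg, g⁻¹ u, h.symm, by rw [mk_cw, self_apply_inv]⟩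

theorem Apt.refl (c : Ch B) (w : Fin n → ℝ) : Apt c w c := fun _ _ => rfl

theorem Apt.symm {c d : Ch B} {w : Fin n → ℝ} (h : Apt c w d) : Apt d w c :=
  fun ψ hψ => (h ψ hψ).symm

theorem Apt.trans {c d e : Ch B} {w : Fin n → ℝ} (h : Apt c w d) (h' : Apt d w e) :
    Apt c w e := fun ψ hψ => (h' ψ hψ).trans (h ψ hψ)

theorem Apt.mono {c d : Ch B} {w w' : Fin n → ℝ} (h : Apt c w' d) (hb : Blk R w' w) :
    Apt c w d := fun ψ hψ => h ψ (hb.trans hψ)

theorem apt_zero (c d : Ch B) : Apt c 0 d := fun ψ hψ => by rw [hψ.eq_zero, mk_zero, mk_zero]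

theorem mem_par_zero (c : Ch B) (x : B.X) : x ∈ Par c 0 := by
  obtain ⟨b, w, rfl⟩ := exists_mk x
  exact ⟨b, w, apt_zero _ _, rfl⟩

theorem mk_mem_par {c d : Ch B} {w : Fin n → ℝ} (h : Apt c w d) (φ : Fin n → ℝ) :
    mk d φ ∈ Par c w := ⟨d, φ, h, rfl⟩

theorem par_mono {c : Ch B} {w w' : Fin n → ℝ} (hb : Blk R w' w) : Par c w' ⊆ Par c w := by
  rintro _ ⟨d, φ, h, rfl⟩
  exact ⟨d, φ, h.mono hb, rfl⟩

theorem par_congr {c d : Ch B} {w : Fin n → ℝ} (h : Apt c w d) : Par d w = Par c w := by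
  ext x
  constructor
  · rintro ⟨e, φ, h', rfl⟩
    exact ⟨e, φ, h.trans h', rfl⟩
  · rintro ⟨e, φ, h', rfl⟩
    exact ⟨e, φ, h.symm.trans h', rfl⟩

theorem common_par [API B] {c : Ch B} {w : Fin n → ℝ} {x y : B.X} (hx : x ∈ Par c w)
    (hy : y ∈ Par c w) : ∃ d v u, Apt c w d ∧ x = mk d v ∧ y = mk d u := by
  obtain ⟨b, v, hb, rfl⟩ := hx
  obtain ⟨d, u, h0, h1, h2⟩ := API.cb c b w v y hb hy
  exact ⟨d, v, u, h0, h1.symm, h2⟩

theorem ip_comm (x y : B.X) : ip x y = ip y x := by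
  obtain ⟨b, v, u, rfl, rfl⟩ := common x y
  rw [ip_mk, ip_mk, dotProduct_comm]

theorem add_comm' (x y : B.X) : add x y = add y x := by
  obtain ⟨b, v, u, rfl, rfl⟩ := common x y
  rw [add_mk, add_mk, add_comm]

theorem add_zero' (x : B.X) : add x zero = x := by
  obtain ⟨b, v, rfl⟩ := exists_mk x
  rw [← mk_zero b, add_mk, add_zero]

theorem zero_add' (x : B.X) : add zero x = x := by
  obtain ⟨b, v, rfl⟩ := exists_mk x
  rw [← mk_zero b, add_mk, zero_add]

theorem one_smul' (x : B.X) : smul 1 x = x := by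
  obtain ⟨b, v, rfl⟩ := exists_mk x
  rw [smul_mk _ _ zero_le_one, one_smul]

theorem zero_smul' (x : B.X) : smul 0 x = zero := by
  obtain ⟨b, v, rfl⟩ := exists_mk x
  rw [smul_mk _ _ le_rfl, zero_smul, mk_zero]

theorem smul_zero' {r : ℝ} (hr : 0 ≤ r) : smul r (zero : B.X) = zero := by
  rw [← mk_zero (std B), smul_mk _ _ hr, smul_zero]

theorem smul_smul' {r s : ℝ} (hr : 0 ≤ r) (hs : 0 ≤ s) (x : B.X) :
    smul r (smul s x) = smul (r * s) x := by
  obtain ⟨b, v, rfl⟩ := exists_mk x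
  rw [smul_mk _ _ hs, smul_mk _ _ hr, smul_mk _ _ (mul_nonneg hr hs), smul_smul]

theorem smul_add' {r : ℝ} (hr : 0 ≤ r) (x y : B.X) :
    smul r (add x y) = add (smul r x) (smul r y) := by
  obtain ⟨b, v, u, rfl, rfl⟩ := common x y
  rw [add_mk, smul_mk _ _ hr, smul_mk _ _ hr, smul_mk _ _ hr, add_mk, smul_add]

theorem ip_zero_left (x : B.X) : ip zero x = 0 := by
  obtain ⟨b, v, rfl⟩ := exists_mk x
  rw [← mk_zero b, ip_mk, zero_dotProduct]

theorem ip_zero_right (x : B.X) : ip x zero = 0 := by rw [ip_comm, ip_zero_left]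

theorem ip_smul_left {r : ℝ} (hr : 0 ≤ r) (x y : B.X) : ip (smul r x) y = r * ip x y := by
  obtain ⟨b, v, u, rfl, rfl⟩ := common x y
  rw [smul_mk _ _ hr, ip_mk, ip_mk, smul_dotProduct, smul_eq_mul]

theorem ip_smul_right {r : ℝ} (hr : 0 ≤ r) (x y : B.X) : ip x (smul r y) = r * ip x y := by
  rw [ip_comm, ip_smul_left hr, ip_comm]

theorem ip_self_nonneg (x : B.X) : 0 ≤ ip x x := by
  obtain ⟨b, v, rfl⟩ := exists_mk x
  rw [ip_mk]
  exact dot_self_nonneg v

theorem eq_zero_of_ip_self {x : B.X} (h : ip x x ≤ 0) : x = zero := by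
  obtain ⟨b, v, rfl⟩ := exists_mk x
  rw [ip_mk] at h
  rw [dotProduct_self_eq_zero.1 (le_antisymm h (dot_self_nonneg v)), mk_zero]

theorem ip_self_pos {x : B.X} (h : x ≠ zero) : 0 < ip x x :=
  lt_of_not_ge fun h' => h (eq_zero_of_ip_self h')

theorem ip_add_left_self (x y : B.X) : ip (add x y) x = ip x x + ip y x := by
  obtain ⟨b, v, u, rfl, rfl⟩ := common x y
  rw [add_mk, ip_mk, ip_mk, ip_mk, add_dotProduct]

theorem ip_add_right_self (x y : B.X) : ip (add x y) y = ip x y + ip y y := by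
  obtain ⟨b, v, u, rfl, rfl⟩ := common x y
  rw [add_mk, ip_mk, ip_mk, ip_mk, add_dotProduct]

theorem ip_add_add (x y : B.X) : ip (add x y) (add x y) = ip x x + 2 * ip x y + ip y y := by
  obtain ⟨b, v, u, rfl, rfl⟩ := common x y
  rw [add_mk, ip_mk, ip_mk, ip_mk, ip_mk, add_dotProduct, dotProduct_add, dotProduct_add,
    dotProduct_comm u v]
  ring

theorem ip_sq_le (x y : B.X) : ip x y ^ 2 ≤ ip x x * ip y y := by
  obtain ⟨b, v, u, rfl, rfl⟩ := common x y
  rw [ip_mk, ip_mk, ip_mk]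
  exact dot_sq_le v u

/-- The inner product with a fixed point is additive on a closed chamber. -/
theorem ip_add_compat [COX R] (b : Ch B) {φ ψ : Fin n → ℝ} (h : Compat R φ ψ) (z : B.X) :
    ip (mk b (φ + ψ)) z = ip (mk b φ) z + ip (mk b ψ) z := by
  obtain ⟨d, u, h1, rfl⟩ := cb0 b (φ + ψ) z
  rw [← h1, ← mk_comp h1 h.comono_add, ← mk_comp h1 h.comono_add', ip_mk, ip_mk, ip_mk,
    add_dotProduct]

theorem d2_mk (b : Ch B) (v u : Fin n → ℝ) : d2 (mk b v) (mk b u) = (v - u) ⬝ᵥ (v - u) := by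
  unfold d2
  rw [ip_mk, ip_mk, ip_mk, sub_dotProduct, dotProduct_sub, dotProduct_sub, dotProduct_comm u v]
  ring

theorem d2_nonneg (x y : B.X) : 0 ≤ d2 x y := by
  obtain ⟨b, v, u, rfl, rfl⟩ := common x y
  rw [d2_mk]
  exact dot_self_nonneg _

theorem d2_comm (x y : B.X) : d2 x y = d2 y x := by
  unfold d2
  rw [ip_comm x y]
  ring

theorem d2_self (x : B.X) : d2 x x = 0 := by
  unfold d2
  ring

theorem eq_of_d2 {x y : B.X} (h : d2 x y ≤ 0) : x = y := by
  obtain ⟨b, v, u, rfl, rfl⟩ := common x y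
  rw [d2_mk] at h
  rw [sub_eq_zero.1 (dotProduct_self_eq_zero.1 (le_antisymm h (dot_self_nonneg _)))]

theorem d2_zero (x : B.X) : d2 x zero = ip x x := by
  unfold d2
  rw [ip_zero_right, ip_zero_right]
  ring

theorem d2_smul {r : ℝ} (hr : 0 ≤ r) (x y : B.X) :
    d2 (smul r x) (smul r y) = r ^ 2 * d2 x y := by
  unfold d2
  simp only [ip_smul_left hr, ip_smul_right hr]
  ring

/-- Antipodes in terms of the inner product. -/
theorem add_eq_zero_of_ip {p q : B.X} (h1 : ip q q ≤ ip p p) (h2 : ip p q ≤ -ip p p) :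
    add p q = zero := by
  refine eq_zero_of_ip_self ?_
  rw [ip_add_add]
  linarith

theorem eq_neg_of_add {b : Ch B} {v u : Fin n → ℝ} (h : add (mk b v) (mk b u) = zero) :
    u = -v := by
  rw [add_mk, ← mk_zero b] at h
  exact eq_neg_of_add_eq_zero_right (mk_inj h)

theorem ip_of_add_eq_zero {p q : B.X} (h : add p q = zero) :
    ip p q = -ip p p ∧ ip q q = ip p p := by
  obtain ⟨b, v, u, rfl, rfl⟩ := common p q
  rw [eq_neg_of_add h, ip_mk, ip_mk, ip_mk]
  simp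

variable [API B]

/-- Concavity of the inner product. -/
theorem ip_add_ge (x y z : B.X) : ip x z + ip y z ≤ ip (add x y) z := by
  obtain ⟨b, v, u, rfl, rfl⟩ := common x y
  obtain ⟨ζ, -, h1, h2⟩ := API.ret b (v + u) z
  rw [add_mk, h1, add_dotProduct]
  exact add_le_add (h2 v) (h2 u)

theorem ip_add_ge' (x y z : B.X) : ip z x + ip z y ≤ ip z (add x y) := by
  rw [ip_comm z, ip_comm z, ip_comm z]
  exact ip_add_ge x y z

noncomputable instance : MetricSpace (B.X) where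
  dist x y := √(d2 x y)
  dist_self x := by rw [d2_self, Real.sqrt_zero]
  dist_comm x y := by rw [d2_comm]
  dist_triangle x y z := by
    obtain ⟨b, v, u, rfl, rfl⟩ := common x z
    obtain ⟨ζ, h0, h1, h2⟩ := API.ret b v y
    have e1 : d2 (mk b v) y = (v - ζ) ⬝ᵥ (v - ζ) := by
      unfold d2
      rw [h1, ← h0, ip_mk, sub_dotProduct, dotProduct_sub, dotProduct_sub, dotProduct_comm ζ v]
      ring
    have e2 : (ζ - u) ⬝ᵥ (ζ - u) ≤ d2 y (mk b u) := by
      unfold d2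
      have := h2 u
      rw [ip_comm y (mk b u), ← h0, ip_mk, sub_dotProduct, dotProduct_sub, dotProduct_sub,
        dotProduct_comm ζ u]
      linarith
    have e3 := sqrt_dot_add (v - ζ) (ζ - u)
    rw [sub_add_sub_cancel] at e3
    rw [d2_mk, e1]
    exact e3.trans (add_le_add le_rfl (Real.sqrt_le_sqrt e2))
  eq_of_dist_eq_zero h := eq_of_d2 (Real.sqrt_eq_zero'.1 h)

theorem dist_def (x y : B.X) : Dist.dist x y = √(d2 x y) := rfl

theorem dist_sq (x y : B.X) : Dist.dist x y ^ 2 = d2 x y := Real.sq_sqrt (d2_nonneg x y)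

theorem dist_zero' (x : B.X) : Dist.dist x zero = √(ip x x) := by rw [dist_def, d2_zero]

theorem ip_sub_le (x y z : B.X) : ip y z - ip x z ≤ Dist.dist x y * √(ip z z) := by
  obtain ⟨b, v, u, rfl, rfl⟩ := common x y
  obtain ⟨ζ, h0, h1, h2⟩ := API.ret b v z
  have h3 := dot_le (u - v) ζ
  have h4 := h2 u
  rw [dist_comm, dist_def, d2_mk, ← h0, h1]
  rw [sub_dotProduct u v ζ] at h3
  linarith

theorem abs_ip_sub_le (x y z : B.X) : |ip x z - ip y z| ≤ Dist.dist x y * √(ip z z) := by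
  refine abs_le.2 ⟨?_, ?_⟩
  · linarith [ip_sub_le x y z]
  · have := ip_sub_le y x z
    rwa [dist_comm] at this

theorem continuous_ip_left (z : B.X) : Continuous fun x : B.X => ip x z := by
  refine (LipschitzWith.of_dist_le_mul (K := Real.toNNReal √(ip z z)) fun x y => ?_).continuous
  rw [Real.coe_toNNReal _ (Real.sqrt_nonneg _), Real.dist_eq, mul_comm]
  exact abs_ip_sub_le x y z

theorem continuous_ip_right (z : B.X) : Continuous fun x : B.X => ip z x := by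
  simp only [ip_comm z]
  exact continuous_ip_left z

theorem continuous_ip_self : Continuous fun x : B.X => ip x x := by
  have : (fun x : B.X => ip x x) = fun x => Dist.dist x zero ^ 2 := by
    funext x
    rw [dist_sq, d2_zero]
  rw [this]
  fun_prop

theorem d2_add_le (x x' y : B.X) : d2 (add x y) (add x' y) ≤ d2 x x' := by
  have h1 := ip_add_ge x y (add x' y)
  have h2 := ip_add_ge' x' y x
  have h3 := ip_add_right_self x' y
  unfold d2
  rw [ip_add_add, ip_add_add]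
  rw [ip_comm y (add x' y)] at h1
  linarith

theorem dist_add_le (x x' y y' : B.X) :
    Dist.dist (add x y) (add x' y') ≤ Dist.dist x x' + Dist.dist y y' := by
  refine (dist_triangle _ (add x' y) _).trans (add_le_add ?_ ?_)
  · exact Real.sqrt_le_sqrt (d2_add_le x x' y)
  · rw [add_comm' x' y, add_comm' x' y']
    exact Real.sqrt_le_sqrt (d2_add_le y y' x')

theorem continuous_add' : Continuous fun p : B.X × B.X => add p.1 p.2 := by
  refine (LipschitzWith.of_dist_le_mul (K := 2) fun p q => ?_).continuous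
  have h1 := dist_add_le p.1 q.1 p.2 q.2
  have h2 : Dist.dist p.1 q.1 ≤ Dist.dist p q := le_max_left _ _
  have h3 : Dist.dist p.2 q.2 ≤ Dist.dist p q := le_max_right _ _
  push_cast
  linarith

theorem dist_smul' {r : ℝ} (hr : 0 ≤ r) (x y : B.X) :
    Dist.dist (smul r x) (smul r y) = r * Dist.dist x y := by
  rw [dist_def, d2_smul hr, Real.sqrt_mul (sq_nonneg r), Real.sqrt_sq hr, dist_def]

theorem continuous_smul' {r : ℝ} (hr : 0 ≤ r) : Continuous fun x : B.X => smul r x := by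
  refine (LipschitzWith.of_dist_le_mul (K := Real.toNNReal r) fun x y => ?_).continuous
  rw [Real.coe_toNNReal _ hr, dist_smul' hr]

/-- The CN inequality along the segment from `x` to `y`. -/
theorem d2_seg (x y z : B.X) {t : ℝ} (h0 : 0 ≤ t) (h1 : t ≤ 1) :
    d2 z (add (smul (1 - t) x) (smul t y)) ≤
      (1 - t) * d2 z x + t * d2 z y - t * (1 - t) * d2 x y := by
  have h1' : 0 ≤ 1 - t := by linarith
  have h := ip_add_ge' (smul (1 - t) x) (smul t y) z
  unfold d2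
  rw [ip_add_add]
  simp only [ip_smul_left h0, ip_smul_left h1', ip_smul_right h0, ip_smul_right h1'] at h ⊢
  nlinarith

end Pool.Agent.P.MP_8ecd01_al.R4
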