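import Pool.Agent.P.MP_8ecd01_al.R4.Tools

/-!
Integer models of the root systems of rank four and the finite checks.
-/

namespace Pool.Agent.P.MP_8ecd01_al.R4

open Matrix

abbrev Q : Type := ℤ × ℤ × ℤ × ℤ

def get4 {α : Type} (m : α × α × α × α) : Fin 4 → α
  | 0 => m.1
  | 1 => m.2.1
  | 2 => m.2.2.1
  | 3 => m.2.2.2

def dotq (x y : Q) : ℤ := x.1 * y.1 + x.2.1 * y.2.1 + x.2.2.1 * y.2.2.1 + x.2.2.2 * y.2.2.2

def lin (s : ℤ) (x : Q) (t : ℤ) (y : Q) : Q :=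
  (s * x.1 + t * y.1, s * x.2.1 + t * y.2.1, s * x.2.2.1 + t * y.2.2.1, s * x.2.2.2 + t * y.2.2.2)

def eq4 : Fin 4 → Q := get4 ((1, 0, 0, 0), (0, 1, 0, 0), (0, 0, 1, 0), (0, 0, 0, 1))

def all4 : List (Fin 4) := [0, 1, 2, 3]

/-- Rows of a Cartan matrix, half the squared lengths, multiples of the fundamental weights. -/
structure Model where
  N : Q × Q × Q × Q
  d : Q
  O : Q × Q × Q × Q

namespace Model

variable (M : Model)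

def row (i : Fin 4) : Q := get4 M.N i

def om (i : Fin 4) : Q := get4 M.O i

def bil (x y : Q) : ℤ :=
  M.d.1 * x.1 * dotq M.N.1 y + M.d.2.1 * x.2.1 * dotq M.N.2.1 y +
    M.d.2.2.1 * x.2.2.1 * dotq M.N.2.2.1 y + M.d.2.2.2 * x.2.2.2 * dotq M.N.2.2.2 y

def rq (i : Fin 4) (m : Q) : Q := lin 1 m (-dotq (M.row i) m) (eq4 i)

def domin : ℕ → Q → Q
  | 0, m => m
  | k + 1, m =>
    if dotq (M.row 0) m < 0 then domin k (M.rq 0 m)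
    else if dotq (M.row 1) m < 0 then domin k (M.rq 1 m)
    else if dotq (M.row 2) m < 0 then domin k (M.rq 2 m)
    else if dotq (M.row 3) m < 0 then domin k (M.rq 3 m) else m

def ok : Bool := all4.all fun i => decide (0 < get4 M.d i) && decide (get4 (M.row i) i = 2) &&
  decide (0 < dotq (M.row i) (M.om i)) && all4.all fun j =>
    decide (get4 M.d i * get4 (M.row i) j = get4 M.d j * get4 (M.row j) i) &&
      (decide (i = j) || decide (dotq (M.row j) (M.om i) = 0))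

end Model

def par (x y : Q) : Bool :=
  decide (0 < dotq x y) && decide (0 < dotq y y) &&
    decide (lin (dotq y y) x 0 x = lin (dotq x y) y 0 y)

/-- A mode and a list of types of vertices with their orbits. -/
abbrev Stage : Type := Bool × List (Fin 4 × List Q)

def cls (st : List (Fin 4 × List Q)) : Set (Fin 4) := {i | ∃ p ∈ st, p.1 = i}

def coef : List ℤ := [1, 2, 0]

namespace Model

variable (M : Model)

def forb (F : List Q) (m : Q) : Bool := decide (m = (0, 0, 0, 0)) || F.any (par (M.domin 30 m))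

def hit2 (F : List Q) (x y : Q) : Bool :=
  coef.any fun s => coef.any fun t => decide (0 < s + t) && M.forb F (lin s x t y)

def hit3 (F : List Q) (x y z : Q) : Bool :=
  coef.any fun r => coef.any fun s => coef.any fun t =>
    decide (0 < r + s + t) && M.forb F (lin r x 1 (lin s y t z))

def orbs (ρ : ℤ) (st : List (Fin 4 × List Q)) : Bool :=
  st.all fun p => decide (M.bil (M.om p.1) (M.om p.1) = ρ) && decide (M.om p.1 ∈ p.2) &&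
    p.2.all fun m => all4.all fun i => decide (M.rq i m ∈ p.2)

def nrm (st : List (Fin 4 × List Q)) : ℤ :=
  match st with
  | [] => 1
  | p :: _ => M.bil (M.om p.1) (M.om p.1)

def chkJ (F : List Q) (st : List (Fin 4 × List Q)) : Bool :=
  M.orbs (M.nrm st) st && st.all fun p => st.all fun q => q.2.all fun v =>
    decide (-M.nrm st ≤ 4 * M.bil (M.om p.1) v) || M.hit2 F (M.om p.1) v

def chkH (F : List Q) (st : List (Fin 4 × List Q)) : Bool :=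
  M.orbs (M.nrm st) st &&
  (st.all fun p => st.all fun q => q.2.all fun v =>
    decide (-M.nrm st < 4 * M.bil (M.om p.1) v) || M.hit2 F (M.om p.1) v ||
      (decide (2 * M.bil (M.om p.1) v = -M.nrm st) &&
        st.any fun l => decide (M.domin 30 (lin 1 (M.om p.1) 1 v) = M.om l.1))) &&
  st.all fun p => st.all fun q => q.2.all fun v =>
    decide (2 * M.bil (M.om p.1) v ≠ M.nrm st) || st.all fun l => l.2.all fun z =>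
      decide (2 * M.bil (M.om p.1) z ≠ -M.nrm st) || decide (2 * M.bil v z < -M.nrm st) ||
        decide (-M.nrm st < 4 * M.bil v z) ||
        (decide (2 * M.bil v z = -M.nrm st) && M.hit3 F (M.om p.1) v z)

/-- The map `f` on types keeps the squares of the cosines between the vertices of a chamber. -/
def iso (f : Fin 4 → Fin 4) : Bool := all4.all fun i => all4.all fun j =>
  decide (M.bil (M.om i) (M.om j) ^ 2 * M.bil (M.om (f i)) (M.om (f i)) *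
      M.bil (M.om (f j)) (M.om (f j)) =
    M.bil (M.om (f i)) (M.om (f j)) ^ 2 * M.bil (M.om i) (M.om i) * M.bil (M.om j) (M.om j))

def chkC (st : List (Fin 4 × List Q)) : Bool :=
  all4.all fun i => all4.all fun j => all4.all fun k => all4.all fun l =>
    !M.iso (get4 (i, j, k, l)) || st.all fun p => st.any fun q =>
      decide (q.1 = get4 (i, j, k, l) p.1)

def roots : List Q := all4.map fun i => M.domin 30 (eq4 i)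

def chkAll : List Q → List Stage → Bool
  | F, [] => all4.all fun i => M.forb F (M.om i)
  | F, st :: l => (if st.1 then M.chkH F st.2 else M.chkJ F st.2) &&
      chkAll (F ++ st.2.map fun p => M.om p.1) l

end Model

variable {R : RootSystem 4}

/-- The vector with coordinates `m` in the basis of simple roots. -/
noncomputable def vec (b : Base R) (m : Q) : Fin 4 → ℝ := ∑ i, ((get4 m i : ℤ) : ℝ) • b.a i

/-- The Gram matrix of the base is the one of the model. -/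
def Fits (b : Base R) (M : Model) : Prop :=
  ∀ i j, b.a i ⬝ᵥ b.a j = ((get4 M.d i * get4 (M.row i) j : ℤ) : ℝ)

def mF4 : Model :=
  ⟨((2, -1, 0, 0), (-1, 2, -1, 0), (0, -2, 2, -1), (0, 0, -1, 2)), (2, 2, 1, 1),
    ((2, 3, 4, 2), (3, 6, 8, 4), (2, 4, 6, 3), (1, 2, 3, 2))⟩

def sF4 : List Stage := [
  (true, [
    (1, [
      (3, 6, 8, 4), (3, 5, 8, 4), (2, 5, 8, 4), (3, 5, 6, 4), (2, 5, 6, 4), (3, 4, 6, 4),
      (3, 5, 6, 2), (2, 3, 6, 4), (2, 5, 6, 2), (1, 4, 6, 4), (3, 4, 6, 2), (1, 3, 6, 4),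
      (2, 3, 4, 4), (2, 3, 6, 2), (1, 4, 6, 2), (3, 4, 4, 2), (1, 3, 4, 4), (1, 3, 6, 2),
      (2, 3, 4, 0), (2, 3, 2, 2), (1, 4, 4, 2), (3, 3, 4, 2), (1, 2, 4, 4), (1, 3, 4, 0),
      (1, 3, 2, 2), (2, 3, 2, 0), (2, 1, 2, 2), (1, 1, 4, 2), (0, 3, 4, 2), (1, 2, 4, 0),
      (1, 3, 2, 0), (1, 0, 2, 2), (2, 1, 2, 0), (-1, 1, 2, 2), (0, 1, 4, 2), (1, 1, 0, 2),
      (1, 2, 0, 0), (1, 0, 2, 0), (-1, 0, 2, 2), (1, 0, 0, 2), (-1, 1, 2, 0), (2, 1, 0, 0),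
      (0, 1, 0, 2), (1, 1, 0, -2), (1, -1, 0, 0), (-1, 0, 2, 0), (1, 0, -2, 0), (-1, 0, 0, 2),
      (1, 0, 0, -2), (-1, 1, 0, 0), (0, -1, 0, 2), (0, 1, 0, -2), (-2, -1, 0, 0), (1, -1, -2, 0),
      (-1, 0, -2, 0), (1, 0, -2, -2), (-1, -1, 0, 2), (-1, 0, 0, -2), (-1, -2, 0, 0),
      (0, -1, 0, -2), (-2, -1, -2, 0), (1, -1, -2, -2), (-1, -3, -2, 0), (-1, 0, -2, -2),
      (-1, -1, 0, -2), (-1, -2, -4, 0), (0, -1, -4, -2), (-2, -3, -2, 0), (-2, -1, -2, -2),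
      (-1, -3, -4, 0), (-1, -3, -2, -2), (-1, -1, -4, -2), (-1, -2, -4, -4), (0, -3, -4, -2),
      (-2, -3, -4, 0), (-2, -3, -2, -2), (-1, -3, -4, -4), (-1, -3, -6, -2), (-1, -4, -4, -2),
      (-3, -3, -4, -2), (-2, -3, -4, -4), (-2, -3, -6, -2), (-1, -3, -6, -4), (-1, -4, -6, -2),
      (-3, -4, -4, -2), (-2, -3, -6, -4), (-2, -5, -6, -2), (-1, -4, -6, -4), (-3, -4, -6, -2),
      (-2, -5, -6, -4), (-3, -5, -6, -2), (-3, -4, -6, -4), (-3, -5, -6, -4), (-2, -5, -8, -4),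
      (-3, -5, -8, -4), (-3, -6, -8, -4)])]),
  (true, [
    (2, [
      (2, 4, 6, 3), (2, 4, 5, 3), (2, 3, 5, 3), (2, 4, 5, 2), (1, 3, 5, 3), (2, 3, 4, 3),
      (2, 3, 5, 2), (1, 3, 4, 3), (1, 3, 5, 2), (2, 3, 4, 1), (2, 3, 3, 2), (1, 2, 4, 3),
      (1, 3, 4, 1), (1, 3, 3, 2), (2, 3, 3, 1), (2, 2, 3, 2), (1, 2, 3, 3), (1, 2, 4, 1),
      (1, 3, 3, 1), (1, 1, 3, 2), (2, 2, 3, 1), (0, 2, 3, 2), (1, 2, 3, 0), (1, 2, 1, 1),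
      (1, 1, 3, 1), (0, 1, 3, 2), (1, 1, 1, 2), (0, 2, 3, 1), (2, 2, 2, 1), (1, 2, 1, 0),
      (1, 0, 1, 1), (0, 1, 3, 1), (1, 1, 0, 1), (0, 1, 1, 2), (1, 1, 1, -1), (0, 2, 2, 1),
      (1, 0, 1, 0), (-1, 0, 1, 1), (1, 0, 0, 1), (0, 1, 0, 1), (1, 1, 0, -1), (0, 0, 1, 2),
      (0, 1, 1, -1), (0, 0, 2, 1), (-1, 0, 1, 0), (1, 0, -1, 0), (-1, 0, 0, 1), (1, 0, 0, -1),
      (0, -1, 0, 1), (0, 1, 0, -1), (0, 0, 1, -1), (0, 0, -1, 1), (-1, 0, -1, 0), (1, 0, -1, -1),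
      (-1, -1, 0, 1), (-1, 0, 0, -1), (0, -1, -1, 1), (0, -1, 0, -1), (0, 0, -2, -1),
      (0, 0, -1, -2), (-1, -2, -1, 0), (-1, 0, -1, -1), (-1, -1, -1, 1), (-1, -1, 0, -1),
      (0, -1, -1, -2), (0, -1, -3, -1), (0, -2, -2, -1), (-1, -2, -3, 0), (-1, -2, -1, -1),
      (-1, -1, -1, -2), (-1, -1, -3, -1), (0, -1, -3, -2), (0, -2, -3, -1), (-2, -2, -2, -1),
      (-1, -2, -3, -3), (-1, -2, -4, -1), (-1, -1, -3, -2), (-1, -3, -3, -1), (0, -2, -3, -2),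
      (-2, -2, -3, -1), (-1, -2, -4, -3), (-1, -3, -4, -1), (-1, -3, -3, -2), (-2, -3, -3, -1),
      (-2, -2, -3, -2), (-1, -3, -4, -3), (-2, -3, -4, -1), (-2, -3, -3, -2), (-1, -3, -5, -2),
      (-2, -3, -4, -3), (-1, -3, -5, -3), (-2, -3, -5, -2), (-2, -3, -5, -3), (-2, -4, -5, -2),
      (-2, -4, -5, -3), (-2, -4, -6, -3)])])]

def mA4 : Model :=
  ⟨((2, -1, 0, 0), (-1, 2, -1, 0), (0, -1, 2, -1), (0, 0, -1, 2)), (1, 1, 1, 1),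
    ((4, 3, 2, 1), (3, 6, 4, 2), (2, 4, 6, 3), (1, 2, 3, 4))⟩

def sA4 : List Stage := [
  (false, [
    (0, [
      (4, 3, 2, 1), (-1, 3, 2, 1), (-1, -2, 2, 1), (-1, -2, -3, 1), (-1, -2, -3, -4)]),
    (3, [
      (1, 2, 3, 4), (1, 2, 3, -1), (1, 2, -2, -1), (1, -3, -2, -1), (-4, -3, -2, -1)])]),
  (false, [
    (1, [
      (3, 6, 4, 2), (3, 1, 4, 2), (-2, 1, 4, 2), (3, 1, -1, 2), (-2, 1, -1, 2), (3, 1, -1, -3),
      (-2, -4, -1, 2), (-2, 1, -1, -3), (-2, -4, -1, -3), (-2, -4, -6, -3)]),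
    (2, [
      (2, 4, 6, 3), (2, 4, 1, 3), (2, -1, 1, 3), (2, 4, 1, -2), (-3, -1, 1, 3), (2, -1, 1, -2),
      (-3, -1, 1, -2), (2, -1, -4, -2), (-3, -1, -4, -2), (-3, -6, -4, -2)])])]

def mB4 : Model :=
  ⟨((2, -1, 0, 0), (-1, 2, -1, 0), (0, -1, 2, -1), (0, 0, -2, 2)), (2, 2, 2, 1),
    ((1, 1, 1, 1), (1, 2, 2, 2), (1, 2, 3, 3), (1, 2, 3, 4))⟩

def sB4 : List Stage := [
  (false, [
    (2, [
      (1, 2, 3, 3), (1, 2, 2, 3), (1, 1, 2, 3), (1, 2, 2, 1), (0, 1, 2, 3), (1, 1, 2, 1),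
      (1, 2, 1, 1), (0, 1, 2, 1), (1, 1, 0, 1), (1, 0, 1, 1), (0, 1, 0, 1), (1, 0, 0, 1),
      (1, 1, 0, -1), (-1, 0, 1, 1), (0, -1, 0, 1), (0, 1, 0, -1), (-1, 0, 0, 1), (1, 0, 0, -1),
      (-1, -1, 0, 1), (0, -1, 0, -1), (-1, 0, 0, -1), (1, 0, -1, -1), (-1, -1, 0, -1),
      (0, -1, -2, -1), (-1, 0, -1, -1), (-1, -1, -2, -1), (0, -1, -2, -3), (-1, -2, -1, -1),
      (-1, -2, -2, -1), (-1, -1, -2, -3), (-1, -2, -2, -3), (-1, -2, -3, -3)])]),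
  (false, [
    (3, [
      (1, 2, 3, 4), (1, 2, 3, 2), (1, 2, 1, 2), (1, 0, 1, 2), (1, 2, 1, 0), (-1, 0, 1, 2),
      (1, 0, 1, 0), (-1, 0, 1, 0), (1, 0, -1, 0), (-1, 0, -1, 0), (1, 0, -1, -2),
      (-1, -2, -1, 0), (-1, 0, -1, -2), (-1, -2, -1, -2), (-1, -2, -3, -2), (-1, -2, -3, -4)])])]

def mC4 : Model :=
  ⟨((2, -1, 0, 0), (-1, 2, -1, 0), (0, -1, 2, -2), (0, 0, -1, 2)), (1, 1, 1, 2),
    ((2, 2, 2, 1), (1, 2, 2, 1), (2, 4, 6, 3), (1, 2, 3, 2))⟩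

def sC4 : List Stage := [
  (false, [
    (2, [
      (2, 4, 6, 3), (2, 4, 4, 3), (2, 2, 4, 3), (2, 4, 4, 1), (0, 2, 4, 3), (2, 2, 4, 1),
      (2, 4, 2, 1), (0, 2, 4, 1), (2, 2, 0, 1), (2, 0, 2, 1), (0, 2, 0, 1), (2, 0, 0, 1),
      (2, 2, 0, -1), (-2, 0, 2, 1), (0, -2, 0, 1), (0, 2, 0, -1), (-2, 0, 0, 1), (2, 0, 0, -1),
      (-2, -2, 0, 1), (0, -2, 0, -1), (-2, 0, 0, -1), (2, 0, -2, -1), (-2, -2, 0, -1),
      (0, -2, -4, -1), (-2, 0, -2, -1), (-2, -2, -4, -1), (0, -2, -4, -3), (-2, -4, -2, -1),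
      (-2, -4, -4, -1), (-2, -2, -4, -3), (-2, -4, -4, -3), (-2, -4, -6, -3)])]),
  (false, [
    (3, [
      (1, 2, 3, 2), (1, 2, 3, 1), (1, 2, 1, 1), (1, 0, 1, 1), (1, 2, 1, 0), (-1, 0, 1, 1),
      (1, 0, 1, 0), (-1, 0, 1, 0), (1, 0, -1, 0), (-1, 0, -1, 0), (1, 0, -1, -1),
      (-1, -2, -1, 0), (-1, 0, -1, -1), (-1, -2, -1, -1), (-1, -2, -3, -1), (-1, -2, -3, -2)])])]

def mD4 : Model :=
  ⟨((2, -1, 0, 0), (-1, 2, -1, -1), (0, -1, 2, 0), (0, -1, 0, 2)), (1, 1, 1, 1),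
    ((2, 2, 1, 1), (1, 2, 1, 1), (1, 2, 2, 1), (1, 2, 1, 2))⟩

def sD4 : List Stage := [
  (true, [
    (0, [
      (2, 2, 1, 1), (0, 2, 1, 1), (0, 0, 1, 1), (0, 0, -1, 1), (0, 0, 1, -1), (0, 0, -1, -1),
      (0, -2, -1, -1), (-2, -2, -1, -1)]),
    (2, [
      (1, 2, 2, 1), (1, 2, 0, 1), (1, 0, 0, 1), (-1, 0, 0, 1), (1, 0, 0, -1), (-1, 0, 0, -1),
      (-1, -2, 0, -1), (-1, -2, -2, -1)]),
    (3, [
      (1, 2, 1, 2), (1, 2, 1, 0), (1, 0, 1, 0), (-1, 0, 1, 0), (1, 0, -1, 0), (-1, 0, -1, 0),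
      (-1, -2, -1, 0), (-1, -2, -1, -2)])])]

def mA3A1 : Model :=
  ⟨((2, -1, 0, 0), (-1, 2, -1, 0), (0, -1, 2, 0), (0, 0, 0, 2)), (1, 1, 1, 1),
    ((3, 2, 1, 0), (1, 2, 1, 0), (1, 2, 3, 0), (0, 0, 0, 1))⟩

def sA3A1 : List Stage := [
  (false, [
    (1, [
      (1, 2, 1, 0), (1, 0, 1, 0), (-1, 0, 1, 0), (1, 0, -1, 0), (-1, 0, -1, 0), (-1, -2, -1, 0)])]),
  (false, [
    (0, [
      (3, 2, 1, 0), (-1, 2, 1, 0), (-1, -2, 1, 0), (-1, -2, -3, 0)]),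
    (2, [
      (1, 2, 3, 0), (1, 2, -1, 0), (1, -2, -1, 0), (-3, -2, -1, 0)])])]

def mB3A1 : Model :=
  ⟨((2, -1, 0, 0), (-1, 2, -1, 0), (0, -2, 2, 0), (0, 0, 0, 2)), (2, 2, 1, 1),
    ((1, 1, 1, 0), (1, 2, 2, 0), (1, 2, 3, 0), (0, 0, 0, 1))⟩

def sB3A1 : List Stage := [
  (false, [
    (2, [
      (1, 2, 3, 0), (1, 2, 1, 0), (1, 0, 1, 0), (-1, 0, 1, 0), (1, 0, -1, 0), (-1, 0, -1, 0),
      (-1, -2, -1, 0), (-1, -2, -3, 0)])])]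

def mC3A1 : Model :=
  ⟨((2, -1, 0, 0), (-1, 2, -2, 0), (0, -1, 2, 0), (0, 0, 0, 2)), (1, 1, 2, 1),
    ((2, 2, 1, 0), (1, 2, 1, 0), (2, 4, 3, 0), (0, 0, 0, 1))⟩

def sC3A1 : List Stage := [
  (false, [
    (2, [
      (2, 4, 3, 0), (2, 4, 1, 0), (2, 0, 1, 0), (-2, 0, 1, 0), (2, 0, -1, 0), (-2, 0, -1, 0),
      (-2, -4, -1, 0), (-2, -4, -3, 0)])])]

def mA2A2 : Model :=
  ⟨((2, -1, 0, 0), (-1, 2, 0, 0), (0, 0, 2, -1), (0, 0, -1, 2)), (1, 1, 1, 1),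
    ((2, 1, 0, 0), (1, 2, 0, 0), (0, 0, 2, 1), (0, 0, 1, 2))⟩

def sA2A2 : List Stage := [
  (false, [
    (0, [
      (2, 1, 0, 0), (-1, 1, 0, 0), (-1, -2, 0, 0)]),
    (1, [
      (1, 2, 0, 0), (1, -1, 0, 0), (-2, -1, 0, 0)]),
    (2, [
      (0, 0, 2, 1), (0, 0, -1, 1), (0, 0, -1, -2)]),
    (3, [
      (0, 0, 1, 2), (0, 0, 1, -1), (0, 0, -2, -1)])])]

def mA2B2 : Model :=
  ⟨((2, -1, 0, 0), (-1, 2, 0, 0), (0, 0, 2, -1), (0, 0, -2, 2)), (1, 1, 2, 1),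
    ((2, 1, 0, 0), (1, 2, 0, 0), (0, 0, 1, 1), (0, 0, 1, 2))⟩

def sA2B2 : List Stage := [
  (false, [
    (0, [
      (2, 1, 0, 0), (-1, 1, 0, 0), (-1, -2, 0, 0)]),
    (1, [
      (1, 2, 0, 0), (1, -1, 0, 0), (-2, -1, 0, 0)])])]

def mA2G2 : Model :=
  ⟨((2, -1, 0, 0), (-1, 2, 0, 0), (0, 0, 2, -1), (0, 0, -3, 2)), (1, 1, 3, 1),
    ((2, 1, 0, 0), (1, 2, 0, 0), (0, 0, 2, 3), (0, 0, 1, 2))⟩

def sA2G2 : List Stage := [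
  (false, [
    (0, [
      (2, 1, 0, 0), (-1, 1, 0, 0), (-1, -2, 0, 0)]),
    (1, [
      (1, 2, 0, 0), (1, -1, 0, 0), (-2, -1, 0, 0)])])]

def mA2A1A1 : Model :=
  ⟨((2, -1, 0, 0), (-1, 2, 0, 0), (0, 0, 2, 0), (0, 0, 0, 2)), (1, 1, 1, 1),
    ((2, 1, 0, 0), (1, 2, 0, 0), (0, 0, 1, 0), (0, 0, 0, 1))⟩

def sA2A1A1 : List Stage := [
  (false, [
    (0, [
      (2, 1, 0, 0), (-1, 1, 0, 0), (-1, -2, 0, 0)]),
    (1, [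
      (1, 2, 0, 0), (1, -1, 0, 0), (-2, -1, 0, 0)])])]

def mB2B2 : Model :=
  ⟨((2, -1, 0, 0), (-2, 2, 0, 0), (0, 0, 2, -1), (0, 0, -2, 2)), (2, 1, 2, 1),
    ((1, 1, 0, 0), (1, 2, 0, 0), (0, 0, 1, 1), (0, 0, 1, 2))⟩

def sB2B2 : List Stage := []

def mB2G2 : Model :=
  ⟨((2, -1, 0, 0), (-2, 2, 0, 0), (0, 0, 2, -1), (0, 0, -3, 2)), (2, 1, 3, 1),
    ((1, 1, 0, 0), (1, 2, 0, 0), (0, 0, 2, 3), (0, 0, 1, 2))⟩

def sB2G2 : List Stage := []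

def mG2G2 : Model :=
  ⟨((2, -1, 0, 0), (-3, 2, 0, 0), (0, 0, 2, -1), (0, 0, -3, 2)), (3, 1, 3, 1),
    ((2, 3, 0, 0), (1, 2, 0, 0), (0, 0, 2, 3), (0, 0, 1, 2))⟩

def sG2G2 : List Stage := []

def mB2A1A1 : Model :=
  ⟨((2, -1, 0, 0), (-2, 2, 0, 0), (0, 0, 2, 0), (0, 0, 0, 2)), (2, 1, 1, 1),
    ((1, 1, 0, 0), (1, 2, 0, 0), (0, 0, 1, 0), (0, 0, 0, 1))⟩

def sB2A1A1 : List Stage := []

def mG2A1A1 : Model :=
  ⟨((2, -1, 0, 0), (-3, 2, 0, 0), (0, 0, 2, 0), (0, 0, 0, 2)), (3, 1, 1, 1),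
    ((2, 3, 0, 0), (1, 2, 0, 0), (0, 0, 1, 0), (0, 0, 0, 1))⟩

def sG2A1A1 : List Stage := []

def mA1111 : Model :=
  ⟨((2, 0, 0, 0), (0, 2, 0, 0), (0, 0, 2, 0), (0, 0, 0, 2)), (1, 1, 1, 1),
    ((1, 0, 0, 0), (0, 1, 0, 0), (0, 0, 1, 0), (0, 0, 0, 1))⟩

def sA1111 : List Stage := []

def others : List (Model × List Stage) :=
  [(mA4, sA4), (mB4, sB4), (mC4, sC4), (mD4, sD4), (mA3A1, sA3A1),
   (mB3A1, sB3A1), (mC3A1, sC3A1), (mA2A2, sA2A2), (mA2B2, sA2B2), (mA2G2, sA2G2),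
   (mA2A1A1, sA2A1A1), (mB2B2, sB2B2), (mB2G2, sB2G2), (mG2G2, sG2G2),
   (mB2A1A1, sB2A1A1), (mG2A1A1, sG2A1A1), (mA1111, sA1111)]

def opts : List (ℤ × ℤ) := [(0, 0), (-1, -1), (-1, -2), (-2, -1), (-1, -3), (-3, -1)]

/-- The matrix with diagonal `2` and the given pairs of opposite entries. -/
def mat (p q r s t u : ℤ × ℤ) : Q × Q × Q × Q :=
  ((2, p.1, q.1, s.1), (p.2, 2, r.1, t.1), (q.2, r.2, 2, u.1), (s.2, t.2, u.2, 2))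

def kills : List Q := [
  (1, 1, 1, 1), (0, 1, 1, 1), (1, 1, 1, 0), (1, 1, 0, 1), (1, 0, 1, 1), (0, 1, 1, 2),
  (2, 2, 1, 1), (2, 1, 2, 1), (1, 2, 2, 1), (2, 1, 1, 2), (1, 2, 1, 2), (1, 1, 2, 2),
  (2, 1, 0, 1), (0, 1, 2, 1), (0, 2, 1, 1), (2, 0, 1, 1), (1, 0, 1, 2), (1, 1, 2, 0),
  (1, 2, 0, 1), (1, 1, 0, 2), (2, 1, 1, 0), (1, 2, 1, 0), (1, 0, 2, 1), (2, 2, 2, 1),
  (2, 1, 2, 2), (1, 2, 2, 2), (2, 2, 1, 2), (0, 1, 2, 2), (0, 2, 1, 2), (1, 2, 2, 0),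
  (1, 0, 2, 2), (0, 2, 2, 1), (2, 1, 0, 2), (2, 0, 1, 2), (1, 2, 0, 2), (2, 2, 1, 0),
  (2, 0, 2, 1), (2, 1, 2, 0), (2, 2, 0, 1), (1, 2, 1, 1), (1, 1, 1, 2), (2, 1, 1, 1),
  (1, 1, 2, 1), (0, 2, 1, 3), (1, 2, 0, 3), (1, 0, 3, 2), (0, 2, 3, 1), (0, 1, 3, 2),
  (3, 0, 1, 2), (2, 3, 1, 0), (3, 1, 0, 2), (1, 0, 2, 3), (0, 3, 1, 2), (2, 1, 3, 0),
  (2, 0, 1, 3), (2, 3, 0, 1), (3, 1, 2, 0), (3, 2, 1, 0), (1, 2, 3, 0), (1, 3, 0, 2),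
  (2, 0, 3, 1), (3, 2, 0, 1), (1, 3, 2, 0), (0, 1, 2, 3), (2, 1, 0, 3), (3, 0, 2, 1),
  (0, 3, 2, 1)]

def perms : List (Fin 4 × Fin 4 × Fin 4 × Fin 4) := [
  (0, 1, 2, 3), (0, 1, 3, 2), (0, 2, 1, 3), (0, 2, 3, 1), (0, 3, 1, 2), (0, 3, 2, 1),
  (1, 0, 2, 3), (1, 0, 3, 2), (1, 2, 0, 3), (1, 2, 3, 0), (1, 3, 0, 2), (1, 3, 2, 0),
  (2, 0, 1, 3), (2, 0, 3, 1), (2, 1, 0, 3), (2, 1, 3, 0), (2, 3, 0, 1), (2, 3, 1, 0),
  (3, 0, 1, 2), (3, 0, 2, 1), (3, 1, 0, 2), (3, 1, 2, 0), (3, 2, 0, 1), (3, 2, 1, 0)]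

/-- The nonnegative vector `m` shows that `N` is not of finite type. -/
def killq (N : Q × Q × Q × Q) (m : Q) : Bool :=
  (decide (m.1 = 0) || decide (dotq N.1 m ≤ 0)) && (decide (m.2.1 = 0) || decide (dotq N.2.1 m ≤ 0)) &&
    (decide (m.2.2.1 = 0) || decide (dotq N.2.2.1 m ≤ 0)) &&
    (decide (m.2.2.2 = 0) || decide (dotq N.2.2.2 m ≤ 0))

def sel {α : Type} (σ : Fin 4 × Fin 4 × Fin 4 × Fin 4) (x : α × α × α × α) : α × α × α × α :=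
  (get4 x σ.1, get4 x σ.2.1, get4 x σ.2.2.1, get4 x σ.2.2.2)

/-- Rows and columns of `N` permuted by `σ`. -/
def permq (σ : Fin 4 × Fin 4 × Fin 4 × Fin 4) (N : Q × Q × Q × Q) : Q × Q × Q × Q :=
  (sel σ (get4 N σ.1), sel σ (get4 N σ.2.1), sel σ (get4 N σ.2.2.1), sel σ (get4 N σ.2.2.2))

end Pool.Agent.P.MP_8ecd01_al.R4
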