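import Pool.Agent.P.MP_8ecd01_al.R4.Defs

/-!
Root systems: reflections, the Weyl group, facets, bases.
-/

namespace Pool.Agent.P.MP_8ecd01_al.R4

open Matrix

variable {n : ℕ}

theorem dot_self_nonneg (v : Fin n → ℝ) : 0 ≤ v ⬝ᵥ v :=
  Finset.sum_nonneg fun i _ => mul_self_nonneg (v i)

theorem dot_self_pos {v : Fin n → ℝ} (h : v ≠ 0) : 0 < v ⬝ᵥ v :=
  lt_of_le_of_ne (dot_self_nonneg v) fun e => h (dotProduct_self_eq_zero.1 e.symm)

theorem dot_sq_le (v u : Fin n → ℝ) : (v ⬝ᵥ u) ^ 2 ≤ (v ⬝ᵥ v) * (u ⬝ᵥ u) := by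
  have := Finset.sum_mul_sq_le_sq_mul_sq Finset.univ v u
  simpa [dotProduct, sq] using this

theorem dot_le (v u : Fin n → ℝ) : v ⬝ᵥ u ≤ √(v ⬝ᵥ v) * √(u ⬝ᵥ u) := by
  rw [← Real.sqrt_mul (dot_self_nonneg v)]
  exact Real.le_sqrt_of_sq_le (dot_sq_le v u)

theorem sqrt_dot_add (v u : Fin n → ℝ) :
    √((v + u) ⬝ᵥ (v + u)) ≤ √(v ⬝ᵥ v) + √(u ⬝ᵥ u) := by
  refine Real.sqrt_le_iff.2 ⟨by positivity, ?_⟩
  have h1 := Real.sq_sqrt (dot_self_nonneg v)
  have h2 := Real.sq_sqrt (dot_self_nonneg u)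
  have h3 := dot_le v u
  rw [add_dotProduct, dotProduct_add, dotProduct_add, dotProduct_comm u v]
  nlinarith

/-- Orthogonal decomposition for the dot product. -/
theorem exists_orth (W : Submodule ℝ (Fin n → ℝ)) (v : Fin n → ℝ) :
    ∃ u ∈ W, ∀ ψ ∈ W, (v - u) ⬝ᵥ ψ = 0 := by
  let e := (EuclideanSpace.equiv (Fin n) ℝ).toLinearEquiv
  obtain ⟨y, hy, z, hz, h⟩ := (W.comap e.toLinearMap).exists_add_mem_mem_orthogonal (e.symm v)
  refine ⟨e y, hy, fun ψ hψ => ?_⟩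
  have h1 : v - e y = e z := by
    have := congrArg e h
    rw [e.apply_symm_apply, map_add] at this
    rw [this, add_sub_cancel_left]
  have h2 := (Submodule.mem_orthogonal _ _).1 hz (e.symm ψ) (by simpa using hψ)
  rw [h1]
  simpa [e, PiLp.inner_apply, dotProduct] using h2

theorem dot_reflect (α x y : Fin n → ℝ) :
    y ⬝ᵥ reflect α x = y ⬝ᵥ x - 2 * (α ⬝ᵥ x) / (α ⬝ᵥ α) * (y ⬝ᵥ α) := by
  rw [reflect, dotProduct_sub, dotProduct_smul, smul_eq_mul]

theorem reflect_dot (α x y : Fin n → ℝ) : reflect α x ⬝ᵥ y = x ⬝ᵥ reflect α y := by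
  rw [dotProduct_comm, dot_reflect, dot_reflect, dotProduct_comm y x, dotProduct_comm y α,
    dotProduct_comm x α]
  ring

theorem self_dot_reflect (α x : Fin n → ℝ) : α ⬝ᵥ reflect α x = -(α ⬝ᵥ x) := by
  rw [dot_reflect]
  by_cases h : α ⬝ᵥ α = 0
  · rw [dotProduct_self_eq_zero.1 h]
    simp
  · field_simp
    ring

theorem reflect_reflect (α x : Fin n → ℝ) : reflect α (reflect α x) = x := by
  conv_lhs => rw [reflect, self_dot_reflect, reflect]
  rw [mul_neg, neg_div, neg_smul, sub_neg_eq_add, sub_add_cancel]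

theorem reflect_self (α : Fin n → ℝ) : reflect α α = -α := by
  by_cases h : α ⬝ᵥ α = 0
  · rw [dotProduct_self_eq_zero.1 h]
    simp [reflect]
  · rw [reflect, mul_div_assoc, div_self h, mul_one, two_smul]
    abel

theorem reflect_of_dot {α x : Fin n → ℝ} (h : α ⬝ᵥ x = 0) : reflect α x = x := by
  simp [reflect, h]

theorem reflect_smul {s : ℝ} (hs : s ≠ 0) (α x : Fin n → ℝ) : reflect (s • α) x = reflect α x := by
  unfold reflect
  rw [smul_smul, smul_dotProduct, smul_dotProduct, dotProduct_smul]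
  congr 2
  simp only [smul_eq_mul]
  by_cases h : α ⬝ᵥ α = 0
  · simp [h]
  · field_simp

/-- The reflection as a linear automorphism. -/
noncomputable def rf (α : Fin n → ℝ) : (Fin n → ℝ) ≃ₗ[ℝ] (Fin n → ℝ) :=
  LinearEquiv.ofInvolutive
    { toFun := reflect α
      map_add' := fun x y => by
        simp only [reflect, dotProduct_add, mul_add, add_div, add_smul]
        abel
      map_smul' := fun r x => by
        simp only [reflect, dotProduct_smul, smul_eq_mul, RingHom.id_apply, smul_sub, smul_smul]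
        congr 2
        ring }
    (reflect_reflect α)

theorem rf_apply (α x : Fin n → ℝ) : rf α x = reflect α x := rfl

theorem rf_mul_self (α : Fin n → ℝ) : rf α * rf α = 1 :=
  LinearEquiv.ext fun x => reflect_reflect α x

theorem rf_inv (α : Fin n → ℝ) : (rf α)⁻¹ = rf α := inv_eq_of_mul_eq_one_right (rf_mul_self α)

theorem rf_smul {s : ℝ} (hs : s ≠ 0) (α : Fin n → ℝ) : rf (s • α) = rf α :=
  LinearEquiv.ext fun x => reflect_smul hs α x

theorem inv_apply_self (g : (Fin n → ℝ) ≃ₗ[ℝ] (Fin n → ℝ)) (v : Fin n → ℝ) : g⁻¹ (g v) = v :=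
  g.symm_apply_apply v

theorem self_apply_inv (g : (Fin n → ℝ) ≃ₗ[ℝ] (Fin n → ℝ)) (v : Fin n → ℝ) : g (g⁻¹ v) = v :=
  g.apply_symm_apply v

variable {R : RootSystem n}

theorem rf_mem {α : Fin n → ℝ} (h : α ∈ R.Φ) : rf α ∈ R.W :=
  Subgroup.subset_closure ⟨α, h, fun _ => rfl⟩

theorem root_ne {α : Fin n → ℝ} (h : α ∈ R.Φ) : α ≠ 0 := fun e => R.ne_zero (e ▸ h)

theorem root_neg {α : Fin n → ℝ} (h : α ∈ R.Φ) : -α ∈ R.Φ :=
  reflect_self α ▸ R.reflect_mem α h α h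

/-- Induction over the Weyl group. -/
theorem W_induction {P : ((Fin n → ℝ) ≃ₗ[ℝ] (Fin n → ℝ)) → Prop} (h1 : P 1)
    (h2 : ∀ g ∈ R.W, ∀ α ∈ R.Φ, P g → P (g * rf α)) : ∀ g ∈ R.W, P g := by
  intro g hg
  have e : {g : (Fin n → ℝ) ≃ₗ[ℝ] (Fin n → ℝ) | ∃ α ∈ R.Φ, ∀ x, g x = reflect α x} =
      rf '' (R.Φ : Set (Fin n → ℝ)) := by
    ext g
    exact ⟨fun ⟨α, h, e⟩ => ⟨α, h, (LinearEquiv.ext e).symm⟩,
      fun ⟨α, h, e⟩ => ⟨α, h, fun x => e ▸ rfl⟩⟩
  induction hg using Subgroup.closure_induction_right with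
  | one => exact h1
  | mul_right x hx y hy ih =>
    obtain ⟨α, hα, rfl⟩ := e ▸ hy
    exact h2 x hx α hα ih
  | mul_inv_cancel x hx y hy ih =>
    obtain ⟨α, hα, rfl⟩ := e ▸ hy
    rw [rf_inv]
    exact h2 x hx α hα ih

theorem W_dot {g : (Fin n → ℝ) ≃ₗ[ℝ] (Fin n → ℝ)} (hg : g ∈ R.W) (v u : Fin n → ℝ) :
    g v ⬝ᵥ g u = v ⬝ᵥ u := by
  revert v u
  refine W_induction (P := fun g => ∀ v u, g v ⬝ᵥ g u = v ⬝ᵥ u) (fun _ _ => rfl)
    (fun g _ α _ ih v u => ?_) g hg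
  rw [LinearEquiv.mul_apply, LinearEquiv.mul_apply, ih, rf_apply, rf_apply, reflect_dot,
    reflect_reflect]

theorem W_dot' {g : (Fin n → ℝ) ≃ₗ[ℝ] (Fin n → ℝ)} (hg : g ∈ R.W) (v u : Fin n → ℝ) :
    v ⬝ᵥ g u = g⁻¹ v ⬝ᵥ u := by
  rw [← W_dot hg (g⁻¹ v), self_apply_inv]

theorem W_root {g : (Fin n → ℝ) ≃ₗ[ℝ] (Fin n → ℝ)} (hg : g ∈ R.W) {α : Fin n → ℝ}
    (h : α ∈ R.Φ) : g α ∈ R.Φ := by
  revert α
  refine W_induction (P := fun g => ∀ {α}, α ∈ R.Φ → g α ∈ R.Φ) (fun h => h)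
    (fun g _ α hα ih β hβ => ?_) g hg
  exact ih (R.reflect_mem α hα β hβ)

theorem W_conj {g : (Fin n → ℝ) ≃ₗ[ℝ] (Fin n → ℝ)} (hg : g ∈ R.W) (α : Fin n → ℝ) :
    rf (g α) = g * rf α * g⁻¹ := by
  refine LinearEquiv.ext fun x => ?_
  rw [LinearEquiv.mul_apply, LinearEquiv.mul_apply, rf_apply, rf_apply, reflect, reflect, map_sub,
    map_smul, self_apply_inv, W_dot hg, ← W_dot hg α (g⁻¹ x), self_apply_inv]

/-- A vector orthogonal to all roots is zero. -/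
theorem eq_zero_of_roots {v : Fin n → ℝ} (h : ∀ α ∈ R.Φ, α ⬝ᵥ v = 0) : v = 0 := by
  have : ∀ x ∈ Submodule.span ℝ (R.Φ : Set (Fin n → ℝ)), x ⬝ᵥ v = 0 := fun x hx => by
    induction hx using Submodule.span_induction with
    | mem x hx => exact h x hx
    | zero => exact zero_dotProduct _
    | add x y _ _ h1 h2 => rw [add_dotProduct, h1, h2, add_zero]
    | smul r x _ h1 => rw [smul_dotProduct, h1, smul_zero]
  exact dotProduct_self_eq_zero.1 (this v (R.span_top ▸ Submodule.mem_top))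

variable (R) in
/-- `φ` lies in the closed facet of `w`. -/
def Comono (w φ : Fin n → ℝ) : Prop := ∀ α ∈ R.Φ, 0 ≤ α ⬝ᵥ w → 0 ≤ α ⬝ᵥ φ

variable (R) in
/-- `φ` and `w` lie in a common closed chamber. -/
def Compat (w φ : Fin n → ℝ) : Prop := ∀ α ∈ R.Φ, 0 < α ⬝ᵥ w → 0 ≤ α ⬝ᵥ φ

variable (R) in
/-- `φ` lies on all walls through `w`. -/
def Blk (w φ : Fin n → ℝ) : Prop := ∀ α ∈ R.Φ, α ⬝ᵥ w = 0 → α ⬝ᵥ φ = 0

variable (R) in
/-- `w` lies on no wall. -/
def Gen (w : Fin n → ℝ) : Prop := ∀ α ∈ R.Φ, α ⬝ᵥ w ≠ 0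

variable (R) in
/-- Root directions. -/
def RD (v : Fin n → ℝ) : Prop := ∃ s : ℝ, 0 < s ∧ s • v ∈ R.Φ

variable (R) in
/-- The two facts on finite reflection groups on which the geometry rests. -/
class COX : Prop where
  fix : ∀ g ∈ R.W, ∀ w φ, g w = w → Comono R w φ → g φ = φ
  fin : (R.W : Set ((Fin n → ℝ) ≃ₗ[ℝ] (Fin n → ℝ))).Finite

theorem Comono.refl (w : Fin n → ℝ) : Comono R w w := fun _ _ h => h

theorem Comono.trans {w φ ψ : Fin n → ℝ} (h : Comono R w φ) (h' : Comono R φ ψ) : Comono R w ψ :=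
  fun α hα e => h' α hα (h α hα e)

theorem Comono.add {w φ ψ : Fin n → ℝ} (h : Comono R w φ) (h' : Comono R w ψ) :
    Comono R w (φ + ψ) := fun α hα e => by
  rw [dotProduct_add]
  exact add_nonneg (h α hα e) (h' α hα e)

theorem Comono.smul {w φ : Fin n → ℝ} (h : Comono R w φ) {r : ℝ} (hr : 0 ≤ r) :
    Comono R w (r • φ) := fun α hα e => by
  rw [dotProduct_smul]
  exact mul_nonneg hr (h α hα e)

theorem Comono.zero (w : Fin n → ℝ) : Comono R w 0 := fun α _ _ => (dotProduct_zero α).ge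

theorem Comono.neg {w φ : Fin n → ℝ} (h : Comono R w φ) : Comono R (-w) (-φ) := fun α hα e => by
  have := h _ (root_neg hα) (by rwa [neg_dotProduct, ← dotProduct_neg])
  rwa [neg_dotProduct, ← dotProduct_neg] at this

theorem Comono.map {w φ : Fin n → ℝ} (h : Comono R w φ) {g : (Fin n → ℝ) ≃ₗ[ℝ] (Fin n → ℝ)}
    (hg : g ∈ R.W) : Comono R (g w) (g φ) := fun α hα e => by
  rw [W_dot' hg] at e ⊢
  exact h _ (W_root (inv_mem hg) hα) e

theorem Blk.refl (w : Fin n → ℝ) : Blk R w w := fun _ _ h => h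

theorem Blk.trans {w w' ψ : Fin n → ℝ} (h : Blk R w' w) (h' : Blk R w ψ) : Blk R w' ψ :=
  fun α hα e => h' α hα (h α hα e)

theorem Blk.neg {w ψ : Fin n → ℝ} (h : Blk R w ψ) : Blk R w (-ψ) :=
  fun α hα e => by simp [h α hα e]

theorem Blk.add {w ψ φ : Fin n → ℝ} (h : Blk R w ψ) (h' : Blk R w φ) : Blk R w (ψ + φ) :=
  fun α hα e => by simp [h α hα e, h' α hα e]

theorem Blk.smul {w ψ : Fin n → ℝ} (h : Blk R w ψ) (r : ℝ) : Blk R w (r • ψ) :=
  fun α hα e => by simp [h α hα e]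

theorem Blk.zero (w : Fin n → ℝ) : Blk R w 0 := fun α _ _ => dotProduct_zero α

theorem Blk.map {w φ : Fin n → ℝ} (h : Blk R w φ) {g : (Fin n → ℝ) ≃ₗ[ℝ] (Fin n → ℝ)}
    (hg : g ∈ R.W) : Blk R (g w) (g φ) := fun α hα e => by
  rw [W_dot' hg] at e ⊢
  exact h _ (W_root (inv_mem hg) hα) e

theorem Blk.eq_zero {ψ : Fin n → ℝ} (h : Blk R 0 ψ) : ψ = 0 :=
  eq_zero_of_roots fun α hα => h α hα (dotProduct_zero α)

theorem Gen.blk {w : Fin n → ℝ} (h : Gen R w) (ψ : Fin n → ℝ) : Blk R w ψ :=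
  fun α hα e => absurd e (h α hα)

theorem Comono.blk {w φ : Fin n → ℝ} (h : Comono R w φ) : Blk R w φ := fun α hα e => by
  have := h _ (root_neg hα) (by rw [neg_dotProduct, e, neg_zero])
  rw [neg_dotProduct] at this
  exact le_antisymm (by linarith) (h α hα e.ge)

theorem Comono.compat {w φ : Fin n → ℝ} (h : Comono R w φ) : Compat R w φ :=
  fun α hα e => h α hα e.le

theorem Compat.symm {w φ : Fin n → ℝ} (h : Compat R w φ) : Compat R φ w := fun α hα e => by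
  by_contra h'
  have := h _ (root_neg hα) (by rw [neg_dotProduct]; linarith)
  rw [neg_dotProduct] at this
  linarith

theorem Comono.compat' {w φ : Fin n → ℝ} (h : Comono R w φ) : Compat R φ w := h.compat.symm

theorem Compat.refl (w : Fin n → ℝ) : Compat R w w := fun _ _ h => h.le

theorem Compat.map {w φ : Fin n → ℝ} (h : Compat R w φ) {g : (Fin n → ℝ) ≃ₗ[ℝ] (Fin n → ℝ)}
    (hg : g ∈ R.W) : Compat R (g w) (g φ) := fun α hα e => by
  rw [W_dot' hg] at e ⊢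
  exact h _ (W_root (inv_mem hg) hα) e

theorem Compat.comono_add {w φ : Fin n → ℝ} (h : Compat R w φ) : Comono R (w + φ) w := by
  intro α hα e
  by_contra h'
  have := h _ (root_neg hα) (by rw [neg_dotProduct]; linarith)
  rw [neg_dotProduct] at this
  rw [dotProduct_add] at e
  linarith

theorem Compat.comono_add' {w φ : Fin n → ℝ} (h : Compat R w φ) : Comono R (w + φ) φ := by
  rw [add_comm]
  exact h.symm.comono_add

theorem comono_of {w φ : Fin n → ℝ} (h : Compat R w φ) (h' : Blk R w φ) : Comono R w φ :=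
  fun α hα e => e.eq_or_lt.elim (fun e => (h' α hα e.symm).ge) (h α hα)

theorem Compat.of_comono {w w' φ : Fin n → ℝ} (h : Compat R w' φ) (h' : Comono R w' w) :
    Compat R w φ := fun α hα e => h α hα (lt_of_not_ge fun e' => by
  have := h' _ (root_neg hα) (by rw [neg_dotProduct]; linarith)
  rw [neg_dotProduct] at this
  linarith)

variable (R) in
/-- Small perturbations of `w` refine `w`. -/
theorem exists_small (w v : Fin n → ℝ) : ∃ ε0 : ℝ, 0 < ε0 ∧ ∀ ε : ℝ, |ε| ≤ ε0 →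
    ∀ α ∈ R.Φ, 0 < α ⬝ᵥ w → 0 < α ⬝ᵥ (w + ε • v) := by
  have h : ∀ᶠ ε in nhds (0 : ℝ), ∀ α ∈ R.Φ, 0 < α ⬝ᵥ w → 0 < α ⬝ᵥ (w + ε • v) := by
    refine (Filter.eventually_all_finset R.Φ).2 fun α _ => ?_
    by_cases hp : 0 < α ⬝ᵥ w
    · have : ∀ᶠ ε in nhds (0 : ℝ), 0 < α ⬝ᵥ (w + ε • v) := by
        refine ContinuousAt.eventually_lt (by fun_prop) (by fun_prop) ?_
        simpa using hp
      exact this.mono fun _ h _ => h
    · exact Filter.Eventually.of_forall fun _ h => absurd h hp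
  obtain ⟨δ, hδ, h'⟩ := Metric.eventually_nhds_iff.1 h
  refine ⟨δ / 2, by positivity, fun ε hε => h' ?_⟩
  rw [Real.dist_eq, sub_zero]
  linarith

theorem comono_of_lt {w φ : Fin n → ℝ} (h : ∀ α ∈ R.Φ, 0 < α ⬝ᵥ w → 0 < α ⬝ᵥ φ) :
    Comono R φ w := fun α hα e => by
  by_contra h'
  have := h _ (root_neg hα) (by rw [neg_dotProduct]; linarith)
  rw [neg_dotProduct] at this
  linarith

variable (R) in
/-- A large multiple of `w` makes the order lexicographic. -/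
theorem exists_large (w ξ : Fin n → ℝ) : ∃ t : ℝ, 0 < t ∧ Comono R (ξ + t • w) w := by
  obtain ⟨ε, h0, h⟩ := exists_small R w ξ
  refine ⟨ε⁻¹, by positivity, comono_of_lt fun α hα e => ?_⟩
  have h1 := h ε (by rw [abs_of_pos h0]) α hα e
  have h2 := mul_pos (inv_pos.2 h0) h1
  simp only [dotProduct_add, dotProduct_smul, smul_eq_mul, mul_add,
    inv_mul_cancel_left₀ h0.ne'] at h2 ⊢
  linarith

variable (R) in
theorem exists_gen : ∃ w, Gen R w := by
  classical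
  have : ∀ S : Finset (Fin n → ℝ), 0 ∉ S → ∃ w, ∀ α ∈ S, α ⬝ᵥ w ≠ 0 := fun S => by
    induction S using Finset.induction_on with
    | empty => exact fun _ => ⟨0, fun _ h => absurd h (Finset.notMem_empty _)⟩
    | insert β S _ ih =>
      intro h0
      obtain ⟨w, hw⟩ := ih fun h => h0 (Finset.mem_insert_of_mem h)
      have hβ : β ⬝ᵥ β ≠ 0 := fun e =>
        h0 (dotProduct_self_eq_zero.1 e ▸ Finset.mem_insert_self _ _)
      obtain ⟨t, ht⟩ := Infinite.exists_notMem_finset (insert (-(β ⬝ᵥ w) / (β ⬝ᵥ β))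
        (insert 0 (S.image fun α => -(α ⬝ᵥ w) / (α ⬝ᵥ β))))
      simp only [Finset.mem_insert, Finset.mem_image, not_or, not_exists, not_and] at ht
      refine ⟨w + t • β, fun α hα e => ?_⟩
      rw [dotProduct_add, dotProduct_smul, smul_eq_mul] at e
      rcases Finset.mem_insert.1 hα with rfl | hα
      · exact ht.1 (by field_simp; linarith)
      · by_cases h1 : α ⬝ᵥ β = 0
        · exact hw α hα (by simpa [h1] using e)
        · exact ht.2.2 α hα (by field_simp; linarith)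
  exact this R.Φ R.ne_zero

variable (R) in
/-- Every vector lies in a closed chamber. -/
theorem exists_gen_comono (w : Fin n → ℝ) : ∃ ρ, Gen R ρ ∧ Comono R ρ w := by
  obtain ⟨v, hv⟩ := exists_gen R
  obtain ⟨ε, h0, h⟩ := exists_small R w v
  have h1 := h ε (by rw [abs_of_pos h0])
  refine ⟨w + ε • v, fun α hα e => ?_, comono_of_lt h1⟩
  rcases lt_trichotomy (α ⬝ᵥ w) 0 with h2 | h2 | h2
  · have := h1 _ (root_neg hα) (by rw [neg_dotProduct]; linarith)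
    rw [neg_dotProduct, e, neg_zero] at this
    exact lt_irrefl _ this
  · rw [dotProduct_add, h2, zero_add, dotProduct_smul, smul_eq_mul] at e
    exact hv α hα ((mul_eq_zero.1 e).resolve_left h0.ne')
  · exact (h1 α hα h2).ne' e

theorem W_fix_blk [COX R] {g : (Fin n → ℝ) ≃ₗ[ℝ] (Fin n → ℝ)} (hg : g ∈ R.W) {w ψ : Fin n → ℝ}
    (h : g w = w) (hψ : Blk R w ψ) : g ψ = ψ := by
  obtain ⟨ε, h0, h1⟩ := exists_small R w ψ
  have h2 := COX.fix g hg w (w + ε • ψ) h (comono_of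
    (fun α hα e => (h1 ε (by rw [abs_of_pos h0]) α hα e).le) ((Blk.refl w).add (hψ.smul ε)))
  rw [map_add, h, map_smul, add_right_inj] at h2
  exact smul_right_injective _ h0.ne' h2

theorem RD.ne {v : Fin n → ℝ} (h : RD R v) : v ≠ 0 := by
  obtain ⟨s, -, h⟩ := h
  rintro rfl
  exact root_ne h (smul_zero s)

theorem RD.map {v : Fin n → ℝ} (h : RD R v) {g : (Fin n → ℝ) ≃ₗ[ℝ] (Fin n → ℝ)} (hg : g ∈ R.W) :
    RD R (g v) := by
  obtain ⟨s, h0, h⟩ := h
  exact ⟨s, h0, map_smul g s v ▸ W_root hg h⟩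

theorem RD.smul {v : Fin n → ℝ} (h : RD R v) {r : ℝ} (hr : 0 < r) : RD R (r • v) := by
  obtain ⟨s, h0, h⟩ := h
  exact ⟨s / r, by positivity, by rwa [smul_smul, div_mul_cancel₀ _ hr.ne']⟩

theorem RD.neg {v : Fin n → ℝ} (h : RD R v) : RD R (-v) := by
  obtain ⟨s, h0, h⟩ := h
  exact ⟨s, h0, smul_neg s v ▸ root_neg h⟩

theorem RD.rf_mem {v : Fin n → ℝ} (h : RD R v) : rf v ∈ R.W := by
  obtain ⟨s, h0, h⟩ := h
  exact rf_smul h0.ne' v ▸ R4.rf_mem h

variable (R) in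
/-- Simple root directions `a` with the dual basis `ω`. -/
structure Base where
  a : Fin n → Fin n → ℝ
  ω : Fin n → Fin n → ℝ
  mem : ∀ i, RD R (a i)
  dual : ∀ i j, a i ⬝ᵥ ω j = if i = j then 1 else 0
  pos : ∀ α ∈ R.Φ, (∀ i, 0 ≤ α ⬝ᵥ ω i) ∨ ∀ i, α ⬝ᵥ ω i ≤ 0

namespace Base

variable (b : Base R)

/-- The dominant chamber. -/
def Dom (v : Fin n → ℝ) : Prop := ∀ i, 0 ≤ b.a i ⬝ᵥ v

/-- The unit vertices of the dominant chamber. -/
noncomputable def u (i : Fin n) : Fin n → ℝ := (√(b.ω i ⬝ᵥ b.ω i))⁻¹ • b.ω i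

/-- Unit vertices of type `i`. -/
def Ty (i : Fin n) (v : Fin n → ℝ) : Prop := ∃ g ∈ R.W, v = g (b.u i)

theorem expand_ω (v : Fin n → ℝ) : v = ∑ i, (b.a i ⬝ᵥ v) • b.ω i := by
  have h : Matrix.of b.a * (Matrix.of b.ω)ᵀ = 1 := by
    ext i j
    rw [Matrix.one_apply, ← b.dual]
    rfl
  have h' := congrArg (· *ᵥ v) (mul_eq_one_comm.1 h)
  simp only [← Matrix.mulVec_mulVec, Matrix.one_mulVec] at h'
  conv_lhs => rw [← h']
  funext j
  simp [Matrix.mulVec, dotProduct, Finset.sum_apply, mul_comm]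

theorem expand_a (v : Fin n → ℝ) : v = ∑ i, (v ⬝ᵥ b.ω i) • b.a i := by
  have h : Matrix.of b.ω * (Matrix.of b.a)ᵀ = 1 := by
    ext i j
    rw [Matrix.one_apply, show (if i = j then (1 : ℝ) else 0) = if j = i then 1 else 0 by
      simp only [eq_comm], ← b.dual, dotProduct_comm]
    rfl
  have h' := congrArg (· *ᵥ v) (mul_eq_one_comm.1 h)
  simp only [← Matrix.mulVec_mulVec, Matrix.one_mulVec] at h'
  conv_lhs => rw [← h']
  funext j
  simp [Matrix.mulVec, dotProduct, Finset.sum_apply, mul_comm]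

theorem dot_eq (α v : Fin n → ℝ) : α ⬝ᵥ v = ∑ i, (α ⬝ᵥ b.ω i) * (b.a i ⬝ᵥ v) := by
  conv_lhs => rw [b.expand_a α]
  simp [sum_dotProduct, smul_dotProduct]

theorem ext_a {v u : Fin n → ℝ} (h : ∀ i, b.a i ⬝ᵥ v = b.a i ⬝ᵥ u) : v = u := by
  rw [b.expand_ω v, b.expand_ω u]
  simp only [h]

theorem ω_pos (i : Fin n) : 0 < b.ω i ⬝ᵥ b.ω i := dot_self_pos fun e => by
  have := b.dual i i
  rw [e, dotProduct_zero, if_pos rfl] at this
  exact zero_ne_one this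

theorem u_unit (i : Fin n) : b.u i ⬝ᵥ b.u i = 1 := by
  have h := b.ω_pos i
  have h1 := Real.mul_self_sqrt h.le
  have h2 := Real.sqrt_pos.2 h
  rw [u, smul_dotProduct, dotProduct_smul, smul_eq_mul, smul_eq_mul]
  field_simp
  linarith

theorem ω_eq (i : Fin n) : b.ω i = √(b.ω i ⬝ᵥ b.ω i) • b.u i := by
  rw [u, smul_smul, mul_inv_cancel₀ (Real.sqrt_pos.2 (b.ω_pos i)).ne', one_smul]

theorem a_dot_u (i j : Fin n) :
    b.a i ⬝ᵥ b.u j = if i = j then (√(b.ω j ⬝ᵥ b.ω j))⁻¹ else 0 := by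
  rw [u, dotProduct_smul, b.dual]
  split_ifs <;> simp

theorem a_dot_u_pos (i : Fin n) : 0 < b.a i ⬝ᵥ b.u i := by
  rw [a_dot_u, if_pos rfl]
  exact inv_pos.2 (Real.sqrt_pos.2 (b.ω_pos i))

theorem a_dot_u_ne {i j : Fin n} (h : i ≠ j) : b.a i ⬝ᵥ b.u j = 0 := by
  rw [a_dot_u, if_neg h]

theorem dom_u (i : Fin n) : b.Dom (b.u i) := fun j => by
  by_cases h : j = i
  · exact h ▸ (b.a_dot_u_pos j).le
  · exact (b.a_dot_u_ne h).ge

/-- Dominant vectors are the nonnegative combinations of the unit vertices. -/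
theorem dom_iff {v : Fin n → ℝ} :
    b.Dom v ↔ ∃ t : Fin n → ℝ, (∀ i, 0 ≤ t i) ∧ v = ∑ i, t i • b.u i := by
  constructor
  · intro h
    refine ⟨fun i => (b.a i ⬝ᵥ v) * √(b.ω i ⬝ᵥ b.ω i),
      fun i => mul_nonneg (h i) (Real.sqrt_nonneg _), ?_⟩
    conv_lhs => rw [b.expand_ω v]
    refine Finset.sum_congr rfl fun i _ => ?_
    rw [mul_smul, ← ω_eq]
  · rintro ⟨t, h, rfl⟩ j
    rw [dotProduct_sum]
    exact Finset.sum_nonneg fun i _ => by
      rw [dotProduct_smul]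
      exact mul_nonneg (h i) (b.dom_u i j)

theorem a_dot_sum (t : Fin n → ℝ) (j : Fin n) :
    b.a j ⬝ᵥ ∑ i, t i • b.u i = t j * (b.a j ⬝ᵥ b.u j) := by
  rw [dotProduct_sum, Finset.sum_eq_single j (fun i _ h => by
    rw [dotProduct_smul, b.a_dot_u_ne h.symm, smul_zero]) (by simp), dotProduct_smul, smul_eq_mul]

/-- A positive root is nonnegative on the dominant chamber. -/
theorem pos_dom {α v : Fin n → ℝ} (h : ∀ i, 0 ≤ α ⬝ᵥ b.ω i) (hv : b.Dom v) : 0 ≤ α ⬝ᵥ v := by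
  rw [b.dot_eq]
  exact Finset.sum_nonneg fun i _ => mul_nonneg (h i) (hv i)

theorem neg_dom {α v : Fin n → ℝ} (h : ∀ i, α ⬝ᵥ b.ω i ≤ 0) (hv : b.Dom v) : α ⬝ᵥ v ≤ 0 := by
  rw [b.dot_eq]
  exact Finset.sum_nonpos fun i _ => mul_nonpos_of_nonpos_of_nonneg (h i) (hv i)

theorem Dom.compat {b : Base R} {v w : Fin n → ℝ} (hv : b.Dom v) (hw : b.Dom w) :
    Compat R v w := fun α hα e =>
  (b.pos α hα).elim (fun h => b.pos_dom h hw) fun h => absurd e (not_lt.2 (b.neg_dom h hv))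

theorem Dom.of_comono {b : Base R} {v w : Fin n → ℝ} (hv : b.Dom v) (h : Comono R v w) :
    b.Dom w := fun i => by
  obtain ⟨s, h0, hs⟩ := b.mem i
  have := h _ hs (by rw [smul_dotProduct]; exact mul_nonneg h0.le (hv i))
  rw [smul_dotProduct] at this
  exact (mul_nonneg_iff_of_pos_left h0).1 this

/-- For dominant `v`, the walls through `v` are read off from the simple roots. -/
theorem Dom.blk_iff {b : Base R} {v w : Fin n → ℝ} (hv : b.Dom v) :
    Blk R v w ↔ ∀ i, b.a i ⬝ᵥ v = 0 → b.a i ⬝ᵥ w = 0 := by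
  constructor
  · intro h i e
    obtain ⟨s, h0, hs⟩ := b.mem i
    have := h _ hs (by rw [smul_dotProduct, e, smul_zero])
    rw [smul_dotProduct, smul_eq_mul] at this
    exact (mul_eq_zero.1 this).resolve_left h0.ne'
  · intro h α hα e
    have key : ∀ β : Fin n → ℝ, (∀ i, 0 ≤ β ⬝ᵥ b.ω i) → β ⬝ᵥ v = 0 → β ⬝ᵥ w = 0 := by
      intro β h1 h2
      rw [b.dot_eq] at h2 ⊢
      refine Finset.sum_eq_zero fun i hi => ?_
      rcases mul_eq_zero.1 ((Finset.sum_eq_zero_iff_of_nonneg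
        fun i _ => mul_nonneg (h1 i) (hv i)).1 h2 i hi) with h3 | h3
      · rw [h3, zero_mul]
      · rw [h i h3, mul_zero]
    rcases b.pos α hα with h1 | h1
    · exact key α h1 e
    · have := key (-α) (fun i => by rw [neg_dotProduct]; linarith [h1 i])
        (by rw [neg_dotProduct, e, neg_zero])
      rwa [neg_dotProduct, neg_eq_zero] at this

theorem Dom.comono_iff {b : Base R} {v w : Fin n → ℝ} (hv : b.Dom v) :
    Comono R v w ↔ b.Dom w ∧ ∀ i, b.a i ⬝ᵥ v = 0 → b.a i ⬝ᵥ w = 0 :=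
  ⟨fun h => ⟨hv.of_comono h, hv.blk_iff.1 h.blk⟩,
    fun h => comono_of (hv.compat h.1) (hv.blk_iff.2 h.2)⟩

/-- A generic dominant vector. -/
noncomputable def ρ : Fin n → ℝ := ∑ i, (1 : ℝ) • b.u i

theorem ρ_pos (i : Fin n) : 0 < b.a i ⬝ᵥ b.ρ := by
  have := b.a_dot_sum (fun _ => 1) i
  rw [one_mul] at this
  exact (this ▸ b.a_dot_u_pos i :)

theorem dom_ρ : b.Dom b.ρ := fun i => (b.ρ_pos i).le

theorem comono_ρ {v : Fin n → ℝ} : Comono R b.ρ v ↔ b.Dom v :=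
  b.dom_ρ.comono_iff.trans ⟨fun h => h.1, fun h => ⟨h, fun i e => absurd e (b.ρ_pos i).ne'⟩⟩

theorem gen_ρ : Gen R b.ρ := fun α hα e =>
  (dot_self_pos (root_ne hα)).ne'
    (b.dom_ρ.blk_iff.2 (fun i e => absurd e (b.ρ_pos i).ne') α hα e)

/-- A simple reflection keeps the other positive roots positive. -/
theorem perm {α : Fin n → ℝ} (hα : α ∈ R.Φ) {i j : Fin n} (hj : j ≠ i) (h : 0 < α ⬝ᵥ b.ω j)
    (l : Fin n) : 0 ≤ rf (b.a i) α ⬝ᵥ b.ω l := by
  refine ((b.pos _ (W_root (b.mem i).rf_mem hα)).resolve_right fun h' => ?_) l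
  have := h' j
  rw [rf_apply, reflect_dot, reflect_of_dot (by rw [b.dual, if_neg hj.symm])] at this
  linarith

theorem a_dot_a {i j : Fin n} (h : i ≠ j) : b.a i ⬝ᵥ b.a j ≤ 0 := by
  obtain ⟨s, h0, hs⟩ := b.mem j
  have h1 := b.perm hs h.symm (by rw [smul_dotProduct, b.dual, if_pos rfl]; simpa using h0) i
  have h2 := dot_self_pos (b.mem i).ne
  rw [rf_apply, dotProduct_comm, dot_reflect, dotProduct_smul, dotProduct_smul,
    dotProduct_comm (b.ω i), dotProduct_comm (b.ω i), b.dual, b.dual, if_neg h.symm, if_pos rfl,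
    smul_zero, zero_sub, mul_one, neg_nonneg, div_nonpos_iff, smul_eq_mul] at h1
  rcases h1 with h1 | h1
  · linarith [h1.2]
  · nlinarith [h1.1]

end Base

end Pool.Agent.P.MP_8ecd01_al.R4
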