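import Mathlib

/-!
Spherical buildings given by an atlas of apartments. The apartments are copies of Euclidean space
`ℝ^n` with the walls of a root system; the spherical building is the union of their unit spheres.
-/

namespace Pool.Agent.P.MP_8ecd01_al.R4

open Matrix

variable {n : ℕ}

/-- The reflection in the hyperplane orthogonal to `α`. -/
noncomputable def reflect (α x : Fin n → ℝ) : Fin n → ℝ := x - (2 * (α ⬝ᵥ x) / (α ⬝ᵥ α)) • α

/-- Crystallographic root systems of rank `n` in `ℝ^n` with the standard inner product. -/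
structure RootSystem (n : ℕ) where
  Φ : Finset (Fin n → ℝ)
  ne_zero : 0 ∉ Φ
  span_top : Submodule.span ℝ (Φ : Set (Fin n → ℝ)) = ⊤
  reflect_mem : ∀ α ∈ Φ, ∀ β ∈ Φ, reflect α β ∈ Φ
  cartan : ∀ α ∈ Φ, ∀ β ∈ Φ, ∃ m : ℤ, 2 * (α ⬝ᵥ β) = m * (α ⬝ᵥ α)

/-- The Weyl group, generated by the reflections in the roots. -/
def RootSystem.W (R : RootSystem n) : Subgroup ((Fin n → ℝ) ≃ₗ[ℝ] (Fin n → ℝ)) :=
  Subgroup.closure {g | ∃ α ∈ R.Φ, ∀ x, g x = reflect α x}

/-- The cone over a spherical building of type `R`: a set `X` with an atlas `A` of apartments. -/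
structure Building (R : RootSystem n) where
  X : Type
  A : Set ((Fin n → ℝ) → X)
  nonempty : A.Nonempty
  inj : ∀ φ ∈ A, Function.Injective φ
  comp : ∀ φ ∈ A, ∀ g ∈ R.W, φ ∘ g ∈ A
  trans : ∀ φ ∈ A, ∀ ψ ∈ A, ∃ g ∈ R.W, ∀ v u, φ v = ψ u → u = g v
  half : ∀ φ ∈ A, ∀ ψ ∈ A, ∃ S ⊆ R.Φ, ∀ v, φ v ∈ Set.range ψ ↔ ∀ α ∈ S, 0 ≤ α ⬝ᵥ v
  common : ∀ x y : X, ∃ φ ∈ A, x ∈ Set.range φ ∧ y ∈ Set.range φ

variable {R : RootSystem n} {B : Building R}

variable (B) in
/-- The spherical building: the union of the unit spheres of the apartments. -/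
def Delta : Type := {x : B.X // ∃ φ ∈ B.A, ∃ v, v ⬝ᵥ v = 1 ∧ x = φ v}

/-- The angular distance, measured in a common apartment. -/
noncomputable def dist (x y : Delta B) : ℝ :=
  sInf {θ | ∃ φ ∈ B.A, ∃ v u, x.1 = φ v ∧ y.1 = φ u ∧ θ = Real.arccos (v ⬝ᵥ u)}

/-- Opposite points: antipodal in some common apartment. -/
def Opp (x y : Delta B) : Prop := ∃ φ ∈ B.A, ∃ v, x.1 = φ v ∧ y.1 = φ (-v)

/-- Convex sets contain the geodesic between any two of their non-opposite points. -/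
def IsConvex (S : Set (Delta B)) : Prop :=
  ∀ φ ∈ B.A, ∀ (v u : Fin n → ℝ) (s t : ℝ) (x y z : Delta B), x.1 = φ v → y.1 = φ u →
    z.1 = φ (s • v + t • u) → 0 ≤ s → 0 ≤ t → x ∈ S → y ∈ S → ¬ Opp x y → z ∈ S

/-- Closed sets for the angular distance. -/
def IsClosed (S : Set (Delta B)) : Prop :=
  ∀ z : Delta B, (∀ ε : ℝ, 0 < ε → ∃ x ∈ S, dist z x < ε) → z ∈ S

/-- The closed simplex of the apartment `φ` cut out by the roots that are nonnegative on `w`. -/
def simplex (φ : (Fin n → ℝ) → B.X) (w : Fin n → ℝ) : Set (Delta B) :=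
  {x | ∃ v, x.1 = φ v ∧ ∀ α ∈ R.Φ, 0 ≤ α ⬝ᵥ w → 0 ≤ α ⬝ᵥ v}

/-- The closed simplices of the building. -/
def IsSimplex (σ : Set (Delta B)) : Prop := ∃ φ ∈ B.A, ∃ w, σ = simplex φ w

/-- Building automorphisms: isometries permuting the closed simplices. -/
def IsAut (β : Equiv.Perm (Delta B)) : Prop :=
  (∀ x y, dist (β x) (β y) = dist x y) ∧ ∀ σ, IsSimplex (β '' σ) ↔ IsSimplex σ

/-- Top-dimensional sets: some closed simplex contains `n` points of the set with linearly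
independent coordinates. -/
def TopDim (S : Set (Delta B)) : Prop :=
  ∃ φ ∈ B.A, ∃ (w : Fin n → ℝ) (f : Fin n → Fin n → ℝ), LinearIndependent ℝ f ∧
    ∀ j, ∃ x ∈ S ∩ simplex φ w, x.1 = φ (f j)

end Pool.Agent.P.MP_8ecd01_al.R4
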