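import Pool.Agent.P.MP_8ecd01_al.R4.Basic

/-!
Parallel sets, the projection `gr` to the link of a point, cones and families of finite type.
-/

namespace Pool.Agent.P.MP_8ecd01_al.R4

open Matrix

variable {n : ℕ} {R : RootSystem n} {B : Building R}

open Classical in
/-- The direction of `a` at the point `mk c w`, as a point of the parallel set. -/
noncomputable def gr (c : Ch B) (w : Fin n → ℝ) (a : B.X) : B.X :=
  if h : ∃ g ∈ Par c w, ∃ ε0 : ℝ, 0 < ε0 ∧ ∀ ε : ℝ, 0 < ε → ε ≤ ε0 →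
    add (mk c w) (smul ε a) = add (mk c w) (smul ε g) then h.choose else a

/-- The coordinates of the members of `A` lie in a finite set. -/
def FinT (A : Set B.X) : Prop :=
  ∃ Λ : Finset (Fin n → ℝ), ∀ a ∈ A, ∀ (b : Ch B) (α : Fin n → ℝ), a = mk b α → α ∈ Λ

/-- Convex sets. -/
def Cvx (H : Set B.X) : Prop :=
  ∀ x ∈ H, ∀ y ∈ H, ∀ t : ℝ, 0 ≤ t → t ≤ 1 → add (smul (1 - t) x) (smul t y) ∈ H

/-- No nonzero point of `K` is at angle at most `π / 2` from all members of `A`. -/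
def Wide (K A : Set B.X) : Prop := ∀ y ∈ K, (∀ a ∈ A, 0 ≤ ip y a) → y = zero

/-- Top-dimensional cones. -/
def Top (K : Set B.X) : Prop :=
  ∃ (b : Ch B) (w : Fin n → ℝ), ∀ ψ : Fin n → ℝ,
    (∀ φ, Comono R w φ → mk b φ ∈ K → φ ⬝ᵥ ψ = 0) → ψ = 0

/-- `p` has an antipode in `K`. -/
def Ant (K : Set B.X) (p : B.X) : Prop := ∃ q ∈ K, add p q = zero

variable [COX R] [API B]

/-- Closed convex cones. -/
structure Cone (K : Set B.X) : Prop where
  closed : _root_.IsClosed K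
  zero_mem : zero ∈ K
  add_mem : ∀ x ∈ K, ∀ y ∈ K, add x y ∈ K
  smul_mem : ∀ r : ℝ, 0 ≤ r → ∀ x ∈ K, smul r x ∈ K

theorem Cone.cvx {K : Set B.X} (h : Cone K) : Cvx K := fun x hx y hy t h0 h1 =>
  h.add_mem _ (h.smul_mem _ (by linarith) x hx) _ (h.smul_mem _ h0 y hy)

theorem Cone.inter {K L : Set B.X} (h : Cone K) (h' : Cone L) : Cone (K ∩ L) :=
  ⟨h.closed.inter h'.closed, ⟨h.zero_mem, h'.zero_mem⟩,
    fun x hx y hy => ⟨h.add_mem x hx.1 y hy.1, h'.add_mem x hx.2 y hy.2⟩,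
    fun r hr x hx => ⟨h.smul_mem r hr x hx.1, h'.smul_mem r hr x hx.2⟩⟩

theorem cone_univ : Cone (Set.univ : Set B.X) :=
  ⟨isClosed_univ, trivial, fun _ _ _ _ => trivial, fun _ _ _ _ => trivial⟩

/-- The half-space of a point is a closed convex cone. -/
theorem cone_half (z : B.X) : Cone {y | 0 ≤ ip y z} :=
  ⟨isClosed_le continuous_const (continuous_ip_left z), (ip_zero_left z).ge,
    fun x hx y hy => (add_nonneg hx hy).trans (ip_add_ge x y z),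
    fun r hr x hx => by
      show 0 ≤ ip _ z
      rw [ip_smul_left hr]
      exact mul_nonneg hr hx⟩

theorem par_add {c : Ch B} {w : Fin n → ℝ} {x y : B.X} (hx : x ∈ Par c w)
    (hy : y ∈ Par c w) : add x y ∈ Par c w := by
  obtain ⟨d, v, u, h, rfl, rfl⟩ := common_par hx hy
  rw [add_mk]
  exact mk_mem_par h _

omit [COX R] [API B] in
theorem par_smul {c : Ch B} {w : Fin n → ℝ} {x : B.X} {r : ℝ} (hr : 0 ≤ r)
    (hx : x ∈ Par c w) : smul r x ∈ Par c w := by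
  obtain ⟨d, v, h, rfl⟩ := hx
  rw [smul_mk _ _ hr]
  exact mk_mem_par h _

/-- Central elements are additive on the parallel set. -/
theorem ip_add_central {c : Ch B} {w ψ : Fin n → ℝ} (hψ : Blk R w ψ) {x y : B.X}
    (hx : x ∈ Par c w) (hy : y ∈ Par c w) :
    ip (add x (mk c ψ)) y = ip x y + ip (mk c ψ) y := by
  obtain ⟨d, v, u, h, rfl, rfl⟩ := common_par hx hy
  rw [← h ψ hψ, add_mk, ip_mk, ip_mk, ip_mk, add_dotProduct]

theorem ip_central_add {c : Ch B} {w ψ : Fin n → ℝ} (hψ : Blk R w ψ) {x y : B.X}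
    (hx : x ∈ Par c w) (hy : y ∈ Par c w) :
    ip (add x y) (mk c ψ) = ip x (mk c ψ) + ip y (mk c ψ) := by
  obtain ⟨d, v, u, h, rfl, rfl⟩ := common_par hx hy
  rw [← h ψ hψ, add_mk, ip_mk, ip_mk, ip_mk, add_dotProduct]

theorem ip_central_lin {c : Ch B} {w ψ φ : Fin n → ℝ} (hψ : Blk R w ψ) (hφ : Blk R w φ)
    (s t : ℝ) {y : B.X} (hy : y ∈ Par c w) :
    ip (mk c (s • ψ + t • φ)) y = s * ip (mk c ψ) y + t * ip (mk c φ) y := by
  obtain ⟨d, u, h, rfl⟩ := hy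
  rw [← h ψ hψ, ← h φ hφ, ← h _ ((hψ.smul s).add (hφ.smul t)), ip_mk, ip_mk, ip_mk,
    add_dotProduct, smul_dotProduct, smul_dotProduct, smul_eq_mul, smul_eq_mul]

theorem ip_central_neg {c : Ch B} {w ψ : Fin n → ℝ} (hψ : Blk R w ψ) {y : B.X}
    (hy : y ∈ Par c w) : ip (mk c (-ψ)) y = -ip (mk c ψ) y := by
  obtain ⟨d, u, h, rfl⟩ := hy
  rw [← h ψ hψ, ← h _ hψ.neg, ip_mk, ip_mk, neg_dotProduct]

omit [COX R] [API B] in
theorem add_central_cancel {c : Ch B} {w ψ : Fin n → ℝ} (hψ : Blk R w ψ) {x : B.X}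
    (hx : x ∈ Par c w) : add (add (mk c ψ) x) (mk c (-ψ)) = x := by
  obtain ⟨d, u, h, rfl⟩ := hx
  rw [← h ψ hψ, ← h _ hψ.neg, add_mk, add_mk]
  congr 1
  abel

omit [COX R] [API B] in
theorem germ_unique {c : Ch B} {w : Fin n → ℝ} {g g' : B.X} (hg : g ∈ Par c w)
    (hg' : g' ∈ Par c w) {ε : ℝ} (hε : 0 < ε)
    (h : add (mk c w) (smul ε g) = add (mk c w) (smul ε g')) : g = g' := by
  have h1 := add_central_cancel (Blk.refl w) (par_smul hε.le hg)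
  rw [h, add_central_cancel (Blk.refl w) (par_smul hε.le hg')] at h1
  have h2 := congrArg (smul ε⁻¹) h1
  rwa [smul_smul' (by positivity) hε.le, smul_smul' (by positivity) hε.le,
    inv_mul_cancel₀ hε.ne', one_smul', one_smul', eq_comm] at h2

omit [COX R] [API B] in
theorem gr_eq_of_germ {c : Ch B} {w : Fin n → ℝ} {a g : B.X} (hg : g ∈ Par c w) {ε0 : ℝ}
    (h0 : 0 < ε0) (h : ∀ ε : ℝ, 0 < ε → ε ≤ ε0 →
      add (mk c w) (smul ε a) = add (mk c w) (smul ε g)) : gr c w a = g := by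
  have hex : ∃ g ∈ Par c w, ∃ ε0 : ℝ, 0 < ε0 ∧ ∀ ε : ℝ, 0 < ε → ε ≤ ε0 →
      add (mk c w) (smul ε a) = add (mk c w) (smul ε g) := ⟨g, hg, ε0, h0, h⟩
  unfold gr
  rw [dif_pos hex]
  obtain ⟨h1, ε1, h2, h3⟩ := hex.choose_spec
  refine germ_unique h1 hg (lt_min h0 h2) ?_
  rw [← h3 _ (lt_min h0 h2) (min_le_right _ _), h _ (lt_min h0 h2) (min_le_left _ _)]

omit [COX R] [API B] in
theorem gr_id {c : Ch B} {w : Fin n → ℝ} {a : B.X} (ha : a ∈ Par c w) : gr c w a = a :=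
  gr_eq_of_germ ha one_pos fun _ _ _ => rfl

/-- The description of `gr` on an apartment through `mk c w`. -/
theorem gr_basis {c d : Ch B} {w : Fin n → ℝ} (h : mk d w = mk c w) :
    ∃ d' : Ch B, Apt c w d' ∧ (∀ α, gr c w (mk d α) = mk d' α) ∧
      ∀ φ, Compat R w φ → mk d' φ = mk d φ := by
  obtain ⟨d', h1, h2⟩ := API.unip c d w h
  refine ⟨d', h1, fun α => ?_, h2⟩
  obtain ⟨ε0, h0, hs⟩ := exists_small R w α
  refine gr_eq_of_germ (mk_mem_par h1 α) h0 fun ε hε hε' => ?_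
  rw [smul_mk _ _ hε.le, smul_mk _ _ hε.le]
  conv_lhs => rw [← h]
  rw [← h1 w (Blk.refl w), add_mk, add_mk]
  exact (h2 _ fun β hβ e => (hs ε (by rwa [abs_of_pos hε]) β hβ e).le).symm

theorem gr_type (c : Ch B) (w : Fin n → ℝ) (a : B.X) :
    ∃ (d d' : Ch B) (α : Fin n → ℝ), Apt c w d' ∧ mk d w = mk c w ∧ a = mk d α ∧
      gr c w a = mk d' α ∧ ∀ φ, Compat R w φ → mk d' φ = mk d φ := by
  obtain ⟨d, α, h1, rfl⟩ := cb0 c w a
  obtain ⟨d', h2, h3, h4⟩ := gr_basis h1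
  exact ⟨d, d', α, h2, h1, rfl, h3 α, h4⟩

theorem gr_mem (c : Ch B) (w : Fin n → ℝ) (a : B.X) : gr c w a ∈ Par c w := by
  obtain ⟨d, d', α, h, -, -, h', -⟩ := gr_type c w a
  exact ⟨d', α, h, h'⟩

theorem gr_germ (c : Ch B) (w : Fin n → ℝ) (a : B.X) : ∃ ε0 : ℝ, 0 < ε0 ∧ ∀ ε : ℝ, 0 < ε →
    ε ≤ ε0 → add (mk c w) (smul ε a) = add (mk c w) (smul ε (gr c w a)) := by
  obtain ⟨d, d', α, h1, h2, rfl, h3, h4⟩ := gr_type c w a
  obtain ⟨ε0, h0, hs⟩ := exists_small R w α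
  refine ⟨ε0, h0, fun ε hε hε' => ?_⟩
  rw [h3, smul_mk _ _ hε.le, smul_mk _ _ hε.le]
  conv_lhs => rw [← h2]
  rw [← h1 w (Blk.refl w), add_mk, add_mk]
  exact (h4 _ fun β hβ e => (hs ε (by rwa [abs_of_pos hε]) β hβ e).le).symm

theorem ip_gr_self (c : Ch B) (w : Fin n → ℝ) (a : B.X) :
    ip (gr c w a) (gr c w a) = ip a a := by
  obtain ⟨d, d', α, -, -, rfl, h, -⟩ := gr_type c w a
  rw [h, ip_mk, ip_mk]

/-- Points in a common chamber with `mk c w` do not see the projection. -/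
theorem ip_gr_compat {c d : Ch B} {w φ : Fin n → ℝ} (hd : Apt c w d) (h : Compat R w φ)
    (a : B.X) : ip (mk d φ) (gr c w a) = ip (mk d φ) a := by
  obtain ⟨e, α, h1, rfl⟩ := cb0 d (w + φ) a
  have h2 : mk e w = mk c w := (mk_comp h1 h.comono_add).trans (hd w (Blk.refl w))
  obtain ⟨e', -, h3, h4⟩ := gr_basis h2
  rw [h3, ← mk_comp h1 h.comono_add', ip_mk, ← h4 φ h, ip_mk]

theorem ip_gr_base (c : Ch B) (w : Fin n → ℝ) (a : B.X) :
    ip (mk c w) (gr c w a) = ip (mk c w) a :=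
  ip_gr_compat (Apt.refl c w) (Compat.refl w) a

/-- First variation of the inner product. -/
theorem ip_germ {c : Ch B} {w : Fin n → ℝ} {θ : B.X} (hθ : θ ∈ Par c w) :
    ∃ ε0 : ℝ, 0 < ε0 ∧ ∀ ε : ℝ, 0 < ε → ε ≤ ε0 → ∀ a,
      ip (add (mk c w) (smul ε θ)) a = ip (mk c w) a + ε * ip θ (gr c w a) := by
  obtain ⟨d, φ, hd, rfl⟩ := hθ
  obtain ⟨ε0, h0, hs⟩ := exists_small R w φ
  refine ⟨ε0, h0, fun ε hε hε' a => ?_⟩
  have h1 : Compat R w (w + ε • φ) := fun β hβ e => (hs ε (by rwa [abs_of_pos hε]) β hβ e).le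
  have h2 := ip_gr_compat hd h1 a
  have h3 := ip_add_central (Blk.refl w) (par_smul hε.le (mk_mem_par hd φ)) (gr_mem c w a)
  rw [add_comm', ip_smul_left hε.le, ip_gr_base] at h3
  have h4 : add (mk c w) (smul ε (mk d φ)) = mk d (w + ε • φ) := by
    rw [smul_mk _ _ hε.le, ← hd w (Blk.refl w), add_mk]
  rw [h4] at h3 ⊢
  rw [← h2, h3, add_comm]

theorem ip_le_gr (c : Ch B) (w : Fin n → ℝ) (x y : B.X) :
    ip x y ≤ ip (gr c w x) (gr c w y) := by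
  obtain ⟨ε0, h0, h1⟩ := gr_germ c w x
  obtain ⟨ε1, h2, h3⟩ := ip_germ (gr_mem c w x)
  have hε := lt_min h0 h2
  have h4 := h3 _ hε (min_le_right _ _) y
  rw [← h1 _ hε (min_le_left _ _)] at h4
  have h5 := ip_add_ge (mk c w) (smul (min ε0 ε1) x) y
  rw [h4, ip_smul_left hε.le] at h5
  exact le_of_mul_le_mul_left (by linarith) hε

theorem dist_gr_le (c : Ch B) (w : Fin n → ℝ) (x y : B.X) :
    Dist.dist (gr c w x) (gr c w y) ≤ Dist.dist x y := by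
  refine Real.sqrt_le_sqrt ?_
  unfold d2
  rw [ip_gr_self, ip_gr_self]
  linarith [ip_le_gr c w x y]

theorem cone_par (c : Ch B) (w : Fin n → ℝ) : Cone (Par c w) := by
  refine ⟨?_, by rw [← mk_zero c]; exact mk_mem_par (Apt.refl c w) _,
    fun x hx y hy => par_add hx hy, fun r hr x hx => par_smul hr hx⟩
  have h1 : Par c w = {x | gr c w x = x} :=
    Set.ext fun x => ⟨fun h => gr_id h, fun h => (show gr c w x = x from h) ▸ gr_mem c w x⟩
  have h2 : Continuous (gr c w) :=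
    (LipschitzWith.of_dist_le_mul (K := 1) fun x y => by simpa using dist_gr_le c w x y).continuous
  rw [h1]
  exact isClosed_eq h2 continuous_id

/-- A cone containing the line through `mk c w` is stable under the projection. -/
theorem cone_gr_mem {K : Set B.X} (hK : Cone K) {c : Ch B} {w : Fin n → ℝ}
    (h1 : mk c w ∈ K) (h2 : mk c (-w) ∈ K) {a : B.X} (ha : a ∈ K) : gr c w a ∈ K := by
  obtain ⟨ε, h0, h⟩ := gr_germ c w a
  have h3 := hK.add_mem _ (hK.add_mem _ h1 _ (hK.smul_mem ε h0.le a ha)) _ h2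
  rw [h ε h0 le_rfl, add_central_cancel (Blk.refl w) (par_smul h0.le (gr_mem c w a))] at h3
  have h4 := hK.smul_mem ε⁻¹ (by positivity) _ h3
  rwa [smul_smul' (by positivity) h0.le, inv_mul_cancel₀ h0.ne', one_smul'] at h4

/-- Projecting first to a face does not change the projection. -/
theorem gr_gr {c c1 : Ch B} {ξ w : Fin n → ℝ} (h1 : mk c1 w = mk c w) (h2 : Comono R ξ w)
    (a : B.X) : gr c ξ (gr c1 w a) = gr c ξ a := by
  obtain ⟨d, α, h3, rfl⟩ := cb0 c ξ a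
  obtain ⟨d', -, h4, h5⟩ := gr_basis ((mk_comp h3 h2).trans h1.symm)
  obtain ⟨ε0, h0, hs⟩ := gr_germ c ξ (mk d α)
  obtain ⟨ε1, h6, h7⟩ := exists_small R ξ α
  refine gr_eq_of_germ (gr_mem c ξ _) (lt_min h0 h6) fun ε hε hε' => ?_
  rw [← hs ε hε (hε'.trans (min_le_left _ _)), h4, smul_mk _ _ hε.le, smul_mk _ _ hε.le, ← h3,
    add_mk, ← h5 ξ h2.compat', add_mk]
  exact h5 _ (Compat.of_comono (fun β hβ e =>
    (h7 ε (by rw [abs_of_pos hε]; exact hε'.trans (min_le_right _ _)) β hβ e).le) h2)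

/-- Inside a parallel set, central elements do not see finer projections. -/
theorem ip_gr_central {c : Ch B} {w w' ψ : Fin n → ℝ} (hb : Blk R w' w) (hψ : Blk R w ψ)
    {a : B.X} (ha : a ∈ Par c w) : ip (mk c ψ) (gr c w' a) = ip (mk c ψ) a := by
  obtain ⟨d, α, h0, h1, rfl⟩ := API.cb c c w w' a (Apt.refl c w) ha
  obtain ⟨d', h2, h3, -⟩ := gr_basis h1
  rw [h3]
  conv_lhs => rw [← h2 ψ (hb.trans hψ)]
  rw [← h0 ψ hψ, ip_mk, ip_mk]

/-- First variation at `mk c ξ` inside `Par c w`, through the common refinement `ξ + t • w`. -/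
theorem ip_germ_rel {c : Ch B} {w ξ : Fin n → ℝ} {t : ℝ} (hb : Blk R (ξ + t • w) w)
    {θ : B.X} (hθ : θ ∈ Par c (ξ + t • w)) :
    (∀ a ∈ Par c w, ip (mk c ξ) (gr c (ξ + t • w) a) = ip (mk c ξ) a) ∧
    ∃ ε0 : ℝ, 0 < ε0 ∧ ∀ ε : ℝ, 0 < ε → ε ≤ ε0 → ∀ a ∈ Par c w,
      ip (add (mk c ξ) (smul ε θ)) a = ip (mk c ξ) a + ε * ip θ (gr c (ξ + t • w) a) := by
  have hc := Apt.refl c w
  have key : ∀ x ∈ Par c w, ∀ a ∈ Par c w,
      ip (add x (mk c (t • w))) a = ip x a + ip (mk c (t • w)) a :=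
    fun x hx a ha => ip_add_central ((Blk.refl w).smul t) hx ha
  constructor
  · intro a ha
    have h1 := key _ (mk_mem_par hc ξ) a ha
    have h2 := key _ (mk_mem_par hc ξ) _ (par_mono hb (gr_mem c _ a))
    rw [add_mk] at h1 h2
    rw [ip_gr_base, ip_gr_central hb ((Blk.refl w).smul t) ha] at h2
    linarith
  · obtain ⟨ε0, h0, h⟩ := ip_germ hθ
    refine ⟨ε0, h0, fun ε hε hε' a ha => ?_⟩
    have h1 := key _ (mk_mem_par hc ξ) a ha
    have h2 := key _ (par_add (mk_mem_par hc ξ) (par_smul hε.le (par_mono hb hθ))) a ha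
    have h3 := h ε hε hε' a
    have h4 : add (add (mk c ξ) (smul ε θ)) (mk c (t • w)) = add (mk c (ξ + t • w)) (smul ε θ) := by
      obtain ⟨d, φ, hd, rfl⟩ := hθ
      have hw : Blk R (ξ + t • w) (t • w) := hb.smul t
      have hξ : Blk R (ξ + t • w) ξ := by
        have := (Blk.refl (ξ + t • w)).add hw.neg
        rwa [add_neg_cancel_right] at this
      rw [← hd ξ hξ, ← hd _ hw, ← hd _ (Blk.refl _), smul_mk _ _ hε.le, add_mk, add_mk, add_mk,
        add_right_comm]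
    rw [add_mk] at h1
    rw [h4, h3, h1] at h2
    linarith

theorem Top.gr {K D : Set B.X} (h : Top K) (c : Ch B) (w : Fin n → ℝ)
    (hD : ∀ a ∈ K, gr c w a ∈ D) : ∃ (d : Ch B) (v : Fin n → ℝ), Apt c w d ∧
      ∀ ψ : Fin n → ℝ, (∀ φ, Comono R v φ → mk d φ ∈ D → φ ⬝ᵥ ψ = 0) → ψ = 0 := by
  obtain ⟨b, v, hb⟩ := h
  obtain ⟨d, u, h1, h2⟩ := cb0 c w (mk b v)
  obtain ⟨g, hg, rfl⟩ := typ h2
  obtain ⟨d', h3, h4, -⟩ := gr_basis h1
  refine ⟨d', g v, h3, fun ψ hφ => ?_⟩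
  have h5 := hb (g⁻¹ ψ) fun φ e1 e2 => by
    have e4 : mk d (g φ) = mk b φ := mk_comp (d := cw d hg) h2.symm e1
    have e5 := hφ _ (e1.map hg) (by rw [← h4, e4]; exact hD _ e2)
    rwa [dotProduct_comm, W_dot' hg, dotProduct_comm] at e5
  rw [← self_apply_inv g ψ, h5, map_zero]

theorem Top.gr' {K D : Set B.X} (h : Top K) (c : Ch B) (w : Fin n → ℝ)
    (hD : ∀ a ∈ K, R4.gr c w a ∈ D) : Top D := by
  obtain ⟨d, v, -, h'⟩ := h.gr c w hD
  exact ⟨d, v, h'⟩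

omit [API B] in
theorem finT_of {A : Set B.X} (Λ : Finset (Fin n → ℝ))
    (h : ∀ a ∈ A, ∃ (b : Ch B) (α : Fin n → ℝ), a = mk b α ∧ α ∈ Λ) : FinT A := by
  classical
  refine ⟨Finset.image₂ (fun g α => g α) (COX.fin (R := R)).toFinset Λ, fun a ha d β e => ?_⟩
  obtain ⟨b, α, rfl, h'⟩ := h a ha
  obtain ⟨g, hg, rfl⟩ := typ e
  exact Finset.mem_image₂_of_mem ((COX.fin (R := R)).mem_toFinset.2 hg) h'

omit [API B] in
theorem finT_of' {A : Set B.X} {Λ : Set (Fin n → ℝ)} (hΛ : Λ.Finite)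
    (h : ∀ a ∈ A, ∃ (b : Ch B) (α : Fin n → ℝ), a = mk b α ∧ α ∈ Λ) : FinT A :=
  finT_of hΛ.toFinset fun a ha => by simpa using h a ha

omit [COX R] [API B] in
theorem FinT.mono {A C : Set B.X} (h : FinT C) (hs : A ⊆ C) : FinT A := by
  obtain ⟨Λ, h⟩ := h
  exact ⟨Λ, fun a ha => h a (hs ha)⟩

omit [COX R] [API B] in
theorem FinT.union {A C : Set B.X} (h : FinT A) (h' : FinT C) : FinT (A ∪ C) := by
  classical
  obtain ⟨Λ, h⟩ := h
  obtain ⟨Λ', h'⟩ := h'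
  refine ⟨Λ ∪ Λ', fun a ha b α e => Finset.mem_union.2 ?_⟩
  exact ha.imp (fun ha => h a ha b α e) fun ha => h' a ha b α e

theorem finT_singleton (a : B.X) : FinT {a} := by
  classical
  obtain ⟨b, α, rfl⟩ := exists_mk a
  refine finT_of {α} ?_
  rintro _ rfl
  exact ⟨b, α, rfl, Finset.mem_singleton_self _⟩

theorem FinT.insert {A : Set B.X} (h : FinT A) (a : B.X) : FinT (insert a A) :=
  (finT_singleton a).union h

theorem finT_finite {A : Set B.X} (h : A.Finite) : FinT A := by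
  induction A, h using Set.Finite.induction_on with
  | empty => exact ⟨∅, fun _ h => h.elim⟩
  | insert _ _ ih => exact ih.insert _

theorem FinT.gr {A : Set B.X} (h : FinT A) (c : Ch B) (w : Fin n → ℝ) :
    FinT (gr c w '' A) := by
  obtain ⟨Λ, h⟩ := h
  refine finT_of Λ ?_
  rintro _ ⟨a, ha, rfl⟩
  obtain ⟨d, d', α, -, -, e, e', -⟩ := gr_type c w a
  exact ⟨d', α, e', h a ha d α e⟩

theorem FinT.add {A C : Set B.X} (h : FinT A) (h' : FinT C) :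
    FinT {x | ∃ a ∈ A, ∃ b ∈ C, x = add a b} := by
  classical
  obtain ⟨Λ, h⟩ := h
  obtain ⟨Λ', h'⟩ := h'
  refine finT_of (Finset.image₂ (· + ·) Λ Λ') ?_
  rintro _ ⟨a, ha, b, hb, rfl⟩
  obtain ⟨d, v, u, rfl, rfl⟩ := common a b
  exact ⟨d, v + u, add_mk _ _ _, Finset.mem_image₂_of_mem (h _ ha d v rfl) (h' _ hb d u rfl)⟩

theorem FinT.smul {A : Set B.X} (h : FinT A) {r : ℝ} (hr : 0 ≤ r) : FinT (smul r '' A) := by
  classical
  obtain ⟨Λ, h⟩ := h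
  refine finT_of (Λ.image (r • ·)) ?_
  rintro _ ⟨a, ha, rfl⟩
  obtain ⟨d, v, rfl⟩ := exists_mk a
  exact ⟨d, r • v, smul_mk _ _ hr, Finset.mem_image_of_mem _ (h _ ha d v rfl)⟩

/-- Two families of finite type have finitely many inner products. -/
theorem FinT.finite_ip {A C : Set B.X} (h : FinT A) (h' : FinT C) :
    {r | ∃ a ∈ A, ∃ b ∈ C, r = ip a b}.Finite := by
  classical
  obtain ⟨Λ, h⟩ := h
  obtain ⟨Λ', h'⟩ := h'
  refine (Finset.image₂ (· ⬝ᵥ ·) Λ Λ').finite_toSet.subset ?_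
  rintro _ ⟨a, ha, b, hb, rfl⟩
  obtain ⟨d, v, u, rfl, rfl⟩ := common a b
  rw [ip_mk]
  exact Finset.mem_coe.2 (Finset.mem_image₂_of_mem (h _ ha d v rfl) (h' _ hb d u rfl))

omit [COX R] [API B] in
/-- A finite set of reals has a gap above every number. -/
theorem exists_gap {S : Set ℝ} (h : S.Finite) (m : ℝ) :
    ∃ δ : ℝ, 0 < δ ∧ ∀ r ∈ S, (m < r → m + δ ≤ r) ∧ (r < m → r ≤ m - δ) := by
  induction S, h using Set.Finite.induction_on with
  | empty => exact ⟨1, one_pos, fun _ h => h.elim⟩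
  | @insert a s _ _ ih =>
    obtain ⟨δ, h0, h⟩ := ih
    by_cases ha : a = m
    · refine ⟨δ, h0, ?_⟩
      rintro r (rfl | hr)
      · exact ⟨fun e => absurd ha e.ne', fun e => absurd ha e.ne⟩
      · exact h r hr
    · refine ⟨min δ |a - m|, lt_min h0 (abs_pos.2 (sub_ne_zero.2 ha)), ?_⟩
      have h1 := min_le_left δ |a - m|
      have h2 := min_le_right δ |a - m|
      rintro r (rfl | hr)
      · refine ⟨fun e => ?_, fun e => ?_⟩
        · rw [abs_of_pos (sub_pos.2 e)] at h2 ⊢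
          linarith
        · rw [abs_of_neg (sub_neg.2 e)] at h2 ⊢
          linarith
      · exact ⟨fun e => by linarith [(h r hr).1 e], fun e => by linarith [(h r hr).2 e]⟩

theorem FinT.gap {A : Set B.X} (h : FinT A) (y : B.X) (m : ℝ) :
    ∃ δ : ℝ, 0 < δ ∧ ∀ a ∈ A, (m < ip y a → m + δ ≤ ip y a) ∧ (ip y a < m → ip y a ≤ m - δ) := by
  obtain ⟨δ, h0, h1⟩ := exists_gap ((finT_singleton y).finite_ip h) m
  exact ⟨δ, h0, fun a ha => h1 _ ⟨y, rfl, a, ha, rfl⟩⟩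

theorem FinT.bdd {A : Set B.X} (h : FinT A) : ∃ R : ℝ, 0 < R ∧ ∀ a ∈ A, √(ip a a) ≤ R := by
  obtain ⟨M, hM⟩ := (h.finite_ip h).bddAbove
  exact ⟨√M + 1, by positivity, fun a ha =>
    (Real.sqrt_le_sqrt (hM ⟨a, ha, a, ha, rfl⟩)).trans (by linarith)⟩

/-- A family of finite type is uniformly discrete. -/
theorem FinT.discrete {A : Set B.X} (h : FinT A) :
    ∃ δ : ℝ, 0 < δ ∧ ∀ a ∈ A, ∀ b ∈ A, Dist.dist a b < δ → a = b := by
  have hf := h.finite_ip h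
  have h1 : {r | ∃ a ∈ A, ∃ b ∈ A, r = Dist.dist a b}.Finite := by
    refine (((hf.prod hf).prod hf).image
      (fun p : (ℝ × ℝ) × ℝ => √(p.1.1 - 2 * p.1.2 + p.2))).subset ?_
    rintro _ ⟨a, ha, b, hb, rfl⟩
    exact ⟨((ip a a, ip a b), ip b b),
      ⟨⟨⟨a, ha, a, ha, rfl⟩, ⟨a, ha, b, hb, rfl⟩⟩, ⟨b, hb, b, hb, rfl⟩⟩, rfl⟩
  obtain ⟨δ, h0, h2⟩ := exists_gap h1 0
  refine ⟨δ, h0, fun a ha b hb e => ?_⟩
  by_contra hne
  linarith [(h2 _ ⟨a, ha, b, hb, rfl⟩).1 (dist_pos.2 hne)]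

end Pool.Agent.P.MP_8ecd01_al.R4
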