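import Pool.Agent.P.MP_8ecd01_al.R4.IfaceB

/-! Step IDEAL of the top-dimensional centre theorem in rank four. -/

namespace Pool.Agent.P.MP_8ecd01_al.R4

open Matrix Module

theorem p_IDEAL :
    S_IDEAL := by
  intro n R B _ _ K p a hK hp ha ⟨q, hq, h⟩
  obtain ⟨b, v, u, rfl, rfl⟩ := common p a
  have hs := hK.add_mem _ hp _ ha
  rw [add_mk] at h hs
  obtain ⟨c, z, h1, rfl⟩ := cb0 b (v + u) q
  rw [← h1] at h hs
  obtain rfl := eq_neg_of_add h
  obtain ⟨d, h2, h3, -⟩ := gr_basis (c := c) (d := b) (w := v + u) h1.symm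
  have h4 := cone_gr_mem hK hs hq ha
  rw [h3] at h4
  rw [← h2 _ (Blk.refl _).neg] at hq
  have h5 := hK.add_mem _ h4 _ hq
  rw [add_mk, show u + -(v + u) = -v by abel] at h5
  refine ⟨_, h5, add_eq_zero_of_ip ?_ ?_⟩
  · rw [ip_mk, ip_mk, neg_dotProduct_neg]
  · have h6 := ip_le_gr c (v + u) (mk b v) (mk d (-v))
    rwa [h3, gr_id (mk_mem_par h2 _), ip_mk d, dotProduct_neg, ← ip_mk b] at h6

end Pool.Agent.P.MP_8ecd01_al.R4
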