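import Pool.Agent.P.MP_8ecd01_al.R4.Chk
import Pool.Agent.P.MP_8ecd01_al.R4.IfaceB

/-!
The statements of the steps in rank four.
-/

namespace Pool.Agent.P.MP_8ecd01_al.R4

open Matrix Module

-- deps:
def S_CLQ : Prop := ∀ p ∈ opts, ∀ q ∈ opts, ∀ r ∈ opts, ∀ s ∈ opts, ∀ t ∈ opts, ∀ u ∈ opts,
  (∃ m ∈ kills, killq (mat p q r s t u) m = true) ∨
    ∃ σ ∈ perms, ∃ x ∈ (mF4, sF4) :: others, permq σ (mat p q r s t u) = x.1.N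

-- deps:
def S_CERT : Prop := ∀ x ∈ others, x.1.ok = true ∧ x.1.chkAll x.1.roots x.2 = true ∧
  ∀ st ∈ x.2, x.1.chkC st.2 = true

-- deps:
def S_CERF : Prop := mF4.ok = true ∧ mF4.chkAll mF4.roots sF4 = true

-- deps: CLQ
def S_CLA : Prop := ∀ (R : RootSystem 4) (b : Base R), (∀ i, b.a i ∈ R.Φ) →
  ∃ σ : Equiv.Perm (Fin 4), ∃ x ∈ (mF4, sF4) :: others, ∀ i j,
    2 * (b.a (σ i) ⬝ᵥ b.a (σ j)) = ((get4 (x.1.row i) j : ℤ) : ℝ) * (b.a (σ i) ⬝ᵥ b.a (σ i))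

-- deps: BASE CLA CERT CERF
def S_CLASS : Prop := ∀ R : RootSystem 4,
  ∃ b : Base R, ∃ x ∈ (mF4, sF4) :: others, Fits b x.1

-- deps: GEN
def S_VEC : Prop := ∀ {R : RootSystem 4} (b : Base R) (M : Model), Fits b M → M.ok = true →
  (∀ x y, vec b x ⬝ᵥ vec b y = (M.bil x y : ℤ)) ∧
  (∀ s x t y, vec b (lin s x t y) = (s : ℝ) • vec b x + (t : ℝ) • vec b y) ∧
  (∀ i, vec b (eq4 i) = b.a i) ∧
  (∀ i m, rf (b.a i) (vec b m) = vec b (M.rq i m)) ∧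
  (∀ i, 0 < M.bil (M.om i) (M.om i) ∧
    vec b (M.om i) = √((M.bil (M.om i) (M.om i) : ℤ) : ℝ) • b.u i) ∧
  (∀ k m, ∃ g ∈ R.W, vec b (M.domin k m) = g (vec b m)) ∧
  (∀ O : List Q, (∀ m ∈ O, ∀ i, M.rq i m ∈ O) → ∀ g ∈ R.W, ∀ m ∈ O,
    ∃ m' ∈ O, g (vec b m) = vec b m') ∧
  ∀ (P : (Fin 4 → ℝ) → Prop) (F : List Q) (m : Q), Inv R P → (∀ f ∈ F, P (vec b f)) →
    M.forb F m = true → P (vec b m)

-- deps: VEC
def S_SNO : Prop := ∀ {R : RootSystem 4} (b : Base R) (M : Model), Fits b M → M.ok = true →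
  (∀ (ρ : ℤ) (st : List (Fin 4 × List Q)), M.orbs ρ st = true → ∀ p ∈ st, 0 < ρ ∧
    vec b (M.om p.1) = √(ρ : ℝ) • b.u p.1 ∧
    ∀ v, b.Ty p.1 v → ∃ m ∈ p.2, vec b m = √(ρ : ℝ) • v) ∧
  ∀ (P : (Fin 4 → ℝ) → Prop) (F : List Q) (c : ℝ) (x y z : Q) (v u w : Fin 4 → ℝ), Inv R P →
    (∀ f ∈ F, P (vec b f)) → 0 < c → vec b x = c • v → vec b y = c • u →
    (M.hit2 F x y = true → Hit2 P v u) ∧
      (vec b z = c • w → M.hit3 F x y z = true → Hit3 P v u w)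

-- deps: VEC SNO
def S_SNJ : Prop := ∀ {R : RootSystem 4} (b : Base R) (M : Model) (P : (Fin 4 → ℝ) → Prop)
  (F : List Q) (st : List (Fin 4 × List Q)), Fits b M → M.ok = true → Inv R P →
  (∀ f ∈ F, P (vec b f)) → M.chkJ F st = true → CondJ b P (cls st)

-- deps: VEC SNO
def S_SNH : Prop := ∀ {R : RootSystem 4} (b : Base R) (M : Model) (P : (Fin 4 → ℝ) → Prop)
  (F : List Q) (st : List (Fin 4 × List Q)), Fits b M → M.ok = true → Inv R P →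
  (∀ f ∈ F, P (vec b f)) → M.chkH F st = true → CondH b P (cls st)

-- deps: VEC
def S_SNC : Prop := ∀ {R : RootSystem 4} (b : Base R) (M : Model) (σ : Equiv.Perm (Fin 4)),
  Fits b M → M.ok = true → (∀ i j, b.u (σ i) ⬝ᵥ b.u (σ j) = b.u i ⬝ᵥ b.u j) →
  M.iso σ = true ∧ ∀ st, M.chkC st = true → ∀ i ∈ cls st, σ i ∈ cls st

-- deps: VEC SNJ SNH ELJ ELH NOROOT
def S_FORB : Prop := ∀ {R : RootSystem 4} (B : Building R) [COX R] [API B] (b : Base R)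
  (M : Model) (l : List Stage) (G : Set (B.X → B.X)) (K : Set B.X), Fits b M → M.ok = true →
  Cone K → Sym G K → NoFix G K → (∀ st ∈ l, Clo b G (cls st.2)) → M.chkAll M.roots l = true →
  ∀ i, Forb K (b.u i)

-- deps: VEC SNC CERF
def S_FF : Prop := ∀ {R : RootSystem 4} (b : Base R), Fits b mF4 →
  (∀ σ : Equiv.Perm (Fin 4), (∀ i j, b.u (σ i) ⬝ᵥ b.u (σ j) = b.u i ⬝ᵥ b.u j) →
    σ = 1 ∨ σ = Fin.revPerm) ∧
  (∃ g ∈ R.W, ∀ v, g v = -v) ∧ RD R (b.u 0) ∧ RD R (b.u 3) ∧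
  ∀ i, i = 1 ∨ i = 2 → ∃ s x y : ℝ, 0 < s ∧ RD R (s • b.u i + (x • b.u 0 + y • b.u 3))

-- deps: TYU DL HULL FORB CERF
def S_FZ : Prop := ∀ {R : RootSystem 4} (B : Building R) [COX R] [API B] (b : Base R)
  (G : Set (B.X → B.X)) (K F : Set B.X) (p : B.X), Fits b mF4 → Cone K → Sym G K →
  F.Finite → F ⊆ K → Top F → p ∈ K → ¬ Ant K p →
  Sym {g | g ∈ G ∧ Act b g 1} K ∧ ¬ NoFix {g | g ∈ G ∧ Act b g 1} K

-- deps: SYM TYU DL DOM FD FF FZ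
def S_FA : Prop := ∀ {R : RootSystem 4} (B : Building R) [COX R] [API B] (b : Base R)
  (G : Set (B.X → B.X)) (K F : Set B.X) (p : B.X), Fits b mF4 → Cone K → Sym G K → NoFix G K →
  F.Finite → F ⊆ K → Top F → p ∈ K → ¬ Ant K p →
  ∃ (c : Ch B) (w : Fin 4 → ℝ), b.Dom w ∧ w ≠ 0 ∧ mk c w ∈ K ∧ mk c (-w) ∈ K ∧
    (∀ g ∈ G, (g (mk c w) = mk c w ∧ g (mk c (-w)) = mk c (-w)) ∨
      (g (mk c w) = mk c (-w) ∧ g (mk c (-w)) = mk c w)) ∧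
    ∀ i, b.a i ⬝ᵥ w = 0 → b.a i.rev ⬝ᵥ w = 0

-- deps: TYU FF HULL NOROOT IDEAL FA
def S_FB : Prop := ∀ {R : RootSystem 4} (B : Building R) [COX R] [API B] (b : Base R)
  (G : Set (B.X → B.X)) (K F : Set B.X) (p : B.X), Fits b mF4 → Cone K → Sym G K →
  F.Finite → F ⊆ K → Top F → p ∈ K → ¬ Ant K p → ¬ NoFix G K

-- deps: CLASS CERT DL SNC HULL FORB FB
def S_MAIN : Prop := ∀ {R : RootSystem 4} (B : Building R) [COX R] [API B]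
  (G : Set (B.X → B.X)) (K F : Set B.X) (p : B.X), Cone K → Sym G K →
  F.Finite → F ⊆ K → Top F → p ∈ K → ¬ Ant K p → ¬ NoFix G K

-- deps: TRA TRC TRS MAIN
def S_TRF : Prop := ∀ {R : RootSystem 4} (B : Building R) [COX R] [API B] (S : Set (Delta B)),
  R4.IsClosed S → IsConvex S → TopDim S → (∀ x ∈ S, ∃ y ∈ S, Opp x y) ∨
    ∃ c ∈ S, ∀ β : Equiv.Perm (Delta B), IsAut β → β '' S = S → β c = c

end Pool.Agent.P.MP_8ecd01_al.R4
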