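import Pool.Agent.P.MP_8ecd01_al.R4.IfaceB

/-! Step JUNG of the top-dimensional centre theorem in rank four. -/

namespace Pool.Agent.P.MP_8ecd01_al.R4

open Matrix Module

theorem p_JUNG (hJMIN : S_JMIN) (hJSTEP : S_JSTEP) :
    S_JUNG := by
  intro n R B _ _ D
  induction D with
  | zero =>
    intro c w W A ρ hW hD hA _ hρ h1 _ _ a0 ha0
    obtain rfl : W = ⊤ := Submodule.eq_top_of_finrank_eq (by simpa using hD)
    obtain ⟨⟨d, α, hd, e⟩, h2⟩ := hA ha0
    have h3 := h2 α trivial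
    rw [← hd α (hW α trivial), ← e, h1 _ ha0] at h3
    exact absurd h3 hρ.ne'
  | succ D ih =>
    intro c w W A ρ hW hD hA hF hρ h1 h2 h3 a0 ha0
    push_cast at h2
    have D0 : (0 : ℝ) ≤ D := Nat.cast_nonneg D
    have key : ∀ (x : B.X) (m : ℝ), x ∈ KW c w W → ip x x = 1 → 0 ≤ m →
        (∀ a ∈ A, -m ≤ ip x a) → (∀ y ∈ KW c w W, ∃ a ∈ A, ip y a ≤ -m * √(ip y y)) →
        ((D : ℝ) + 1) ^ 2 * m ^ 2 ≤ ρ → ∃ a1 ∈ A, ∃ l : Fin D → B.X, ip x a1 = -m ∧
          (∀ i, l i ∈ A) ∧ ∀ y ∈ KW c w W,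
            ip y a1 + ∑ i, ip y (l i) ≤ -((D + 1) * m * ip y x) := by
      intro x m hx hx1 hm hge hss hle
      obtain ⟨c', w', W', pr, hW', hr, hA', hF', p1, p2, p3, p4⟩ :=
        hJSTEP B c w W A x m hW hA hF hx hx1 hm hge hss
      obtain ⟨a1, ha1, e1, -⟩ := p3 zero (cone_KW c' hW').zero_mem
      have aux : ∃ l : Fin D → B.X, (∀ i, l i ∈ A ∧ ip x (l i) = -m) ∧
          ∀ η ∈ KW c' w' W', ip η (pr a1) + ∑ i, ip η (pr (l i)) ≤ 0 := by
        by_cases hp : 0 < ρ - m ^ 2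
        · obtain ⟨l2, q1, q2⟩ := ih c' w' W' _ (ρ - m ^ 2) hW' (by omega) hA' hF' hp
            (by
              rintro _ ⟨a, ⟨ha, e⟩, rfl⟩
              rw [p1 a ha e, h1 a ha])
            (by
              rintro _ ⟨a, ⟨ha, e⟩, rfl⟩ _ ⟨a', ⟨ha', e'⟩, rfl⟩
              have q1 := mul_le_mul_of_nonneg_left (p2 a ha a' ha' e e') D0
              have q2 := mul_le_mul_of_nonneg_left (h2 a ha a' ha') D0
              refine le_trans (le_of_mul_le_mul_left ?_ (by positivity : (0 : ℝ) < D + 1)) q1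
              nlinarith)
            (fun η hη => (p3 η hη).elim fun a h => ⟨_, ⟨a, ⟨h.1, h.2.1⟩, rfl⟩, h.2.2⟩)
            _ ⟨a1, ⟨ha1, e1⟩, rfl⟩
          choose l q3 q4 using q1
          exact ⟨l, q3, by simpa only [q4] using q2⟩
        · have q1 : pr a1 = zero := eq_zero_of_ip_self (by rw [p1 a1 ha1 e1, h1 a1 ha1]; linarith)
          exact ⟨fun _ => a1, fun _ => ⟨ha1, e1⟩, fun η _ => by simp [q1, ip_zero_right]⟩
      obtain ⟨l, q1, q2⟩ := aux
      refine ⟨a1, ha1, l, e1, fun i => (q1 i).1, fun y hy => ?_⟩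
      obtain ⟨η, hη, q3⟩ := p4 y hy
      have q4 := Finset.sum_le_sum fun i (_ : i ∈ Finset.univ) => q3 _ (q1 i).1 (q1 i).2
      rw [Finset.sum_sub_distrib, Finset.sum_const, Finset.card_univ, Fintype.card_fin,
        nsmul_eq_mul] at q4
      linarith [q2 η hη, q3 a1 ha1 e1]
    have hs : 0 < √ρ := Real.sqrt_pos.2 hρ
    have hq : √ρ * √ρ = ρ := Real.mul_self_sqrt hρ.le
    obtain ⟨x, hx, m, hm, hx1, hge, hss⟩ := hJMIN B _ A (cone_KW c hW) hA hF
      ⟨a0, hA ha0, fun e => by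
        have := h1 a0 ha0
        rw [e, ip_zero_left] at this
        exact hρ.ne this⟩ h3
    have hN : 0 ≤ ((D : ℝ) + 1) * m := by positivity
    have hle : ((D : ℝ) + 1) * m ≤ √ρ := by
      obtain ⟨a, ha, e⟩ := hss a0 (hA ha0)
      rw [h1 a0 ha0] at e
      have q1 := mul_le_mul_of_nonneg_left e (by positivity : (0 : ℝ) ≤ D + 1)
      refine le_of_mul_le_mul_right ?_ hs
      linarith [h2 a0 ha0 a ha]
    have hle2 : ((D : ℝ) + 1) ^ 2 * m ^ 2 ≤ ρ := by nlinarith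
    have heq : ((D : ℝ) + 1) * m = √ρ := by
      obtain ⟨a1, ha1, l, e1, q1, q2⟩ := key x m hx hx1 hm hge hss hle2
      have q3 := mul_le_mul_of_nonneg_left (q2 a1 (hA ha1)) (by positivity : (0 : ℝ) ≤ D + 1)
      have q4 := Finset.sum_le_sum fun i (_ : i ∈ Finset.univ) => h2 a1 ha1 _ (q1 i)
      rw [← Finset.mul_sum, Finset.sum_const, Finset.card_univ, Fintype.card_fin,
        nsmul_eq_mul] at q4
      rw [h1 a1 ha1, ip_comm a1 x, e1] at q3
      refine le_antisymm hle (Real.sqrt_le_iff.2 ⟨hN, ?_⟩)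
      linarith
    have hi : 0 ≤ (√ρ)⁻¹ := by positivity
    obtain ⟨a1, ha1, l, -, q1, q2⟩ := key (smul (√ρ)⁻¹ a0) m
      ((cone_KW c hW).smul_mem _ hi _ (hA ha0))
      (by
        rw [ip_smul_left hi, ip_smul_right hi, h1 a0 ha0]
        field_simp
        linarith) hm
      (fun a ha => by
        rw [ip_smul_left hi, le_inv_mul_iff₀ hs]
        refine le_of_mul_le_mul_left ?_ (by positivity : (0 : ℝ) < D + 1)
        have q1 := congrArg (√ρ * ·) heq
        linarith [h2 a0 ha0 a ha]) hss hle2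
    refine ⟨Fin.cons a1 l, Fin.cases ha1 q1, fun y hy => ?_⟩
    have q3 := q2 y hy
    rw [heq, ip_smul_right hi, mul_inv_cancel_left₀ hs.ne'] at q3
    rw [Fin.sum_univ_succ]
    simp only [Fin.cons_zero, Fin.cons_succ]
    linarith

end Pool.Agent.P.MP_8ecd01_al.R4
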