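import Pool.Agent.P.MP_8ecd01_al.R4.IfaceB

/-! Step NOROOT of the top-dimensional centre theorem in rank four. -/

namespace Pool.Agent.P.MP_8ecd01_al.R4

open Matrix Module

theorem p_NOROOT (hFIX : S_FIX) (hROOT : S_ROOT) (hRINV : S_RINV) :
    S_NOROOT := by
  intro n R B _ _ G K hK hG hN f hf c hc
  by_contra hA
  have h0 := dot_self_pos hf.ne
  have h1 := Real.sqrt_pos.2 h0
  have h2 := inv_pos.2 h1
  have h3 : mk c ((√(f ⬝ᵥ f))⁻¹ • f) ∈ Rt K := by
    refine ⟨?_, fun h => hA ?_, c, _, hf.smul h2, ?_, rfl⟩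
    · rw [← smul_mk _ _ h2.le]
      exact hK.smul_mem _ h2.le _ hc
    · rw [← smul_mk _ _ h2.le] at h
      exact h.of_smul hK h2
    · have h4 := Real.mul_self_sqrt h0.le
      rw [smul_dotProduct, dotProduct_smul, smul_eq_mul, smul_eq_mul]
      field_simp
      linarith
  obtain ⟨h4, h5⟩ := hRINV B G K hG
  exact hFIX B G K (Rt K) hK hG (fun x hx => hx.1) h4 ⟨_, h3⟩ h5 (hROOT B K hK h4) hN

end Pool.Agent.P.MP_8ecd01_al.R4
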