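import Pool.Agent.P.MP_8ecd01_al.R4.IfaceC

/-! Step SNC of the top-dimensional centre theorem in rank four. -/

namespace Pool.Agent.P.MP_8ecd01_al.R4

open Matrix Module

theorem p_SNC (hVEC : S_VEC) :
    S_SNC := by
  intro R b M σ hF hok hσ
  obtain ⟨h1, -, -, -, h5, -⟩ := hVEC b M hF hok
  have all : ∀ i : Fin 4, i ∈ all4 := by decide
  have sq : ∀ i j, ((M.bil (M.om i) (M.om j) : ℤ) : ℝ) ^ 2 = (M.bil (M.om i) (M.om i) : ℤ) *
      (M.bil (M.om j) (M.om j) : ℤ) * (b.u i ⬝ᵥ b.u j) ^ 2 := fun i j => by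
    rw [← h1, (h5 i).2, (h5 j).2, smul_dotProduct, dotProduct_smul, smul_eq_mul, smul_eq_mul,
      mul_pow, mul_pow, Real.sq_sqrt (by exact_mod_cast (h5 i).1.le),
      Real.sq_sqrt (by exact_mod_cast (h5 j).1.le), mul_assoc]
  have hi : M.iso σ = true := by
    simp only [Model.iso, List.all_eq_true, decide_eq_true_eq]
    intro i _ j _
    refine Int.cast_injective (α := ℝ) ?_
    push_cast
    rw [sq i j, sq (σ i) (σ j), hσ]
    ring
  refine ⟨hi, fun st hc i ⟨p, hp, e⟩ => ?_⟩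
  have e4 : get4 (σ 0, σ 1, σ 2, σ 3) = σ := funext fun i => by fin_cases i <;> rfl
  simp only [Model.chkC, List.all_eq_true] at hc
  have h := hc (σ 0) (all _) (σ 1) (all _) (σ 2) (all _) (σ 3) (all _)
  rw [e4, hi] at h
  simp only [Bool.not_true, Bool.false_or, List.all_eq_true, List.any_eq_true,
    decide_eq_true_eq] at h
  obtain ⟨q, hq, e'⟩ := h p hp
  exact ⟨q, hq, e ▸ e'⟩

end Pool.Agent.P.MP_8ecd01_al.R4
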