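import Pool.Agent.P.MP_8ecd01_al.R4.Gr

/-!
Simplices, vertices, symmetries, the cone over a subset of the spherical building, small tools.
-/

namespace Pool.Agent.P.MP_8ecd01_al.R4

open Matrix Module

variable {n : ℕ} {R : RootSystem n} {B : Building R}

/-- The level set of a family. -/
def Lev (A : Set B.X) : Set B.X := {y | ∀ a ∈ A, -1 ≤ ip y a}

/-- The part of a parallel set orthogonal to a space of central elements. -/
def KW (c : Ch B) (w : Fin n → ℝ) (W : Submodule ℝ (Fin n → ℝ)) : Set B.X :=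
  {y | y ∈ Par c w ∧ ∀ ψ ∈ W, ip y (mk c ψ) = 0}

/-- The cone over the closed simplex of `x`. -/
def Sx (x : B.X) : Set B.X := {y | ∃ c w φ, x = mk c w ∧ Comono R w φ ∧ y = mk c φ}

/-- Unit vertices of type `i`. -/
def IsV (b : Base R) (i : Fin n) (x : B.X) : Prop := ∃ c, x = mk c (b.u i)

/-- The unit points of root type of `K` without antipode in `K`. -/
def Rt (K : Set B.X) : Set B.X :=
  {x | x ∈ K ∧ ¬ Ant K x ∧ ∃ c v, RD R v ∧ v ⬝ᵥ v = 1 ∧ x = mk c v}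

/-- A group of symmetries of the cone which preserves `K`. -/
structure Sym (G : Set (B.X → B.X)) (K : Set B.X) : Prop where
  ip_eq : ∀ g ∈ G, ∀ x y, ip (g x) (g y) = ip x y
  simp : ∀ g ∈ G, ∀ x, ∃ y, g '' Sx x = Sx y
  maps : ∀ g ∈ G, ∀ x ∈ K, g x ∈ K
  inv : ∀ g ∈ G, ∃ h ∈ G, ∀ x, g (h x) = x ∧ h (g x) = x
  comp : ∀ g ∈ G, ∀ h ∈ G, g ∘ h ∈ G
  one : id ∈ G

/-- No nonzero point of `K` is fixed. -/
def NoFix (G : Set (B.X → B.X)) (K : Set B.X) : Prop := ¬ ∃ c ∈ K, c ≠ zero ∧ ∀ g ∈ G, g c = c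

/-- All points of `K` with coordinates `f` have an antipode in `K`. -/
def Forb (K : Set B.X) (f : Fin n → ℝ) : Prop := ∀ c : Ch B, mk c f ∈ K → Ant K (mk c f)

/-- `g` permutes the types of vertices by `σ`. -/
def Act (b : Base R) (g : B.X → B.X) (σ : Equiv.Perm (Fin n)) : Prop :=
  ∀ c, ∃ d, ∀ t : Fin n → ℝ, (∀ i, 0 ≤ t i) →
    g (mk c (∑ i, t i • b.u i)) = mk d (∑ i, t i • b.u (σ i))

/-- The class `C` of types of vertices is preserved. -/
def Clo (b : Base R) (G : Set (B.X → B.X)) (C : Set (Fin n)) : Prop :=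
  ∀ g ∈ G, ∀ i ∈ C, ∀ x, IsV b i x → ∃ j ∈ C, IsV b j (g x)

variable (R) in
/-- Properties of directions up to the Weyl group. -/
structure Inv (P : (Fin n → ℝ) → Prop) : Prop where
  zero : P 0
  map : ∀ g ∈ R.W, ∀ v, P v → P (g v)
  smul : ∀ s : ℝ, 0 < s → ∀ v, P v → P (s • v)

def Hit2 (P : (Fin n → ℝ) → Prop) (v u : Fin n → ℝ) : Prop :=
  ∃ s t : ℝ, 0 ≤ s ∧ 0 ≤ t ∧ 0 < s + t ∧ P (s • v + t • u)

def Hit3 (P : (Fin n → ℝ) → Prop) (v u z : Fin n → ℝ) : Prop :=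
  ∃ r s t : ℝ, 0 ≤ r ∧ 0 ≤ s ∧ 0 ≤ t ∧ 0 < r + s + t ∧ P (r • v + (s • u + t • z))

/-- Two vertices with types in `C` are close or span a forbidden direction. -/
def CondJ (b : Base R) (P : (Fin n → ℝ) → Prop) (C : Set (Fin n)) : Prop :=
  ∀ i ∈ C, ∀ j ∈ C, ∀ v, b.Ty j v → -1 ≤ n * (b.u i ⬝ᵥ v) ∨ Hit2 P (b.u i) v

/-- The same up to hexagonal pairs, with a condition on flat triangles. -/
def CondH (b : Base R) (P : (Fin n → ℝ) → Prop) (C : Set (Fin n)) : Prop :=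
  (∀ i ∈ C, ∀ j ∈ C, ∀ v, b.Ty j v → -1 < 4 * (b.u i ⬝ᵥ v) ∨ Hit2 P (b.u i) v ∨
    (2 * (b.u i ⬝ᵥ v) = -1 ∧ ∃ k ∈ C, b.Ty k (b.u i + v))) ∧
  ∀ i ∈ C, ∀ j ∈ C, ∀ k ∈ C, ∀ v z, b.Ty j v → b.Ty k z → 2 * (b.u i ⬝ᵥ v) = 1 →
    2 * (b.u i ⬝ᵥ z) = -1 → -1 ≤ 2 * (v ⬝ᵥ z) → 4 * (v ⬝ᵥ z) ≤ -1 →
    2 * (v ⬝ᵥ z) = -1 ∧ Hit3 P (b.u i) v z

/-- The spherical building as the unit sphere of the cone. -/
def emb (s : Delta B) : B.X := s.1

/-- The cone over a subset of the spherical building. -/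
def CS (S : Set (Delta B)) : Set B.X :=
  {x | x = zero ∨ ∃ r : ℝ, 0 < r ∧ ∃ s ∈ S, x = smul r (emb s)}

open Classical in
/-- The extension of a permutation of the spherical building to the cone. -/
noncomputable def lift (β : Equiv.Perm (Delta B)) (x : B.X) : B.X :=
  if h : ∃ p : ℝ × Delta B, 0 < p.1 ∧ x = smul p.1 (emb p.2) then
    smul h.choose.1 (emb (β h.choose.2)) else x

theorem IsAut.one : IsAut (1 : Equiv.Perm (Delta B)) := ⟨fun _ _ => rfl, fun σ => by simp⟩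

theorem IsAut.mul {β γ : Equiv.Perm (Delta B)} (h : IsAut β) (h' : IsAut γ) :
    IsAut (β * γ) :=
  ⟨fun x y => (h.1 _ _).trans (h'.1 _ _), fun σ => by
    rw [Equiv.Perm.coe_mul, Set.image_comp, h.2, h'.2]⟩

theorem IsAut.inv {β : Equiv.Perm (Delta B)} (h : IsAut β) : IsAut β⁻¹ := by
  refine ⟨fun x y => ?_, fun σ => ?_⟩
  · rw [← h.1]
    simp
  · rw [← h.2, ← Set.image_comp]
    simp

theorem isV_iff {b : Base R} {i : Fin n} {c : Ch B} {v : Fin n → ℝ} :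
    IsV b i (mk c v) ↔ b.Ty i v := by
  constructor
  · rintro ⟨d, h⟩
    exact typ h.symm
  · rintro ⟨g, hg, rfl⟩
    exact ⟨cw c hg, rfl⟩

theorem Base.Ty.unit {b : Base R} {i : Fin n} {v : Fin n → ℝ} (h : b.Ty i v) : v ⬝ᵥ v = 1 := by
  obtain ⟨g, hg, rfl⟩ := h
  rw [W_dot hg, b.u_unit]

theorem Base.Ty.map {b : Base R} {i : Fin n} {v : Fin n → ℝ} (h : b.Ty i v)
    {g : (Fin n → ℝ) ≃ₗ[ℝ] (Fin n → ℝ)} (hg : g ∈ R.W) : b.Ty i (g v) := by
  obtain ⟨g', hg', rfl⟩ := h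
  exact ⟨g * g', mul_mem hg hg', rfl⟩

theorem Base.ty_u (b : Base R) (i : Fin n) : b.Ty i (b.u i) := ⟨1, one_mem _, rfl⟩

theorem IsV.unit {b : Base R} {i : Fin n} {x : B.X} (h : IsV b i x) : ip x x = 1 := by
  obtain ⟨c, rfl⟩ := h
  rw [ip_mk, b.u_unit]

theorem mem_Sx [COX R] {c : Ch B} {w : Fin n → ℝ} {y : B.X} :
    y ∈ Sx (mk c w) ↔ ∃ φ, Comono R w φ ∧ y = mk c φ := by
  refine ⟨fun ⟨d, v, φ, h1, h2, h3⟩ => ?_, fun ⟨φ, h1, h2⟩ => ⟨c, w, φ, rfl, h1, h2⟩⟩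
  obtain ⟨g, hg, rfl⟩ := typ h1.symm
  exact ⟨g φ, h2.map hg, h3.trans (mk_comp (b := cw c hg) h1.symm h2)⟩

theorem self_mem_Sx (x : B.X) : x ∈ Sx x := by
  obtain ⟨c, w, rfl⟩ := exists_mk x
  exact ⟨c, w, w, rfl, Comono.refl w, rfl⟩

theorem Act.single {b : Base R} {g : B.X → B.X} {σ : Equiv.Perm (Fin n)} (h : Act b g σ)
    (c : Ch B) : ∃ d, ∀ i, g (mk c (b.u i)) = mk d (b.u (σ i)) := by
  obtain ⟨d, hd⟩ := h c
  refine ⟨d, fun i => ?_⟩
  have := hd (Pi.single i 1) fun j => by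
    rw [Pi.single_apply]
    split_ifs <;> norm_num
  simpa [Pi.single_apply] using this

theorem Act.dot {b : Base R} {G : Set (B.X → B.X)} {K : Set B.X} (hG : Sym G K)
    {g : B.X → B.X} (hg : g ∈ G) {σ : Equiv.Perm (Fin n)} (h : Act b g σ) (i j : Fin n) :
    b.u (σ i) ⬝ᵥ b.u (σ j) = b.u i ⬝ᵥ b.u j := by
  obtain ⟨d, hd⟩ := h.single (std B)
  rw [← ip_mk d, ← hd, ← hd, hG.ip_eq g hg, ip_mk]

theorem Act.isV {b : Base R} {g : B.X → B.X} {σ : Equiv.Perm (Fin n)} (h : Act b g σ)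
    {i : Fin n} {x : B.X} (hx : IsV b i x) : IsV b (σ i) (g x) := by
  obtain ⟨c, rfl⟩ := hx
  obtain ⟨d, hd⟩ := h.single c
  exact ⟨d, hd i⟩

theorem finT_isV [COX R] (b : Base R) : FinT {x : B.X | ∃ i, IsV b i x} :=
  finT_of' (Set.finite_range b.u) fun _ ⟨i, c, h⟩ => ⟨c, _, h, i, rfl⟩

theorem Top.mono {K L : Set B.X} (h : Top K) (hs : K ⊆ L) : Top L := by
  obtain ⟨b, w, h⟩ := h
  exact ⟨b, w, fun ψ h' => h ψ fun φ e1 e2 => h' φ e1 (hs e2)⟩

theorem Wide.mono {K A C : Set B.X} (h : Wide K A) (hs : A ⊆ C) : Wide K C :=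
  fun y hy h' => h y hy fun a ha => h' a (hs ha)

theorem KW_congr {c d : Ch B} {w : Fin n → ℝ} {W : Submodule ℝ (Fin n → ℝ)} (h : Apt c w d)
    (hW : ∀ ψ ∈ W, Blk R w ψ) : KW d w W = KW c w W := by
  ext y
  unfold KW
  rw [par_congr h]
  exact and_congr_right fun _ => forall₂_congr fun ψ hψ => by rw [h ψ (hW ψ hψ)]

variable [COX R] [API B]

theorem cone_KW (c : Ch B) {w : Fin n → ℝ} {W : Submodule ℝ (Fin n → ℝ)}
    (hW : ∀ ψ ∈ W, Blk R w ψ) : Cone (KW c w W) := by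
  refine ⟨?_, ⟨(cone_par c w).zero_mem, fun _ _ => ip_zero_left _⟩, fun x hx y hy =>
    ⟨par_add hx.1 hy.1, fun ψ hψ => ?_⟩, fun r hr x hx => ⟨par_smul hr hx.1, fun ψ hψ => ?_⟩⟩
  · have : KW c w W = Par c w ∩ ⋂ ψ ∈ W, {y | ip y (mk c ψ) = 0} := by
      ext y
      simp [KW]
    rw [this]
    exact (cone_par c w).closed.inter (isClosed_biInter fun ψ _ =>
      isClosed_eq (continuous_ip_left _) continuous_const)
  · rw [ip_central_add (hW ψ hψ) hx.1 hy.1, hx.2 ψ hψ, hy.2 ψ hψ, add_zero]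
  · rw [ip_smul_left hr, hx.2 ψ hψ, mul_zero]

/-- Sets cut out by lower bounds on inner products are closed and convex. -/
theorem closed_ge (A : Set B.X) (κ : B.X → ℝ) :
    _root_.IsClosed {y | ∀ a ∈ A, κ a ≤ ip y a} := by
  have : {y | ∀ a ∈ A, κ a ≤ ip y a} = ⋂ a ∈ A, {y | κ a ≤ ip y a} := by
    ext y
    simp
  rw [this]
  exact isClosed_biInter fun a _ => isClosed_le continuous_const (continuous_ip_left a)

theorem cvx_ge (A : Set B.X) (κ : B.X → ℝ) : Cvx {y | ∀ a ∈ A, κ a ≤ ip y a} := by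
  intro x hx y hy t h0 h1 a ha
  have h := ip_add_ge (smul (1 - t) x) (smul t y) a
  rw [ip_smul_left (by linarith), ip_smul_left h0] at h
  nlinarith [hx a ha, hy a ha]

theorem abs_ip_le (x y : B.X) : |ip x y| ≤ √(ip x x) * √(ip y y) := by
  rw [← Real.sqrt_mul (ip_self_nonneg x)]
  exact Real.abs_le_sqrt (ip_sq_le x y)

theorem gr_smul (c : Ch B) (w : Fin n → ℝ) {r : ℝ} (hr : 0 ≤ r) (a : B.X) :
    gr c w (smul r a) = smul r (gr c w a) := by
  obtain ⟨d, α, h1, rfl⟩ := cb0 c w a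
  obtain ⟨d', -, h3, -⟩ := gr_basis h1
  rw [smul_mk _ _ hr, h3, h3, smul_mk _ _ hr]

theorem gr_add_base (c : Ch B) (w : Fin n → ℝ) {r : ℝ} (hr : 0 ≤ r) (a : B.X) :
    gr c w (add (smul r (mk c w)) a) = add (smul r (mk c w)) (gr c w a) := by
  obtain ⟨d, α, h1, rfl⟩ := cb0 c w a
  obtain ⟨d', h2, h3, -⟩ := gr_basis h1
  conv_lhs => rw [← h1, smul_mk _ _ hr, add_mk]
  rw [h3, h3, ← h2 w (Blk.refl w), smul_mk _ _ hr, add_mk]

/-- If the projection keeps the inner product of two points, it is additive on them. -/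
theorem gr_flat (c : Ch B) (w : Fin n → ℝ) {x y : B.X}
    (h : ip (gr c w x) (gr c w y) ≤ ip x y) : gr c w (add x y) = add (gr c w x) (gr c w y) := by
  refine eq_of_d2 ?_
  have h1 := ip_add_ge' (gr c w x) (gr c w y) (gr c w (add x y))
  have h2 := ip_le_gr c w (add x y) x
  have h3 := ip_le_gr c w (add x y) y
  rw [ip_add_left_self, ip_comm y x] at h2
  rw [ip_add_right_self] at h3
  unfold d2
  rw [ip_gr_self, ip_add_add, ip_add_add, ip_gr_self, ip_gr_self]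
  linarith

/-- The parallel set in terms of the inner product. -/
theorem mem_par_iff {c : Ch B} {w : Fin n → ℝ} {x : B.X} :
    x ∈ Par c w ↔ ip (mk c w) x + ip (mk c (-w)) x = 0 := by
  refine ⟨fun h => by rw [ip_central_neg (Blk.refl w) h, add_neg_cancel], fun h => ?_⟩
  obtain ⟨ε, h0, h1⟩ := gr_germ c w x
  have h2 := add_central_cancel (Blk.refl w) (par_smul h0.le (gr_mem c w x))
  rw [← h1 ε h0 le_rfl] at h2
  have h3 := ip_add_ge (add (mk c w) (smul ε x)) (mk c (-w)) (smul ε x)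
  rw [h2, ip_add_right_self] at h3
  simp only [ip_smul_left h0.le, ip_smul_right h0.le] at h3
  have h4 : gr c w x = x := eq_of_d2 (by
    unfold d2
    rw [ip_gr_self]
    have h5 : ε * (ε * ip x x) ≤ ε * (ε * ip (gr c w x) x) := by
      have := congrArg (ε * ·) h
      simp only [mul_add, mul_zero] at this
      linarith
    linarith [le_of_mul_le_mul_left (le_of_mul_le_mul_left h5 h0) h0])
  exact h4 ▸ gr_mem c w x

/-- An antipode of the projection inside the parallel set is an antipode. -/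
theorem ant_of_gr {c : Ch B} {w : Fin n → ℝ} {p q : B.X} (hq : q ∈ Par c w)
    (h : add (gr c w p) q = zero) : add p q = zero := by
  obtain ⟨h1, h2⟩ := ip_of_add_eq_zero h
  have h3 := ip_le_gr c w p q
  rw [gr_id hq, h1, ip_gr_self] at h3
  exact add_eq_zero_of_ip (by rw [h2, ip_gr_self]) h3

omit [COX R] in
theorem Ant.smul {K : Set B.X} (hK : Cone K) {p : B.X} (h : Ant K p) {r : ℝ} (hr : 0 ≤ r) :
    Ant K (smul r p) := by
  obtain ⟨q, hq, h⟩ := h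
  exact ⟨_, hK.smul_mem r hr q hq, by rw [← smul_add' hr, h, smul_zero' hr]⟩

omit [COX R] in
theorem Ant.of_smul {K : Set B.X} (hK : Cone K) {p : B.X} {r : ℝ} (hr : 0 < r)
    (h : Ant K (R4.smul r p)) : Ant K p := by
  have := h.smul hK (inv_pos.2 hr).le
  rwa [smul_smul' (inv_pos.2 hr).le hr.le, inv_mul_cancel₀ hr.ne', one_smul'] at this

omit [COX R] in
theorem inv_forb {K : Set B.X} (hK : Cone K) : Inv R (Forb K) := by
  refine ⟨fun c _ => ⟨zero, hK.zero_mem, by rw [add_zero', mk_zero]⟩,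
    fun g hg v h c hc => h (cw c hg) hc, fun s hs v h c hc => ?_⟩
  have h1 := hK.smul_mem s⁻¹ (inv_pos.2 hs).le _ hc
  rw [smul_mk _ _ (inv_pos.2 hs).le, smul_smul, inv_mul_cancel₀ hs.ne', one_smul] at h1
  rw [← smul_mk _ _ hs.le]
  exact (h c h1).smul hK hs.le

/-- The projection keeps the type of a point. -/
theorem Forb.ant_gr {K : Set B.X} (hK : Cone K) {f : Fin n → ℝ} (h : Forb K f) {x : B.X}
    (hx : x ∈ K) {c d : Ch B} {w : Fin n → ℝ} (e : gr c w x = mk d f) : Ant K x := by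
  obtain ⟨d1, d2, α, -, -, rfl, h1, -⟩ := gr_type c w x
  obtain ⟨g, hg, rfl⟩ := typ (e.symm.trans h1)
  exact (inv_forb hK).map g hg f h d1 hx

theorem IsV.gr {b : Base R} {i : Fin n} {x : B.X} (h : IsV b i x) (c : Ch B) (w : Fin n → ℝ) :
    IsV b i (gr c w x) := by
  obtain ⟨d1, d2, α, -, -, rfl, h1, -⟩ := gr_type c w x
  rw [h1]
  exact isV_iff.2 (isV_iff.1 h)

end Pool.Agent.P.MP_8ecd01_al.R4
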